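import Mathlib

/-!
# MP_44129c_co/G, module Defs (helper29; FIXED, proved)

Part (1) of the full answer: existence of a good pair (`GP`, see module `Pair`).

Positions `x : ι` have finite option sets `O x`.  `Att O X a y`: the value `y` is the sum of one
option of each of `a` positions of `X`.  `Fill O H P X a`: modulo the subgroup `H` these sums
contain a full coset of the subgroup `P`.  `Pur O q P x`: all options of `x` are in `q + P`;
`np O q P X` is the number of positions of `X` which are not pure.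
-/

set_option autoImplicit false

namespace ZS44129
namespace G

open Finset

variable {ι A : Type*} [AddCommGroup A]

/-- all options of the position `x` lie in the coset `q + P`. -/
def Pur (O : ι → Finset A) (q : A) (P : AddSubgroup A) (x : ι) : Prop := ∀ o ∈ O x, o - q ∈ P

open Classical in
/-- number of positions of `X` with an option outside `q + P`. -/
noncomputable def np (O : ι → Finset A) (q : A) (P : AddSubgroup A) (X : Finset ι) : ℕ :=
  (X.filter (fun x => ¬ Pur O q P x)).card

/-- `y` is a sum of options of `a` positions of `X`. -/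
def Att (O : ι → Finset A) (X : Finset ι) (a : ℕ) (y : A) : Prop :=
  ∃ T ⊆ X, T.card = a ∧ ∃ f : ι → A, (∀ x ∈ T, f x ∈ O x) ∧ ∑ x ∈ T, f x = y

/-- modulo `H`, the sums of options of `a` positions of `X` contain a coset of `P`. -/
def Fill (O : ι → Finset A) (H P : AddSubgroup A) (X : Finset ι) (a : ℕ) : Prop :=
  ∃ z : A, ∀ p ∈ P, ∃ y, Att O X a y ∧ y - (z + p) ∈ H

/-- `S` (with `a` kept positions) fills `P` modulo `H`, all positions of `S` are pure in `r + P`,
and the sizes are as small as possible (multiplied by `|H|`; with `i = [P : H]`: `|S| ≤ 2(i-1)`,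
`a ≤ i-1`, `|S| - a ≤ i-1`). -/
structure Filled (O : ι → Finset A) (H P : AddSubgroup A) (r : A) (S : Finset ι) (a : ℕ) :
    Prop where
  le : H ≤ P
  pur : ∀ x ∈ S, Pur O r P x
  fill : Fill O H P S a
  s1 : (S.card + 2) * Nat.card H ≤ 2 * Nat.card P
  s2 : (a + 1) * Nat.card H ≤ Nat.card P
  s3 : (S.card + 1) * Nat.card H ≤ a * Nat.card H + Nat.card P

/-- `y` is, modulo `P`, a sum of elements of the sets `U i`, `i ∈ I`. -/
def Rea (P : AddSubgroup A) (U : ι → Finset A) (I : Finset ι) (y : A) : Prop :=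
  ∃ f : ι → A, (∀ i ∈ I, f i ∈ U i) ∧ y - ∑ i ∈ I, f i ∈ P

theorem Att.mono {O : ι → Finset A} {X Y : Finset ι} {a : ℕ} {y : A} (h : Att O X a y)
    (hXY : X ⊆ Y) : Att O Y a y := by
  obtain ⟨T, hT, hc, f, hf, hs⟩ := h
  exact ⟨T, hT.trans hXY, hc, f, hf, hs⟩

theorem Att.mono_opt {O O' : ι → Finset A} {X : Finset ι} {a : ℕ} {y : A} (h : Att O X a y)
    (hO : ∀ x ∈ X, O x ⊆ O' x) : Att O' X a y := by
  obtain ⟨T, hT, hc, f, hf, hs⟩ := h
  exact ⟨T, hT, hc, f, fun x hx => hO x (hT hx) (hf x hx), hs⟩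

theorem Att.add [DecidableEq ι] {O : ι → Finset A} {X Y : Finset ι} {a b : ℕ} {y z : A}
    (hX : Att O X a y) (hY : Att O Y b z) (hd : Disjoint X Y) :
    Att O (X ∪ Y) (a + b) (y + z) := by
  classical
  obtain ⟨T, hT, hc, f, hf, hs⟩ := hX
  obtain ⟨T', hT', hc', f', hf', hs'⟩ := hY
  have hdis : Disjoint T T' := Finset.disjoint_of_subset_left hT
    (Finset.disjoint_of_subset_right hT' hd)
  refine ⟨T ∪ T', Finset.union_subset_union hT hT', ?_, fun x => if x ∈ T then f x else f' x,
    ?_, ?_⟩
  · rw [Finset.card_union_of_disjoint hdis, hc, hc']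
  · intro x hx
    by_cases h : x ∈ T
    · simp only [h, if_true]; exact hf x h
    · simp only [h, if_false]
      rcases Finset.mem_union.1 hx with h1 | h1
      · exact absurd h1 h
      · exact hf' x h1
  · rw [Finset.sum_union hdis]
    congr 1
    · rw [← hs]
      exact Finset.sum_congr rfl (fun x hx => by simp [hx])
    · rw [← hs']
      refine Finset.sum_congr rfl (fun x hx => ?_)
      have : x ∉ T := fun h => (Finset.disjoint_left.1 hdis h) hx
      simp [this]

theorem Att.zero (O : ι → Finset A) (X : Finset ι) : Att O X 0 0 :=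
  ⟨∅, by simp, by simp, fun _ => 0, by simp, by simp⟩

theorem fill_bot (O : ι → Finset A) (H : AddSubgroup A) : Fill O H H ∅ 0 :=
  ⟨0, fun p hp => ⟨0, Att.zero O ∅, by
    have : (0 : A) - (0 + p) = -p := by abel
    rw [this]; exact H.neg_mem hp⟩⟩

/-- any number of positions has some sum. -/
theorem exists_att (O : ι → Finset A) (X : Finset ι) (hne : ∀ x ∈ X, (O x).Nonempty) (a : ℕ)
    (ha : a ≤ X.card) : ∃ y, Att O X a y := by
  classical
  obtain ⟨T, hT, hc⟩ := Finset.exists_subset_card_eq ha
  refine ⟨∑ x ∈ T, (if h : (O x).Nonempty then h.choose else 0), T, hT, hc, _, ?_, rfl⟩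
  intro x hx
  have h := hne x (hT hx)
  simp only [h, dif_pos]
  exact h.choose_spec

/-- a sum of `a` positions, all pure in `r + P`, is in `a r + P`. -/
theorem Att.pure {O : ι → Finset A} {X : Finset ι} {a : ℕ} {y r : A} {P : AddSubgroup A}
    (h : Att O X a y) (hp : ∀ x ∈ X, Pur O r P x) : y - a • r ∈ P := by
  obtain ⟨T, hT, hc, f, hf, hs⟩ := h
  have h1 : y - a • r = ∑ x ∈ T, (f x - r) := by
    rw [Finset.sum_sub_distrib, hs, Finset.sum_const, hc]
  rw [h1]
  exact P.sum_mem (fun x hx => hp x (hT hx) _ (hf x hx))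

theorem Rea.mono {P : AddSubgroup A} {U : ι → Finset A} {I J : Finset ι} {y : A}
    (h : Rea P U I y) (hIJ : I ⊆ J) (h0 : ∀ i ∈ J, (0 : A) ∈ U i) : Rea P U J y := by
  classical
  obtain ⟨f, hf, hs⟩ := h
  refine ⟨fun i => if i ∈ I then f i else 0, ?_, ?_⟩
  · intro i hi
    by_cases h : i ∈ I
    · simp only [h, if_true]; exact hf i h
    · simp only [h, if_false]; exact h0 i hi
  · have : ∑ i ∈ J, (if i ∈ I then f i else 0) = ∑ i ∈ I, f i := by
      rw [Finset.sum_ite, Finset.sum_const_zero, add_zero]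
      congr 1
      ext i
      simp only [Finset.mem_filter]
      exact ⟨fun h => h.2, fun h => ⟨hIJ h, h⟩⟩
    rw [this]; exact hs

end G
end ZS44129
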