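import Mathlib
import Pool.Agent.Work.MP_44129c_co.G.Defs

/-!
# MP_44129c_co/G, module Ext: filling lemmas (size M)

`A` finite abelian group, `U i` finite sets containing `0`, `Rea P U I y` (module Defs): `y` is in
`P + ∑_{i ∈ I} U i`.  Write `S(I) = {y : Rea P U I y}`; it is `P`-periodic and contains `P`.

## thin  (keep only the indices which enlarge the set)
Induction on `I` (`Finset.induction_on`).  `I = ∅`: `J = ∅`, `S = P`, so `(0+1)|P| ≤ |S|`.
`insert i I`: let `J` be the set for `I`, `S(I) = S(J)`, `St = {x : ∀ y ∈ S(I), y + x ∈ S(I)}`.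
If all `x ∈ U i` are in `St` then `S(insert i I) = S(I)` (`⊆` because `y - x` ... every element of
`S(insert i I)` is `y + x` with `y ∈ S(I)`, `x ∈ U i`; `⊇` because `0 ∈ U i`): keep `J`; an index
`i' ∈ insert i I \ J` is `i` or in `I \ J`, fine.  Otherwise some `x ∈ U i`, `y ∈ S(I)` with
`y + x ∉ S(I)`; the whole coset `y + x + P` is in `S(insert i I) \ S(I)`, so
`|S(insert i I)| ≥ |S(I)| + |P|`; take `insert i J` (`S(insert i J) = S(insert i I)` as both are
`S(I) + U i`).  The last clause for an index `i' ∈ I \ J`: `U i'` stabilises `S(I)`, hence also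
`S(insert i I) = S(I) + U i`.

## full_of_outside
`S := S(I) ⊆ H` (as `P ≤ H`, `U i ⊆ H`), `St := {x : ∀ y, Rea P U I y → Rea P U I (y + x)}` is a
subgroup (finite group: closed under addition, contains `0`; for inverses use that the map
`y ↦ y + x` is injective on the finite set `S`, hence bijective), `P ≤ St`, `St ⊆ S` (`0 ∈ S`), so
`St ≤ H`.  If `St = H` then `S = H`.  Suppose `St < H`.  Apply `thin` with `St` in place of `P`
(`Rea St U I y ↔ Rea P U I y`, since `S` is `St`-periodic): `J` with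
`(|J| + 1)|St| ≤ |S|`, and every `i ∈ I` with `U i ⊄ St` is in `J` (if `i ∉ J` then `U i`
stabilises `S`, i.e. `U i ⊆ St`).  `S ≠ H` (otherwise every `h ∈ H` stabilises `S`), both are
unions of cosets of `St`, so `|S| ≤ |H| - |St|`: `(|{i ∈ I : U i ⊄ St}| + 2)|St| ≤ |H|`,
contradicting the hypothesis for `L = St`.  So `S = H`, and `thin` (for `P`) gives `J`.

## ext_lemma
Among the subgroups `L` with `P < L ≤ Top` and `(ν(L) + 1)|L| ≤ |Top|`,
`ν(L) = |{i ∈ I : U i ⊄ L}|`, (`Top` is one, `ν(Top) = 0`) choose one, `H1`, with `Nat.card`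
minimal.  `I1 = {i ∈ I : U i ⊆ H1}`, `ν = ν(H1) = |I| - |I1|`.  Apply `full_of_outside` to `H1`,
`I1`:
* `L = P`: all `i ∈ I1` are outside; need `|H1| ≤ (|I1| + 1)|P|`:
  `(|I| + 1)|P| - ν|P| ≥ |Top| - ν|P| ≥ (ν+1)|H1| - ν|P| ≥ |H1|`.
* `P < L < H1`: by minimality `(ν(L) + 1)|L| > |Top|`.  Let `n1 = |{i ∈ I1 : U i ⊄ L}|`,
  `ν(L) ≤ ν + n1`.  If `(n1 + 1)|L| < |H1|` then `(n1 + 2)|L| ≤ |H1|` (`|L|` divides `|H1|`);
  with `|Top| = a|H1|`, `|H1| = b|L|`, `b ≥ 2`, `ν + 1 ≤ a`, `n1 + 2 ≤ b`:
  `ν(L) + 1 ≤ (a - 1) + (b - 2) + 1 ≤ ab`, so `(ν(L) + 1)|L| ≤ |Top|`, contradiction.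
-/

set_option autoImplicit false

namespace ZS44129
namespace G

open Finset

variable {ι A : Type} [AddCommGroup A] [Finite A]

omit [Finite A] in
private theorem rea_of_mem {P : AddSubgroup A} {U : ι → Finset A} {I : Finset ι}
    (h0 : ∀ i ∈ I, (0 : A) ∈ U i) {y : A} (hy : y ∈ P) : Rea P U I y :=
  ⟨fun _ => 0, h0, by rw [Finset.sum_const_zero, sub_zero]; exact hy⟩

omit [Finite A] in
private theorem rea_add {P : AddSubgroup A} {U : ι → Finset A} {I : Finset ι} {y p : A}
    (h : Rea P U I y) (hp : p ∈ P) : Rea P U I (y + p) := by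
  obtain ⟨f, hf, hs⟩ := h
  refine ⟨f, hf, ?_⟩
  have e : y + p - ∑ i ∈ I, f i = (y - ∑ i ∈ I, f i) + p := by abel
  rw [e]
  exact P.add_mem hs hp

omit [Finite A] in
private theorem rea_insert [DecidableEq ι] {P : AddSubgroup A} {U : ι → Finset A} {I : Finset ι}
    {i : ι} (hi : i ∉ I) {y : A} :
    Rea P U (insert i I) y ↔ ∃ x ∈ U i, Rea P U I (y - x) := by
  constructor
  · rintro ⟨f, hf, hs⟩
    refine ⟨f i, hf i (Finset.mem_insert_self i I), f,
      fun j hj => hf j (Finset.mem_insert_of_mem hj), ?_⟩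
    rw [Finset.sum_insert hi] at hs
    rwa [sub_sub]
  · rintro ⟨x, hx, f, hf, hs⟩
    have hne : ∀ j ∈ I, j ≠ i := fun j hj h => hi (h ▸ hj)
    refine ⟨fun j => if j = i then x else f j, ?_, ?_⟩
    · intro j hj
      by_cases h : j = i
      · simp only [h, if_true]
        exact hx
      · simp only [h, if_false]
        exact hf j ((Finset.mem_insert.1 hj).resolve_left h)
    · rw [Finset.sum_insert hi, if_pos rfl,
        Finset.sum_congr rfl (fun j hj => if_neg (hne j hj)), ← sub_sub]
      exact hs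

omit [Finite A] in
private theorem rea_le {P H : AddSubgroup A} {U : ι → Finset A} {I : Finset ι} {y : A}
    (hPH : P ≤ H) (hU : ∀ i ∈ I, ∀ x ∈ U i, x ∈ H) (h : Rea P U I y) : y ∈ H := by
  obtain ⟨f, hf, hs⟩ := h
  have h1 : ∑ i ∈ I, f i ∈ H := H.sum_mem fun i hi => hU i hi _ (hf i hi)
  have h2 := H.add_mem (hPH hs) h1
  rwa [sub_add_cancel] at h2

theorem thin (P : AddSubgroup A) (U : ι → Finset A) (I : Finset ι)
    (h0 : ∀ i ∈ I, (0 : A) ∈ U i) :
    ∃ J ⊆ I, (∀ y, Rea P U I y → Rea P U J y) ∧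
      (J.card + 1) * Nat.card P ≤ Nat.card {y : A // Rea P U I y} ∧
      ∀ i ∈ I, i ∉ J → ∀ x ∈ U i, ∀ y, Rea P U I y → Rea P U I (y + x) := by
  classical
  induction I using Finset.induction_on with
  | empty =>
    refine ⟨∅, subset_rfl, fun y hy => hy, ?_, fun i hi => absurd hi (Finset.notMem_empty i)⟩
    rw [Finset.card_empty, zero_add, one_mul]
    apply Nat.card_le_card_of_injective
      (fun p : P => (⟨(p : A), rea_of_mem (by simp) p.2⟩ : {y : A // Rea P U ∅ y}))
    intro p p' h
    have h1 := congrArg Subtype.val h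
    exact Subtype.ext h1
  | insert i I hi ih =>
    obtain ⟨J, hJI, hJ1, hJ2, hJ3⟩ := ih (fun j hj => h0 j (Finset.mem_insert_of_mem hj))
    have hiJ : i ∉ J := fun h => hi (hJI h)
    by_cases hc : ∀ x ∈ U i, ∀ y, Rea P U I y → Rea P U I (y + x)
    · have hiff : ∀ y, Rea P U (insert i I) y ↔ Rea P U I y := by
        intro y
        constructor
        · intro h
          obtain ⟨x, hx, h1⟩ := (rea_insert hi).1 h
          have h2 := hc x hx _ h1
          rwa [sub_add_cancel] at h2
        · intro h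
          exact h.mono (Finset.subset_insert i I) h0
      have hset : (fun y => Rea P U (insert i I) y) = fun y => Rea P U I y :=
        funext fun y => propext (hiff y)
      refine ⟨J, hJI.trans (Finset.subset_insert i I), fun y hy => hJ1 y ((hiff y).1 hy), ?_, ?_⟩
      · have e : Nat.card {y : A // Rea P U (insert i I) y} = Nat.card {y : A // Rea P U I y} :=
          congrArg (fun q : A → Prop => Nat.card {y : A // q y}) hset
        rw [e]
        exact hJ2
      · intro j hj hjJ x hx y hy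
        rw [hiff] at hy ⊢
        rcases Finset.mem_insert.1 hj with h | h
        · subst h
          exact hc x hx y hy
        · exact hJ3 j h hjJ x hx y hy
    · push Not at hc
      obtain ⟨x, hx, y, hy, hxy⟩ := hc
      refine ⟨insert i J, Finset.insert_subset_insert i hJI, ?_, ?_, ?_⟩
      · intro z hz
        obtain ⟨x', hx', h1⟩ := (rea_insert hi).1 hz
        exact (rea_insert hiJ).2 ⟨x', hx', hJ1 _ h1⟩
      · rw [Finset.card_insert_of_notMem hiJ, add_mul (J.card + 1) 1, one_mul]
        refine (Nat.add_le_add_right hJ2 _).trans ?_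
        rw [← Nat.card_sum]
        have hm : ∀ z, Rea P U I z → Rea P U (insert i I) z := fun z hz =>
          hz.mono (Finset.subset_insert i I) h0
        have hm2 : ∀ p ∈ P, Rea P U (insert i I) (y + x + p) := by
          intro p hp
          refine (rea_insert hi).2 ⟨x, hx, ?_⟩
          have e : y + x + p - x = y + p := by abel
          rw [e]
          exact rea_add hy hp
        have hno : ∀ p ∈ P, ¬ Rea P U I (y + x + p) := by
          intro p hp h
          apply hxy
          have h1 := rea_add h (P.neg_mem hp)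
          rwa [add_neg_cancel_right] at h1
        apply Nat.card_le_card_of_injective
          (fun w : {y : A // Rea P U I y} ⊕ P => (match w with
            | Sum.inl z => ⟨z.1, hm z.1 z.2⟩
            | Sum.inr p => ⟨y + x + p.1, hm2 p.1 p.2⟩ : {y : A // Rea P U (insert i I) y}))
        rintro (z | p) (z' | p') h
        · have := congrArg Subtype.val h
          exact congrArg Sum.inl (Subtype.ext this)
        · have h1 : z.1 = y + x + p'.1 := congrArg Subtype.val h
          exact absurd (h1 ▸ z.2) (hno p'.1 p'.2)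
        · have h1 : y + x + p.1 = z'.1 := congrArg Subtype.val h
          exact absurd (h1.symm ▸ z'.2) (hno p.1 p.2)
        · have h1 : y + x + p.1 = y + x + p'.1 := congrArg Subtype.val h
          exact congrArg Sum.inr (Subtype.ext (add_left_cancel h1))
      · intro j hj hjJ x' hx' z hz
        rw [Finset.mem_insert, not_or] at hjJ
        have hjI := (Finset.mem_insert.1 hj).resolve_left hjJ.1
        obtain ⟨w, hw, h1⟩ := (rea_insert hi).1 hz
        refine (rea_insert hi).2 ⟨w, hw, ?_⟩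
        have e : z + x' - w = z - w + x' := by abel
        rw [e]
        exact hJ3 j hjI hjJ.2 x' hx' _ h1

open Classical in
theorem full_of_outside (P H : AddSubgroup A) (hPH : P ≤ H) (U : ι → Finset A) (I : Finset ι)
    (h0 : ∀ i ∈ I, (0 : A) ∈ U i) (hU : ∀ i ∈ I, ∀ x ∈ U i, x ∈ H)
    (hout : ∀ L : AddSubgroup A, P ≤ L → L < H →
      Nat.card H ≤ ((I.filter (fun i => ¬ ∀ x ∈ U i, x ∈ L)).card + 1) * Nat.card L) :
    ∃ J ⊆ I, (J.card + 1) * Nat.card P ≤ Nat.card H ∧ ∀ y ∈ H, Rea P U J y := by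
  let St : AddSubgroup A :=
    { carrier := {x | ∀ y, Rea P U I y → Rea P U I (y + x)}
      zero_mem' := fun y hy => by rw [add_zero]; exact hy
      add_mem' := by
        intro a b ha hb y hy
        rw [← add_assoc]
        exact hb _ (ha y hy)
      neg_mem' := by
        intro x hx
        have hn : ∀ n : ℕ, ∀ y, Rea P U I y → Rea P U I (y + n • x) := by
          intro n
          induction n with
          | zero => intro y hy; rw [zero_smul, add_zero]; exact hy
          | succ n ih =>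
            intro y hy
            rw [succ_nsmul, ← add_assoc]
            exact hx _ (ih y hy)
        have he : -x = (addOrderOf x - 1) • x := by
          rw [neg_eq_iff_add_eq_zero]
          have h1 : addOrderOf x = (addOrderOf x - 1) + 1 :=
            (Nat.sub_add_cancel (addOrderOf_pos x)).symm
          have h2 := addOrderOf_nsmul_eq_zero x
          rw [h1, succ_nsmul, add_comm] at h2
          exact h2
        intro y hy
        rw [he]
        exact hn _ y hy }
  have hSt : ∀ x, x ∈ St ↔ ∀ y, Rea P U I y → Rea P U I (y + x) := fun x => Iff.rfl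
  have hPSt : P ≤ St := fun p hp y hy => rea_add hy hp
  have hStS : ∀ x ∈ St, Rea P U I x := by
    intro x hx
    have h1 := (hSt x).1 hx 0 (rea_of_mem h0 P.zero_mem)
    rwa [zero_add] at h1
  have hSH : ∀ y, Rea P U I y → y ∈ H := fun y hy => rea_le hPH hU hy
  have hStH : St ≤ H := fun x hx => hSH x (hStS x hx)
  have hSleH : Nat.card {y : A // Rea P U I y} ≤ Nat.card H := by
    apply Nat.card_le_card_of_injective
      (fun y : {y : A // Rea P U I y} => (⟨y.1, hSH y.1 y.2⟩ : H))
    intro y y' h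
    have h1 := congrArg Subtype.val h
    exact Subtype.ext h1
  have hfull : St = H := by
    by_contra hne
    have hlt : St < H := lt_of_le_of_ne hStH hne
    have hiff : ∀ y, Rea St U I y ↔ Rea P U I y := by
      intro y
      constructor
      · rintro ⟨f, hf, hs⟩
        have h1 : Rea P U I (∑ i ∈ I, f i) := ⟨f, hf, by rw [sub_self]; exact P.zero_mem⟩
        have h2 := (hSt _).1 hs _ h1
        rwa [add_sub_cancel] at h2
      · rintro ⟨f, hf, hs⟩
        exact ⟨f, hf, hPSt hs⟩
    obtain ⟨J, hJI, -, hJ2, hJ3⟩ := thin St U I h0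
    have hset : (fun y => Rea St U I y) = fun y => Rea P U I y :=
      funext fun y => propext (hiff y)
    have e : Nat.card {y : A // Rea St U I y} = Nat.card {y : A // Rea P U I y} :=
      congrArg (fun q : A → Prop => Nat.card {y : A // q y}) hset
    rw [e] at hJ2
    have h3 : I.filter (fun i => ¬ ∀ x ∈ U i, x ∈ St) ⊆ J := by
      intro i hi
      rw [Finset.mem_filter] at hi
      by_contra hiJ
      apply hi.2
      intro x hx
      rw [hSt]
      intro y hy
      rw [← hiff] at hy ⊢
      exact hJ3 i hi.1 hiJ x hx y hy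
    have h4 := hout St hPSt hlt
    have h5 : (((I.filter (fun i => ¬ ∀ x ∈ U i, x ∈ St)).card + 1) * Nat.card St) ≤
        (J.card + 1) * Nat.card St :=
      Nat.mul_le_mul_right _ (Nat.add_le_add_right (Finset.card_le_card h3) 1)
    have h6 : Nat.card H ≤ Nat.card {y : A // Rea P U I y} := h4.trans (h5.trans hJ2)
    have h7 : Function.Surjective (fun y : {y : A // Rea P U I y} => (⟨y.1, hSH y.1 y.2⟩ : H)) := by
      have hinj : Function.Injective
          (fun y : {y : A // Rea P U I y} => (⟨y.1, hSH y.1 y.2⟩ : H)) := by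
        intro y y' h
        have h1 := congrArg Subtype.val h
        exact Subtype.ext h1
      exact (Nat.bijective_iff_injective_and_card _).2 ⟨hinj, le_antisymm hSleH h6⟩ |>.2
    have h8 : ∀ h ∈ H, Rea P U I h := by
      intro h hh
      obtain ⟨y, hy⟩ := h7 ⟨h, hh⟩
      have h9 : y.1 = h := congrArg Subtype.val hy
      rw [← h9]
      exact y.2
    apply hne
    apply le_antisymm hStH
    intro h hh
    rw [hSt]
    intro y hy
    exact h8 _ (H.add_mem (hSH y hy) hh)
  obtain ⟨J, hJI, hJ1, hJ2, -⟩ := thin P U I h0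
  refine ⟨J, hJI, hJ2.trans hSleH, fun y hy => hJ1 y (hStS y ?_)⟩
  rw [hfull]
  exact hy

theorem ext_lemma (P Top : AddSubgroup A) (hPT : P < Top) (U : ι → Finset A) (I : Finset ι)
    (h0 : ∀ i ∈ I, (0 : A) ∈ U i) (hU : ∀ i ∈ I, ∀ x ∈ U i, x ∈ Top)
    (hout : ∀ i ∈ I, ∃ x ∈ U i, x ∉ P) (hcard : Nat.card Top ≤ (I.card + 1) * Nat.card P) :
    ∃ (P' : AddSubgroup A) (J : Finset ι), P < P' ∧ P' ≤ Top ∧ J ⊆ I ∧
      (J.card + 1) * Nat.card P ≤ Nat.card P' ∧ (∀ i ∈ J, ∀ x ∈ U i, x ∈ P') ∧
      ∀ y ∈ P', Rea P U J y := by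
  classical
  let ν : AddSubgroup A → ℕ := fun L => (I.filter (fun i => ¬ ∀ x ∈ U i, x ∈ L)).card
  have hν : ∀ L, ν L = (I.filter (fun i => ¬ ∀ x ∈ U i, x ∈ L)).card := fun L => rfl
  let C : AddSubgroup A → Prop := fun L => P < L ∧ L ≤ Top ∧ (ν L + 1) * Nat.card L ≤ Nat.card Top
  have hex : ∃ n : ℕ, ∃ L : AddSubgroup A, C L ∧ Nat.card L = n := by
    refine ⟨_, Top, ⟨hPT, le_rfl, ?_⟩, rfl⟩
    have h1 : ν Top = 0 := by
      rw [hν, Finset.card_eq_zero, Finset.filter_eq_empty_iff]
      intro i hi h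
      exact h (hU i hi)
    rw [h1, zero_add, one_mul]
  obtain ⟨H1, ⟨hPH1, hH1T, hcH1⟩, hH1n⟩ := Nat.find_spec hex
  have hmin : ∀ L : AddSubgroup A, Nat.card L < Nat.card H1 → ¬ C L := by
    intro L hL hC
    rw [hH1n] at hL
    exact Nat.find_min hex hL ⟨L, hC, rfl⟩
  obtain ⟨I1, hI1⟩ : ∃ I1 : Finset ι, I1 = I.filter (fun i => ∀ x ∈ U i, x ∈ H1) := ⟨_, rfl⟩
  have hI1I : I1 ⊆ I := by rw [hI1]; exact Finset.filter_subset _ _
  have hI1U : ∀ i ∈ I1, ∀ x ∈ U i, x ∈ H1 := by
    intro i hi
    rw [hI1, Finset.mem_filter] at hi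
    exact hi.2
  have hsum : I1.card + ν H1 = I.card := by
    rw [hI1, hν]
    exact Finset.card_filter_add_card_filter_not _
  have hposP : 0 < Nat.card P := Nat.card_pos
  have hPle : Nat.card P ≤ Nat.card H1 := by
    obtain ⟨c, hc⟩ := AddSubgroup.card_dvd_of_le hPH1.le
    have : 0 < Nat.card H1 := Nat.card_pos
    exact Nat.le_of_dvd this (AddSubgroup.card_dvd_of_le hPH1.le)
  obtain ⟨J, hJI1, hJ1, hJ2⟩ := full_of_outside P H1 hPH1.le U I1
    (fun i hi => h0 i (hI1I hi)) hI1U (by
    intro L hPL hLH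
    rcases hPL.eq_or_lt with h | h
    · subst h
      have h1 : I1.filter (fun i => ¬ ∀ x ∈ U i, x ∈ P) = I1 := by
        apply Finset.filter_true_of_mem
        intro i hi hx
        obtain ⟨x, hx1, hx2⟩ := hout i (hI1I hi)
        exact hx2 (hx x hx1)
      rw [h1]
      have h2 := hcH1.trans hcard
      rw [← hsum] at h2
      nlinarith [Nat.mul_le_mul_left (ν H1) hPle]
    · have hcL : Nat.card L < Nat.card H1 := by
        have h1 : Nat.card L ≤ Nat.card H1 :=
          Nat.le_of_dvd Nat.card_pos (AddSubgroup.card_dvd_of_le hLH.le)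
        rcases h1.eq_or_lt with h2 | h2
        · exact absurd (AddSubgroup.eq_of_le_of_card_ge hLH.le h2.ge) hLH.ne
        · exact h2
      have h1 := hmin L hcL
      have h2 : ¬ (ν L + 1) * Nat.card L ≤ Nat.card Top := fun h3 =>
        h1 ⟨h, hLH.le.trans hH1T, h3⟩
      by_contra hcon
      rw [not_le] at hcon
      obtain ⟨n1, hn1⟩ : ∃ n1 : ℕ, n1 = (I1.filter (fun i => ¬ ∀ x ∈ U i, x ∈ L)).card := ⟨_, rfl⟩
      rw [← hn1] at hcon
      have h4 : ν L ≤ ν H1 + n1 := by
        rw [hn1, hν, hν]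
        refine le_trans (Finset.card_le_card ?_) (Finset.card_union_le _ _)
        intro i hi
        rw [Finset.mem_filter] at hi
        rw [Finset.mem_union, Finset.mem_filter, Finset.mem_filter]
        by_cases h5 : ∀ x ∈ U i, x ∈ H1
        · right
          exact ⟨by rw [hI1, Finset.mem_filter]; exact ⟨hi.1, h5⟩, hi.2⟩
        · left
          exact ⟨hi.1, h5⟩
      obtain ⟨b, hb⟩ := AddSubgroup.card_dvd_of_le hLH.le
      obtain ⟨a, ha⟩ := AddSubgroup.card_dvd_of_le hH1T
      have hL0 : 0 < Nat.card L := Nat.card_pos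
      have hH0 : 0 < Nat.card H1 := Nat.card_pos
      have h6 : n1 + 2 ≤ b := by
        rw [hb, mul_comm (Nat.card L) b] at hcon
        exact Nat.lt_of_mul_lt_mul_right hcon
      have h7 : ν H1 + 1 ≤ a := by
        rw [ha, mul_comm (Nat.card H1) a] at hcH1
        exact Nat.le_of_mul_le_mul_right hcH1 hH0
      apply h2
      rw [ha, hb]
      have h8 : ν L + 1 ≤ a * b := by
        have h9 : (a - 1) + (b - 1) ≤ a * b := by
          obtain ⟨a', rfl⟩ : ∃ a', a = a' + 1 := ⟨a - 1, by omega⟩
          obtain ⟨b', rfl⟩ : ∃ b', b = b' + 1 := ⟨b - 1, by omega⟩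
          simp only [Nat.add_sub_cancel]
          nlinarith
        omega
      calc (ν L + 1) * Nat.card L ≤ (a * b) * Nat.card L := Nat.mul_le_mul_right _ h8
        _ = Nat.card L * b * a := by ring)
  exact ⟨H1, J, hPH1, hH1T, hJI1.trans hI1I, hJ1, fun i hi => hI1U i (hJI1 hi), hJ2⟩

end G
end ZS44129
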