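import Mathlib
import Pool.Agent.Work.MP_44129c_co.G.Ext

/-!
# MP_44129c_co/G, module Cyc: subgroups of `ZMod m`, and filling by own differences (size S-M)

## mem_iff, eq_of_card, le_of_dvd
`L ≤ ZMod m` of order `l`: `L ⊆ {x : l • x = 0}` (Lagrange) and this set has at most `l`
elements (`ZMod m` is cyclic: `IsAddCyclic.card_nsmul_eq_zero_le` or similar), so they are equal.
Hence subgroups of the same order are equal, and if `|L|` divides `|L'|` then `L ≤ L'`.

## exists_card
`AddSubgroup.zmultiples ((m / d : ℕ) : ZMod m)` (order of `m/d` in `ZMod m` is `d`,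
`ZMod.addOrderOf_coe`).

## own_fill  (a family of own differences filling `H`)
Positions `x ∈ D` with two options `al x, be x`, `al x - be x ∈ H`, and for every `L < H`
`|H| ≤ (#{x ∈ D : al x - be x ∉ L} + 1)|L|`.  Apply `full_of_outside` with `P = ⊥`,
`U x = {0, be x - al x}`: `B ⊆ D`, `|B| + 1 ≤ |H|`, every `y ∈ H` is `∑_{x ∈ B} f x`,
`f x ∈ {0, be x - al x}`.  Then `∑_{x ∈ B} (al x + f x)` is a sum of options: `Fill O ⊥ H B |B|`
with base `z = ∑_{x ∈ B} al x`.
-/

set_option autoImplicit false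

namespace ZS44129
namespace G

open Finset

private theorem cyc_eq_ker {m : ℕ} [NeZero m] (H : AddSubgroup (ZMod m)) :
    H = (nsmulAddMonoidHom (Nat.card H) : ZMod m →+ ZMod m).ker := by
  have hle : H ≤ (nsmulAddMonoidHom (Nat.card H) : ZMod m →+ ZMod m).ker := by
    intro x hx
    rw [AddMonoidHom.mem_ker, nsmulAddMonoidHom_apply]
    have h1 : Nat.card H • (⟨x, hx⟩ : H) = 0 := card_nsmul_eq_zero'
    have h2 : ((Nat.card H • (⟨x, hx⟩ : H) : H) : ZMod m) = 0 := by rw [h1]; rfl
    rw [AddSubgroup.coe_nsmul] at h2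
    exact h2
  apply AddSubgroup.eq_of_le_of_card_ge hle
  rw [IsAddCyclic.card_nsmulAddMonoidHom_ker, Nat.card_zmod]
  exact Nat.gcd_le_right _ Nat.card_pos

theorem mem_iff {m : ℕ} [NeZero m] (L : AddSubgroup (ZMod m)) (x : ZMod m) :
    x ∈ L ↔ (Nat.card L) • x = 0 := by
  have h := cyc_eq_ker L
  have h2 : x ∈ L ↔ x ∈ (nsmulAddMonoidHom (Nat.card L) : ZMod m →+ ZMod m).ker := by
    rw [← h]
  rw [h2, AddMonoidHom.mem_ker, nsmulAddMonoidHom_apply]

theorem eq_of_card {m : ℕ} [NeZero m] (L L' : AddSubgroup (ZMod m))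
    (h : Nat.card L = Nat.card L') : L = L' := by
  ext x
  rw [mem_iff, mem_iff, h]

theorem le_of_dvd {m : ℕ} [NeZero m] (L L' : AddSubgroup (ZMod m))
    (h : Nat.card L ∣ Nat.card L') : L ≤ L' := by
  intro x hx
  rw [mem_iff] at hx ⊢
  obtain ⟨k, hk⟩ := h
  rw [hk, mul_comm, mul_nsmul', hx, nsmul_zero]

theorem exists_card {m : ℕ} [NeZero m] (d : ℕ) (h : d ∣ m) :
    ∃ K : AddSubgroup (ZMod m), Nat.card K = d := by
  have hm : 0 < m := Nat.pos_of_ne_zero (NeZero.ne m)
  have hd : 0 < d := Nat.pos_of_dvd_of_pos h hm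
  refine ⟨(nsmulAddMonoidHom d : ZMod m →+ ZMod m).ker, ?_⟩
  rw [IsAddCyclic.card_nsmulAddMonoidHom_ker, Nat.card_zmod]
  exact Nat.gcd_eq_right h

open Classical in
/-- number of positions whose two options differ modulo `L`. -/
noncomputable def Dn {ι : Type} {m : ℕ} (al be : ι → ZMod m) (X : Finset ι)
    (L : AddSubgroup (ZMod m)) : ℕ :=
  (X.filter (fun x => al x - be x ∉ L)).card

theorem own_fill {ι : Type} {m : ℕ} [NeZero m] (al be : ι → ZMod m) (H : AddSubgroup (ZMod m))
    (D : Finset ι) (hD : ∀ x ∈ D, al x - be x ∈ H)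
    (hout : ∀ L : AddSubgroup (ZMod m), L < H → Nat.card H ≤ (Dn al be D L + 1) * Nat.card L) :
    ∃ B ⊆ D, B.card + 1 ≤ Nat.card H ∧
      Fill (fun x => ({al x, be x} : Finset (ZMod m))) ⊥ H B B.card := by
  classical
  have h1 : ∀ (L : AddSubgroup (ZMod m)) (i : ι),
      (∀ z ∈ ({0, be i - al i} : Finset (ZMod m)), z ∈ L) ↔ al i - be i ∈ L := by
    intro L i
    constructor
    · intro h
      have h2 := h (be i - al i) (by simp)
      have h3 := L.neg_mem h2
      rwa [neg_sub] at h3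
    · intro h z hz
      rw [mem_insert, mem_singleton] at hz
      rcases hz with rfl | rfl
      · exact L.zero_mem
      · have h3 := L.neg_mem h
        rwa [neg_sub] at h3
  obtain ⟨J, hJ, hc, hr⟩ := full_of_outside (⊥ : AddSubgroup (ZMod m)) H bot_le
    (fun x => ({0, be x - al x} : Finset (ZMod m))) D (fun i _ => by simp)
    (fun i hi => (h1 H i).2 (hD i hi))
    (by
      intro L _ hL
      refine (hout L hL).trans (Nat.mul_le_mul_right _ (Nat.add_le_add_right ?_ 1))
      unfold Dn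
      apply card_le_card
      intro i hi
      have hi' := (@Finset.mem_filter _ _ (_) _ _).1 hi
      exact (@Finset.mem_filter _ _ (_) _ _).2 ⟨hi'.1, fun h => hi'.2 ((h1 L i).1 h)⟩)
  refine ⟨J, hJ, ?_, ∑ x ∈ J, al x, ?_⟩
  · have h2 : Nat.card (⊥ : AddSubgroup (ZMod m)) = 1 := AddSubgroup.card_bot
    rw [h2, mul_one] at hc
    exact hc
  · intro p hp
    obtain ⟨f, hf, hs⟩ := hr p hp
    rw [AddSubgroup.mem_bot, sub_eq_zero] at hs
    refine ⟨∑ x ∈ J, (al x + f x), ⟨J, Subset.refl _, rfl, fun x => al x + f x, ?_, rfl⟩, ?_⟩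
    · intro x hx
      have h3 := hf x hx
      rw [mem_insert, mem_singleton] at h3 ⊢
      rcases h3 with h3 | h3
      · left
        change al x + f x = al x
        rw [h3, add_zero]
      · right
        change al x + f x = be x
        rw [h3]; abel
    · rw [AddSubgroup.mem_bot, sum_add_distrib, ← hs, sub_self]

end G
end ZS44129
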