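import Mathlib
import Pool.Agent.Work.MP_44129c_co.Defs
import Pool.Agent.Work.MP_44129c_co.G.Cyc

/-!
# MP_44129c_co/G, module PDefs: pairs of vertices (definitions, FIXED, proved)

`XX u v`: all vertices except `u, v` (the positions of the pair).  `DD c u v L`: number of
positions with `c u x - c v x ∉ L`.  `GP`: good pair.  `Wd c κ`: wide pair.  `Hv c κ u w P r`:
heavy pair (all but at most `[⊤:P] - 2` positions have both colours in `r + P`, and
`c u w ∉ r + P`).
-/

set_option autoImplicit false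

namespace ZS44129
namespace G

open Finset

variable {V : Type} [Fintype V] [DecidableEq V] {m : ℕ}

/-- positions of the pair `u, v`. -/
def XX (u v : V) : Finset V := (univ.erase u).erase v

/-- number of positions where the two colours differ modulo `L`. -/
noncomputable def DD (c : V → V → ZMod m) (u v : V) (L : AddSubgroup (ZMod m)) : ℕ :=
  Dn (c u) (c v) (XX u v) L

/-- good pair. -/
def GP (c : V → V → ZMod m) (u v : V) : Prop :=
  u ≠ v ∧ m < 2 * DD c u v ⊥ ∧
    ∀ L : AddSubgroup (ZMod m), L ≠ ⊥ → m ≤ (DD c u v L + 1) * Nat.card L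

/-- wide pair. -/
def Wd (c : V → V → ZMod m) (κ : ℕ) (u v : V) : Prop :=
  u ≠ v ∧ m < 2 * DD c u v ⊥ ∧
    ∀ L : AddSubgroup (ZMod m), L ≠ ⊥ → Nat.card L ≤ κ → m ≤ (DD c u v L + 1) * Nat.card L

/-- number of positions of the pair `u, w` which are not pure in `r + P`. -/
noncomputable def Out (c : V → V → ZMod m) (u w : V) (P : AddSubgroup (ZMod m)) (r : ZMod m) :
    ℕ :=
  np (fun x => ({c u x, c w x} : Finset (ZMod m))) r P (XX u w)

/-- heavy pair. -/
def Hv (c : V → V → ZMod m) (κ : ℕ) (u w : V) (P : AddSubgroup (ZMod m)) (r : ZMod m) : Prop :=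
  u ≠ w ∧ κ < Nat.card P ∧ c u w - r ∉ P ∧ (Out c u w P r + 2) * Nat.card P ≤ m

theorem mem_XX {u v x : V} : x ∈ XX u v ↔ x ≠ u ∧ x ≠ v := by
  simp [XX, and_comm]

theorem XX_comm (u v : V) : XX u v = XX v u := by
  ext x; rw [mem_XX, mem_XX, and_comm]

theorem card_XX {u v : V} (h : u ≠ v) : (XX u v).card + 2 = Fintype.card V := by
  have h1 : v ∈ (univ : Finset V).erase u := Finset.mem_erase.2 ⟨h.symm, Finset.mem_univ v⟩
  have h2 := Finset.card_pos.2 ⟨v, h1⟩
  have h3 : 0 < (univ : Finset V).card := Finset.card_pos.2 ⟨u, Finset.mem_univ u⟩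
  rw [XX, Finset.card_erase_of_mem h1, Finset.card_erase_of_mem (Finset.mem_univ u)]
  rw [Finset.card_erase_of_mem (Finset.mem_univ u)] at h2
  rw [Finset.card_univ] at *
  omega

end G
end ZS44129
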