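import Mathlib
import Pool.Agent.Work.MP_44129c_co.G.PDefs

/-!
# MP_44129c_co/G, module CDefs: classes and counts (definitions, FIXED)

`cls c u K r`: the vertices `x ≠ u` with `c u x ∈ r + K`.  `nb c u x K r`: number of `z` with
`c u z`, `c x z` both outside `r + K`.  `N2 c K u`: number of pairs `(y, z)`, `y, z ≠ u`, with
`c u y`, `c u z` in the same coset of `K`.
-/

set_option autoImplicit false

namespace ZS44129
namespace G

open Finset

variable {V : Type} [Fintype V] [DecidableEq V] {m : ℕ}

open Classical in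
noncomputable def cls (c : V → V → ZMod m) (u : V) (K : AddSubgroup (ZMod m)) (r : ZMod m) :
    Finset V :=
  (univ.erase u).filter (fun x => c u x - r ∈ K)

open Classical in
noncomputable def nb (c : V → V → ZMod m) (u x : V) (K : AddSubgroup (ZMod m)) (r : ZMod m) :
    ℕ :=
  ((XX u x).filter (fun z => c u z - r ∉ K ∧ c x z - r ∉ K)).card

noncomputable def N2 (c : V → V → ZMod m) (K : AddSubgroup (ZMod m)) (u : V) : ℕ :=
  ∑ y ∈ univ.erase u, (cls c u K (c u y)).card

theorem mem_cls {c : V → V → ZMod m} {u : V} {K : AddSubgroup (ZMod m)} {r : ZMod m} {x : V} :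
    x ∈ cls c u K r ↔ x ≠ u ∧ c u x - r ∈ K := by
  classical
  simp [cls]

end G
end ZS44129
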