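import Mathlib

/-!
# MP_44129c_co/G, module Arith: arithmetic (size M; checked by computer for s < 260)

`T = m + s - 1`, `λ = m / 2`.  All statements: an upper bound for `n` (from `countV`) implies
`... + n² + (T - n)² < T²` (or the version with `T - 1`).
With `p = T - n`, `n² + p² = T² - 2np`, so the claim is a lower bound for `2np`, and `n ↦ np` is
decreasing for `n ≥ T/2`.  Trick: multiply the upper bound hypothesis, e.g. `λp - sn ≥ 0`, by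
`2n - T ≥ 0` and add it to the claim (times `2(λ + s)`); what remains is linear in `n`, and
positive.  Small `s` (say `s < 12`) by `interval_cases s`, `m` (`m` is one of five values) and
`n` (or `decide`/`omega` after bounding `n`).  Write `m = 3s + 1 + t` (or `m = 2λ`, `2λ + 1`).
-/

set_option autoImplicit false

namespace ZS44129
namespace G

private theorem key {R : Type*} [CommRing R] [LinearOrder R] [IsStrictOrderedRing R]
    {n p X A Y : R} (hA : 0 ≤ A) (h1 : A * n ≤ X) (h2 : p ≤ n)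
    (hY : A ^ 2 * Y < 2 * X * (A * (n + p) - X)) : Y < 2 * (n * p) := by
  have h3 : A * p ≤ X := le_trans (mul_le_mul_of_nonneg_left h2 hA) h1
  have h4 : 0 ≤ (X - A * n) * (X - A * p) := mul_nonneg (sub_nonneg.2 h1) (sub_nonneg.2 h3)
  have h5 : A ^ 2 * Y < A ^ 2 * (2 * (n * p)) := by nlinarith
  exact lt_of_mul_lt_mul_left h5 (sq_nonneg A)

private theorem fin_ineq {n p Y r : ℕ} (h : (Y : ℤ) < 2 * (n * p)) (hr : r ≤ Y) :
    r + (n ^ 2 + p ^ 2) < (n + p) ^ 2 := by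
  have h2 : (r : ℤ) ≤ Y := by exact_mod_cast hr
  zify
  nlinarith

private theorem cases5 {a b : ℕ} (hb : 6 ≤ b) (h1 : 3 * b + 1 ≤ 2 * a) (h2 : 2 * a ≤ 3 * b + 5) :
    ∃ c : ℕ, (b = 2 * c + 7 ∧ a = 3 * c + 11) ∨ (b = 2 * c + 6 ∧ a = 3 * c + 10) ∨
      (b = 2 * c + 7 ∧ a = 3 * c + 12) ∨ (b = 2 * c + 6 ∧ a = 3 * c + 11) ∨
      (b = 2 * c + 7 ∧ a = 3 * c + 13) := ⟨(b - 6) / 2, by omega⟩

private theorem even_pos {a b : ℕ} (hb : 6 ≤ b) (h1 : 3 * b + 1 ≤ 2 * a)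
    (h2 : 2 * a ≤ 3 * b + 5) : ((a : ℤ) + b) ^ 2 * (a * (2 * a + b)) <
      2 * (a * (2 * a + b) + b) * ((a + b) * (2 * a + b) - (a * (2 * a + b) + b)) := by
  rw [← sub_pos]
  obtain ⟨c, h | h | h | h | h⟩ := cases5 hb h1 h2 <;> obtain ⟨rfl, rfl⟩ := h <;> push_cast <;>
    ring_nf <;> positivity

private theorem b1_pos {a b : ℕ} (hb : 6 ≤ b) (h1 : 3 * b + 1 ≤ 2 * a)
    (h2 : 2 * a ≤ 3 * b + 5) : ((a : ℤ) + b - 1) ^ 2 * ((a - 1) * (2 * a + b - 1)) <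
      2 * (a * (2 * a + b - 1) + b) *
        ((a + b - 1) * (2 * a + b - 1) - (a * (2 * a + b - 1) + b)) := by
  rw [← sub_pos]
  obtain ⟨c, h | h | h | h | h⟩ := cases5 hb h1 h2 <;> obtain ⟨rfl, rfl⟩ := h <;> push_cast <;>
    ring_nf <;> positivity

private theorem b2a_pos {a b : ℕ} (hb : 6 ≤ b) (h1 : 3 * b + 1 ≤ 2 * a)
    (h2 : 2 * a ≤ 3 * b + 5) : ((a : ℤ) + b - 1) ^ 2 * ((a + 1) * (2 * a + b - 1)) <
      2 * (a * (2 * a + b - 1)) *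
        ((a + b - 1) * (2 * a + b) - a * (2 * a + b - 1)) := by
  rw [← sub_pos]
  obtain ⟨c, h | h | h | h | h⟩ := cases5 hb h1 h2 <;> obtain ⟨rfl, rfl⟩ := h <;> push_cast <;>
    ring_nf <;> positivity

private theorem b2b_pos {a b : ℕ} (hb : 6 ≤ b) (h1 : 3 * b + 1 ≤ 2 * a)
    (h2 : 2 * a ≤ 3 * b + 5) : ((a : ℤ) + b) ^ 2 * ((a + 1) * (2 * a + b - 1)) <
      2 * (a * (2 * a + b) + b) * ((a + b) * (2 * a + b) - (a * (2 * a + b) + b)) := by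
  rw [← sub_pos]
  obtain ⟨c, h | h | h | h | h⟩ := cases5 hb h1 h2 <;> obtain ⟨rfl, rfl⟩ := h <;> push_cast <;>
    ring_nf <;> positivity

theorem ar_odd {m s n : ℕ} (hs : 1 ≤ s) (hm1 : 3 * s ≤ m + 2) (hm2 : m ≤ 3 * s + 2)
    (hodd : m % 2 = 1) (hm3 : 3 ≤ m) (hn1 : m + s - 1 ≤ 2 * n) (hn2 : n ≤ m + s - 1)
    (h : s * n ≤ (m / 2) * (m + s - 1 - n)) :
    (m / 2) * (m + s - 1) + (n ^ 2 + (m + s - 1 - n) ^ 2) < (m + s - 1) ^ 2 := by
  obtain ⟨a, rfl⟩ : ∃ a, m = 2 * a + 1 := ⟨m / 2, by omega⟩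
  obtain ⟨p, hp⟩ : ∃ p, 2 * a + 1 + s - 1 = n + p := ⟨2 * a + 1 + s - 1 - n, by omega⟩
  have e1 : 2 * a + 1 + s - 1 - n = p := by omega
  have e2 : (2 * a + 1) / 2 = a := by omega
  rw [e1, e2] at h
  rw [e1, e2, hp]
  have hT : (n : ℤ) + p = 2 * a + s := by omega
  have hh : (s : ℤ) * n ≤ a * p := by exact_mod_cast h
  have hpn : (p : ℤ) ≤ n := by omega
  refine fin_ineq (Y := a * (n + p)) ?_ le_rfl
  have ha : (1 : ℤ) ≤ a := by omega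
  have hs' : (1 : ℤ) ≤ s := by omega
  have h2a : 2 * (a : ℤ) ≤ 3 * s + 1 := by omega
  have h1 : ((a : ℤ) + s) ^ 2 < 2 * s * (2 * a + s) := by nlinarith
  have h0 : (0 : ℤ) < a * (2 * a + s) := by positivity
  have h3 := mul_lt_mul_of_pos_left h1 h0
  push_cast
  refine key (R := ℤ) (A := (a : ℤ) + s) (X := a * (n + p)) (by positivity) (by nlinarith) hpn ?_
  rw [hT]
  nlinarith

set_option synthInstance.maxSize 2000 in
theorem ar_even {m s n : ℕ} (hs : 1 ≤ s) (hm1 : 3 * s ≤ m + 2) (hm2 : m ≤ 3 * s + 2)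
    (h5 : m ≤ 3 * s ∨ 5 ≤ s) (heven : m % 2 = 0) (hm4 : 4 ≤ m) (hm6 : m ≠ 6)
    (hn1 : m + s - 1 ≤ 2 * n) (hn2 : n ≤ m + s - 1)
    (h : (s - 1) * (n - 1) ≤ (m / 2) * (m + s - 1 - n)) :
    (m / 2) * (m + s - 1) + (n ^ 2 + (m + s - 1 - n) ^ 2) < (m + s - 1) ^ 2 := by
  rcases Nat.lt_or_ge s 7 with h7 | h7
  · have hd : ∀ s < 7, ∀ m < 21, ∀ n < 27, (1 ≤ s ∧ 3 * s ≤ m + 2 ∧ m ≤ 3 * s + 2 ∧
        (m ≤ 3 * s ∨ 5 ≤ s) ∧ m % 2 = 0 ∧ 4 ≤ m ∧ m ≠ 6 ∧ m + s - 1 ≤ 2 * n ∧ n ≤ m + s - 1 ∧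
        (s - 1) * (n - 1) ≤ (m / 2) * (m + s - 1 - n)) →
        (m / 2) * (m + s - 1) + (n ^ 2 + (m + s - 1 - n) ^ 2) < (m + s - 1) ^ 2 := by
      decide +kernel
    exact hd s h7 m (by omega) n (by omega) ⟨hs, hm1, hm2, h5, heven, hm4, hm6, hn1, hn2, h⟩
  · obtain ⟨a, rfl⟩ : ∃ a, m = 2 * a := ⟨m / 2, by omega⟩
    obtain ⟨b, rfl⟩ : ∃ b, s = b + 1 := ⟨s - 1, by omega⟩
    obtain ⟨k, rfl⟩ : ∃ k, n = k + 1 := ⟨n - 1, by omega⟩
    obtain ⟨p, hp⟩ : ∃ p, 2 * a + (b + 1) - 1 = k + 1 + p :=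
      ⟨2 * a + (b + 1) - 1 - (k + 1), by omega⟩
    have e1 : 2 * a + (b + 1) - 1 - (k + 1) = p := by omega
    have e2 : 2 * a / 2 = a := by omega
    rw [e1, e2, Nat.add_sub_cancel, Nat.add_sub_cancel] at h
    rw [e1, e2, hp]
    have hT : ((k + 1 : ℕ) : ℤ) + p = 2 * a + b := by omega
    have hh : (b : ℤ) * k ≤ a * p := by exact_mod_cast h
    have hpn : (p : ℤ) ≤ ((k + 1 : ℕ) : ℤ) := by omega
    refine fin_ineq (Y := a * (k + 1 + p)) ?_ le_rfl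
    have h3 := even_pos (a := a) (b := b) (by omega) (by omega) (by omega)
    push_cast at hT hpn ⊢
    refine key (R := ℤ) (A := (a : ℤ) + b) (X := a * (k + 1 + p) + b) (by positivity) (by nlinarith)
      hpn ?_
    rw [hT]
    linarith

/-- the case without a large class. -/
theorem ar_small {m s N : ℕ} (hs : 1 ≤ s) (hm1 : 3 * s ≤ m + 2) (hm2 : m ≤ 3 * s + 2)
    (hm3 : 3 ≤ m) (h : 2 * N ≤ (m + s - 1) * (m + s - 2)) :
    (m / 2) * (m + s - 1) + N < (m + s - 1) ^ 2 ∧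
      (6 ≤ m → (m / 2) * (m + s - 2) + (m + s - 2) + N < (m + s - 1) ^ 2) := by
  obtain ⟨T, hT⟩ : ∃ T, m + s = T + 2 := ⟨m + s - 2, by omega⟩
  have e1 : m + s - 1 = T + 1 := by omega
  have e2 : m + s - 2 = T := by omega
  have e3 : 2 * (m / 2) ≤ T + 1 := by omega
  rw [e1, e2] at h
  rw [e1, e2]
  have h4 := Nat.mul_le_mul_right (T + 1) e3
  have h4' := Nat.mul_le_mul_right T e3
  constructor
  · nlinarith
  · intro h6
    have e4 : 2 * (m / 2) ≤ T := by omega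
    have h7 := Nat.mul_le_mul_right T e4
    nlinarith

set_option synthInstance.maxSize 2000 in
theorem ar_b1 {m s n : ℕ} (hs : 1 ≤ s) (hm1 : 3 * s ≤ m + 2) (hm2 : m ≤ 3 * s + 2)
    (h5 : m ≤ 3 * s ∨ 5 ≤ s) (h4 : m % 4 = 0) (hm6 : 6 ≤ m)
    (hn1 : m + s - 2 ≤ 2 * n) (hn2 : n ≤ m + s - 2)
    (h : (s - 1) * (n - 1) ≤ (m / 2) * (m + s - 1 - n - 1) + n) :
    (m / 2) * (m + s - 2) + (m + s - 2) + (1 + n ^ 2 + (m + s - 2 - n) ^ 2) <
      (m + s - 1) ^ 2 := by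
  rcases Nat.lt_or_ge s 7 with h7 | h7
  · have hd : ∀ s < 7, ∀ m < 21, ∀ n < 27, (1 ≤ s ∧ 3 * s ≤ m + 2 ∧ m ≤ 3 * s + 2 ∧
        (m ≤ 3 * s ∨ 5 ≤ s) ∧ m % 4 = 0 ∧ 6 ≤ m ∧ m + s - 2 ≤ 2 * n ∧ n ≤ m + s - 2 ∧
        (s - 1) * (n - 1) ≤ (m / 2) * (m + s - 1 - n - 1) + n) →
        (m / 2) * (m + s - 2) + (m + s - 2) + (1 + n ^ 2 + (m + s - 2 - n) ^ 2) <
          (m + s - 1) ^ 2 := by
      decide +kernel
    exact hd s h7 m (by omega) n (by omega) ⟨hs, hm1, hm2, h5, h4, hm6, hn1, hn2, h⟩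
  · obtain ⟨a, rfl⟩ : ∃ a, m = 2 * a := ⟨m / 2, by omega⟩
    obtain ⟨b, rfl⟩ : ∃ b, s = b + 1 := ⟨s - 1, by omega⟩
    obtain ⟨k, rfl⟩ : ∃ k, n = k + 1 := ⟨n - 1, by omega⟩
    obtain ⟨p, hp⟩ : ∃ p, 2 * a + (b + 1) - 2 = k + 1 + p :=
      ⟨2 * a + (b + 1) - 2 - (k + 1), by omega⟩
    have e1 : 2 * a + (b + 1) - 2 - (k + 1) = p := by omega
    have e2 : 2 * a / 2 = a := by omega
    have e3 : 2 * a + (b + 1) - 1 - (k + 1) - 1 = p := by omega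
    have e4 : 2 * a + (b + 1) - 1 = k + 1 + p + 1 := by omega
    rw [e3, e2, Nat.add_sub_cancel, Nat.add_sub_cancel] at h
    rw [e1, e2, hp, e4]
    have hT : ((k + 1 : ℕ) : ℤ) + p = 2 * a + b - 1 := by omega
    have hh : (b : ℤ) * k ≤ a * p + (k + 1) := by exact_mod_cast h
    have hpn : (p : ℤ) ≤ ((k + 1 : ℕ) : ℤ) := by omega
    have h3 := b1_pos (a := a) (b := b) (by omega) (by omega) (by omega)
    have hb : (6 : ℤ) ≤ b := by omega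
    have ha : (1 : ℤ) ≤ a := by omega
    have h8 : ((a : ℤ) - 1) * (k + 1 + p) < 2 * ((k + 1) * p) := by
      push_cast at hT hpn
      refine key (R := ℤ) (A := (a : ℤ) + b - 1) (X := a * (k + 1 + p) + b) (by linarith) (by nlinarith)
        hpn ?_
      rw [hT]
      linarith
    zify
    nlinarith

theorem ar_b1x {m s N : ℕ} (hs : 1 ≤ s) (hm1 : 3 * s ≤ m + 2) (hm2 : m ≤ 3 * s + 2)
    (hm6 : 6 ≤ m) (h : 2 * N ≤ 2 + (m + s - 2) * (m + s - 3)) :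
    (m / 2) * (m + s - 2) + (m + s - 2) + N < (m + s - 1) ^ 2 := by
  obtain ⟨T, hT⟩ : ∃ T, m + s = T + 3 := ⟨m + s - 3, by omega⟩
  have e1 : m + s - 1 = T + 2 := by omega
  have e2 : m + s - 2 = T + 1 := by omega
  have e3 : m + s - 3 = T := by omega
  have e4 : 2 * (m / 2) ≤ T + 1 := by omega
  rw [e2, e3] at h
  rw [e1, e2]
  have h4 := Nat.mul_le_mul_right (T + 1) e4
  nlinarith

set_option synthInstance.maxSize 2000 in
theorem ar_b2 {m s n : ℕ} (hs : 1 ≤ s) (hm1 : 3 * s ≤ m + 2) (hm2 : m ≤ 3 * s + 2)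
    (h5 : m ≤ 3 * s ∨ 5 ≤ s) (h4 : m % 4 = 2) (hm6 : 6 < m)
    (hn1 : m + s - 1 ≤ 2 * n) (hn2 : n ≤ m + s - 1)
    (h : (s - 1) * n ≤ (m / 2) * (m + s - 1 - n - 1) + n ∨
      (s - 1) * (n - 1) ≤ (m / 2) * (m + s - 1 - n)) :
    (m / 2) * (m + s - 2) + (m + s - 2) + (n ^ 2 + (m + s - 1 - n) ^ 2) < (m + s - 1) ^ 2 := by
  rcases Nat.lt_or_ge s 7 with h7 | h7
  · have hd : ∀ s < 7, ∀ m < 21, ∀ n < 27, (1 ≤ s ∧ 3 * s ≤ m + 2 ∧ m ≤ 3 * s + 2 ∧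
        (m ≤ 3 * s ∨ 5 ≤ s) ∧ m % 4 = 2 ∧ 6 < m ∧ m + s - 1 ≤ 2 * n ∧ n ≤ m + s - 1 ∧
        ((s - 1) * n ≤ (m / 2) * (m + s - 1 - n - 1) + n ∨
          (s - 1) * (n - 1) ≤ (m / 2) * (m + s - 1 - n))) →
        (m / 2) * (m + s - 2) + (m + s - 2) + (n ^ 2 + (m + s - 1 - n) ^ 2) <
          (m + s - 1) ^ 2 := by
      decide +kernel
    exact hd s h7 m (by omega) n (by omega) ⟨hs, hm1, hm2, h5, h4, hm6, hn1, hn2, h⟩
  · obtain ⟨a, rfl⟩ : ∃ a, m = 2 * a := ⟨m / 2, by omega⟩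
    obtain ⟨b, rfl⟩ : ∃ b, s = b + 1 := ⟨s - 1, by omega⟩
    obtain ⟨k, rfl⟩ : ∃ k, n = k + 1 := ⟨n - 1, by omega⟩
    obtain ⟨p, hp⟩ : ∃ p, 2 * a + (b + 1) - 1 = k + 1 + p :=
      ⟨2 * a + (b + 1) - 1 - (k + 1), by omega⟩
    have e1 : 2 * a + (b + 1) - 1 - (k + 1) = p := by omega
    have e2 : 2 * a / 2 = a := by omega
    have e4 : 2 * a + (b + 1) - 2 = k + p := by omega
    rw [e1, e2, Nat.add_sub_cancel, Nat.add_sub_cancel] at h
    rw [e1, e2, hp, e4]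
    have hT : ((k + 1 : ℕ) : ℤ) + p = 2 * a + b := by omega
    have hpn : (p : ℤ) ≤ ((k + 1 : ℕ) : ℤ) := by omega
    have hb : (6 : ℤ) ≤ b := by omega
    have ha : (1 : ℤ) ≤ a := by omega
    have h8 : ((a : ℤ) + 1) * (k + p) < 2 * ((k + 1) * p) := by
      push_cast at hT hpn
      have hT' : (k : ℤ) + p = 2 * a + b - 1 := by linarith
      rcases h with h | h
      · have hp1 : 1 ≤ p := by
          rcases Nat.eq_zero_or_pos p with h0 | h0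
          · rw [h0, Nat.zero_sub, Nat.mul_zero, Nat.zero_add] at h
            have : 2 * (k + 1) ≤ b * (k + 1) := Nat.mul_le_mul_right _ (by omega)
            omega
          · exact h0
        obtain ⟨r, rfl⟩ : ∃ r, p = r + 1 := ⟨p - 1, by omega⟩
        rw [Nat.add_sub_cancel] at h
        have hh : (b : ℤ) * (k + 1) ≤ a * r + (k + 1) := by exact_mod_cast h
        have h3 := b2a_pos (a := a) (b := b) (by omega) (by omega) (by omega)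
        push_cast at hT hT' hpn ⊢
        refine key (R := ℤ) (A := (a : ℤ) + b - 1) (X := a * (k + (r + 1))) (by linarith) (by nlinarith)
          hpn ?_
        rw [hT, hT']
        linarith
      · have hh : (b : ℤ) * k ≤ a * p := by exact_mod_cast h
        have h3 := b2b_pos (a := a) (b := b) (by omega) (by omega) (by omega)
        refine key (R := ℤ) (A := (a : ℤ) + b) (X := a * (k + 1 + p) + b) (by positivity) (by nlinarith)
          hpn ?_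
        rw [hT, hT']
        linarith
    zify
    nlinarith

private theorem c_pos {l m s : ℕ} (e : ℕ) (he : e ≤ 1) (hl : m = 2 * l + e) (hs : 23 ≤ s)
    (hm1 : 3 * s + 3 ≤ m) (hm2 : 10000 * m ≤ 31035 * s + 10000) (T : ℚ)
    (hT : T = m + s - 1) :
    ((l : ℚ) + s - 8) ^ 2 * (l * (T - 3) + 3 * (T - 1)) <
      2 * (l * (T - 3) + 8 * (s - 5)) * (((l : ℚ) + s - 8) * T - (l * (T - 3) + 8 * (s - 5))) := by
  have hl' : (l : ℚ) = ((m : ℚ) - e) / 2 := by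
    have : (m : ℚ) = 2 * l + e := by exact_mod_cast hl
    linarith
  rw [hl', hT, ← sub_pos]
  obtain ⟨u, rfl⟩ : ∃ u, s = u + 23 := ⟨s - 23, by omega⟩
  rcases Nat.eq_zero_or_pos (m - (3 * (u + 23) + 3)) with h0 | h0
  · obtain rfl : m = 3 * (u + 23) + 3 := by omega
    interval_cases e
    · push_cast
      ring_nf
      positivity
    · push_cast
      ring_nf
      positivity
  · obtain ⟨v, hv⟩ : ∃ v, m = 3 * (u + 23) + 3 + (v + 1) :=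
      ⟨m - (3 * (u + 23) + 3) - 1, by omega⟩
    obtain ⟨w, hw⟩ : ∃ w, u = 9 * v + 5 + w := ⟨u - (9 * v + 5), by omega⟩
    subst hv
    subst hw
    interval_cases e
    · push_cast
      ring_nf
      positivity
    · push_cast
      ring_nf
      positivity

theorem ar_c {m s n : ℕ} (hs : 23 ≤ s) (hm1 : 3 * s + 3 ≤ m)
    (hm2 : 10000 * m ≤ 31035 * s + 10000) (hn1 : m + s - 1 ≤ 2 * n) (hn2 : n ≤ m + s - 1)
    (h : (s - 5) * (n - 8) ≤ (m / 2) * (m + s - 1 - n - 3) + 3 * n) :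
    (m / 2) * (m + s - 1 - 3) + 3 * (m + s - 2) + (n ^ 2 + (m + s - 1 - n) ^ 2) <
      (m + s - 1) ^ 2 := by
  have hp3 : n + 3 ≤ m + s - 1 := by
    by_contra hcon
    have e : m + s - 1 - n - 3 = 0 := by omega
    rw [e, Nat.mul_zero, Nat.zero_add] at h
    have h1 : 18 * (n - 8) ≤ (s - 5) * (n - 8) := Nat.mul_le_mul_right _ (by omega)
    omega
  obtain ⟨q, hq⟩ : ∃ q, m + s - 1 = n + 3 + q := ⟨m + s - 1 - (n + 3), by omega⟩
  obtain ⟨k, rfl⟩ : ∃ k, n = k + 8 := ⟨n - 8, by omega⟩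
  obtain ⟨t, rfl⟩ : ∃ t, s = t + 5 := ⟨s - 5, by omega⟩
  have e1 : m + (t + 5) - 1 - (k + 8) - 3 = q := by omega
  have e2 : m + (t + 5) - 1 - (k + 8) = q + 3 := by omega
  have e3 : m + (t + 5) - 1 - 3 = k + 8 + q := by omega
  have e4 : m + (t + 5) - 2 = k + 10 + q := by omega
  rw [e1, Nat.add_sub_cancel, Nat.add_sub_cancel] at h
  rw [e2, e3, e4, hq]
  have hT : ((k : ℚ) + 8) + (q + 3) = m + ((t + 5 : ℕ) : ℚ) - 1 := by
    have h1 : k + 8 + (q + 3) + 1 = m + (t + 5) := by omega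
    have h2 : ((k : ℚ) + 8) + (q + 3) + 1 = m + ((t + 5 : ℕ) : ℚ) := by exact_mod_cast h1
    linarith
  have hc := c_pos (l := m / 2) (m := m) (s := t + 5) (m % 2) (by omega) (by omega) hs hm1 hm2 _
    hT
  have hh : (t : ℚ) * k ≤ ((m / 2 : ℕ) : ℚ) * q + 3 * (k + 8) := by exact_mod_cast h
  have hpn : (q : ℚ) + 3 ≤ k + 8 := by
    have : q + 3 ≤ k + 8 := by omega
    exact_mod_cast this
  have ht : (18 : ℚ) ≤ t := by
    have : 18 ≤ t := by omega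
    exact_mod_cast this
  have hl : (0 : ℚ) ≤ ((m / 2 : ℕ) : ℚ) := Nat.cast_nonneg _
  generalize hL : m / 2 = L at *
  have h8 : (L : ℚ) * (k + 8 + q) + 3 * (k + 10 + q) < 2 * (((k : ℚ) + 8) * (q + 3)) := by
    push_cast at hc
    refine key (R := ℚ) (A := (L : ℚ) + (t + 5) - 8)
      (X := L * (k + 8 + (q + 3) - 3) + 8 * (t + 5 - 5)) (by linarith) (by nlinarith) hpn ?_
    linarith
  have h9 : (L : ℚ) * (k + 8 + q) + 3 * (k + 10 + q) + ((k + 8) ^ 2 + (q + 3) ^ 2) <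
      (k + 8 + 3 + q) ^ 2 := by nlinarith
  exact_mod_cast h9

theorem ar_cx {m s N : ℕ} (hs : 23 ≤ s) (hm1 : 3 * s + 3 ≤ m)
    (hm2 : 10000 * m ≤ 31035 * s + 10000) (h : 2 * N ≤ (m + s - 1) * (m + s - 2)) :
    (m / 2) * (m + s - 1 - 3) + 3 * (m + s - 2) + N < (m + s - 1) ^ 2 := by
  obtain ⟨T, hT⟩ : ∃ T, m + s = T + 4 := ⟨m + s - 4, by omega⟩
  have e1 : m + s - 1 = T + 3 := by omega
  have e2 : m + s - 2 = T + 2 := by omega
  have e3 : T + 3 - 3 = T := by omega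
  have e4 : 2 * (m / 2) ≤ T := by omega
  rw [e1, e2] at h
  rw [e1, e2, e3]
  have h4 := Nat.mul_le_mul_right T e4
  nlinarith

end G
end ZS44129
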