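import Mathlib
import Pool.Agent.Work.MP_44129c_co.G.Defs

/-!
# MP_44129c_co/G, module Step: switches (size S-M)

## fill_step
Let `z` be the base of `Fill O H P X a`.  New base `z' = z + ∑_{j ∈ J} b j`.  Let `p' ∈ P'`.  By
`hrea` there are `f j ∈ U j` (`j ∈ J`) with `p := p' - ∑ f j ∈ P`.  `Fill` gives `y` with
`Att O X a y` and `y - (z + p) ∈ H`.  For `j ∈ J` there is `x ∈ Z j` with `b j + f j ∈ O x`
(`hb`), i.e. `Att O (Z j) 1 (b j + f j)`.  Adding them up (`Att.add`, induction on `J`, pairwise
disjoint sets) `Att O (X ∪ J.biUnion Z) (a + |J|) (y + ∑ (b j + f j))`, and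
`y + ∑ b j + ∑ f j - (z + ∑ b j + p') = y - (z + p) ∈ H`.

## match_lemma
Induction on `k`.  `k = 0`: nothing.  `k + 1`: `2k ≤ np + 1` holds too, so there are `k` switches;
let `U` be the union of their sets, `|U| ≤ 2k`.  If some `z ∈ Z \ U` has two options `o, o'` with
`o' - o ∉ P`, take `Z_k = {z}`, `b = o`, `d = o' - o`.  If all `z ∈ Z \ U` have their options in
one coset of `P` and there are `z ≠ z'` in `Z \ U` and options `o ∈ O z`, `o' ∈ O z'` with
`o' - o ∉ P`, take `Z_k = {z, z'}`, `b = o`, `d = o' - o`.  Otherwise there is `q` (an option of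
some `z ∈ Z \ U`, or any element if `Z \ U` is empty) such that all `z ∈ Z \ U` are pure in
`q + P`; so `np O q P Z ≤ |U| ≤ 2k`, but `2(k+1) ≤ np O q P Z + 1`: contradiction.
(Index set `Fin (k+1)`: use `Fin.snoc` or `Fin.cases`/`Fin.cons`; it may be easier to prove the
version with index set `Finset.range k` and functions on `ℕ`.)
-/

set_option autoImplicit false

namespace ZS44129
namespace G

open Finset

variable {ι κ A : Type} [AddCommGroup A]

private theorem att_union [DecidableEq ι] (O : ι → Finset A) (X : Finset ι) (a : ℕ) (y : A)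
    (hX : Att O X a y) (Z : κ → Finset ι) (g : κ → A) (J : Finset κ)
    (hd : ∀ j ∈ J, Disjoint X (Z j))
    (hdd : ∀ i ∈ J, ∀ j ∈ J, i ≠ j → Disjoint (Z i) (Z j)) (hg : ∀ j ∈ J, Att O (Z j) 1 (g j)) :
    Att O (X ∪ J.biUnion Z) (a + J.card) (y + ∑ j ∈ J, g j) := by
  classical
  induction J using Finset.induction_on with
  | empty => simpa using hX
  | insert j J hj ih =>
    have h1 := ih (fun i hi => hd i (Finset.mem_insert_of_mem hi))
      (fun i hi l hl hil => hdd i (Finset.mem_insert_of_mem hi) l (Finset.mem_insert_of_mem hl) hil)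
      (fun i hi => hg i (Finset.mem_insert_of_mem hi))
    have h2 := hg j (Finset.mem_insert_self j J)
    have h3 : Disjoint (X ∪ J.biUnion Z) (Z j) := by
      rw [Finset.disjoint_union_left]
      refine ⟨hd j (Finset.mem_insert_self j J), ?_⟩
      rw [Finset.disjoint_biUnion_left]
      intro i hi
      exact hdd i (Finset.mem_insert_of_mem hi) j (Finset.mem_insert_self j J)
        (fun h => hj (h ▸ hi))
    have h4 := h1.add h2 h3
    rw [Finset.card_insert_of_notMem hj, Finset.sum_insert hj, Finset.biUnion_insert]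
    have e1 : X ∪ (Z j ∪ J.biUnion Z) = X ∪ J.biUnion Z ∪ Z j := by
      rw [Finset.union_comm (Z j), Finset.union_assoc]
    have e2 : y + (g j + ∑ i ∈ J, g i) = y + ∑ i ∈ J, g i + g j := by abel
    rw [e1, e2, ← Nat.add_assoc]
    exact h4

theorem fill_step [DecidableEq ι] (O : ι → Finset A) (H P P' : AddSubgroup A) (X : Finset ι)
    (a : ℕ) (hF : Fill O H P X a) (J : Finset κ) (Z : κ → Finset ι) (b : κ → A)
    (U : κ → Finset A) (hd : ∀ j ∈ J, Disjoint X (Z j))
    (hdd : ∀ i ∈ J, ∀ j ∈ J, i ≠ j → Disjoint (Z i) (Z j))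
    (hb : ∀ j ∈ J, ∀ u ∈ U j, ∃ x ∈ Z j, b j + u ∈ O x) (hrea : ∀ y ∈ P', Rea P U J y) :
    Fill O H P' (X ∪ J.biUnion Z) (a + J.card) := by
  obtain ⟨z, hz⟩ := hF
  refine ⟨z + ∑ j ∈ J, b j, fun p' hp' => ?_⟩
  obtain ⟨f, hf, hs⟩ := hrea p' hp'
  obtain ⟨y, hy, hyH⟩ := hz _ hs
  refine ⟨y + ∑ j ∈ J, (b j + f j), att_union O X a y hy Z _ J hd hdd fun j hj => ?_, ?_⟩
  · obtain ⟨x, hx, hxo⟩ := hb j hj (f j) (hf j hj)
    refine ⟨{x}, Finset.singleton_subset_iff.2 hx, Finset.card_singleton x, fun _ => b j + f j,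
      fun x' hx' => ?_, Finset.sum_singleton _ _⟩
    rw [Finset.mem_singleton.1 hx']
    exact hxo
  · have e : y + ∑ j ∈ J, (b j + f j) - (z + ∑ j ∈ J, b j + p') =
        y - (z + (p' - ∑ j ∈ J, f j)) := by
      rw [Finset.sum_add_distrib]
      abel
    rw [e]
    exact hyH

private theorem match_nat (O : ι → Finset A) (P : AddSubgroup A) (Z : Finset ι)
    (hne : ∀ z ∈ Z, (O z).Nonempty) (k : ℕ) (h : ∀ q, 2 * k ≤ np O q P Z + 1) :
    ∃ (S : ℕ → Finset ι) (b d : ℕ → A), (∀ i < k, S i ⊆ Z) ∧ (∀ i < k, (S i).card ≤ 2) ∧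
      (∀ i < k, ∀ j < k, i ≠ j → Disjoint (S i) (S j)) ∧ (∀ i < k, ∃ x ∈ S i, b i ∈ O x) ∧
      (∀ i < k, ∃ x ∈ S i, b i + d i ∈ O x) ∧ ∀ i < k, d i ∉ P := by
  classical
  induction k with
  | zero =>
    exact ⟨fun _ => ∅, fun _ => 0, fun _ => 0, fun i hi => absurd hi (Nat.not_lt_zero i),
      fun i hi => absurd hi (Nat.not_lt_zero i), fun i hi => absurd hi (Nat.not_lt_zero i),
      fun i hi => absurd hi (Nat.not_lt_zero i), fun i hi => absurd hi (Nat.not_lt_zero i),
      fun i hi => absurd hi (Nat.not_lt_zero i)⟩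
  | succ k ih =>
    obtain ⟨S, b, d, h1, h2, h3, h4, h5, h6⟩ := ih fun q => by have := h q; omega
    set U : Finset ι := (Finset.range k).biUnion S with hU
    have hUc : U.card ≤ k * 2 := by
      have := Finset.card_biUnion_le_card_mul (Finset.range k) S 2
        fun i hi => h2 i (Finset.mem_range.1 hi)
      rwa [Finset.card_range] at this
    by_cases hex : ∃ z ∈ Z \ U, ∃ z' ∈ Z \ U, ∃ o ∈ O z, ∃ o' ∈ O z', o' - o ∉ P
    · obtain ⟨z, hz, z', hz', o, ho, o', ho', hP⟩ := hex
      have hT : ∀ i < k, Disjoint (S i) ({z, z'} : Finset ι) := by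
        intro i hi
        rw [Finset.disjoint_right]
        intro x hx hxS
        have hxU : x ∈ U := Finset.mem_biUnion.2 ⟨i, Finset.mem_range.2 hi, hxS⟩
        rcases Finset.mem_insert.1 hx with rfl | hx
        · exact (Finset.mem_sdiff.1 hz).2 hxU
        · rw [Finset.mem_singleton.1 hx] at hxU
          exact (Finset.mem_sdiff.1 hz').2 hxU
      have hlt : ∀ i < k + 1, i < k ∨ i = k := fun i hi => by omega
      refine ⟨fun i => if i < k then S i else {z, z'}, fun i => if i < k then b i else o,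
        fun i => if i < k then d i else o' - o, ?_, ?_, ?_, ?_, ?_, ?_⟩
      · intro i hi
        rcases hlt i hi with hik | rfl
        · simp only [hik, if_true]
          exact h1 i hik
        · simp only [lt_irrefl, if_false]
          intro x hx
          rcases Finset.mem_insert.1 hx with rfl | hx
          · exact (Finset.mem_sdiff.1 hz).1
          · rw [Finset.mem_singleton.1 hx]
            exact (Finset.mem_sdiff.1 hz').1
      · intro i hi
        rcases hlt i hi with hik | rfl
        · simp only [hik, if_true]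
          exact h2 i hik
        · simp only [lt_irrefl, if_false]
          exact Finset.card_le_two
      · intro i hi j hj hij
        rcases hlt i hi with hik | rfl
        · rcases hlt j hj with hjk | rfl
          · simp only [hik, hjk, if_true]
            exact h3 i hik j hjk hij
          · simp only [hik, if_true, lt_irrefl, if_false]
            exact hT i hik
        · rcases hlt j hj with hjk | rfl
          · simp only [hjk, if_true, lt_irrefl, if_false]
            exact (hT j hjk).symm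
          · exact absurd rfl hij
      · intro i hi
        rcases hlt i hi with hik | rfl
        · simp only [hik, if_true]
          exact h4 i hik
        · simp only [lt_irrefl, if_false]
          exact ⟨z, Finset.mem_insert_self z _, ho⟩
      · intro i hi
        rcases hlt i hi with hik | rfl
        · simp only [hik, if_true]
          exact h5 i hik
        · simp only [lt_irrefl, if_false]
          refine ⟨z', Finset.mem_insert_of_mem (Finset.mem_singleton_self z'), ?_⟩
          rw [add_sub_cancel]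
          exact ho'
      · intro i hi
        rcases hlt i hi with hik | rfl
        · simp only [hik, if_true]
          exact h6 i hik
        · simp only [lt_irrefl, if_false]
          exact hP
    · exfalso
      have hq : ∃ q, ∀ z ∈ Z \ U, Pur O q P z := by
        by_cases hem : (Z \ U).Nonempty
        · obtain ⟨z, hz⟩ := hem
          obtain ⟨o, ho⟩ := hne z (Finset.mem_sdiff.1 hz).1
          refine ⟨o, fun z' hz' o' ho' => ?_⟩
          by_contra hcon
          exact hex ⟨z, hz, z', hz', o, ho, o', ho', hcon⟩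
        · exact ⟨0, fun z hz => absurd ⟨z, hz⟩ hem⟩
      obtain ⟨q, hq⟩ := hq
      have h7 : np O q P Z ≤ U.card := by
        unfold np
        refine Finset.card_le_card fun x hx => ?_
        obtain ⟨hx1, hx2⟩ := Finset.mem_filter.1 hx
        by_contra hxU
        exact hx2 (hq x (Finset.mem_sdiff.2 ⟨hx1, hxU⟩))
      have := h q
      omega

theorem match_lemma (O : ι → Finset A) (P : AddSubgroup A) (Z : Finset ι)
    (hne : ∀ z ∈ Z, (O z).Nonempty) (k : ℕ) (h : ∀ q, 2 * k ≤ np O q P Z + 1) :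
    ∃ (S : Fin k → Finset ι) (b d : Fin k → A), (∀ i, S i ⊆ Z) ∧ (∀ i, (S i).card ≤ 2) ∧
      (∀ i j, i ≠ j → Disjoint (S i) (S j)) ∧ (∀ i, ∃ x ∈ S i, b i ∈ O x) ∧
      (∀ i, ∃ x ∈ S i, b i + d i ∈ O x) ∧ ∀ i, d i ∉ P := by
  obtain ⟨S, b, d, h1, h2, h3, h4, h5, h6⟩ := match_nat O P Z hne k h
  exact ⟨fun i => S i, fun i => b i, fun i => d i, fun i => h1 i i.2, fun i => h2 i i.2,
    fun i j hij => h3 i i.2 j j.2 fun h => hij (Fin.ext h), fun i => h4 i i.2,
    fun i => h5 i i.2, fun i => h6 i i.2⟩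

/-- how the sizes in `Filled` change in one step (proved). -/
theorem size_step (h p p' S a j S' : ℕ) (hhp : h ≤ p) (s1 : (S + 2) * h ≤ 2 * p)
    (s2 : (a + 1) * h ≤ p) (s3 : (S + 1) * h ≤ a * h + p) (hj : (j + 1) * p ≤ p')
    (hS : S' ≤ S + 2 * j) :
    (S' + 2) * h ≤ 2 * p' ∧ (a + j + 1) * h ≤ p' ∧ (S' + 1) * h ≤ (a + j) * h + p' := by
  have h1 : j * h ≤ j * p := Nat.mul_le_mul_left j hhp
  have h2 : S' * h ≤ (S + 2 * j) * h := Nat.mul_le_mul_right h hS
  refine ⟨?_, ?_, ?_⟩ <;> nlinarith

end G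
end ZS44129
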