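import Mathlib
import Pool.Agent.Work.MP_44129c_co.G.Ext
import Pool.Agent.Work.MP_44129c_co.G.Step

/-!
# MP_44129c_co/G, module Asc: the ascending stage (size M)

Given: `R` is filled (mod `H`) by `S`, and there is a set `W` of spare partners (pure in `r + R`,
disjoint from `S`), `|W| + 1 ≥ [Top : R]`.

Proof.  Consider the subgroups `P`, `R ≤ P ≤ Top`, for which there are `E, F : Finset ι` and `a'`
such that, with `S' = S ∪ F ∪ E`:
`F ⊆ W`, `E ⊆ X`, every `x ∈ E` is not pure in `r + R` but pure in `r + P`,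
`(|E| + 1)|R| ≤ |P|`, `(|F| + 1)|R| ≤ |P|`, `Filled O H P r S' a'`.
(`P = R`, `E = F = ∅` is one.)  Choose one with `Nat.card P` maximal.  If `P = Top` or
`(np O r P X + 2)|P| ≤ |Top|` we are done (`S' \ (S ∪ W) ⊆ E`).  Suppose not, so `P < Top` and
`(np O r P X + 2)|P| > |Top|`, i.e. `np O r P X ≥ k := [Top : P] - 1`.
(1) Choose `k` positions `e_1, ..., e_k` of `X` which are not pure in `r + P`; they are not in
`S'` (all of `S'` is pure in `r + P`), and not in `W` (pure in `r + R`).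
(2) Choose `k` distinct `w_1, ..., w_k ∈ W \ F`: `|W| - |F| ≥ k` since (units of `|R|`:
`[Top:R] = a b`, `[P:R] = a`, `[Top:P] = b`) `|W| - |F| ≥ (ab - 1) - (a - 1) = a(b-1) ≥ b - 1`.
(3) Switches `j = 1..k`: `Z_j = {e_j, w_j}`, base `b_j` := an option of `w_j` (`O` nonempty as
`W ⊆ X`), `U_j = {0} ∪ {o - b_j : o ∈ O e_j}`; `U_j ⊆ Top` (all of `X` is pure in `r + Top`), and
`U_j ⊄ P`: some option `o` of `e_j` has `o - r ∉ P` while `b_j - r ∈ R ≤ P`.
(4) `ext_lemma` for `P < Top` (`|Top| = (k+1)|P|`): `P < P' ≤ Top`, `J`, `(|J|+1)|P| ≤ |P'|`,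
`U_j ⊆ P'` for `j ∈ J`, so `e_j` is pure in `r + P'` (`o - r = (o - b_j) + (b_j - r)`): this is
why the base is taken in `r + R`.
(5) `fill_step` gives `Fill O H P' (S' ∪ J.biUnion Z) (a' + |J|)`; sizes by `size_step`
(`h = |H| ≤ |P|`, new set has at most `|S'| + 2|J|` elements); purity: `w_j`, `S'` are pure in
`r + P ⊆ r + P'`.  New `E' = E ∪ {e_j : j ∈ J}`, `F' = F ∪ {w_j : j ∈ J}`:
`(|E| + |J| + 1)|R| ≤ |P| + |J||R| ≤ (|J|+1)|P| ≤ |P'|`.  Contradiction to the maximality.
-/

set_option autoImplicit false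

namespace ZS44129
namespace G

open Finset

variable {ι A : Type} [DecidableEq ι] [AddCommGroup A] [Finite A]

omit [DecidableEq ι] [Finite A] in
private theorem pur_mono {O : ι → Finset A} {r : A} {P P' : AddSubgroup A} (h : P ≤ P') {x : ι}
    (hx : Pur O r P x) : Pur O r P' x := fun o ho => h (hx o ho)

/-- the property of the subgroups among which a maximal one is chosen. -/
private def Good (O : ι → Finset A) (H R Top : AddSubgroup A) (r : A) (X S W : Finset ι)
    (P : AddSubgroup A) : Prop :=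
  R ≤ P ∧ P ≤ Top ∧ ∃ (E F : Finset ι) (a' : ℕ), F ⊆ W ∧ E ⊆ X ∧
    (∀ x ∈ E, ¬ Pur O r R x ∧ Pur O r P x) ∧ (E.card + 1) * Nat.card R ≤ Nat.card P ∧
    (F.card + 1) * Nat.card R ≤ Nat.card P ∧ Filled O H P r (S ∪ F ∪ E) a'

private theorem good_step (O : ι → Finset A) (H R Top : AddSubgroup A) (r : A)
    (X : Finset ι) (hne : ∀ x ∈ X, (O x).Nonempty) (hX : ∀ x ∈ X, Pur O r Top x)
    (S : Finset ι) (W : Finset ι) (hWX : W ⊆ X)
    (hSW : Disjoint S W) (hWp : ∀ x ∈ W, Pur O r R x)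
    (hWc : Nat.card Top ≤ (W.card + 1) * Nat.card R) (P : AddSubgroup A)
    (hP : Good O H R Top r X S W P) (hne' : P ≠ Top)
    (hnp : ¬ (np O r P X + 2) * Nat.card P ≤ Nat.card Top) :
    ∃ P', Good O H R Top r X S W P' ∧ P < P' := by
  classical
  obtain ⟨hRP, hPT, E, F, a', hFW, hEX, hE, hEc, hFc, hF⟩ := hP
  have hlt : P < Top := lt_of_le_of_ne hPT hne'
  obtain ⟨b, hb⟩ := AddSubgroup.card_dvd_of_le hPT
  obtain ⟨c, hc⟩ := AddSubgroup.card_dvd_of_le hRP
  have hR0 : 0 < Nat.card R := Nat.card_pos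
  have hP0 : 0 < Nat.card P := Nat.card_pos
  have hT0 : 0 < Nat.card Top := Nat.card_pos
  have hb0 : 0 < b := Nat.pos_of_ne_zero (by rintro rfl; rw [mul_zero] at hb; omega)
  have hbnp : b < np O r P X + 2 := by
    rw [not_le, hb, mul_comm (Nat.card P) b] at hnp
    exact Nat.lt_of_mul_lt_mul_right hnp
  -- the positions `e`
  obtain ⟨J0, hJ0, hJ0c⟩ := Finset.exists_subset_card_eq
    (s := X.filter (fun x => ¬ Pur O r P x)) (n := b - 1) (by
      have : np O r P X = (X.filter (fun x => ¬ Pur O r P x)).card := by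
        unfold np
        congr
      omega)
  have hJ0X : ∀ x ∈ J0, x ∈ X := fun x hx => (Finset.mem_filter.1 (hJ0 hx)).1
  have hJ0n : ∀ x ∈ J0, ¬ Pur O r P x := fun x hx => (Finset.mem_filter.1 (hJ0 hx)).2
  -- the spare partners
  have hWF : b - 1 ≤ (W \ F).card := by
    have h1 : (W \ F).card = W.card - F.card := Finset.card_sdiff_of_subset hFW
    have h2 : F.card + 1 ≤ c := by
      rw [hc, mul_comm (Nat.card R) c] at hFc
      exact Nat.le_of_mul_le_mul_right hFc hR0
    have h3 : c * b ≤ W.card + 1 := by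
      rw [hb, hc, mul_assoc, mul_comm (Nat.card R)] at hWc
      exact Nat.le_of_mul_le_mul_right hWc hR0
    rw [h1]
    obtain ⟨b', rfl⟩ : ∃ b', b = b' + 1 := ⟨b - 1, by omega⟩
    obtain ⟨c', rfl⟩ : ∃ c', c = c' + 1 := ⟨c - 1, by omega⟩
    have h4 : (c' + 1) * (b' + 1) = c' * b' + b' + c' + 1 := by ring
    rw [h4] at h3
    have h5 : 0 ≤ c' * b' := Nat.zero_le _
    omega
  obtain ⟨W0, hW0, hW0c⟩ := Finset.exists_subset_card_eq hWF
  have hcard0 : J0.card = W0.card := by rw [hJ0c, hW0c]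
  let e : J0 ≃ W0 := Finset.equivOfCardEq hcard0
  let w : ι → ι := fun x => if h : x ∈ J0 then (e ⟨x, h⟩ : ι) else x
  have hw : ∀ x ∈ J0, w x ∈ W0 := by
    intro x hx
    simp only [w, hx, dif_pos]
    exact (e ⟨x, hx⟩).2
  have hwinj : ∀ x ∈ J0, ∀ y ∈ J0, w x = w y → x = y := by
    intro x hx y hy hxy
    simp only [w, hx, hy, dif_pos] at hxy
    have h1 := e.injective (Subtype.ext hxy)
    exact congrArg Subtype.val h1
  have hwW : ∀ x ∈ J0, w x ∈ W := fun x hx => (Finset.mem_sdiff.1 (hW0 (hw x hx))).1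
  have hwF : ∀ x ∈ J0, w x ∉ F := fun x hx => (Finset.mem_sdiff.1 (hW0 (hw x hx))).2
  let bs : ι → A := fun x => if h : (O (w x)).Nonempty then h.choose else 0
  have hbs : ∀ x ∈ J0, bs x ∈ O (w x) := by
    intro x hx
    have h1 := hne _ (hWX (hwW x hx))
    simp only [bs, h1, dif_pos]
    exact h1.choose_spec
  let U : ι → Finset A := fun x => insert 0 ((O x).image (fun o => o - bs x))
  have hU0 : ∀ x, (0 : A) ∈ U x := fun x => Finset.mem_insert_self _ _
  have hUm : ∀ x u, u ∈ U x → u = 0 ∨ ∃ o ∈ O x, o - bs x = u := by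
    intro x u hu
    rcases Finset.mem_insert.1 hu with h | h
    · exact Or.inl h
    · exact Or.inr (Finset.mem_image.1 h)
  have hUo : ∀ x, ∀ o ∈ O x, o - bs x ∈ U x := fun x o ho =>
    Finset.mem_insert_of_mem (Finset.mem_image_of_mem _ ho)
  have hbr : ∀ x ∈ J0, bs x - r ∈ R := fun x hx => hWp _ (hwW x hx) _ (hbs x hx)
  obtain ⟨P', J, hPP', hP'T, hJJ, hJc, hJU, hJr⟩ := ext_lemma P Top hlt U J0
    (fun x _ => hU0 x) (by
      intro x hx u hu
      rcases hUm x u hu with h | ⟨o, ho, h⟩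
      · rw [h]
        exact Top.zero_mem
      · rw [← h]
        have h1 := Top.sub_mem (hX x (hJ0X x hx) o ho) (hPT (hRP (hbr x hx)))
        rwa [sub_sub_sub_cancel_right] at h1) (by
      intro x hx
      have h1 := hJ0n x hx
      unfold Pur at h1
      push Not at h1
      obtain ⟨o, ho, hoP⟩ := h1
      refine ⟨o - bs x, hUo x o ho, fun h2 => hoP ?_⟩
      have h3 := P.add_mem h2 (hRP (hbr x hx))
      rwa [sub_add_sub_cancel] at h3) (by
      rw [hJ0c, hb, mul_comm (Nat.card P) b]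
      exact Nat.mul_le_mul_right _ (by omega))
  let Z : ι → Finset ι := fun x => {x, w x}
  have hnotP : ∀ x ∈ J0, x ∉ S ∪ F ∪ E := fun x hx h => hJ0n x hx (hF.pur x h)
  have hwnot : ∀ x ∈ J0, w x ∉ S ∪ F ∪ E := by
    intro x hx h
    rcases Finset.mem_union.1 h with h | h
    · rcases Finset.mem_union.1 h with h | h
      · exact Finset.disjoint_left.1 hSW h (hwW x hx)
      · exact hwF x hx h
    · exact (hE _ h).1 (hWp _ (hwW x hx))
  have hxw : ∀ x ∈ J0, ∀ y ∈ J0, x ≠ w y := by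
    intro x hx y hy h
    apply hJ0n x hx
    rw [h]
    exact pur_mono hRP (hWp _ (hwW y hy))
  have hfill := fill_step O H P P' (S ∪ F ∪ E) a' hF.fill J Z bs U (by
      intro j hj
      rw [Finset.disjoint_right]
      intro x hx
      rcases Finset.mem_insert.1 hx with rfl | hx
      · exact hnotP _ (hJJ hj)
      · rw [Finset.mem_singleton.1 hx]
        exact hwnot _ (hJJ hj)) (by
      intro i hi j hj hij
      rw [Finset.disjoint_left]
      intro x hx hx'
      have hi0 := hJJ hi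
      have hj0 := hJJ hj
      rcases Finset.mem_insert.1 hx with h | h
      · rcases Finset.mem_insert.1 hx' with h' | h'
        · exact hij (h.symm.trans h')
        · exact hxw i hi0 j hj0 (h.symm.trans (Finset.mem_singleton.1 h'))
      · rcases Finset.mem_insert.1 hx' with h' | h'
        · exact hxw j hj0 i hi0 (h'.symm.trans (Finset.mem_singleton.1 h))
        · exact hij (hwinj i hi0 j hj0
            ((Finset.mem_singleton.1 h).symm.trans (Finset.mem_singleton.1 h')))) (by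
      intro j hj u hu
      rcases hUm j u hu with h | ⟨o, ho, h⟩
      · refine ⟨w j, Finset.mem_insert_of_mem (Finset.mem_singleton_self _), ?_⟩
        rw [h, add_zero]
        exact hbs j (hJJ hj)
      · refine ⟨j, Finset.mem_insert_self _ _, ?_⟩
        rw [← h, add_sub_cancel]
        exact ho) hJr
  have hset : S ∪ (F ∪ J.image w) ∪ (E ∪ J) = S ∪ F ∪ E ∪ J.biUnion Z := by
    ext x
    simp only [Finset.mem_union, Finset.mem_image, Finset.mem_biUnion, Z, Finset.mem_insert,
      Finset.mem_singleton]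
    constructor
    · rintro ((h | (h | ⟨j, hj, rfl⟩)) | (h | h))
      · exact Or.inl (Or.inl (Or.inl h))
      · exact Or.inl (Or.inl (Or.inr h))
      · exact Or.inr ⟨j, hj, Or.inr rfl⟩
      · exact Or.inl (Or.inr h)
      · exact Or.inr ⟨x, h, Or.inl rfl⟩
    · rintro (((h | h) | h) | ⟨j, hj, rfl | rfl⟩)
      · exact Or.inl (Or.inl h)
      · exact Or.inl (Or.inr (Or.inl h))
      · exact Or.inr (Or.inl h)
      · exact Or.inr (Or.inr hj)
      · exact Or.inl (Or.inr (Or.inr ⟨j, hj, rfl⟩))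
  have hJpur : ∀ x ∈ J, Pur O r P' x := by
    intro x hx o ho
    have h1 := hJU x hx _ (hUo x o ho)
    have h2 := hPP'.le (hRP (hbr x (hJJ hx)))
    have h3 := P'.add_mem h1 h2
    rwa [sub_add_sub_cancel] at h3
  have hHP : Nat.card H ≤ Nat.card P :=
    Nat.le_of_dvd hP0 (AddSubgroup.card_dvd_of_le hF.le)
  have hRPc : Nat.card R ≤ Nat.card P :=
    Nat.le_of_dvd hP0 (AddSubgroup.card_dvd_of_le hRP)
  have hsz := size_step (Nat.card H) (Nat.card P) (Nat.card P') (S ∪ F ∪ E).card a' J.card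
    (S ∪ F ∪ E ∪ J.biUnion Z).card hHP hF.s1 hF.s2 hF.s3 hJc (by
      refine (Finset.card_union_le _ _).trans (Nat.add_le_add_left ?_ _)
      have h1 := Finset.card_biUnion_le_card_mul J Z 2 fun i _ => Finset.card_le_two
      rwa [mul_comm] at h1)
  refine ⟨P', ⟨hRP.trans hPP'.le, hP'T, E ∪ J, F ∪ J.image w, a' + J.card, ?_, ?_, ?_, ?_, ?_,
    ?_⟩, hPP'⟩
  · refine Finset.union_subset hFW fun x hx => ?_
    obtain ⟨j, hj, rfl⟩ := Finset.mem_image.1 hx
    exact hwW j (hJJ hj)
  · exact Finset.union_subset hEX fun x hx => hJ0X x (hJJ hx)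
  · intro x hx
    rcases Finset.mem_union.1 hx with h | h
    · exact ⟨(hE x h).1, pur_mono hPP'.le (hE x h).2⟩
    · exact ⟨fun h1 => hJ0n x (hJJ h) (pur_mono hRP h1), hJpur x h⟩
  · have h1 : (E ∪ J).card ≤ E.card + J.card := Finset.card_union_le _ _
    calc ((E ∪ J).card + 1) * Nat.card R ≤ (E.card + J.card + 1) * Nat.card R :=
          Nat.mul_le_mul_right _ (by omega)
      _ = (E.card + 1) * Nat.card R + J.card * Nat.card R := by ring
      _ ≤ Nat.card P + J.card * Nat.card P :=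
          Nat.add_le_add hEc (Nat.mul_le_mul_left _ hRPc)
      _ = (J.card + 1) * Nat.card P := by ring
      _ ≤ Nat.card P' := hJc
  · have h1 : (F ∪ J.image w).card ≤ F.card + J.card :=
      (Finset.card_union_le _ _).trans (Nat.add_le_add_left Finset.card_image_le _)
    calc ((F ∪ J.image w).card + 1) * Nat.card R ≤ (F.card + J.card + 1) * Nat.card R :=
          Nat.mul_le_mul_right _ (by omega)
      _ = (F.card + 1) * Nat.card R + J.card * Nat.card R := by ring
      _ ≤ Nat.card P + J.card * Nat.card P :=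
          Nat.add_le_add hFc (Nat.mul_le_mul_left _ hRPc)
      _ = (J.card + 1) * Nat.card P := by ring
      _ ≤ Nat.card P' := hJc
  · rw [hset]
    refine ⟨hF.le.trans hPP'.le, ?_, hfill, hsz.1, hsz.2.1, hsz.2.2⟩
    intro x hx
    rcases Finset.mem_union.1 hx with h | h
    · exact pur_mono hPP'.le (hF.pur x h)
    · obtain ⟨j, hj, hx⟩ := Finset.mem_biUnion.1 h
      rcases Finset.mem_insert.1 hx with rfl | hx
      · exact hJpur _ hj
      · rw [Finset.mem_singleton.1 hx]
        exact pur_mono (hRP.trans hPP'.le) (hWp _ (hwW j (hJJ hj)))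

theorem asc_lemma (O : ι → Finset A) (H R Top : AddSubgroup A) (hRT : R ≤ Top) (r : A)
    (X : Finset ι) (hne : ∀ x ∈ X, (O x).Nonempty) (hX : ∀ x ∈ X, Pur O r Top x)
    (S : Finset ι) (a : ℕ) (hSX : S ⊆ X) (hF : Filled O H R r S a) (W : Finset ι) (hWX : W ⊆ X)
    (hSW : Disjoint S W) (hWp : ∀ x ∈ W, Pur O r R x)
    (hWc : Nat.card Top ≤ (W.card + 1) * Nat.card R) :
    ∃ (P : AddSubgroup A) (S' : Finset ι) (a' : ℕ), R ≤ P ∧ P ≤ Top ∧ S' ⊆ X ∧
      Filled O H P r S' a' ∧ (∀ x ∈ S', x ∈ S ∨ x ∈ W ∨ ¬ Pur O r R x) ∧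
      ((S' \ (S ∪ W)).card + 1) * Nat.card R ≤ Nat.card P ∧
      (P = Top ∨ (np O r P X + 2) * Nat.card P ≤ Nat.card Top) := by
  have h0 : {P : AddSubgroup A | Good O H R Top r X S W P}.Nonempty := by
    refine ⟨R, le_rfl, hRT, ∅, ∅, a, Finset.empty_subset _, Finset.empty_subset _, ?_, ?_, ?_, ?_⟩
    · intro x hx
      exact absurd hx (Finset.notMem_empty x)
    · rw [Finset.card_empty, zero_add, one_mul]
    · rw [Finset.card_empty, zero_add, one_mul]
    · rw [Finset.union_empty, Finset.union_empty]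
      exact hF
  obtain ⟨P, hP, hmax⟩ := Set.exists_max_image {P : AddSubgroup A | Good O H R Top r X S W P}
    (fun P => Nat.card P) (Set.toFinite _) h0
  by_cases hdone : P = Top ∨ (np O r P X + 2) * Nat.card P ≤ Nat.card Top
  · obtain ⟨hRP, hPT, E, F, a', hFW, hEX, hE, hEc, hFc, hF'⟩ := hP
    refine ⟨P, S ∪ F ∪ E, a', hRP, hPT, ?_, hF', ?_, ?_, hdone⟩
    · exact Finset.union_subset (Finset.union_subset hSX (hFW.trans hWX)) hEX
    · intro x hx
      rcases Finset.mem_union.1 hx with h | h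
      · rcases Finset.mem_union.1 h with h | h
        · exact Or.inl h
        · exact Or.inr (Or.inl (hFW h))
      · exact Or.inr (Or.inr (hE x h).1)
    · refine le_trans (Nat.mul_le_mul_right _ (Nat.add_le_add_right (Finset.card_le_card ?_) 1)) hEc
      intro x hx
      obtain ⟨hx1, hx2⟩ := Finset.mem_sdiff.1 hx
      rcases Finset.mem_union.1 hx1 with h | h
      · rcases Finset.mem_union.1 h with h | h
        · exact absurd (Finset.mem_union_left _ h) hx2
        · exact absurd (Finset.mem_union_right _ (hFW h)) hx2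
      · exact h
  · exfalso
    rw [not_or] at hdone
    obtain ⟨P', hP', hlt⟩ := good_step O H R Top r X hne hX S W hWX hSW hWp hWc P hP hdone.1
      hdone.2
    have h1 := hmax P' hP'
    exact hlt.ne (AddSubgroup.eq_of_le_of_card_ge hlt.le h1)

end G
end ZS44129
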