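import Mathlib
import Pool.Agent.Work.MP_44129c_co.G.Ext
import Pool.Agent.Work.MP_44129c_co.G.Step

/-!
# MP_44129c_co/G, module Desc: the descending stage (size M)

Write `h = |H|` and, for a subgroup `L ≥ H`, `|L| = λ h`.

Proof.  Consider the pairs `(R, r)` with `H ≤ R ≤ Top`, `r - q ∈ Top` and
`np O r R Y * h + 2|R| ≤ 2|Top|` (`(Top, q)` is one, as `np O q Top Y = 0`); choose one with
`Nat.card R` minimal.  `Ω = {x ∈ Y : Pur O r R x}`.
Consider the subgroups `P`, `H ≤ P ≤ R`, for which there are `S ⊆ Ω` and `a` with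
`Fill O H P S a`, `(|S|+2)h ≤ 2|P|`, `(a+1)h ≤ |P|`, `(|S|+1)h ≤ a h + |P|`
(`P = H`, `S = ∅`, `a = 0` is one, `fill_bot`); choose one with `Nat.card P` maximal.
CLAIM `P = R` (then we are done: `S ⊆ Ω` gives `pur`).  Suppose `P < R`.
(1) For every `q' : A`: `np O q' P Y * h + 2|P| ≥ 2|Top| + h`.  If `q' - q ∈ Top` this is the
minimality of `R` (`>` , and all terms are divisible by `h`).  If `q' - q ∉ Top` then no `x ∈ Y` is
pure in `q' + P` (an option `o` has `o - q ∈ Top`), so `np O q' P Y = |Y| ≥ np O r P Y`.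
(2) For every `q'`, with `Z = Ω \\ S`: `np O q' P Z ≥ np O q' P Y - np O r R Y - |S|`, so in units
of `h` (`|Top| = τ h`, `|R| = ρ h`, `|P| = π h`, `ρ = i π`, `i ≥ 2`):
`np O q' P Z ≥ (2τ - 2π + 1) - (2τ - 2ρ) - (2π - 2) = 2π(i - 2) + 3 ≥ 2(i-2) + 3 ≥ 2(i-1) - 1`.
(3) `match_lemma` for `Z`, `k = i - 1`: switches `(S_j, b_j, d_j)`, `d_j ∉ P`, `d_j ∈ R` (both
`b_j` and `b_j + d_j` are options of positions pure in `r + R`).
(4) `ext_lemma` with `Top := R`, `U_j = {0, d_j}`, `I = univ : Finset (Fin k)`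
(`|R| = (k+1)|P|`): `P < P' ≤ R`, `J` with `(|J|+1)|P| ≤ |P'|`.
(5) `fill_step` gives `Fill O H P' (S ∪ J.biUnion S_j) (a + |J|)`; the sizes are right by
`size_step` (`|S'| ≤ |S| + 2|J|`).  This contradicts the maximality of `|P|`.
-/

set_option autoImplicit false

namespace ZS44129
namespace G

open Finset

variable {ι A : Type} [AddCommGroup A] [Finite A]

private theorem desc_np_top (O : ι → Finset A) (Top : AddSubgroup A) (q : A) (Y : Finset ι)
    (hY : ∀ x ∈ Y, Pur O q Top x) : np O q Top Y = 0 := by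
  classical
  unfold np
  rw [Finset.card_eq_zero, Finset.filter_eq_empty_iff]
  intro x hx h
  exact h (hY x hx)

private theorem desc_np_split (O : ι → Finset A) (R P : AddSubgroup A) (r q' : A)
    (Y S Z : Finset ι) (h : ∀ x ∈ Y, Pur O r R x → x ∈ S ∨ x ∈ Z) :
    np O q' P Y ≤ np O q' P Z + np O r R Y + S.card := by
  classical
  unfold np
  refine le_trans (Finset.card_le_card ?_) (le_trans (Finset.card_union_le _ _)
    (Nat.add_le_add_right (Finset.card_union_le _ _) _))
  intro x hx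
  rw [Finset.mem_filter] at hx
  rw [Finset.mem_union, Finset.mem_union, Finset.mem_filter, Finset.mem_filter]
  by_cases hp : Pur O r R x
  · rcases h x hx.1 hp with h1 | h1
    · exact Or.inr h1
    · exact Or.inl (Or.inl ⟨h1, hx.2⟩)
  · exact Or.inl (Or.inr ⟨hx.1, hp⟩)

private theorem desc_np_all (O : ι → Finset A) (P : AddSubgroup A) (q' : A) (Y : Finset ι)
    (h : ∀ x ∈ Y, ¬ Pur O q' P x) : np O q' P Y = Y.card := by
  classical
  unfold np
  congr 1
  rw [Finset.filter_eq_self]
  exact h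

private theorem desc_np_le (O : ι → Finset A) (P : AddSubgroup A) (q' : A) (Y : Finset ι) :
    np O q' P Y ≤ Y.card := by
  classical
  unfold np
  exact Finset.card_filter_le _ _

theorem desc_lemma (O : ι → Finset A) (H Top : AddSubgroup A) (hHT : H ≤ Top) (q : A)
    (Y : Finset ι) (hne : ∀ x ∈ Y, (O x).Nonempty) (hY : ∀ x ∈ Y, Pur O q Top x) :
    ∃ (R : AddSubgroup A) (r : A) (S : Finset ι) (a : ℕ), R ≤ Top ∧ r - q ∈ Top ∧ S ⊆ Y ∧
      Filled O H R r S a ∧ np O r R Y * Nat.card H + 2 * Nat.card R ≤ 2 * Nat.card Top := by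
  classical
  have hh : 0 < Nat.card H := Nat.card_pos
  -- the pair `(R, r)`
  let PP : Set (AddSubgroup A × A) := {x | H ≤ x.1 ∧ x.1 ≤ Top ∧ x.2 - q ∈ Top ∧
    np O x.2 x.1 Y * Nat.card H + 2 * Nat.card x.1 ≤ 2 * Nat.card Top}
  have hPP : PP.Nonempty := by
    refine ⟨(Top, q), hHT, le_refl _, ?_, ?_⟩
    · rw [sub_self]
      exact Top.zero_mem
    · rw [desc_np_top O Top q Y hY]
      simp
  obtain ⟨⟨R, r⟩, hRr, hRmin⟩ := Set.exists_min_image PP (fun x => Nat.card x.1)
    (Set.toFinite _) hPP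
  obtain ⟨hHR, hRT, hrq, hRn⟩ := hRr
  simp only at hHR hRT hrq hRn hRmin
  set Ω : Finset ι := Y.filter (fun x => Pur O r R x) with hΩ
  have hΩm : ∀ x, x ∈ Ω ↔ x ∈ Y ∧ Pur O r R x := fun x => by rw [hΩ, Finset.mem_filter]
  let QQ : Set (AddSubgroup A) := {P | H ≤ P ∧ P ≤ R ∧ ∃ (S : Finset ι) (a : ℕ), S ⊆ Ω ∧
    Fill O H P S a ∧ (S.card + 2) * Nat.card H ≤ 2 * Nat.card P ∧
    (a + 1) * Nat.card H ≤ Nat.card P ∧ (S.card + 1) * Nat.card H ≤ a * Nat.card H + Nat.card P}
  have hQQ : QQ.Nonempty := by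
    refine ⟨H, le_refl _, hHR, ∅, 0, Finset.empty_subset _, fill_bot O H, ?_, ?_, ?_⟩
    · simp
    · simp
    · simp
  obtain ⟨P, hPQ, hPmax⟩ := Set.exists_max_image QQ (fun x => Nat.card x) (Set.toFinite _) hQQ
  obtain ⟨hHP, hPR, S, a, hSΩ, hF, s1, s2, s3⟩ := hPQ
  have hmain : P = R := by
    by_contra hne'
    have hlt : P < R := lt_of_le_of_ne hPR hne'
    obtain ⟨π, hπ⟩ := AddSubgroup.card_dvd_of_le hHP
    obtain ⟨τ, hτ⟩ := AddSubgroup.card_dvd_of_le hHT
    obtain ⟨i, hi⟩ := AddSubgroup.card_dvd_of_le hPR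
    have hPpos : 0 < Nat.card P := Nat.card_pos
    have hcardlt : Nat.card P < Nat.card R := by
      rcases lt_or_ge (Nat.card P) (Nat.card R) with h | h
      · exact h
      · exact absurd (AddSubgroup.eq_of_le_of_card_ge hPR h) hne'
    have hi2 : 2 ≤ i := by
      rcases Nat.lt_or_ge i 2 with h | h
      · exfalso
        have : Nat.card R ≤ Nat.card P := by
          rw [hi]
          calc Nat.card P * i ≤ Nat.card P * 1 := Nat.mul_le_mul_left _ (by omega)
            _ = Nat.card P := mul_one _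
        omega
      · exact h
    have hπ1 : 1 ≤ π := by
      rcases Nat.eq_zero_or_pos π with h | h
      · rw [h, mul_zero] at hπ
        omega
      · exact h
    -- (1)
    have h1a : ∀ q' : A, q' - q ∈ Top →
        2 * Nat.card Top + Nat.card H ≤ np O q' P Y * Nat.card H + 2 * Nat.card P := by
      intro q' hq'
      have h1 : ¬ (np O q' P Y * Nat.card H + 2 * Nat.card P ≤ 2 * Nat.card Top) := by
        intro h
        have h2 := hRmin (P, q') ⟨hHP, hPR.trans hRT, hq', h⟩
        simp only at h2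
        omega
      rw [hπ, hτ] at h1 ⊢
      have h3 : ¬ (np O q' P Y + 2 * π ≤ 2 * τ) := by
        intro h
        apply h1
        calc np O q' P Y * Nat.card H + 2 * (Nat.card H * π)
            = (np O q' P Y + 2 * π) * Nat.card H := by ring
          _ ≤ (2 * τ) * Nat.card H := Nat.mul_le_mul_right _ h
          _ = 2 * (Nat.card H * τ) := by ring
      have h4 : 2 * τ + 1 ≤ np O q' P Y + 2 * π := by omega
      calc 2 * (Nat.card H * τ) + Nat.card H = (2 * τ + 1) * Nat.card H := by ring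
        _ ≤ (np O q' P Y + 2 * π) * Nat.card H := Nat.mul_le_mul_right _ h4
        _ = np O q' P Y * Nat.card H + 2 * (Nat.card H * π) := by ring
    have h1 : ∀ q' : A,
        2 * Nat.card Top + Nat.card H ≤ np O q' P Y * Nat.card H + 2 * Nat.card P := by
      intro q'
      by_cases hq' : q' - q ∈ Top
      · exact h1a q' hq'
      · have h2 : np O q' P Y = Y.card := by
          apply desc_np_all
          intro x hx hp
          obtain ⟨o, ho⟩ := hne x hx
          apply hq'
          have h3 := hY x hx o ho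
          have h4 := (hPR.trans hRT) (hp o ho)
          have h5 : q' - q = (o - q) - (o - q') := by abel
          rw [h5]
          exact Top.sub_mem h3 h4
        have h3 := h1a r hrq
        rw [h2]
        have h4 : np O r P Y * Nat.card H ≤ Y.card * Nat.card H :=
          Nat.mul_le_mul_right _ (desc_np_le O P r Y)
        omega
    -- (2)
    set Z : Finset ι := Ω \ S with hZ
    have h2 : ∀ q' : A, 2 * (i - 1) ≤ np O q' P Z + 1 := by
      intro q'
      have h3 := desc_np_split O R P r q' Y S Z (by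
        intro x hx hp
        by_cases hxS : x ∈ S
        · exact Or.inl hxS
        · exact Or.inr (Finset.mem_sdiff.2 ⟨(hΩm x).2 ⟨hx, hp⟩, hxS⟩))
      have h4 := Nat.mul_le_mul_right (Nat.card H) h3
      have h5 := h1 q'
      have h6 : (2 * (i - 2) * π + 3) * Nat.card H ≤ np O q' P Z * Nat.card H := by
        obtain ⟨e, rfl⟩ : ∃ e, i = e + 2 := ⟨i - 2, by omega⟩
        have h7 : (e + 2 - 2) = e := by omega
        rw [h7]
        rw [hi] at hRn
        rw [hπ] at h5 hRn s1
        nlinarith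
      have h8 := Nat.le_of_mul_le_mul_right h6 hh
      have h9 : 2 * (i - 2) * 1 ≤ 2 * (i - 2) * π := Nat.mul_le_mul_left _ hπ1
      omega
    have hZne : ∀ z ∈ Z, (O z).Nonempty := by
      intro z hz
      exact hne z ((hΩm z).1 (Finset.mem_sdiff.1 hz).1).1
    obtain ⟨W, b, d, hW1, hW2, hW3, hW4, hW5, hW6⟩ := match_lemma O P Z hZne (i - 1) h2
    have hWpur : ∀ j, ∀ x ∈ W j, Pur O r R x := by
      intro j x hx
      exact ((hΩm x).1 (Finset.mem_sdiff.1 (hW1 j hx)).1).2
    have hdR : ∀ j, d j ∈ R := by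
      intro j
      obtain ⟨x, hx, hbx⟩ := hW4 j
      obtain ⟨x', hx', hbx'⟩ := hW5 j
      have e1 := hWpur j x hx _ hbx
      have e2 := hWpur j x' hx' _ hbx'
      have e3 : d j = (b j + d j - r) - (b j - r) := by abel
      rw [e3]
      exact R.sub_mem e2 e1
    obtain ⟨P', J, hPP', hP'R, -, hJc, -, hrea⟩ := ext_lemma P R hlt
      (fun j : Fin (i - 1) => ({0, d j} : Finset A)) Finset.univ
      (fun j _ => Finset.mem_insert_self _ _)
      (fun j _ x hx => by
        rcases Finset.mem_insert.1 hx with h | h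
        · rw [h]
          exact R.zero_mem
        · rw [Finset.mem_singleton.1 h]
          exact hdR j)
      (fun j _ => ⟨d j, Finset.mem_insert_of_mem (Finset.mem_singleton_self _), hW6 j⟩)
      (by
        rw [Finset.card_univ, Fintype.card_fin, hi]
        have : i - 1 + 1 = i := by omega
        rw [this, mul_comm])
    have hfill := fill_step O H P P' S a hF J W b (fun j => ({0, d j} : Finset A))
      (fun j _ => by
        rw [Finset.disjoint_left]
        intro x hxS hxW
        exact (Finset.mem_sdiff.1 (hW1 j hxW)).2 hxS)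
      (fun j _ j' _ hjj => hW3 j j' hjj)
      (fun j _ u hu => by
        rcases Finset.mem_insert.1 hu with h | h
        · obtain ⟨x, hx, hbx⟩ := hW4 j
          exact ⟨x, hx, by rw [h, add_zero]; exact hbx⟩
        · obtain ⟨x, hx, hbx⟩ := hW5 j
          exact ⟨x, hx, by rw [Finset.mem_singleton.1 h]; exact hbx⟩)
      hrea
    have hcard : (S ∪ J.biUnion W).card ≤ S.card + 2 * J.card := by
      refine le_trans (Finset.card_union_le _ _) (Nat.add_le_add_left ?_ _)
      refine le_trans Finset.card_biUnion_le ?_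
      calc ∑ j ∈ J, (W j).card ≤ ∑ _j ∈ J, 2 := Finset.sum_le_sum fun j _ => hW2 j
        _ = 2 * J.card := by rw [Finset.sum_const, smul_eq_mul, mul_comm]
    have hHPc : Nat.card H ≤ Nat.card P := AddSubgroup.card_le_of_le hHP
    obtain ⟨t1, t2, t3⟩ := size_step (Nat.card H) (Nat.card P) (Nat.card P') S.card a J.card
      (S ∪ J.biUnion W).card hHPc s1 s2 s3 hJc hcard
    have hP'Q : P' ∈ QQ := by
      refine ⟨hHP.trans hPP'.le, hP'R, S ∪ J.biUnion W, a + J.card, ?_, hfill, t1, t2, t3⟩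
      intro x hx
      rcases Finset.mem_union.1 hx with h | h
      · exact hSΩ h
      · obtain ⟨j, -, hj⟩ := Finset.mem_biUnion.1 h
        exact (Finset.mem_sdiff.1 (hW1 j hj)).1
    have h10 := hPmax P' hP'Q
    exact hPP'.ne (AddSubgroup.eq_of_le_of_card_ge hPP'.le h10)
  subst hmain
  refine ⟨P, r, S, a, hRT, hrq, ?_, ⟨hHP, ?_, hF, s1, s2, s3⟩, hRn⟩
  · intro x hx
    exact ((hΩm x).1 (hSΩ hx)).1
  · intro x hx
    exact ((hΩm x).1 (hSΩ hx)).2

end G
end ZS44129
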