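import Mathlib
import Pool.Agent.Work.MP_44129c_co.G.Desc
import Pool.Agent.Work.MP_44129c_co.G.Asc

/-!
# MP_44129c_co/G, module GS (size S-M) and the assembly lemma

## gs_lemma
`desc_lemma` for `Y = X \ M`: `R, r, S, a`.  `W := ((X \ M).filter (Pur O r R)) \ S`.
In units of `h = |H|` (`|Top| = τ h`, `|R| = ρ h`): `np O r R (X \ M) ≤ 2τ - 2ρ`,
`|S| ≤ 2ρ - 2`, `|X \ M| ≥ 3τ - 3`, so `|W| ≥ |X \ M| - np - |S| ≥ τ - 1`, hence
`(|W| + 1)|R| ≥ τ|R| ≥ |Top|`.  `X` is pure in `r + Top` since `r - q ∈ Top`.  `asc_lemma` gives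
`P, S', a'`.  `S' ∩ M ⊆ S' \ (S ∪ W)` (`S, W` are disjoint from `M`), so
`(|S' ∩ M| + 1)|H| ≤ (|S' \ (S ∪ W)| + 1)|R| ≤ |P|`.

## assembly
Let `Ω = X.filter (Pur O r P)`, `|Ω| = |X| - np O r P X`, `S, B ⊆ Ω`.  The set
`Ω \ (S ∪ B)` has at least `n - a - |B|` elements (`hn2`), so by `exists_att` some `y0` with
`Att O (Ω \ (S ∪ B)) (n - a - |B|) y0`.  Let `z` be the base of `hF`, `z'` the base of `hB`.
`y0 - (n-a-|B|)•r ∈ P`, and every value attained on `S` with `a` positions is in `a•r + P`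
(`Att.pure`), so `z - a•r ∈ P` (use `p = 0`, `H ≤ P`), also `z' - |B|•r ∈ P` (`z'` itself is
attained on `B`, the base group is `⊥`).  Hence
`p := y - y0 - z - z' ∈ P`.  `hF` for `p`: `y1` attained on `S`, `y1 - (z + p) ∈ H`, so
`g := y - y0 - y1 - z' ∈ H`; `hB` for `g`: `y2` attained on `B` with `y2 = z' + g`.  Then
`y0 + y1 + y2 = y`; add the three with `Att.add` and enlarge with `Att.mono`.

## assembly0  (no `B`; `H = ⊥`)
`assembly` with `B = ∅` (`fill_bot`).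
-/

set_option autoImplicit false

namespace ZS44129
namespace G

open Finset

variable {ι A : Type} [DecidableEq ι] [AddCommGroup A] [Finite A]

private theorem np_add (O : ι → Finset A) (q : A) (P : AddSubgroup A) (X : Finset ι)
    [DecidablePred (Pur O q P)] : (X.filter (Pur O q P)).card + np O q P X = X.card := by
  classical
  have h := Finset.card_filter_add_card_filter_not (s := X) (Pur O q P)
  rw [← h, np]
  congr

theorem gs_lemma (O : ι → Finset A) (H Top : AddSubgroup A) (hHT : H ≤ Top) (q : A)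
    (X : Finset ι) (hne : ∀ x ∈ X, (O x).Nonempty) (hX : ∀ x ∈ X, Pur O q Top x)
    (M : Finset ι) (hc : 3 * Nat.card Top ≤ ((X \ M).card + 3) * Nat.card H) :
    ∃ (P : AddSubgroup A) (r : A) (S : Finset ι) (a : ℕ), P ≤ Top ∧ r - q ∈ Top ∧ S ⊆ X ∧
      Filled O H P r S a ∧ ((S ∩ M).card + 1) * Nat.card H ≤ Nat.card P ∧
      (P = Top ∨ (np O r P X + 2) * Nat.card P ≤ Nat.card Top) := by
  classical
  obtain ⟨R, r, S, a, hRT, hrq, hS, hF, hnp⟩ := desc_lemma O H Top hHT q (X \ M)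
    (fun x hx => hne x (Finset.mem_sdiff.1 hx).1) (fun x hx => hX x (Finset.mem_sdiff.1 hx).1)
  set F := (X \ M).filter (Pur O r R) with hFd
  have hFc : F.card + np O r R (X \ M) = (X \ M).card := np_add O r R (X \ M)
  have hWX : F \ S ⊆ X := fun x hx =>
    (Finset.mem_sdiff.1 (Finset.mem_filter.1 (Finset.mem_sdiff.1 hx).1).1).1
  have hWM : ∀ x ∈ F \ S, x ∉ M := fun x hx =>
    (Finset.mem_sdiff.1 (Finset.mem_filter.1 (Finset.mem_sdiff.1 hx).1).1).2
  have hWp : ∀ x ∈ F \ S, Pur O r R x := fun x hx =>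
    (Finset.mem_filter.1 (Finset.mem_sdiff.1 hx).1).2
  have hXr : ∀ x ∈ X, Pur O r Top x := by
    intro x hx o ho
    have h1 := hX x hx o ho
    have h2 : o - r = (o - q) - (r - q) := by abel
    rw [h2]
    exact Top.sub_mem h1 hrq
  have hle : F.card ≤ (F \ S).card + S.card := by
    have := Finset.le_card_sdiff S F
    omega
  have h0 : 0 < Nat.card H := Nat.card_pos
  have hR0 : 0 < Nat.card R := Nat.card_pos
  obtain ⟨τ, hτ⟩ := AddSubgroup.card_dvd_of_le hHT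
  obtain ⟨ρ, hρ⟩ := AddSubgroup.card_dvd_of_le hF.le
  have hρ0 : 0 < ρ := by
    rcases Nat.eq_zero_or_pos ρ with h | h
    · rw [h, mul_zero] at hρ
      omega
    · exact h
  have e1 : 3 * τ ≤ (X \ M).card + 3 := by
    have h1 : (3 * τ) * Nat.card H ≤ ((X \ M).card + 3) * Nat.card H := by
      refine le_trans (le_of_eq ?_) hc
      rw [hτ]; ring
    exact Nat.le_of_mul_le_mul_right h1 h0
  have e2 : np O r R (X \ M) + 2 * ρ ≤ 2 * τ := by
    have h1 : (np O r R (X \ M) + 2 * ρ) * Nat.card H ≤ (2 * τ) * Nat.card H := by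
      refine le_trans (le_of_eq ?_) (hnp.trans (le_of_eq ?_))
      · rw [hρ]; ring
      · rw [hτ]; ring
    exact Nat.le_of_mul_le_mul_right h1 h0
  have e3 : S.card + 2 ≤ 2 * ρ := by
    have h1 : (S.card + 2) * Nat.card H ≤ (2 * ρ) * Nat.card H := by
      refine hF.s1.trans (le_of_eq ?_)
      rw [hρ]; ring
    exact Nat.le_of_mul_le_mul_right h1 h0
  have e4 : τ ≤ (F \ S).card + 1 := by omega
  have hWc : Nat.card Top ≤ ((F \ S).card + 1) * Nat.card R := by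
    rw [hτ, hρ]
    calc Nat.card H * τ = τ * (Nat.card H * 1) := by ring
      _ ≤ ((F \ S).card + 1) * (Nat.card H * ρ) :=
        Nat.mul_le_mul e4 (Nat.mul_le_mul_left _ hρ0)
  obtain ⟨P, S', a', _, hPT, hS', hF', _, hc', hor⟩ := asc_lemma O H R Top hRT r X hne hXr S a
    (hS.trans Finset.sdiff_subset) hF (F \ S) hWX Finset.disjoint_sdiff hWp hWc
  refine ⟨P, r, S', a', hPT, hrq, hS', hF', ?_, hor⟩
  have hsub : S' ∩ M ⊆ S' \ (S ∪ (F \ S)) := by
    intro x hx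
    obtain ⟨hx1, hx2⟩ := Finset.mem_inter.1 hx
    refine Finset.mem_sdiff.2 ⟨hx1, fun h => ?_⟩
    rcases Finset.mem_union.1 h with h3 | h3
    · exact (Finset.mem_sdiff.1 (hS h3)).2 hx2
    · exact hWM x h3 hx2
  have hHR : Nat.card H ≤ Nat.card R := Nat.le_of_dvd hR0 (AddSubgroup.card_dvd_of_le hF.le)
  exact (Nat.mul_le_mul (Nat.add_le_add_right (Finset.card_le_card hsub) 1) hHR).trans hc'

theorem assembly (O : ι → Finset A) (X S B : Finset ι) (H P : AddSubgroup A) (hHP : H ≤ P)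
    (r : A) (a n : ℕ) (hSX : S ⊆ X) (hBX : B ⊆ X) (hSB : Disjoint S B)
    (hSp : ∀ x ∈ S, Pur O r P x) (hBp : ∀ x ∈ B, Pur O r P x) (hF : Fill O H P S a)
    (hB : Fill O ⊥ H B B.card) (hne : ∀ x ∈ X, (O x).Nonempty) (hn1 : a + B.card ≤ n)
    (hn2 : n + S.card + np O r P X ≤ X.card + a) :
    ∀ y, y - n • r ∈ P → Att O X n y := by
  classical
  intro y hy
  set Ω := X.filter (Pur O r P) with hΩ
  have hΩc : Ω.card + np O r P X = X.card := np_add O r P X
  have hSΩ : S ⊆ Ω := fun x hx => Finset.mem_filter.2 ⟨hSX hx, hSp x hx⟩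
  have hBΩ : B ⊆ Ω := fun x hx => Finset.mem_filter.2 ⟨hBX hx, hBp x hx⟩
  have hSBΩ : S ∪ B ⊆ Ω := Finset.union_subset hSΩ hBΩ
  have hc1 : (S ∪ B).card = S.card + B.card := Finset.card_union_of_disjoint hSB
  have hc2 : (Ω \ (S ∪ B)).card = Ω.card - (S ∪ B).card := Finset.card_sdiff_of_subset hSBΩ
  have hc3 : (S ∪ B).card ≤ Ω.card := Finset.card_le_card hSBΩ
  obtain ⟨m, hm⟩ : ∃ m, n = m + a + B.card := ⟨n - a - B.card, by omega⟩
  have hΩX : Ω \ (S ∪ B) ⊆ X := fun x hx => (Finset.mem_filter.1 (Finset.mem_sdiff.1 hx).1).1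
  obtain ⟨y0, hy0⟩ := exists_att O (Ω \ (S ∪ B)) (fun x hx => hne x (hΩX hx)) m (by omega)
  have p0 : y0 - m • r ∈ P := hy0.pure (fun x hx =>
    (Finset.mem_filter.1 (Finset.mem_sdiff.1 hx).1).2)
  obtain ⟨z, hz⟩ := hF
  obtain ⟨z', hz'⟩ := hB
  have p1 : z - a • r ∈ P := by
    obtain ⟨u, hu, hu2⟩ := hz 0 P.zero_mem
    have h1 := hu.pure hSp
    have h2 : z - a • r = (u - a • r) - (u - (z + 0)) := by abel
    rw [h2]
    exact P.sub_mem h1 (hHP hu2)
  have p2 : z' - B.card • r ∈ P := by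
    obtain ⟨u, hu, hu2⟩ := hz' 0 H.zero_mem
    have h1 := hu.pure hBp
    rw [AddSubgroup.mem_bot] at hu2
    have h2 : z' - B.card • r = (u - B.card • r) - (u - (z' + 0)) := by abel
    rw [h2, hu2, sub_zero]
    exact h1
  have hp : y - y0 - z - z' ∈ P := by
    have h2 : y - y0 - z - z' = (y - n • r) - (y0 - m • r) - (z - a • r) - (z' - B.card • r) := by
      rw [hm, add_smul, add_smul]
      abel
    rw [h2]
    exact P.sub_mem (P.sub_mem (P.sub_mem hy p0) p1) p2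
  obtain ⟨y1, hy1, hg⟩ := hz _ hp
  have hg' : y - y0 - y1 - z' ∈ H := by
    have h2 : y - y0 - y1 - z' = -(y1 - (z + (y - y0 - z - z'))) := by abel
    rw [h2]
    exact H.neg_mem hg
  obtain ⟨y2, hy2, hg2⟩ := hz' _ hg'
  rw [AddSubgroup.mem_bot, sub_eq_zero] at hg2
  have hd1 : Disjoint (Ω \ (S ∪ B)) S :=
    Finset.disjoint_left.2 fun x hx hx2 => (Finset.mem_sdiff.1 hx).2 (Finset.mem_union_left _ hx2)
  have hd2 : Disjoint (Ω \ (S ∪ B) ∪ S) B := by
    refine Finset.disjoint_left.2 fun x hx hx2 => ?_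
    rcases Finset.mem_union.1 hx with h | h
    · exact (Finset.mem_sdiff.1 h).2 (Finset.mem_union_right _ hx2)
    · exact (Finset.disjoint_left.1 hSB h) hx2
  have h3 := (hy0.add hy1 hd1).add hy2 hd2
  have h4 : y0 + y1 + y2 = y := by
    rw [hg2]
    abel
  rw [h4, ← hm] at h3
  exact h3.mono (Finset.union_subset (Finset.union_subset hΩX hSX) hBX)

theorem assembly0 (O : ι → Finset A) (X S : Finset ι) (P : AddSubgroup A)
    (r : A) (a n : ℕ) (hSX : S ⊆ X) (hSp : ∀ x ∈ S, Pur O r P x) (hF : Fill O ⊥ P S a)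
    (hne : ∀ x ∈ X, (O x).Nonempty) (hn1 : a ≤ n)
    (hn2 : n + S.card + np O r P X ≤ X.card + a) :
    ∀ y, y - n • r ∈ P → Att O X n y := by
  refine assembly O X S ∅ ⊥ P bot_le r a n hSX (Finset.empty_subset _) (Finset.disjoint_empty_right _)
    hSp (fun x hx => absurd hx (Finset.notMem_empty x)) hF ?_ hne ?_ hn2
  · exact fill_bot O ⊥
  · rw [Finset.card_empty]
    exact hn1

end G
end ZS44129
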