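import Mathlib
import Pool.Agent.Work.MP_44129c_co.G.GS
import Pool.Agent.Work.MP_44129c_co.G.Cyc

/-!
# MP_44129c_co/G, module ThmP3: the exact structure theorem, `|H| = 3` (size M)

Notation: `O x = {al x, be x}`, `m = 3j`, `j ≤ s`, `D(L) = Dn al be X L`, `|X| = m + s - 2`.
Hypotheses: `D(⊥) > m/2`; `D(H) ≤ j - 2` (so `j ≥ 2`); `-e` is not attained.
`Din := {x ∈ X : al x - be x ∈ H, al x ≠ be x}`, `|Din| = D(⊥) - D(H)`.

STEP 1.  Consider the pairs `(R, r)`, `H ≤ R`, with `R = ⊤`, or `R ≠ ⊤` and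
`np O r R X * |R| ≤ m` (i.e. `np ≤ [⊤ : R]`); choose one with `Nat.card R` minimal.  Let
`Ω = X.filter (Pur O r R)`, `β = np O r R X` (`β = 0` if `R = ⊤`), `g = m/|R|`, `ρ = |R|/3`,
`g ρ = j`, `|Ω| = |X| - β`, `β ≤ g`.
CLAIM: `|Din ∩ Ω| ≥ 2`.
* `R = H`: every `x ∈ Ω` with `al x ≠ be x` is in `Din`.  If `H ≠ ⊤`: `|Din ∩ Ω| ≥ D(⊥) - j ≥ 2`
  as `2 D(⊥) ≥ 3j + 1`, and `D(⊥) - j ≥ 2` for `j = 2` (`2D(⊥) ≥ 7`) and for `j ≥ 3`.
  (`H = ⊤` is impossible, `j ≥ 2`.)
* `R ≠ H`: `β ≤ j/2` (`g ≤ j/2` as `ρ ≥ 2`; or `β = 0`):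
  `|Din ∩ Ω| ≥ D(⊥) - D(H) - β`, `2(...) ≥ 3j + 1 - 2(j - 2) - j = 5`.
Choose `B ⊆ Din ∩ Ω`, `|B| = 2`.
`own_fill` (`D = B`; the subgroups `L < H` are only `⊥`: `3 ≤ (2 + 1) * 1`) gives
`Fill O ⊥ H B 2` (the subset `B'` it returns is enlarged with fixed options of the other
positions; or choose it as new `B`: then `|B| ≤ 2`, all that is used).

STEP 2.  `gs_lemma` with `Top = R`, base `H`, `X := Ω \ B`, `q = r`, `M = ∅`:
`|Ω \ B| ≥ m + s - 2 - β - 2 ≥ 3ρ - 3` (if `R = ⊤`: `β = 0`, `3ρ = m`; otherwise `β ≤ g ≤ j`,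
`3ρ ≤ m/2`).  We get `P1 ≤ R`, `r1`, `S`, `a`.  If `P1 ≠ R`: `(np O r1 P1 (Ω \ B) + 2)|P1| ≤ |R|`,
so `np O r1 P1 X ≤ β + 2 + ([R : P1] - 2) = β + [R : P1]`, which is `≤ [⊤ : P1]` (if `R = ⊤`,
`β = 0`; otherwise `g + [R:P1] ≤ g [R:P1]`, both factors are `≥ 2`): contradiction to the
minimality of `R`.  So `P1 = R`, `Filled O H R r1 S a`, `S ⊆ Ω \ B`; `r1 - r ∈ R`, so purity in
`r1 + R` and in `r + R` is the same; write `r` for `r1`.

STEP 3.  `asc_lemma` with `Top = ⊤`, `X`, `S`, `W := Ω \ (S ∪ B)`: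
`|W| ≥ m + s - 2 - β - 2(ρ - 1) - 2 ≥ g - 1`, as `β ≤ g`, `2(g + ρ) ≤ 2(j + 1)` and
`m + s - 1 ≥ 2j + 2` (`m = 3j`, `s ≥ j ≥ 2`; for `R = ⊤` use `β = 0`).  Result: `P ≥ R`, `S'`, `a'`,
`Filled O H P r S' a'`, `P = ⊤` or `(np O r P X + 2)|P| ≤ m`; `S'` is disjoint from `B`
(elements of `S'` are in `S`, in `W`, or not pure in `r + R`), and `B` is pure in `r + P`.
STEP 4.  If `P ≠ ⊤` and `e - r ∉ P` we are done.  Otherwise `e - r ∈ P`; with `p = |P|/3`,
`g' = m/|P|`, `p g' = j`: `np ≤ g' - 1`, `a' ≤ p - 1`, `|S'| - a' ≤ p - 1`.  `assembly` with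
`n = m - 1`: `a' + |B| ≤ p + 1 ≤ m - 1`, `(|S'| - a') + np ≤ (p - 1) + (g' - 1) ≤ j - 1 ≤ s - 1`.
`-e - (m-1) r = -(e - r) ∈ P`, so `-e` is attained: contradiction to `hav`.
-/

set_option autoImplicit false

namespace ZS44129
namespace G

open Finset

private theorem p3_purMono {ι A : Type} [AddCommGroup A] {O : ι → Finset A} {r : A}
    {R P : AddSubgroup A} {x : ι} (h : Pur O r R x) (hRP : R ≤ P) : Pur O r P x :=
  fun o ho => hRP (h o ho)

private theorem p3_purShift {ι A : Type} [AddCommGroup A] {O : ι → Finset A} {r r1 : A}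
    {R : AddSubgroup A} {x : ι} (h : Pur O r1 R x) (hr : r1 - r ∈ R) : Pur O r R x := by
  intro o ho
  have h1 : o - r = (o - r1) + (r1 - r) := by abel
  rw [h1]
  exact R.add_mem (h o ho) hr

private theorem p3_npTop {ι A : Type} [AddCommGroup A] (O : ι → Finset A) (r : A)
    (X : Finset ι) : np O r ⊤ X = 0 := by
  classical
  unfold np
  rw [Finset.card_eq_zero, Finset.filter_eq_empty_iff]
  intro x _ h
  exact h (fun o _ => AddSubgroup.mem_top _)

open Classical in
private theorem p3_npAdd {ι A : Type} [AddCommGroup A] (O : ι → Finset A) (r : A)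
    (P : AddSubgroup A) (X : Finset ι) :
    (X.filter (fun x => Pur O r P x)).card + np O r P X = X.card := by
  unfold np
  exact Finset.card_filter_add_card_filter_not _

open Classical in
private theorem p3_npLe {ι A : Type} [DecidableEq ι] [AddCommGroup A] (O : ι → Finset A)
    (r r1 : A) (R P : AddSubgroup A) (X B : Finset ι) :
    np O r1 P X ≤ np O r R X + B.card +
      np O r1 P ((X.filter (fun x => Pur O r R x)) \ B) := by
  unfold np
  have h : X.filter (fun x => ¬ Pur O r1 P x) ⊆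
      (X.filter (fun x => ¬ Pur O r R x) ∪ B) ∪
      ((X.filter (fun x => Pur O r R x)) \ B).filter (fun x => ¬ Pur O r1 P x) := by
    intro x hx
    rw [Finset.mem_filter] at hx
    simp only [Finset.mem_union, Finset.mem_filter, Finset.mem_sdiff]
    tauto
  refine (Finset.card_le_card h).trans ((Finset.card_union_le _ _).trans ?_)
  have := Finset.card_union_le (X.filter (fun x => ¬ Pur O r R x)) B
  omega

private theorem p3_num1 {β g i : ℕ} (h : β ≤ g) (hg : 2 ≤ g) (hi : 2 ≤ i) :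
    β + i ≤ g * i := by
  obtain ⟨g', rfl⟩ := Nat.exists_eq_add_of_le hg
  obtain ⟨i', rfl⟩ := Nat.exists_eq_add_of_le hi
  have h1 : (2 + g') * (2 + i') = 4 + 2 * i' + 2 * g' + g' * i' := by ring
  rw [h1]
  omega

private theorem p3_num2 {g ρ : ℕ} (hg : 1 ≤ g) (hρ : 1 ≤ ρ) : g + ρ ≤ ρ * g + 1 := by
  obtain ⟨g', rfl⟩ := Nat.exists_eq_add_of_le hg
  obtain ⟨ρ', rfl⟩ := Nat.exists_eq_add_of_le hρ
  have h1 : (1 + ρ') * (1 + g') = 1 + ρ' + g' + ρ' * g' := by ring
  rw [h1]
  omega

private theorem p3_num3 {ρ g β : ℕ} (hβ : β ≤ g) (hρ : 2 ≤ ρ) : 2 * β ≤ ρ * g :=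
  Nat.mul_le_mul hρ hβ

private theorem p3_num4 {ρ g : ℕ} (hg : 2 ≤ g) : 2 * ρ ≤ ρ * g := by
  rw [mul_comm]
  exact Nat.mul_le_mul_left _ hg

theorem thmP3 {ι : Type} [DecidableEq ι] {m s : ℕ} [NeZero m] (X : Finset ι)
    (hX : X.card + 2 = m + s) (al be : ι → ZMod m) (e : ZMod m)
    (hav : ¬ Att (fun x => ({al x, be x} : Finset (ZMod m))) X (m - 1) (-e))
    (hw0 : m < 2 * Dn al be X ⊥) (H : AddSubgroup (ZMod m)) (hH3 : Nat.card H = 3)
    (hHj : m ≤ s * 3) (hcl : (Dn al be X H + 2) * 3 ≤ m) :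
    ∃ (P : AddSubgroup (ZMod m)) (r : ZMod m), H ≤ P ∧ e - r ∉ P ∧
      (np (fun x => ({al x, be x} : Finset (ZMod m))) r P X + 2) * Nat.card P ≤ m := by
  classical
  set O : ι → Finset (ZMod m) := fun x => ({al x, be x} : Finset (ZMod m)) with hO
  have hne : ∀ x : ι, (O x).Nonempty := fun x => ⟨al x, by simp [hO]⟩
  have hal : ∀ x : ι, al x ∈ O x := fun x => by simp [hO]
  have hbe : ∀ x : ι, be x ∈ O x := fun x => by simp [hO]
  have hmc : Nat.card (⊤ : AddSubgroup (ZMod m)) = m := by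
    rw [AddSubgroup.card_top, Nat.card_zmod]
  -- `m = 3 j`
  have hdvd : ∀ K : AddSubgroup (ZMod m), Nat.card K ∣ m := fun K => by
    have := AddSubgroup.card_dvd_of_le (le_top : K ≤ ⊤)
    rwa [hmc] at this
  obtain ⟨j, hj⟩ : ∃ j, m = 3 * j := by
    have := hdvd H
    rw [hH3] at this
    exact this
  have hj2 : 2 ≤ j := by omega
  have hjs : j ≤ s := by omega
  -- minimal `R`
  have hex : ∃ k : ℕ, ∃ (R : AddSubgroup (ZMod m)) (r : ZMod m), H ≤ R ∧ Nat.card R = k ∧
      np O r R X * Nat.card R ≤ m :=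
    ⟨m, ⊤, 0, le_top, hmc, by rw [p3_npTop]; simp⟩
  obtain ⟨R, r, hHR, hRk, hRm⟩ := Nat.find_spec hex
  have hmin : ∀ (R' : AddSubgroup (ZMod m)) (r' : ZMod m), H ≤ R' →
      np O r' R' X * Nat.card R' ≤ m → Nat.card R ≤ Nat.card R' := by
    intro R' r' h1 h2
    rw [hRk]
    exact Nat.find_min' hex ⟨R', r', h1, rfl, h2⟩
  clear hRk
  obtain ⟨ρ, hρ⟩ : ∃ ρ, Nat.card R = 3 * ρ := by
    have := AddSubgroup.card_dvd_of_le hHR
    rw [hH3] at this
    exact this
  obtain ⟨g, hg⟩ : ∃ g, m = Nat.card R * g := hdvd R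
  have hgj : j = ρ * g := by
    have h1 : 3 * j = 3 * (ρ * g) := by rw [← hj, hg, hρ, mul_assoc]
    omega
  have hρ1 : 1 ≤ ρ := by
    rcases Nat.eq_zero_or_pos ρ with h | h
    · rw [h] at hgj; omega
    · exact h
  have hg1 : 1 ≤ g := by
    rcases Nat.eq_zero_or_pos g with h | h
    · rw [h] at hgj; omega
    · exact h
  set β := np O r R X with hβ
  have hβg : β ≤ g := by
    have h1 : Nat.card R * β ≤ Nat.card R * g := by
      rw [mul_comm (Nat.card R) β]
      exact hRm.trans_eq hg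
    exact Nat.le_of_mul_le_mul_left h1 (by rw [hρ]; omega)
  have hβtop : R = ⊤ → β = 0 := by
    intro h
    rw [hβ, h]
    exact p3_npTop _ _ _
  have hgR : R ≠ ⊤ → 2 ≤ g := by
    intro h
    by_contra hlt
    have h1 : g = 1 := by omega
    rw [h1, mul_one] at hg
    apply h
    exact eq_of_card _ _ (hg.symm.trans hmc.symm)
  set Ω : Finset ι := X.filter (fun x => Pur O r R x) with hΩ
  have hΩc : Ω.card + β = X.card := p3_npAdd O r R X
  have hΩX : Ω ⊆ X := Finset.filter_subset _ _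
  have hΩp : ∀ x ∈ Ω, Pur O r R x := fun x hx => (Finset.mem_filter.1 hx).2
  set DO : Finset ι := Ω.filter (fun x => al x - be x ∈ H ∧ al x ≠ be x) with hDO
  have hDOΩ : DO ⊆ Ω := Finset.filter_subset _ _
  -- the claim
  have hclaim : 2 ≤ DO.card := by
    by_cases hRH : R = H
    · have hρ' : ρ = 1 := by
        rw [hRH, hH3] at hρ; omega
      have h1 : Dn al be X ⊥ ≤ DO.card + β := by
        unfold Dn
        have hsub : X.filter (fun x => al x - be x ∉ (⊥ : AddSubgroup (ZMod m))) ⊆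
            DO ∪ X.filter (fun x => ¬ Pur O r R x) := by
          intro x hx
          rw [Finset.mem_filter] at hx
          by_cases hp : Pur O r R x
          · refine Finset.mem_union_left _ ?_
            rw [hDO, Finset.mem_filter, hΩ, Finset.mem_filter]
            refine ⟨⟨hx.1, hp⟩, ?_, ?_⟩
            · have e1 : al x - be x = (al x - r) - (be x - r) := by abel
              rw [e1, ← hRH]
              exact R.sub_mem (hp _ (hal x)) (hp _ (hbe x))
            · intro h
              exact hx.2 (by rw [h, sub_self]; exact AddSubgroup.zero_mem _)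
          · exact Finset.mem_union_right _ (Finset.mem_filter.2 ⟨hx.1, hp⟩)
        have h2 := (Finset.card_le_card hsub).trans (Finset.card_union_le _ _)
        have h3 : (X.filter (fun x => ¬ Pur O r R x)).card = β := rfl
        rw [h3] at h2
        exact h2
      have h2 : g = j := by rw [hgj, hρ', one_mul]
      omega
    · have hρ2 : 2 ≤ ρ := by
        by_contra hlt
        have h1 : ρ = 1 := by omega
        rw [h1] at hρ
        exact hRH (eq_of_card _ _ (by rw [hρ, hH3]))
      have h2 : 2 * β ≤ j := by rw [hgj]; exact p3_num3 hβg hρ2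
      have h1 : Dn al be X ⊥ ≤ DO.card + Dn al be X H + β := by
        unfold Dn
        have hsub : X.filter (fun x => al x - be x ∉ (⊥ : AddSubgroup (ZMod m))) ⊆
            (DO ∪ X.filter (fun x => al x - be x ∉ H)) ∪ X.filter (fun x => ¬ Pur O r R x) := by
          intro x hx
          rw [Finset.mem_filter] at hx
          by_cases hp : Pur O r R x
          · refine Finset.mem_union_left _ ?_
            by_cases hh : al x - be x ∈ H
            · refine Finset.mem_union_left _ ?_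
              rw [hDO, Finset.mem_filter, hΩ, Finset.mem_filter]
              refine ⟨⟨hx.1, hp⟩, hh, ?_⟩
              intro h
              exact hx.2 (by rw [h, sub_self]; exact AddSubgroup.zero_mem _)
            · exact Finset.mem_union_right _ (Finset.mem_filter.2 ⟨hx.1, hh⟩)
          · exact Finset.mem_union_right _ (Finset.mem_filter.2 ⟨hx.1, hp⟩)
        have h2 := (Finset.card_le_card hsub).trans (Finset.card_union_le _ _)
        have h3 := Finset.card_union_le DO (X.filter (fun x => al x - be x ∉ H))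
        have h4 : (X.filter (fun x => ¬ Pur O r R x)).card = β := rfl
        rw [h4] at h2
        exact h2.trans (Nat.add_le_add_right h3 _)
      omega
  -- the set `B`
  obtain ⟨B', hB'DO, hB'c⟩ := Finset.exists_subset_card_eq hclaim
  obtain ⟨B, hBB', hBc, hBF⟩ := own_fill al be H B'
    (fun x hx => (Finset.mem_filter.1 (hB'DO hx)).2.1) (by
      intro L hL
      have h1 : Nat.card L ∣ 3 := by
        rw [← hH3]; exact AddSubgroup.card_dvd_of_le hL.le
      rcases (Nat.dvd_prime Nat.prime_three).1 h1 with h2 | h2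
      · have h3 : L = ⊥ := by
          apply eq_of_card
          rw [h2]; simp
        have h4 : Dn al be B' L = 2 := by
          unfold Dn
          rw [Finset.filter_true_of_mem, hB'c]
          intro x hx h5
          rw [h3, AddSubgroup.mem_bot, sub_eq_zero] at h5
          exact (Finset.mem_filter.1 (hB'DO hx)).2.2 h5
        rw [h4, h2, hH3]
      · exact absurd (eq_of_card L H (by rw [h2, hH3])) hL.ne)
  rw [hH3] at hBc
  have hBΩ : B ⊆ Ω := (hBB'.trans hB'DO).trans hDOΩ
  -- STEP 2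
  have hΩB : Ω.card ≤ (Ω \ B).card + B.card := by
    have := Finset.le_card_sdiff B Ω
    omega
  obtain ⟨P1, r1, S, a, hP1R, hr1, hSΩ, hFil, -, hor⟩ := gs_lemma O H R hHR r (Ω \ B)
    (fun x _ => hne x) (fun x hx => hΩp x (Finset.mem_sdiff.1 hx).1) ∅ (by
      rw [Finset.sdiff_empty, hH3, hρ]
      by_cases hRt : R = ⊤
      · have h1 := hβtop hRt
        have h2 : ρ = j := by
          rw [hRt, hmc] at hρ; omega
        omega
      · have h1 := hgR hRt
        have h2 : 2 * ρ ≤ j := by rw [hgj]; exact p3_num4 h1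
        have h3 : g ≤ j := by rw [hgj]; exact Nat.le_mul_of_pos_left _ hρ1
        omega)
  have hP1 : P1 = R := by
    rcases hor with h | h
    · exact h
    · exfalso
      obtain ⟨π, hπ⟩ : ∃ π, Nat.card P1 = 3 * π := by
        have := AddSubgroup.card_dvd_of_le hFil.le
        rw [hH3] at this
        exact this
      obtain ⟨i, hi⟩ : ∃ i, Nat.card R = Nat.card P1 * i := AddSubgroup.card_dvd_of_le hP1R
      have hπ1 : 1 ≤ π := by
        rcases Nat.eq_zero_or_pos π with h' | h'
        · rw [h'] at hπ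
          rw [hπ, hρ] at hi
          omega
        · exact h'
      have h1 : np O r1 P1 (Ω \ B) + 2 ≤ i := by
        rw [hi, mul_comm] at h
        exact Nat.le_of_mul_le_mul_left h (by rw [hπ]; omega)
      have h2 : np O r1 P1 X ≤ β + B.card + np O r1 P1 (Ω \ B) := p3_npLe O r r1 R P1 X B
      have h3 : np O r1 P1 X ≤ β + i := by omega
      have h4 : β + i ≤ g * i := by
        by_cases hRt : R = ⊤
        · have h5 := hβtop hRt
          rw [h5, zero_add]
          exact Nat.le_mul_of_pos_left _ hg1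
        · exact p3_num1 hβg (hgR hRt) (by omega)
      have h5 : np O r1 P1 X * Nat.card P1 ≤ m := by
        calc np O r1 P1 X * Nat.card P1 ≤ (g * i) * Nat.card P1 :=
              Nat.mul_le_mul_right _ (h3.trans h4)
          _ = Nat.card R * g := by rw [hi]; ring
          _ = m := hg.symm
      have h6 := hmin P1 r1 hFil.le h5
      rw [hi] at h6
      have h7 : 0 < Nat.card P1 := by rw [hπ]; omega
      have h8 : Nat.card P1 * 2 ≤ Nat.card P1 * i := Nat.mul_le_mul_left _ (by omega)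
      omega
  subst hP1
  have hFil' : Filled O H P1 r S a :=
    ⟨hFil.le, fun x hx => p3_purShift (hFil.pur x hx) hr1, hFil.fill, hFil.s1, hFil.s2, hFil.s3⟩
  have hs1 := hFil'.s1
  rw [hH3, hρ] at hs1
  -- STEP 3
  have hSB : Disjoint S B := by
    rw [Finset.disjoint_left]
    intro x hx hxB
    exact (Finset.mem_sdiff.1 (hSΩ hx)).2 hxB
  have hWc : Ω.card ≤ (Ω \ (S ∪ B)).card + (S.card + B.card) := by
    have h1 := Finset.le_card_sdiff (S ∪ B) Ω
    have h2 := Finset.card_union_le S B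
    omega
  have hgρ : g + ρ ≤ j + 1 := by
    rw [hgj]; exact p3_num2 hg1 hρ1
  obtain ⟨P, S', a', hRP, -, hS'X, hFP, hS'm, -, horP⟩ := asc_lemma O H P1 ⊤ le_top r X
    (fun x _ => hne x) (fun x _ o _ => AddSubgroup.mem_top _) S a
    (hSΩ.trans (Finset.sdiff_subset.trans hΩX)) hFil' (Ω \ (S ∪ B))
    (Finset.sdiff_subset.trans hΩX) (by
      rw [Finset.disjoint_left]
      intro x hx hxW
      exact (Finset.mem_sdiff.1 hxW).2 (Finset.mem_union_left _ hx))
    (fun x hx => hΩp x (Finset.mem_sdiff.1 hx).1) (by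
      have h1 : g ≤ (Ω \ (S ∪ B)).card + 1 := by omega
      calc Nat.card (⊤ : AddSubgroup (ZMod m)) = Nat.card P1 * g := hmc.trans hg
        _ = g * Nat.card P1 := mul_comm _ _
        _ ≤ _ := Nat.mul_le_mul_right _ h1)
  have hS'B : Disjoint S' B := by
    rw [Finset.disjoint_left]
    intro x hx hxB
    rcases hS'm x hx with h | h | h
    · exact Finset.disjoint_left.1 hSB h hxB
    · exact (Finset.mem_sdiff.1 h).2 (Finset.mem_union_right _ hxB)
    · exact h (hΩp x (hBΩ hxB))
  -- STEP 4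
  by_cases heP : e - r ∈ P
  · exfalso
    obtain ⟨p, hp⟩ : ∃ p, Nat.card P = 3 * p := by
      have := AddSubgroup.card_dvd_of_le hFP.le
      rw [hH3] at this
      exact this
    obtain ⟨g', hg'⟩ : ∃ g', m = Nat.card P * g' := hdvd P
    have hgj' : j = p * g' := by
      have h1 : 3 * j = 3 * (p * g') := by rw [← mul_assoc, ← hp, ← hg', hj]
      omega
    have hp1 : 1 ≤ p := by
      rcases Nat.eq_zero_or_pos p with h | h
      · rw [h] at hgj'; omega
      · exact h
    have hg1' : 1 ≤ g' := by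
      rcases Nat.eq_zero_or_pos g' with h | h
      · rw [h] at hgj'; omega
      · exact h
    have hnp : np O r P X + 1 ≤ g' := by
      rcases horP with h | h
      · rw [h, p3_npTop]; omega
      · have h1 : Nat.card P * (np O r P X + 2) ≤ Nat.card P * g' := by
          rw [mul_comm]
          exact h.trans_eq (hmc.trans hg')
        have := Nat.le_of_mul_le_mul_left h1 (by rw [hp]; omega)
        omega
    have hgp : g' + p ≤ j + 1 := by
      rw [hgj']; exact p3_num2 hg1' hp1
    have hs2 := hFP.s2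
    have hs3 := hFP.s3
    rw [hH3, hp] at hs2 hs3
    refine hav (assembly O X S' B H P hFP.le r a' (m - 1) hS'X (hBΩ.trans hΩX) hS'B hFP.pur
      (fun x hx => p3_purMono (hΩp x (hBΩ hx)) hRP) hFP.fill hBF (fun x _ => hne x) ?_ ?_
      (-e) ?_)
    · omega
    · omega
    · have h1 : (m - 1) • r + r = 0 := by
        rw [← succ_nsmul, Nat.sub_add_cancel (by omega)]
        simp
      have h2 : -e - (m - 1) • r = -(e - r) := by
        have : (m - 1) • r = -r := eq_neg_of_add_eq_zero_left h1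
        rw [this]; abel
      rw [h2]
      exact P.neg_mem heP
  · refine ⟨P, r, hHR.trans hRP, heP, ?_⟩
    rcases horP with h | h
    · exact absurd (by rw [h]; exact AddSubgroup.mem_top _) heP
    · rwa [hmc] at h

end G
end ZS44129
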