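import Mathlib
import Pool.Agent.Work.MP_44129c_co.G.GS
import Pool.Agent.Work.MP_44129c_co.G.Cyc

/-!
# MP_44129c_co/G, module ThmP4: the exact structure theorem, `|H| ≥ 4` (size M-L)

Notation: `O x = {al x, be x}`, `h = |H| ≥ 4`, `m = h j`, `j ≤ s`, `D(L) = Dn al be X L`,
`|X| = m + s - 2`.  Hypotheses: `D(⊥) > m/2`; `D(H) ≤ j - 2` (`hcl`; in particular `j ≥ 2`);
for `⊥ < L < H`: `D(L) ≥ m/|L| - 1` (`hmin`); the value `-e` is not attained (`hav`).

`Din := {x ∈ X : al x - be x ∈ H, al x ≠ be x}`; for `L < H`: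
`#{x ∈ Din : al x - be x ∉ L} = D(L) - D(H)` (`al x - be x ∉ L` implies `≠ 0`).
So (with `i = [H : L]`)
 (A) `⊥ < L < H`: `#(Din \\ L) ≥ (i j - 1) - (j - 2) = (i-1) j + 1`;
 (B) `2|Din| ≥ 2D(⊥) - 2(j-2) ≥ m + 1 - 2(j - 2)`.

CHOICE OF `M ⊆ Din` with `|X \\ M| ≥ 3j - 3`:
* Case 1: `|X \\ Din| ≥ 3j - 3`.  `M := Din`.
* Case 2: `|X \\ Din| ≤ 3j - 4`, so `|Din| ≥ m + s + 2 - 3j`.  If `h` is even let `L2` be the
  subgroup of order `h/2` (`≥ 2`) and `M` a set of `j` elements `x ∈ Din` with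
  `al x - be x ∉ L2` (there are at least `j + 1` by (A)); if `h` is odd `M := ∅`.
  `|X \\ M| ≥ m + s - 2 - j ≥ 3j - 3` (`m ≥ 4j`).

`gs_lemma` with `Top = ⊤`, `q = 0`: `P, r, S, a`, `Filled O H P r S a`,
`(|S ∩ M| + 1) h ≤ |P|`, and `P = ⊤` or `(np + 2)|P| ≤ m`, `np = np O r P X`.
Let `p = |P|/h`, `g = m/|P|`, `p g = j`.  In both cases `np ≤ g - 1` (`np = 0` if `P = ⊤`), and
`|S| ≤ 2(p-1)`, `a ≤ p-1`, `|S| - a ≤ p-1`, `|S ∩ M| ≤ p - 1`.
If `P ≠ ⊤` and `e - r ∉ P` we are done.  So suppose `e - r ∈ P` (true if `P = ⊤`); we derive a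
contradiction.  Let `D' := {x ∈ Din : x ∉ S, Pur O r P x}`.
CLAIM: for all `L < H`: `h ≤ (#{x ∈ D' : al x - be x ∉ L} + 1)|L|`, i.e. with `i = [H : L] ≥ 2`
`#(D' \\ L) ≥ i - 1`.  At most `ρ = |S ∩ Din| + np` elements of `Din` are not in `D'`.
* Case 1: `ρ ≤ (p-1) + (g-1) ≤ pg - 1 = j - 1`.
  `L ≠ ⊥`: `#(D' \\ L) ≥ (i-1)j + 1 - (j-1) = (i-2)j + 2 ≥ i - 1`.
  `L = ⊥` (`i = h`): `2|D'| ≥ m + 1 - 2(j-2) - 2(j-1) = hj - 4j + 7 ≥ 2(h - 1)`, since
  `hj - 4j - 2h + 9 = (h-4)(j-2) + 1 > 0`.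
* Case 2: `ρ ≤ 2(p-1) + (g-1) ≤ 2(j-1)` (`(2p-1)(g-1) ≥ 0`).
  `L ≠ ⊥`, `i ≥ 3`: `#(D' \\ L) ≥ (i-1)j + 1 - 2(j-1) = (i-3)j + 3 ≥ i - 1`.
  `L ≠ ⊥`, `i = 2`: `L = L2` (`eq_of_card`); all `x ∈ M` have `al x - be x ∉ L2`, and
  `#(M ∩ D') ≥ j - (p-1) - (g-1) ≥ 1`.
  `L = ⊥`: `|D'| ≥ m + s + 2 - 3j - 2(j-1) ≥ h - 1`, since (`s ≥ j`)
  `hj + s + 4 - 5j - h + 1 ≥ (h-4)j - h + 5 = (h-4)(j-1) + 1`.
`own_fill` for `D'`, `H`: `B ⊆ D'`, `|B| ≤ h - 1`, `Fill O ⊥ H B |B|`; `B` is disjoint from `S`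
and pure in `r + P`.  `assembly` with `n = m - 1`: `a + |B| ≤ (p-1) + (h-1) ≤ m - 1`, and
`n + |S| + np ≤ |X| + a`: `(|S| - a) + np ≤ (p-1) + (g-1) ≤ j - 1 ≤ s - 1`.  So every `y` with
`y - (m-1)r ∈ P` is attained; `-e - (m-1) r = -(e - r) - m r = -(e - r) ∈ P` (`m • r = 0` in
`ZMod m`).  Contradiction to `hav`.
-/

set_option autoImplicit false

namespace ZS44129
namespace G

open Finset

private theorem p4_nsmul {A : Type*} [AddCommGroup A] (r : A) {n : ℕ} (hn : 0 < n) :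
    (n - 1) • r = n • r - r := by
  obtain ⟨k, rfl⟩ : ∃ k, n = k + 1 := ⟨n - 1, by omega⟩
  rw [Nat.add_sub_cancel, add_nsmul, one_nsmul, add_sub_cancel_right]

private theorem p4_ar1 {p g : ℕ} (hp : 1 ≤ p) (hg : 1 ≤ g) : p + g ≤ p * g + 1 := by
  obtain ⟨p', rfl⟩ : ∃ p', p = p' + 1 := ⟨p - 1, by omega⟩
  obtain ⟨g', rfl⟩ : ∃ g', g = g' + 1 := ⟨g - 1, by omega⟩
  nlinarith [Nat.zero_le (p' * g')]

private theorem p4_ar2 {p g : ℕ} (hp : 1 ≤ p) (hg : 1 ≤ g) : 2 * p + g ≤ 2 * (p * g) + 1 := by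
  obtain ⟨p', rfl⟩ : ∃ p', p = p' + 1 := ⟨p - 1, by omega⟩
  obtain ⟨g', rfl⟩ : ∃ g', g = g' + 1 := ⟨g - 1, by omega⟩
  nlinarith [Nat.zero_le (p' * g')]

private theorem p4_ar3 {h j : ℕ} (hh : 4 ≤ h) (hj : 2 ≤ j) : 4 * j + 2 * h ≤ h * j + 8 := by
  obtain ⟨h', rfl⟩ : ∃ h', h = h' + 4 := ⟨h - 4, by omega⟩
  obtain ⟨j', rfl⟩ : ∃ j', j = j' + 2 := ⟨j - 2, by omega⟩
  nlinarith [Nat.zero_le (h' * j')]

private theorem p4_ar4 {h j : ℕ} (hh : 4 ≤ h) (hj : 1 ≤ j) : 4 * j + h ≤ h * j + 4 := by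
  obtain ⟨h', rfl⟩ : ∃ h', h = h' + 4 := ⟨h - 4, by omega⟩
  obtain ⟨j', rfl⟩ : ∃ j', j = j' + 1 := ⟨j - 1, by omega⟩
  nlinarith [Nat.zero_le (h' * j')]

private theorem p4_ar5 {i j : ℕ} (hi : 2 ≤ i) (hj : 1 ≤ j) : i + 2 * j ≤ i * j + 2 := by
  obtain ⟨i', rfl⟩ : ∃ i', i = i' + 2 := ⟨i - 2, by omega⟩
  obtain ⟨j', rfl⟩ : ∃ j', j = j' + 1 := ⟨j - 1, by omega⟩
  nlinarith [Nat.zero_le (i' * j')]

private theorem p4_ar6 {i j : ℕ} (hi : 3 ≤ i) (hj : 1 ≤ j) : i + 3 * j ≤ i * j + 3 := by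
  obtain ⟨i', rfl⟩ : ∃ i', i = i' + 3 := ⟨i - 3, by omega⟩
  obtain ⟨j', rfl⟩ : ∃ j', j = j' + 1 := ⟨j - 1, by omega⟩
  nlinarith [Nat.zero_le (i' * j')]

theorem thmP4 {ι : Type} [DecidableEq ι] {m s : ℕ} [NeZero m] (X : Finset ι)
    (hX : X.card + 2 = m + s) (al be : ι → ZMod m) (e : ZMod m)
    (hav : ¬ Att (fun x => ({al x, be x} : Finset (ZMod m))) X (m - 1) (-e))
    (hw0 : m < 2 * Dn al be X ⊥) (H : AddSubgroup (ZMod m)) (hH4 : 4 ≤ Nat.card H)
    (hHj : m ≤ s * Nat.card H) (hcl : (Dn al be X H + 2) * Nat.card H ≤ m)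
    (hmin : ∀ L : AddSubgroup (ZMod m), L ≠ ⊥ → L < H → m ≤ (Dn al be X L + 1) * Nat.card L) :
    ∃ (P : AddSubgroup (ZMod m)) (r : ZMod m), H ≤ P ∧ e - r ∉ P ∧
      (np (fun x => ({al x, be x} : Finset (ZMod m))) r P X + 2) * Nat.card P ≤ m := by
  classical
  set O : ι → Finset (ZMod m) := fun x => {al x, be x} with hO
  have hm0 : 0 < m := Nat.pos_of_ne_zero (NeZero.ne m)
  have hcm : Nat.card (ZMod m) = m := Nat.card_zmod m
  set h := Nat.card H with hh
  set j := H.index with hj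
  have hhj : h * j = m := by rw [hh, hj, AddSubgroup.card_mul_index, hcm]
  have hh0 : 0 < h := by omega
  have hjs : j ≤ s := by
    have : h * j ≤ h * s := by rw [hhj, mul_comm h s]; exact hHj
    exact Nat.le_of_mul_le_mul_left this hh0
  have hDH : Dn al be X H + 2 ≤ j := by
    have : h * (Dn al be X H + 2) ≤ h * j := by rw [hhj, mul_comm]; exact hcl
    exact Nat.le_of_mul_le_mul_left this hh0
  have hne : ∀ x ∈ X, (O x).Nonempty := fun x _ => ⟨al x, by simp [hO]⟩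
  -- `Din`
  set Din := X.filter (fun x => al x - be x ∈ H ∧ al x ≠ be x) with hDin
  have hA0 : ∀ L : AddSubgroup (ZMod m), L ≤ H →
      Dn al be Din L + Dn al be X H = Dn al be X L := by
    intro L hL
    unfold Dn
    rw [hDin, filter_filter, ← card_union_of_disjoint]
    · congr 1
      ext x
      simp only [mem_union, mem_filter]
      constructor
      · rintro (⟨h1, h2⟩ | ⟨h1, h2⟩)
        · exact ⟨h1, h2.2⟩
        · exact ⟨h1, fun h3 => h2 (hL h3)⟩
      · rintro ⟨h1, h2⟩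
        by_cases h3 : al x - be x ∈ H
        · refine Or.inl ⟨h1, ⟨h3, fun h4 => h2 ?_⟩, h2⟩
          rw [h4, sub_self]
          exact zero_mem _
        · exact Or.inr ⟨h1, h3⟩
    · rw [disjoint_left]
      intro x h1 h2
      exact (mem_filter.1 h2).2 (mem_filter.1 h1).2.1.1
  have hDin0 : Dn al be Din ⊥ = Din.card := by
    unfold Dn
    congr 1
    apply filter_true_of_mem
    intro x hx
    have h1 := (mem_filter.1 hx).2.2
    rw [AddSubgroup.mem_bot]
    exact fun h2 => h1 (sub_eq_zero.1 h2)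
  have hA : ∀ L : AddSubgroup (ZMod m), L ≠ ⊥ → L < H → ∀ i, h = Nat.card L * i →
      i * j + 1 ≤ Dn al be Din L + j := by
    intro L hL0 hLH i hi
    have h1 := hmin L hL0 hLH
    have h2 := hA0 L hLH.le
    have hL : 0 < Nat.card L := Nat.pos_of_ne_zero fun h0 => by
      rw [h0, zero_mul] at hi
      omega
    have h3 : Nat.card L * (i * j) ≤ Nat.card L * (Dn al be X L + 1) := by
      calc Nat.card L * (i * j) = Nat.card L * i * j := by ring
        _ = m := by rw [← hi, hhj]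
        _ ≤ _ := by rw [mul_comm]; exact h1
    have h4 := Nat.le_of_mul_le_mul_left h3 hL
    omega
  have hB : h * j + 5 ≤ 2 * Din.card + 2 * j := by
    have h2 := hA0 ⊥ bot_le
    rw [hDin0] at h2
    rw [hhj]
    omega
  have hDinX : Din ⊆ X := filter_subset _ _
  have hsd : (X \ Din).card + Din.card = X.card := card_sdiff_add_card_eq_card hDinX
  -- the choice of `M`
  obtain ⟨M, hMD, hMc, hMcase⟩ : ∃ M : Finset ι, M ⊆ Din ∧ 3 * j ≤ (X \ M).card + 3 ∧
      (M = Din ∨ ((X \ Din).card + 4 ≤ 3 * j ∧ ∀ L : AddSubgroup (ZMod m), L < H → L ≠ ⊥ →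
        h = Nat.card L * 2 → M.card = j ∧ ∀ x ∈ M, al x - be x ∉ L)) := by
    by_cases hc : 3 * j ≤ (X \ Din).card + 3
    · exact ⟨Din, Subset.refl _, hc, Or.inl rfl⟩
    · push Not at hc
      by_cases hev : ∃ L : AddSubgroup (ZMod m), L < H ∧ L ≠ ⊥ ∧ h = Nat.card L * 2
      · obtain ⟨L2, hL1, hL0, hL2⟩ := hev
        have h1 := hA L2 hL0 hL1 2 hL2
        have h2 : j ≤ (Din.filter (fun x => al x - be x ∉ L2)).card := by
          have : Dn al be Din L2 = (Din.filter (fun x => al x - be x ∉ L2)).card := by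
            unfold Dn
            congr
          omega
        obtain ⟨M, hM, hMj⟩ := exists_subset_card_eq h2
        have hMD : M ⊆ Din := hM.trans (filter_subset _ _)
        have h3 : (X \ M).card + M.card = X.card := card_sdiff_add_card_eq_card (hMD.trans hDinX)
        refine ⟨M, hMD, ?_, Or.inr ⟨by omega, fun L hL hL0' hLc => ⟨hMj, fun x hx => ?_⟩⟩⟩
        · have h4 : 4 * j ≤ h * j := Nat.mul_le_mul_right j hH4
          omega
        · have : L = L2 := eq_of_card L L2 (by omega)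
          rw [this]
          exact (mem_filter.1 (hM hx)).2
      · refine ⟨∅, empty_subset _, ?_, Or.inr ⟨by omega, fun L hL hL0' hLc => ?_⟩⟩
        · rw [sdiff_empty]
          have h4 : 4 * j ≤ h * j := Nat.mul_le_mul_right j hH4
          omega
        · exact absurd ⟨L, hL, hL0', hLc⟩ hev
  -- the filling
  have hXp : ∀ (r : ZMod m) (x : ι), Pur O r ⊤ x := fun r x o _ => AddSubgroup.mem_top _
  obtain ⟨P, r, S, a, -, -, hSX, hFd, hSM, hPT⟩ := gs_lemma O H ⊤ le_top 0 X hne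
    (fun x _ => hXp 0 x) M (by
      calc 3 * Nat.card (⊤ : AddSubgroup (ZMod m)) = 3 * (h * j) := by
            rw [AddSubgroup.card_top, hcm, hhj]
        _ = 3 * j * h := by ring
        _ ≤ ((X \ M).card + 3) * h := Nat.mul_le_mul_right h hMc)
  rw [AddSubgroup.card_top, hcm] at hPT
  have hHP : H ≤ P := hFd.le
  by_contra hcon
  obtain ⟨p, hp⟩ : h ∣ Nat.card P := AddSubgroup.card_dvd_of_le hHP
  set g := P.index with hg
  have hPg : Nat.card P * g = m := by rw [hg, AddSubgroup.card_mul_index, hcm]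
  have hpg : p * g = j := by
    have h1 : h * (p * g) = h * j := by
      rw [hhj, ← hPg, hp]
      ring
    exact Nat.eq_of_mul_eq_mul_left hh0 h1
  have hj2 : 2 ≤ j := by omega
  have hp1 : 1 ≤ p := by
    rcases Nat.eq_zero_or_pos p with h0 | h0
    · rw [h0, zero_mul] at hpg
      omega
    · exact h0
  have hg1 : 1 ≤ g := by
    rcases Nat.eq_zero_or_pos g with h0 | h0
    · rw [h0, mul_zero] at hpg
      omega
    · exact h0
  have hnp : np O r P X + 1 ≤ g ∧ (e - r ∈ P) := by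
    by_cases hPtop : P = ⊤
    · constructor
      · have : np O r P X = 0 := by
          unfold np
          rw [card_eq_zero, filter_eq_empty_iff]
          intro x _ hx
          rw [hPtop] at hx
          exact hx (hXp r x)
        omega
      · rw [hPtop]
        exact AddSubgroup.mem_top _
    · have h1 := hPT.resolve_left hPtop
      constructor
      · have h2 : Nat.card P * (np O r P X + 2) ≤ Nat.card P * g := by
          rw [hPg, mul_comm]
          exact h1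
        have hP0 : 0 < Nat.card P := by
          rw [hp]
          exact Nat.mul_pos hh0 hp1
        have := Nat.le_of_mul_le_mul_left h2 hP0
        omega
      · by_contra h3
        exact hcon ⟨P, r, hHP, h3, h1⟩
  obtain ⟨hnp1, her⟩ := hnp
  have hs1 : S.card + 2 ≤ 2 * p := by
    have h1 : h * (S.card + 2) ≤ h * (2 * p) := by
      calc h * (S.card + 2) = (S.card + 2) * h := mul_comm _ _
        _ ≤ 2 * Nat.card P := hFd.s1
        _ = h * (2 * p) := by rw [hp]; ring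
    exact Nat.le_of_mul_le_mul_left h1 hh0
  have hs2 : a + 1 ≤ p := by
    have h1 : h * (a + 1) ≤ h * p := by
      rw [← hp, mul_comm]
      exact hFd.s2
    exact Nat.le_of_mul_le_mul_left h1 hh0
  have hs3 : S.card + 1 ≤ a + p := by
    have h1 : h * (S.card + 1) ≤ h * (a + p) := by
      calc h * (S.card + 1) = (S.card + 1) * h := mul_comm _ _
        _ ≤ a * h + Nat.card P := hFd.s3
        _ = h * (a + p) := by rw [hp]; ring
    exact Nat.le_of_mul_le_mul_left h1 hh0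
  have hSM' : (S ∩ M).card + 1 ≤ p := by
    have h1 : h * ((S ∩ M).card + 1) ≤ h * p := by
      rw [← hp, mul_comm]
      exact hSM
    exact Nat.le_of_mul_le_mul_left h1 hh0
  have ar1 := p4_ar1 hp1 hg1
  rw [hpg] at ar1
  have ar2 := p4_ar2 hp1 hg1
  rw [hpg] at ar2
  -- `D'`
  set D' := Din.filter (fun x => x ∉ S ∧ Pur O r P x) with hD'
  have hD'D : D' ⊆ Din := filter_subset _ _
  have hnpc : (X.filter (fun x => ¬ Pur O r P x)).card = np O r P X := by
    unfold np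
    congr
  -- losses
  have hloss : ∀ (Y : Finset ι), Y ⊆ Din → ∀ L : AddSubgroup (ZMod m),
      Dn al be Y L ≤ Dn al be D' L + (S ∩ Y).card + np O r P X := by
    intro Y hY L
    have h1 : Y.filter (fun x => al x - be x ∉ L) ⊆
        (D'.filter (fun x => al x - be x ∉ L) ∪ (S ∩ Y)) ∪ X.filter (fun x => ¬ Pur O r P x) := by
      intro x hx
      obtain ⟨hx1, hx2⟩ := mem_filter.1 hx
      rw [mem_union, mem_union]
      by_cases h2 : x ∈ S
      · exact Or.inl (Or.inr (mem_inter.2 ⟨h2, hx1⟩))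
      · by_cases h3 : Pur O r P x
        · exact Or.inl (Or.inl (mem_filter.2 ⟨mem_filter.2 ⟨hY hx1, h2, h3⟩, hx2⟩))
        · exact Or.inr (mem_filter.2 ⟨hDinX (hY hx1), h3⟩)
    have h2 := card_le_card h1
    have h3 := card_union_le (D'.filter (fun x => al x - be x ∉ L) ∪ (S ∩ Y))
      (X.filter (fun x => ¬ Pur O r P x))
    have h4 := card_union_le (D'.filter (fun x => al x - be x ∉ L)) (S ∩ Y)
    rw [hnpc] at h3
    have h5 : Dn al be Y L = (Y.filter (fun x => al x - be x ∉ L)).card := by unfold Dn; congr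
    have h6 : Dn al be D' L = (D'.filter (fun x => al x - be x ∉ L)).card := by unfold Dn; congr
    omega
  have hout : ∀ L : AddSubgroup (ZMod m), L < H →
      Nat.card H ≤ (Dn al be D' L + 1) * Nat.card L := by
    intro L hLH
    obtain ⟨i, hi⟩ : Nat.card L ∣ Nat.card H := AddSubgroup.card_dvd_of_le hLH.le
    have hi' : h = Nat.card L * i := hi
    have hi1 : i ≠ 1 := by
      rintro rfl
      rw [mul_one] at hi
      exact hLH.ne (eq_of_card L H hi.symm)
    have hi0 : i ≠ 0 := by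
      rintro rfl
      rw [mul_zero] at hi'
      omega
    suffices hsuf : i ≤ Dn al be D' L + 1 by
      rw [hi, mul_comm]
      exact Nat.mul_le_mul_right _ hsuf
    have hl1 := hloss Din (Subset.refl _) L
    by_cases hL0 : L = ⊥
    · subst hL0
      rw [AddSubgroup.card_bot, one_mul] at hi'
      rw [hDin0] at hl1
      rcases hMcase with hM | ⟨hM, -⟩
      · rw [hM] at hSM'
        have := p4_ar3 hH4 hj2
        omega
      · have h1 : (S ∩ Din).card ≤ S.card := card_le_card inter_subset_left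
        have := p4_ar4 hH4 (by omega : 1 ≤ j)
        omega
    · have hAL := hA L hL0 hLH i hi'
      rcases hMcase with hM | ⟨hM, hM2⟩
      · rw [hM] at hSM'
        have := p4_ar5 (by omega : 2 ≤ i) (by omega : 1 ≤ j)
        omega
      · by_cases hi2 : i = 2
        · obtain ⟨hMj, hML⟩ := hM2 L hLH hL0 (by rw [hi', hi2])
          have hl2 := hloss M hMD L
          have h1 : Dn al be M L = M.card := by
            unfold Dn
            congr 1
            exact filter_true_of_mem hML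
          omega
        · have h1 : (S ∩ Din).card ≤ S.card := card_le_card inter_subset_left
          have := p4_ar6 (by omega : 3 ≤ i) (by omega : 1 ≤ j)
          omega
  obtain ⟨B, hBD, hBc, hBF⟩ := own_fill al be H D'
    (fun x hx => (mem_filter.1 (hD'D hx)).2.1) hout
  have hph : p + h ≤ p * h + 1 := p4_ar1 hp1 (by omega)
  have hphm : p * h ≤ m := by
    rw [← hhj, ← hpg]
    calc p * h = h * (p * 1) := by ring
      _ ≤ h * (p * g) := Nat.mul_le_mul_left _ (Nat.mul_le_mul_left _ hg1)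
  have hBc' : B.card + 1 ≤ h := hBc
  refine hav (assembly O X S B H P hHP r a (m - 1) hSX (hBD.trans (hD'D.trans hDinX)) ?_ hFd.pur ?_
    hFd.fill hBF hne (by omega) (by omega) (-e) ?_)
  · rw [disjoint_left]
    intro x hx hx'
    exact (mem_filter.1 (hBD hx')).2.1 hx
  · intro x hx
    exact (mem_filter.1 (hBD hx)).2.2
  · have h1 : (-e : ZMod m) - (m - 1) • r = -(e - r) := by
      have h2 : (m - 1) • r = m • r - r := p4_nsmul r hm0
      have h3 : m • r = 0 := by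
        rw [nsmul_eq_mul, ZMod.natCast_self, zero_mul]
      rw [h2, h3]
      ring
    rw [h1]
    exact neg_mem her

end G
end ZS44129
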