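import Mathlib
import Pool.Agent.Work.MP_44129c_co.G.ThmP4
import Pool.Agent.Work.MP_44129c_co.G.ThmP3

/-!
# MP_44129c_co/G, module ThmP: the exact structure theorem (size S-M)

`κ = 2` or `3`; subgroups of order `≤ κ` (not `⊥`) are not close (`hw1`); subgroups of order
`> κ` have index `≤ s` (`hj`).

Proof.  Suppose the first alternative fails: the set of `L ≠ ⊥` with `(D(L)+1)|L| < m` is
nonempty; choose `H` in it with `Nat.card H` minimal.  `|H| > κ` by `hw1`.  `|L|` divides `m`, so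
`(D(L)+1)|L| < m` implies `(D(L)+2)|L| ≤ m`.  If `|H| ≥ 4` use `thmP4` (`hmin`: `L ≠ ⊥`, `L < H`
has smaller order, so it is not in the set).  If `|H| = 3` (then `κ = 2`) use `thmP3`.  The
resulting `P ≥ H` has `|P| ≥ |H| > κ`.
-/

set_option autoImplicit false

namespace ZS44129
namespace G

open Finset

theorem thmP {ι : Type} [DecidableEq ι] {m s κ : ℕ} [NeZero m] (hκ : κ = 2 ∨ κ = 3)
    (X : Finset ι) (hX : X.card + 2 = m + s) (al be : ι → ZMod m) (e : ZMod m)
    (hav : ¬ Att (fun x => ({al x, be x} : Finset (ZMod m))) X (m - 1) (-e))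
    (hw0 : m < 2 * Dn al be X ⊥)
    (hw1 : ∀ L : AddSubgroup (ZMod m), L ≠ ⊥ → Nat.card L ≤ κ →
      m ≤ (Dn al be X L + 1) * Nat.card L)
    (hj : ∀ L : AddSubgroup (ZMod m), κ < Nat.card L → m ≤ s * Nat.card L) :
    (∀ L : AddSubgroup (ZMod m), L ≠ ⊥ → m ≤ (Dn al be X L + 1) * Nat.card L) ∨
    ∃ (P : AddSubgroup (ZMod m)) (r : ZMod m), κ < Nat.card P ∧ e - r ∉ P ∧
      (np (fun x => ({al x, be x} : Finset (ZMod m))) r P X + 2) * Nat.card P ≤ m := by
  classical
  by_cases hall : ∀ L : AddSubgroup (ZMod m), L ≠ ⊥ → m ≤ (Dn al be X L + 1) * Nat.card L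
  · exact Or.inl hall
  right
  push Not at hall
  obtain ⟨L0, hL0, hL0'⟩ := hall
  have hex : ∃ n : ℕ, ∃ L : AddSubgroup (ZMod m), L ≠ ⊥ ∧
      (Dn al be X L + 1) * Nat.card L < m ∧ Nat.card L = n := ⟨_, L0, hL0, hL0', rfl⟩
  obtain ⟨H, hH0, hHlt, hHn⟩ := Nat.find_spec hex
  have hκH : κ < Nat.card H := by
    by_contra hcon
    have := hw1 H hH0 (not_lt.1 hcon)
    omega
  have hmono : ∀ A B : AddSubgroup (ZMod m), A ≤ B → Nat.card A ≤ Nat.card B := by
    intro A B hAB
    exact Nat.card_le_card_of_injective (AddSubgroup.inclusion hAB)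
      (AddSubgroup.inclusion_injective hAB)
  have hdvd : Nat.card H ∣ m := by
    have := AddSubgroup.card_addSubgroup_dvd_card H
    rwa [Nat.card_zmod] at this
  have hcl : (Dn al be X H + 2) * Nat.card H ≤ m := by
    obtain ⟨k, hk⟩ := hdvd
    have h1 : (Dn al be X H + 1) * Nat.card H < k * Nat.card H := by
      rw [mul_comm k, ← hk]
      exact hHlt
    have h2 : Dn al be X H + 1 < k := lt_of_mul_lt_mul_right h1 (Nat.zero_le _)
    calc (Dn al be X H + 2) * Nat.card H ≤ k * Nat.card H := Nat.mul_le_mul_right _ h2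
      _ = m := by rw [mul_comm, ← hk]
  have hres : ∃ (P : AddSubgroup (ZMod m)) (r : ZMod m), H ≤ P ∧ e - r ∉ P ∧
      (np (fun x => ({al x, be x} : Finset (ZMod m))) r P X + 2) * Nat.card P ≤ m := by
    by_cases h4 : 4 ≤ Nat.card H
    · refine thmP4 X hX al be e hav hw0 H h4 (hj H hκH) hcl ?_
      intro L hL hLH
      by_contra hcon
      have h1 : Nat.card L < Nat.card H := by
        refine lt_of_le_of_ne (hmono L H hLH.le) ?_
        intro h
        exact hLH.ne (eq_of_card L H h)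
      rw [hHn] at h1
      exact Nat.find_min hex h1 ⟨L, hL, not_le.1 hcon, rfl⟩
    · have h3 : Nat.card H = 3 := by
        rcases hκ with h | h <;> omega
      have h5 := hj H hκH
      rw [h3] at h5 hcl
      exact thmP3 X hX al be e hav hw0 H h3 h5 hcl
  obtain ⟨P, r, hHP, her, hnp⟩ := hres
  exact ⟨P, r, lt_of_lt_of_le hκH (hmono H P hHP), her, hnp⟩

end G
end ZS44129
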