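import Mathlib
import Pool.Agent.Work.MP_44129c_co.G.PDefs
import Pool.Agent.Work.MP_44129c_co.G.ThmP

/-!
# MP_44129c_co/G, module Pair (size S-M)

## zsf_pair
`T ⊆ XX u v`, `|T| = m - 1`, options `f x ∈ {c u x, c v x}` with `∑ f = - c u v`.  Let
`X1 = {x ∈ T : f x = c u x}`, `Y1 = T \ X1` (`f x = c v x` there).  `ZSF` for `u, v, X1, Y1`
(`|X1| + |Y1| + 1 = m`) gives `c u v + ∑ ≠ 0`.

## zsf_star
`m` edges at `u`: `T ⊆ univ.erase u`, `|T| = m`.  Take `v ∈ T` (`m ≥ 1`), `X = T.erase v`,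
`Y = ∅`.

## pair_thmP
`thmP` with `X = XX u v`, `al = c u`, `be = c v`, `e = c u v`, `zsf_pair`; `card_XX`.
-/

set_option autoImplicit false

namespace ZS44129
namespace G

open Finset

variable {V : Type} [Fintype V] [DecidableEq V] {m : ℕ}

theorem zsf_pair (c : V → V → ZMod m) (hZ : ZSF m c) (hm : 1 ≤ m) {u v : V} (huv : u ≠ v) :
    ¬ Att (fun x => ({c u x, c v x} : Finset (ZMod m))) (XX u v) (m - 1) (-(c u v)) := by
  classical
  rintro ⟨T, hT, hc, f, hf, hs⟩
  have hTm : ∀ x ∈ T, x ≠ u ∧ x ≠ v := fun x hx => mem_XX.1 (hT hx)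
  have hsub1 : ∀ x ∈ T.filter (fun x => f x = c u x), x ∈ T := fun x hx => (mem_filter.1 hx).1
  have hsub2 : ∀ x ∈ T.filter (fun x => ¬ f x = c u x), x ∈ T := fun x hx => (mem_filter.1 hx).1
  refine hZ u v huv (T.filter (fun x => f x = c u x)) (T.filter (fun x => ¬ f x = c u x))
    (disjoint_filter_filter_not _ _ _) (fun h => (hTm u (hsub1 u h)).1 rfl)
    (fun h => (hTm v (hsub1 v h)).2 rfl) (fun h => (hTm u (hsub2 u h)).1 rfl)
    (fun h => (hTm v (hsub2 v h)).2 rfl) ?_ ?_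
  · rw [card_filter_add_card_filter_not, hc]
    omega
  · have e1 : ∑ x ∈ T.filter (fun x => f x = c u x), c u x =
        ∑ x ∈ T.filter (fun x => f x = c u x), f x :=
      sum_congr rfl fun x hx => (mem_filter.1 hx).2.symm
    have e2 : ∑ x ∈ T.filter (fun x => ¬ f x = c u x), c v x =
        ∑ x ∈ T.filter (fun x => ¬ f x = c u x), f x := by
      refine sum_congr rfl fun x hx => ?_
      obtain ⟨hx1, hx2⟩ := mem_filter.1 hx
      rcases mem_insert.1 (hf x hx1) with h | h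
      · exact absurd h hx2
      · exact (mem_singleton.1 h).symm
    rw [e1, e2, add_assoc, sum_filter_add_sum_filter_not, hs]
    exact add_neg_cancel _

theorem zsf_star (c : V → V → ZMod m) (hZ : ZSF m c) (hm : 1 ≤ m) (u : V) :
    ¬ Att (fun x => ({c u x} : Finset (ZMod m))) (univ.erase u) m 0 := by
  classical
  rintro ⟨T, hT, hc, f, hf, hs⟩
  have hne : T.Nonempty := by
    rw [← card_pos]
    omega
  obtain ⟨v, hv⟩ := hne
  have hu : u ∉ T := fun h => (mem_erase.1 (hT h)).1 rfl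
  have huv : u ≠ v := by
    rintro rfl
    exact hu hv
  refine hZ u v huv (T.erase v) ∅ (disjoint_empty_right _) (fun h => hu (mem_of_mem_erase h))
    (notMem_erase v T) (notMem_empty _) (notMem_empty _) ?_ ?_
  · rw [card_empty, add_zero, card_erase_add_one hv, hc]
  · rw [sum_empty, add_zero, add_sum_erase T (fun x => c u x) hv, ← hs]
    refine sum_congr rfl fun x hx => ?_
    exact (mem_singleton.1 (hf x hx)).symm

theorem pair_thmP [NeZero m] (c : V → V → ZMod m) (hZ : ZSF m c) {s κ : ℕ}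
    (hκ : κ = 2 ∨ κ = 3) (hV : Fintype.card V = m + s)
    (hj : ∀ L : AddSubgroup (ZMod m), κ < Nat.card L → m ≤ s * Nat.card L) {u v : V}
    (h : Wd c κ u v) : GP c u v ∨ ∃ (P : AddSubgroup (ZMod m)) (r : ZMod m), Hv c κ u v P r := by
  obtain ⟨huv, h0, h1⟩ := h
  have hm : 1 ≤ m := Nat.one_le_iff_ne_zero.2 (NeZero.ne m)
  have hX : (XX u v).card + 2 = m + s := by
    rw [card_XX huv, hV]
  rcases thmP hκ (XX u v) hX (c u) (c v) (c u v) (zsf_pair c hZ hm huv) h0 h1 hj with h2 | h2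
  · exact Or.inl ⟨huv, h0, h2⟩
  · obtain ⟨P, r, hP1, hP2, hP3⟩ := h2
    exact Or.inr ⟨P, r, huv, hP1, hP2, hP3⟩

end G
end ZS44129
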