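import Mathlib
import Pool.Agent.Work.MP_44129c_co.G.Pair

/-!
# MP_44129c_co/G, module Core: pairs whose edge colour is in the coset (size S-M)

`Oc c u y r0 P z`: the options of the position `z` of the pair `u, y` which are in `r0 + P`.

Proof of `core`.  `O := Oc c u y r0 P`; nonempty on `Z` by `hne`, all positions pure in `r0 + P`.
`gs_lemma` with `H = ⊥`, `Top = P`, `q = r0`, `X = Z`, `M = ∅`
(`|Z| + 3 ≥ m + |P| + 1 ≥ 3|P|`): `P1 ≤ P`, `r1`, `S`, `a`, `r1 - r0 ∈ P`.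
Any value attained by `O` on `Z` is attained by the options `{c u z, c y z}` on `XX u y`
(`Att.mono_opt`, `Att.mono`), so `- c u y` is not attained with `m - 1` positions (`zsf_pair`).
* `P1 = P`: `np O r1 P Z = 0`.  `assembly0` with `n = m - 1`: `a ≤ |P| - 1 ≤ m - 1`,
  `(m - 1) + |S| ≤ |Z| + a` as `|S| ≤ a + |P| - 1`.  `- c u y - (m-1) • r1 = -(c u y - r1) ∈ P`.
  Contradiction.
* `P1 ≠ P`: `(np + 2)|P1| ≤ |P|`, `|P| = b p1`, `b ≥ 2`, `np ≤ b - 2`.  If `c u y - r1 ∈ P1`: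
  `assembly0` for `P1`: `(m - 1) + |S| + np ≤ |Z| + a` as
  `(m-1) + (p1 - 1) + (b - 2) ≤ m + b p1 - 2`; again `- c u y` is attained, contradiction.
-/

set_option autoImplicit false

namespace ZS44129
namespace G

open Finset

variable {V : Type} [Fintype V] [DecidableEq V] {m : ℕ}

open Classical in
/-- options of `z` for the pair `u, y` in the coset `r0 + P`. -/
noncomputable def Oc (c : V → V → ZMod m) (u y : V) (r0 : ZMod m) (P : AddSubgroup (ZMod m))
    (z : V) : Finset (ZMod m) :=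
  ({c u z, c y z} : Finset (ZMod m)).filter (fun g => g - r0 ∈ P)

private theorem core_aux [NeZero m] (c : V → V → ZMod m) (hZ : ZSF m c) {u y : V} (huy : u ≠ y)
    (P : AddSubgroup (ZMod m)) (r0 : ZMod m) (Z : Finset V) (hZX : Z ⊆ XX u y)
    (hne : ∀ z ∈ Z, (Oc c u y r0 P z).Nonempty) (P1 : AddSubgroup (ZMod m)) (r1 : ZMod m)
    (S : Finset V) (a : ℕ) (hSZ : S ⊆ Z) (hF : Filled (Oc c u y r0 P) ⊥ P1 r1 S a)
    (h1 : c u y - r1 ∈ P1) (ha : a + 1 ≤ m)
    (hn : m + S.card + np (Oc c u y r0 P) r1 P1 Z ≤ Z.card + a + 1) : False := by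
  have hm : 1 ≤ m := Nat.one_le_iff_ne_zero.2 (NeZero.ne m)
  have h2 := assembly0 (Oc c u y r0 P) Z S P1 r1 a (m - 1) hSZ hF.pur hF.fill hne (by omega)
    (by omega) (-(c u y)) (by
      have h3 : -(c u y) - (m - 1) • r1 = -(c u y - r1) := by
        have h4 : (m - 1) • r1 + r1 = 0 := by
          have h5 : (m - 1) • r1 + r1 = (m - 1 + 1) • r1 := (succ_nsmul r1 (m - 1)).symm
          rw [h5, Nat.sub_add_cancel hm, nsmul_eq_mul, ZMod.natCast_self, zero_mul]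
        have h6 : (m - 1) • r1 = -r1 := eq_neg_of_add_eq_zero_left h4
        rw [h6]
        abel
      rw [h3]
      exact P1.neg_mem h1)
  refine zsf_pair c hZ hm huy ((h2.mono_opt (fun z _ => ?_)).mono hZX)
  classical
  exact Finset.filter_subset _ _

theorem core [NeZero m] (c : V → V → ZMod m) (hZ : ZSF m c) {u y : V} (huy : u ≠ y)
    (P : AddSubgroup (ZMod m)) (r0 : ZMod m) (hP : 2 * Nat.card P ≤ m + 1)
    (h0 : c u y - r0 ∈ P) (Z : Finset V) (hZX : Z ⊆ XX u y)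
    (hne : ∀ z ∈ Z, c u z - r0 ∈ P ∨ c y z - r0 ∈ P) (hc : m + Nat.card P ≤ Z.card + 2) :
    ∃ (P1 : AddSubgroup (ZMod m)) (r1 : ZMod m), P1 < P ∧ r1 - r0 ∈ P ∧ c u y - r1 ∉ P1 ∧
      (np (Oc c u y r0 P) r1 P1 Z + 2) * Nat.card P1 ≤ Nat.card P := by
  classical
  have hm : 1 ≤ m := Nat.one_le_iff_ne_zero.2 (NeZero.ne m)
  have hne' : ∀ z ∈ Z, (Oc c u y r0 P z).Nonempty := by
    intro z hz
    rcases hne z hz with h | h
    · exact ⟨c u z, by unfold Oc; rw [Finset.mem_filter]; exact ⟨by simp, h⟩⟩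
    · exact ⟨c y z, by unfold Oc; rw [Finset.mem_filter]; exact ⟨by simp, h⟩⟩
  have hpur : ∀ z ∈ Z, Pur (Oc c u y r0 P) r0 P z := by
    intro z _ o ho
    unfold Oc at ho
    rw [Finset.mem_filter] at ho
    exact ho.2
  have hbot : Nat.card (⊥ : AddSubgroup (ZMod m)) = 1 := by
    simp
  have hPpos : 1 ≤ Nat.card P := Nat.one_le_iff_ne_zero.2 Nat.card_pos.ne'
  obtain ⟨P1, r1, S, a, hP1, hr1, hSZ, hF, -, hor⟩ := gs_lemma (Oc c u y r0 P) ⊥ P bot_le r0 Z
    hne' hpur ∅ (by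
      rw [hbot, Finset.sdiff_empty]
      omega)
  have hs2 := hF.s2
  have hs3 := hF.s3
  rw [hbot] at hs2 hs3
  have hP1pos : 1 ≤ Nat.card P1 := Nat.one_le_iff_ne_zero.2 Nat.card_pos.ne'
  have hcard : Nat.card P1 ≤ Nat.card P := AddSubgroup.card_le_of_le hP1
  by_cases hPP : P1 = P
  · exfalso
    subst hPP
    have hnp : np (Oc c u y r0 P1) r1 P1 Z = 0 := by
      unfold np
      rw [Finset.card_eq_zero, Finset.filter_eq_empty_iff]
      intro z hz h
      apply h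
      intro o ho
      have h2 := P1.sub_mem (hpur z hz o ho) hr1
      have h3 : o - r0 - (r1 - r0) = o - r1 := by abel
      rwa [h3] at h2
    refine core_aux c hZ huy P1 r0 Z hZX hne' P1 r1 S a hSZ hF ?_ (by omega) (by omega)
    have h2 := P1.sub_mem h0 hr1
    have h3 : c u y - r0 - (r1 - r0) = c u y - r1 := by abel
    rwa [h3] at h2
  · have hnp := hor.resolve_left hPP
    refine ⟨P1, r1, lt_of_le_of_ne hP1 hPP, hr1, ?_, hnp⟩
    intro h1
    have h2 : np (Oc c u y r0 P) r1 P1 Z ≤ np (Oc c u y r0 P) r1 P1 Z * Nat.card P1 :=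
      Nat.le_mul_of_pos_right _ hP1pos
    rw [add_mul] at hnp
    exact core_aux c hZ huy P r0 Z hZX hne' P1 r1 S a hSZ hF h1 (by omega) (by omega)

open Classical in
/-- the form of `core` that is used: colours at `u` only. -/
theorem core' [NeZero m] (c : V → V → ZMod m) (hZ : ZSF m c) {u y : V} (huy : u ≠ y)
    (P : AddSubgroup (ZMod m)) (r0 : ZMod m) (hP : 2 * Nat.card P ≤ m + 1)
    (h0 : c u y - r0 ∈ P) (Z : Finset V) (hZX : Z ⊆ XX u y)
    (hne : ∀ z ∈ Z, c u z - r0 ∈ P ∨ c y z - r0 ∈ P) (hc : m + Nat.card P ≤ Z.card + 2) :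
    ∃ (P1 : AddSubgroup (ZMod m)) (r1 : ZMod m), P1 < P ∧ r1 - r0 ∈ P ∧ c u y - r1 ∉ P1 ∧
      ((Z.filter (fun z => c u z - r0 ∈ P ∧ c u z - r1 ∉ P1)).card + 2) * Nat.card P1 ≤
        Nat.card P := by
  obtain ⟨P1, r1, h1, h2, h3, h4⟩ := core c hZ huy P r0 hP h0 Z hZX hne hc
  refine ⟨P1, r1, h1, h2, h3, le_trans (Nat.mul_le_mul_right _ (Nat.add_le_add_right ?_ 2)) h4⟩
  unfold np
  apply Finset.card_le_card
  intro z hz
  rw [Finset.mem_filter] at hz ⊢
  refine ⟨hz.1, fun hp => hz.2.2 (hp (c u z) ?_)⟩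
  unfold Oc
  rw [Finset.mem_filter]
  exact ⟨by simp, hz.2.1⟩

end G
end ZS44129
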