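import Mathlib
import Pool.Agent.Work.MP_44129c_co.G.Core
import Pool.Agent.Work.MP_44129c_co.G.CDefs

/-!
# MP_44129c_co/G, module C1K: exceptional edges (size M)

`k = |K|`, `A = cls c u K r`.  An `x ∈ A` is exceptional if `nb c u x K r + k ≤ s`.

## c1_exc
`Z := {z ∈ XX u x : c u z - r ∈ K ∨ c x z - r ∈ K}`, `|Z| = (m + s - 2) - nb ≥ m + k - 2`.
`core'` for the pair `u, x`, `P = K`, `r0 = r`: `P1 < K`, `r1`, `c u x - r1 ∉ P1`, and
`(#{z ∈ Z : c u z - r ∈ K ∧ c u z - r1 ∉ P1} + 2)|P1| ≤ |K|`.  The `z ∈ A.erase x` are in `Z`.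

## exc2  (`k ≤ 2`, `|A| ≥ 3`): at most `k - 1` exceptional `x`.
`k = 1`: `P1 < K` is impossible (`K = ⊥`).  `k = 2`: `P1 = ⊥`, so all `z ∈ A.erase x` have
`c u z = r1 ≠ c u x`.  Two exceptional `x ≠ x'`: for a third `z ∈ A` `r1 = c u z = r1'`, and
`c u x' = r1 = r1'`, contradiction to `c u x' ≠ r1'`.

## exc6  (`k ∣ 6`, `|A| ≥ 11`): at most `8` exceptional `x`.
`|P1| = d ∈ {1, 2, 3}`, `d ∣ k`, `d < k`.  For fixed `d`: `P1` is determined (`eq_of_card`),
`#{z ∈ A : c u z - r1 ∉ P1} ≤ (k/d - 2) + 1 ≤ 5`.  For two exceptional `x, x'` with the same `d`: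
as `|A| ≥ 11` some `z ∈ A` is in both cosets, so `r1 - r1' ∈ P1` and
`x' ∈ {z ∈ A : c u z - r1 ∉ P1}`.  So there are at most `k/d - 1` exceptional `x` with this `d`;
in total at most `5 + 2 + 1 = 8` (`k = 6`), `2` (`k = 3`), `1` (`k = 2`), `0` (`k = 1`).
-/

set_option autoImplicit false

namespace ZS44129
namespace G

open Finset

variable {V : Type} [Fintype V] [DecidableEq V] {m : ℕ}

open Classical in
theorem c1_exc [NeZero m] (c : V → V → ZMod m) (hZ : ZSF m c) {s : ℕ}
    (hV : Fintype.card V = m + s) (K : AddSubgroup (ZMod m)) (hK : 2 * Nat.card K ≤ m + 1)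
    (u : V) (r : ZMod m) {x : V} (hx : x ∈ cls c u K r) (hex : nb c u x K r + Nat.card K ≤ s) :
    ∃ (P1 : AddSubgroup (ZMod m)) (r1 : ZMod m), P1 < K ∧ r1 - r ∈ K ∧ c u x - r1 ∉ P1 ∧
      ((((cls c u K r).erase x).filter (fun z => c u z - r1 ∉ P1)).card + 2) * Nat.card P1 ≤
        Nat.card K := by
  obtain ⟨hxu, hxK⟩ := mem_cls.1 hx
  have hXX := card_XX hxu.symm
  have hnb : ((XX u x).filter (fun z => c u z - r ∈ K ∨ c x z - r ∈ K)).card + nb c u x K r =
      (XX u x).card := by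
    have h1 : nb c u x K r =
        ((XX u x).filter (fun z => ¬ (c u z - r ∈ K ∨ c x z - r ∈ K))).card := by
      unfold nb
      congr 1
      apply Finset.filter_congr
      intro z _
      rw [not_or]
    rw [h1]
    exact Finset.card_filter_add_card_filter_not _
  obtain ⟨P1, r1, h1, h2, h3, h4⟩ := core' c hZ hxu.symm K r hK hxK
    ((XX u x).filter (fun z => c u z - r ∈ K ∨ c x z - r ∈ K)) (Finset.filter_subset _ _)
    (fun z hz => (Finset.mem_filter.1 hz).2) (by omega)
  refine ⟨P1, r1, h1, h2, h3, le_trans (Nat.mul_le_mul_right _ (Nat.add_le_add_right ?_ 2)) h4⟩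
  apply Finset.card_le_card
  intro z hz
  rw [Finset.mem_filter, Finset.mem_erase] at hz
  obtain ⟨⟨hzx, hzc⟩, hz3⟩ := hz
  obtain ⟨hzu, hzK⟩ := mem_cls.1 hzc
  rw [Finset.mem_filter, Finset.mem_filter, mem_XX]
  exact ⟨⟨⟨hzu, hzx⟩, Or.inl hzK⟩, hzK, hz3⟩

theorem exc2 [NeZero m] (c : V → V → ZMod m) (hZ : ZSF m c) {s : ℕ}
    (hV : Fintype.card V = m + s) (K : AddSubgroup (ZMod m)) (hK : 2 * Nat.card K ≤ m + 1)
    (hK2 : Nat.card K ≤ 2) (u : V) (r : ZMod m) (h3 : 3 ≤ (cls c u K r).card) :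
    ((cls c u K r).filter (fun x => nb c u x K r + Nat.card K ≤ s)).card + 1 ≤ Nat.card K := by
  classical
  have hKpos : 0 < Nat.card K := Nat.card_pos
  by_contra hcon
  have hE : Nat.card K ≤
      ((cls c u K r).filter (fun x => nb c u x K r + Nat.card K ≤ s)).card := by omega
  -- every exceptional vertex gives `P1 = ⊥` and `card K = 2`
  have key : ∀ x ∈ (cls c u K r).filter (fun x => nb c u x K r + Nat.card K ≤ s),
      Nat.card K = 2 ∧ ∃ r1 : ZMod m, c u x ≠ r1 ∧ ∀ z ∈ (cls c u K r).erase x, c u z = r1 := by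
    intro x hx
    rw [Finset.mem_filter] at hx
    obtain ⟨P1, r1, h1, h2, h3, h4⟩ := c1_exc c hZ hV K hK u r hx.1 hx.2
    have hp : 0 < Nat.card P1 := Nat.card_pos
    set F := (((cls c u K r).erase x).filter (fun z => c u z - r1 ∉ P1)).card with hF
    have h5 : 2 * Nat.card P1 ≤ (F + 2) * Nat.card P1 := Nat.mul_le_mul_right _ (by omega)
    have hp1 : Nat.card P1 = 1 := by omega
    have hbot : P1 = ⊥ := by rw [← AddSubgroup.card_eq_one]; exact hp1
    have hF0 : F = 0 := by rw [hp1] at h4; omega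
    refine ⟨by omega, r1, ?_, ?_⟩
    · intro h
      apply h3
      rw [h, sub_self]
      exact P1.zero_mem
    · intro z hz
      by_contra hne
      have : z ∈ ((cls c u K r).erase x).filter (fun z => c u z - r1 ∉ P1) := by
        rw [Finset.mem_filter]
        refine ⟨hz, ?_⟩
        rw [hbot, AddSubgroup.mem_bot]
        intro h0
        exact hne (sub_eq_zero.1 h0)
      have hpos := Finset.card_pos.2 ⟨z, this⟩
      omega
  have hne : ((cls c u K r).filter (fun x => nb c u x K r + Nat.card K ≤ s)).Nonempty :=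
    Finset.card_pos.1 (by omega)
  obtain ⟨x0, hx0⟩ := hne
  obtain ⟨hk2, -⟩ := key x0 hx0
  obtain ⟨x, hx, y, hy, hxy⟩ := Finset.one_lt_card.1 (show 1 <
    ((cls c u K r).filter (fun x => nb c u x K r + Nat.card K ≤ s)).card by omega)
  obtain ⟨-, r1, h1, h2⟩ := key x hx
  obtain ⟨-, r2, h3, h4⟩ := key y hy
  have hxA : x ∈ cls c u K r := (Finset.mem_filter.1 hx).1
  have hyA : y ∈ cls c u K r := (Finset.mem_filter.1 hy).1
  have hthird : ∃ z ∈ cls c u K r, z ≠ x ∧ z ≠ y := by
    by_contra hno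
    push Not at hno
    have hsub : cls c u K r ⊆ {x, y} := by
      intro z hz
      rw [Finset.mem_insert, Finset.mem_singleton]
      by_cases h : z = x
      · exact Or.inl h
      · exact Or.inr (hno z hz h)
    have h5 := Finset.card_le_card hsub
    have h6 : ({x, y} : Finset V).card ≤ 2 := Finset.card_le_two
    omega
  obtain ⟨z, hz, hzx, hzy⟩ := hthird
  have e1 := h2 z (Finset.mem_erase.2 ⟨hzx, hz⟩)
  have e2 := h4 z (Finset.mem_erase.2 ⟨hzy, hz⟩)
  have e3 := h2 y (Finset.mem_erase.2 ⟨hxy.symm, hyA⟩)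
  apply h3
  rw [e3, ← e1, e2]

omit [Fintype V] in
open Classical in
private theorem exc_d [NeZero m] (c : V → V → ZMod m) (K : AddSubgroup (ZMod m))
    (hK6 : Nat.card K ≤ 6) (u : V) (A : Finset V) (h3 : 11 ≤ A.card) (d : ℕ) (hd : 1 ≤ d) :
    (A.filter (fun x => ∃ (P1 : AddSubgroup (ZMod m)) (r1 : ZMod m), c u x - r1 ∉ P1 ∧
      Nat.card P1 = d ∧ (((A.erase x).filter (fun z => c u z - r1 ∉ P1)).card + 2) * d ≤
        Nat.card K)).card = 0 ∨
    ((A.filter (fun x => ∃ (P1 : AddSubgroup (ZMod m)) (r1 : ZMod m), c u x - r1 ∉ P1 ∧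
      Nat.card P1 = d ∧ (((A.erase x).filter (fun z => c u z - r1 ∉ P1)).card + 2) * d ≤
        Nat.card K)).card + 1) * d ≤ 6 := by
  set E := A.filter (fun x => ∃ (P1 : AddSubgroup (ZMod m)) (r1 : ZMod m), c u x - r1 ∉ P1 ∧
      Nat.card P1 = d ∧ (((A.erase x).filter (fun z => c u z - r1 ∉ P1)).card + 2) * d ≤
        Nat.card K) with hE
  by_cases h0 : E.card = 0
  · exact Or.inl h0
  · right
    obtain ⟨x0, hx0⟩ := Finset.card_pos.1 (Nat.pos_of_ne_zero h0)
    have hx0' := hx0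
    rw [hE, Finset.mem_filter] at hx0'
    obtain ⟨hx0A, P1, r1, h1, h2, h4⟩ := hx0'
    -- the exceptional set of a vertex
    have hsz : ∀ (x : V) (r' : ZMod m) (P' : AddSubgroup (ZMod m)),
        (((A.erase x).filter (fun z => c u z - r' ∉ P')).card + 2) * d ≤ Nat.card K →
        (A.filter (fun z => c u z - r' ∉ P')).card ≤
          ((A.erase x).filter (fun z => c u z - r' ∉ P')).card + 1 ∧
        ((A.erase x).filter (fun z => c u z - r' ∉ P')).card + 2 ≤ 6 := by
      intro x r' P' hh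
      refine ⟨?_, ?_⟩
      · have hsub : A.filter (fun z => c u z - r' ∉ P') ⊆
            insert x ((A.erase x).filter (fun z => c u z - r' ∉ P')) := by
          intro z hz
          rw [Finset.mem_filter] at hz
          rw [Finset.mem_insert, Finset.mem_filter, Finset.mem_erase]
          by_cases h : z = x
          · exact Or.inl h
          · exact Or.inr ⟨⟨h, hz.1⟩, hz.2⟩
        exact le_trans (Finset.card_le_card hsub) (Finset.card_insert_le _ _)
      · have := Nat.mul_le_mul_left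
          (((A.erase x).filter (fun z => c u z - r' ∉ P')).card + 2) hd
        omega
    obtain ⟨hs1, hs2⟩ := hsz x0 r1 P1 h4
    have hsub : E ⊆ A.filter (fun z => c u z - r1 ∉ P1) := by
      intro x hx
      rw [hE, Finset.mem_filter] at hx
      obtain ⟨hxA, P2, r2, g1, g2, g4⟩ := hx
      have hPP : P2 = P1 := eq_of_card P2 P1 (by rw [g2, h2])
      subst hPP
      obtain ⟨ht1, ht2⟩ := hsz x r2 P2 g4
      rw [Finset.mem_filter]
      refine ⟨hxA, ?_⟩
      -- a vertex in both cosets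
      have hz : ∃ z ∈ A, c u z - r1 ∈ P2 ∧ c u z - r2 ∈ P2 := by
        by_contra hno
        push Not at hno
        have hsub : A ⊆ A.filter (fun z => c u z - r1 ∉ P2) ∪
            A.filter (fun z => c u z - r2 ∉ P2) := by
          intro z hz
          rw [Finset.mem_union, Finset.mem_filter, Finset.mem_filter]
          by_cases h : c u z - r1 ∈ P2
          · exact Or.inr ⟨hz, hno z hz h⟩
          · exact Or.inl ⟨hz, h⟩
        have h5 := Finset.card_le_card hsub
        have h6 := Finset.card_union_le (A.filter (fun z => c u z - r1 ∉ P2))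
          (A.filter (fun z => c u z - r2 ∉ P2))
        omega
      obtain ⟨z, -, hz1, hz2⟩ := hz
      intro hin
      apply g1
      have : c u x - r2 = (c u x - r1) - (c u z - r1) + (c u z - r2) := by abel
      rw [this]
      exact P2.add_mem (P2.sub_mem hin hz1) hz2
    have h7 := Finset.card_le_card hsub
    calc (E.card + 1) * d ≤
        (((A.erase x0).filter (fun z => c u z - r1 ∉ P1)).card + 2) * d :=
          Nat.mul_le_mul_right _ (by omega)
      _ ≤ Nat.card K := h4
      _ ≤ 6 := hK6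

theorem exc6 [NeZero m] (c : V → V → ZMod m) (hZ : ZSF m c) {s : ℕ}
    (hV : Fintype.card V = m + s) (K : AddSubgroup (ZMod m)) (hK : 2 * Nat.card K ≤ m + 1)
    (hK6 : Nat.card K ∣ 6) (u : V) (r : ZMod m) (h3 : 11 ≤ (cls c u K r).card) :
    ((cls c u K r).filter (fun x => nb c u x K r + Nat.card K ≤ s)).card ≤ 8 := by
  classical
  have hK6' : Nat.card K ≤ 6 := Nat.le_of_dvd (by norm_num) hK6
  set A := cls c u K r with hA
  have e1 := exc_d c K hK6' u A h3 1 (by norm_num)
  have e2 := exc_d c K hK6' u A h3 2 (by norm_num)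
  have e3 := exc_d c K hK6' u A h3 3 (by norm_num)
  set E1 := A.filter (fun x => ∃ (P1 : AddSubgroup (ZMod m)) (r1 : ZMod m), c u x - r1 ∉ P1 ∧
      Nat.card P1 = 1 ∧ (((A.erase x).filter (fun z => c u z - r1 ∉ P1)).card + 2) * 1 ≤
        Nat.card K) with hE1
  set E2 := A.filter (fun x => ∃ (P1 : AddSubgroup (ZMod m)) (r1 : ZMod m), c u x - r1 ∉ P1 ∧
      Nat.card P1 = 2 ∧ (((A.erase x).filter (fun z => c u z - r1 ∉ P1)).card + 2) * 2 ≤
        Nat.card K) with hE2
  set E3 := A.filter (fun x => ∃ (P1 : AddSubgroup (ZMod m)) (r1 : ZMod m), c u x - r1 ∉ P1 ∧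
      Nat.card P1 = 3 ∧ (((A.erase x).filter (fun z => c u z - r1 ∉ P1)).card + 2) * 3 ≤
        Nat.card K) with hE3
  have hsub : A.filter (fun x => nb c u x K r + Nat.card K ≤ s) ⊆ (E1 ∪ E2) ∪ E3 := by
    intro x hx
    rw [Finset.mem_filter] at hx
    obtain ⟨P1, r1, h1, h2, g3, h4⟩ := c1_exc c hZ hV K hK u r (hA ▸ hx.1) hx.2
    have hp : 0 < Nat.card P1 := Nat.card_pos
    rw [← hA] at h4
    have h5 : 2 * Nat.card P1 ≤
        (((A.erase x).filter (fun z => c u z - r1 ∉ P1)).card + 2) * Nat.card P1 :=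
      Nat.mul_le_mul_right _ (by omega)
    have hcases : Nat.card P1 = 1 ∨ Nat.card P1 = 2 ∨ Nat.card P1 = 3 := by omega
    rw [Finset.mem_union, Finset.mem_union]
    rcases hcases with hc | hc | hc
    · left; left
      rw [hE1, Finset.mem_filter]
      exact ⟨hx.1, P1, r1, g3, hc, by rw [hc] at h4; exact h4⟩
    · left; right
      rw [hE2, Finset.mem_filter]
      exact ⟨hx.1, P1, r1, g3, hc, by rw [hc] at h4; exact h4⟩
    · right
      rw [hE3, Finset.mem_filter]
      exact ⟨hx.1, P1, r1, g3, hc, by rw [hc] at h4; exact h4⟩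
  have h5 := Finset.card_le_card hsub
  have h6 := Finset.card_union_le (E1 ∪ E2) E3
  have h7 := Finset.card_union_le E1 E2
  omega

end G
end ZS44129
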