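import Mathlib
import Pool.Agent.Work.MP_44129c_co.G.Pair

/-!
# MP_44129c_co/G, module CosDeg: degrees of coset classes (size S-M)

At most `m + |L| - 2` edges at `u` have their colour in a coset of `L` (`2|L| ≤ m + 2`).

Proof.  Suppose not: among all pairs `(L, r)` with `2|L| ≤ m + 2` and at least `m + |L| - 1` edges
`ux` with `c u x - r ∈ L` choose one with `Nat.card L` minimal; `X` = the set of these `x`,
`O x = {c u x}`.  `gs_lemma` with `H = ⊥`, `Top = L`, `q = r`, `M = ∅`
(`|X| + 3 ≥ m + |L| + 2 ≥ 3|L|`) gives `P ≤ L`, `r'`, `S`, `a`.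
* `P = L`: `np O r' L X = 0` (`r' - r ∈ L`); `assembly0` with `n = m`: `a + 1 ≤ |L| ≤ m`,
  `m + |S| ≤ |X| + a` since `|S| + 1 ≤ a + |L|`.  `0 - m • r' = 0 ∈ L`, so `Att O X m 0`, contradicting
  `zsf_star` (`X ⊆ univ.erase u`).
* `P ≠ L`: `(np + 2)|P| ≤ |L|`.  With `p = |P|`, `|L| = b p`, `b ≥ 2`: the number of `x ∈ X` with
  `c u x - r' ∈ P` is `≥ |X| - np ≥ m + b p - 1 - (b - 2) ≥ m + p - 1` as `(p-1)(b-1) ≥ 0`; and
  `|P| < |L|`: contradiction to the minimality.
-/

set_option autoImplicit false

namespace ZS44129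
namespace G

open Finset

variable {V : Type} [Fintype V] [DecidableEq V] {m : ℕ}

open Classical in
private theorem coset_aux [NeZero m] (c : V → V → ZMod m) (hZ : ZSF m c) (u : V) (k : ℕ) :
    ∀ (L : AddSubgroup (ZMod m)), Nat.card L = k → 2 * Nat.card L ≤ m + 2 → ∀ r : ZMod m,
    ((univ.erase u).filter (fun x => c u x - r ∈ L)).card + 2 ≤ m + Nat.card L := by
  induction k using Nat.strong_induction_on with
  | _ k ih =>
    intro L hLk hL r
    by_contra hcon
    have hm : 1 ≤ m := Nat.one_le_iff_ne_zero.2 (NeZero.ne m)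
    set X : Finset V := (univ.erase u).filter (fun x => c u x - r ∈ L) with hXdef
    have hXm : ∀ x ∈ X, c u x - r ∈ L := fun x hx => (Finset.mem_filter.1 hx).2
    have hXu : X ⊆ univ.erase u := Finset.filter_subset _ _
    have hB : Nat.card (⊥ : AddSubgroup (ZMod m)) = 1 := AddSubgroup.card_bot
    obtain ⟨P, r', S, a, hPL, hr, hSX, hF, _, hcase⟩ := gs_lemma
      (fun x => ({c u x} : Finset (ZMod m))) ⊥ L bot_le r X (fun x _ => by simp)
      (fun x hx o ho => by
        rw [Finset.mem_singleton] at ho
        rw [ho]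
        exact hXm x hx) ∅ (by
          rw [Finset.sdiff_empty, hB, mul_one]
          omega)
    have s2 := hF.s2
    have s3 := hF.s3
    rw [hB, mul_one] at s2
    rw [hB, mul_one, mul_one] at s3
    rcases hcase with hcase | hcase
    · subst hcase
      have hnp : np (fun x => ({c u x} : Finset (ZMod m))) r' P X = 0 := by
        unfold np
        rw [Finset.card_eq_zero, Finset.filter_eq_empty_iff]
        intro x hx hn
        apply hn
        intro o ho
        rw [Finset.mem_singleton] at ho
        have e : o - r' = (c u x - r) - (r' - r) := by rw [ho]; ring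
        rw [e]
        exact P.sub_mem (hXm x hx) hr
      have hatt := assembly0 (fun x => ({c u x} : Finset (ZMod m))) X S P r' a m hSX hF.pur
        hF.fill (fun x _ => by simp) (by omega) (by rw [hnp]; omega) 0 (by
          rw [nsmul_eq_mul, ZMod.natCast_self, zero_mul, sub_zero]
          exact P.zero_mem)
      exact zsf_star c hZ hm u (hatt.mono hXu)
    · have hp : 0 < Nat.card P := Nat.card_pos
      have hnp1 : np (fun x => ({c u x} : Finset (ZMod m))) r' P X ≤
          np (fun x => ({c u x} : Finset (ZMod m))) r' P X * Nat.card P :=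
        Nat.le_mul_of_pos_right _ hp
      rw [add_mul] at hcase
      have h1 := ih (Nat.card P) (by omega) P rfl (by omega) r'
      have h2 : X.card ≤ ((univ.erase u).filter (fun x => c u x - r' ∈ P)).card +
          np (fun x => ({c u x} : Finset (ZMod m))) r' P X := by
        unfold np
        refine le_trans (Finset.card_le_card ?_) (Finset.card_union_le _ _)
        intro x hx
        rw [Finset.mem_union, Finset.mem_filter, Finset.mem_filter]
        by_cases hxP : c u x - r' ∈ P
        · exact Or.inl ⟨hXu hx, hxP⟩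
        · exact Or.inr ⟨hx, fun hn => hxP (hn _ (Finset.mem_singleton_self _))⟩
      omega

open Classical in
theorem coset_deg [NeZero m] (c : V → V → ZMod m) (hZ : ZSF m c) (u : V)
    (L : AddSubgroup (ZMod m)) (hL : 2 * Nat.card L ≤ m + 2) (r : ZMod m) :
    ((univ.erase u).filter (fun x => c u x - r ∈ L)).card + 2 ≤ m + Nat.card L :=
  coset_aux c hZ u (Nat.card L) L rfl hL r

end G
end ZS44129
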