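import Mathlib
import Pool.Agent.Work.MP_44129c_co.G.CosDeg
import Pool.Agent.Work.MP_44129c_co.G.Core

/-!
# MP_44129c_co/G, module LemQ: heavy pairs have few missing positions (size M)

`Hv c κ u w P r0`, `h = |P|`, `2h ≤ m`.  CLAIM `s + 1 ≤ h + Out`.

Proof.  Suppose `h + Out ≤ s`.  `Y := {z ∈ XX u w : c u z - r0 ∈ P ∧ c w z - r0 ∈ P}`,
`|Y| = (m + s - 2) - Out ≥ m + h - 2` (a position is pure iff both colours are in `r0 + P`).
For `y ∈ Y` use `core'` for the pair `u, y` (`c u y - r0 ∈ P`) and `Z = insert w (Y.erase y)`: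
`|Z| = |Y|`, `Z ⊆ XX u y`, `c u z - r0 ∈ P` for `z ∈ Y.erase y`, `c y w - r0 = c w y - r0 ∈ P`.
We get `P1 < P`, `r1` with `c u y - r1 ∉ P1`; let `p1 = |P1|`, `h = b p1`, `b ≥ 2`: at most
`b - 2` of the `z ∈ Y.erase y` have `c u z - r1 ∉ P1`, so at least
`|Y| - 1 - (b - 2) ≥ m + b p1 - b - 1` edges `uz` have `c u z - r1 ∈ P1`.  `coset_deg` for `P1`:
`m + b p1 - b + 1 ≤ m + p1`, i.e. `(b - 1)(p1 - 1) ≤ 0`, so `p1 = 1`, `P1 = ⊥`.
So for every `y ∈ Y` there is a colour `ρ(y) ≠ c u y` with `#{z ∈ Y : c u z = ρ(y)} ≥ m - 1`.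
`Y` is nonempty; take `y0 ∈ Y`, then `y' ∈ Y` with `c u y' = ρ(y0)` (`m - 1 ≥ 1`), and
`ρ(y') ≠ c u y' = ρ(y0)`: two disjoint sets of size `m - 1` in `Y`:
`2(m - 1) ≤ |Y| ≤ m + s - 2`, so `m ≤ s`, contradiction to `s < m`.
-/

set_option autoImplicit false

namespace ZS44129
namespace G

open Finset

variable {V : Type} [Fintype V] [DecidableEq V] {m : ℕ}

theorem lemQ [NeZero m] (c : V → V → ZMod m) (hsym : ∀ x y, c x y = c y x) (hZ : ZSF m c)
    {s κ : ℕ} (hV : Fintype.card V = m + s) (hsm : s < m) {u w : V}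
    {P : AddSubgroup (ZMod m)} {r0 : ZMod m} (h : Hv c κ u w P r0) :
    s + 1 ≤ Nat.card P + Out c u w P r0 := by
  classical
  obtain ⟨huw, hκP, hcuw, hOut⟩ := h
  by_contra hcon
  have hcon' : Nat.card P + Out c u w P r0 ≤ s := by omega
  have hPpos : 0 < Nat.card P := Nat.card_pos
  have h2P : 2 * Nat.card P ≤ m := by
    refine le_trans (Nat.mul_le_mul_right _ ?_) hOut
    omega
  set Y : Finset V := (XX u w).filter (fun z => c u z - r0 ∈ P ∧ c w z - r0 ∈ P) with hY
  have hYc : Y.card + Out c u w P r0 = (XX u w).card := by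
    have h1 : Out c u w P r0 =
        ((XX u w).filter (fun z => ¬ (c u z - r0 ∈ P ∧ c w z - r0 ∈ P))).card := by
      unfold Out np
      congr 1
      apply Finset.filter_congr
      intro x _
      unfold Pur
      simp
    rw [h1, hY]
    exact Finset.card_filter_add_card_filter_not _
  have hXX := card_XX huw
  have hYcard : Y.card + Out c u w P r0 + 2 = m + s := by rw [hYc, hXX, hV]
  have hYm : ∀ y ∈ Y, y ≠ u ∧ y ≠ w ∧ c u y - r0 ∈ P ∧ c w y - r0 ∈ P := by
    intro y hy
    rw [hY, Finset.mem_filter, mem_XX] at hy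
    exact ⟨hy.1.1, hy.1.2, hy.2.1, hy.2.2⟩
  have key : ∀ y ∈ Y, ∃ ρ : ZMod m, ρ ≠ c u y ∧
      m ≤ (Y.filter (fun z => c u z = ρ)).card + 1 := by
    intro y hy
    obtain ⟨hyu, hyw, hy1, hy2⟩ := hYm y hy
    have hwn : w ∉ Y.erase y := by
      intro hw
      exact (hYm w (Finset.mem_of_mem_erase hw)).2.1 rfl
    have hZc : (insert w (Y.erase y)).card = Y.card := by
      rw [Finset.card_insert_of_notMem hwn, Finset.card_erase_of_mem hy]
      have := Finset.card_pos.2 ⟨y, hy⟩
      omega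
    have hZX : insert w (Y.erase y) ⊆ XX u y := by
      intro z hz
      rw [mem_XX]
      rcases Finset.mem_insert.1 hz with h1 | h1
      · subst h1; exact ⟨huw.symm, hyw.symm⟩
      · obtain ⟨h2, h3⟩ := Finset.mem_erase.1 h1
        exact ⟨(hYm z h3).1, h2⟩
    have hne : ∀ z ∈ insert w (Y.erase y), c u z - r0 ∈ P ∨ c y z - r0 ∈ P := by
      intro z hz
      rcases Finset.mem_insert.1 hz with h1 | h1
      · subst h1; right; rw [hsym]; exact hy2
      · left; exact (hYm z (Finset.mem_of_mem_erase h1)).2.2.1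
    obtain ⟨P1, r1, hP1, -, hr2, hF⟩ := core' c hZ hyu.symm P r0 (by omega) hy1
      (insert w (Y.erase y)) hZX hne (by rw [hZc]; omega)
    have hp1 : 0 < Nat.card P1 := Nat.card_pos
    have hle : Nat.card P1 ≤ Nat.card P := by
      refine Nat.card_le_card_of_injective (AddSubgroup.inclusion hP1.le) ?_
      exact AddSubgroup.inclusion_injective hP1.le
    have hcd := coset_deg c hZ u P1 (by omega) r1
    set F := ((insert w (Y.erase y)).filter
      (fun z => c u z - r0 ∈ P ∧ c u z - r1 ∉ P1)).card with hFdef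
    have hA : ((Y.erase y).filter (fun z => ¬ (c u z - r1 ∈ P1))).card ≤ F := by
      rw [hFdef]
      apply Finset.card_le_card
      intro z hz
      rw [Finset.mem_filter] at hz ⊢
      exact ⟨Finset.mem_insert_of_mem hz.1,
        (hYm z (Finset.mem_of_mem_erase hz.1)).2.2.1, hz.2⟩
    have hB : ((Y.erase y).filter (fun z => c u z - r1 ∈ P1)).card +
        ((Y.erase y).filter (fun z => ¬ (c u z - r1 ∈ P1))).card = (Y.erase y).card :=
      Finset.card_filter_add_card_filter_not _
    have hC : ((Y.erase y).filter (fun z => c u z - r1 ∈ P1)).card ≤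
        ((univ.erase u).filter (fun x => c u x - r1 ∈ P1)).card := by
      apply Finset.card_le_card
      intro z hz
      rw [Finset.mem_filter] at hz ⊢
      exact ⟨Finset.mem_erase.2 ⟨(hYm z (Finset.mem_of_mem_erase hz.1)).1,
        Finset.mem_univ z⟩, hz.2⟩
    have hE : (Y.erase y).card + 1 = Y.card := by
      rw [Finset.card_erase_of_mem hy]
      have := Finset.card_pos.2 ⟨y, hy⟩
      omega
    have hi : Nat.card P ≤ Nat.card P1 + F + 1 := by omega
    have hj : Nat.card P1 = 1 := by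
      by_contra hne1
      have h2 : 2 ≤ Nat.card P1 := by omega
      have h3 : (F + 2) * Nat.card P1 = (F + 1) * Nat.card P1 + Nat.card P1 := by ring
      have h4 : (F + 1) * 2 ≤ (F + 1) * Nat.card P1 := Nat.mul_le_mul_left _ h2
      omega
    have hbot : P1 = ⊥ := by
      rw [← AddSubgroup.card_eq_one]
      exact hj
    have hF2 : F + 2 ≤ Nat.card P := by rw [hj] at hF; omega
    refine ⟨r1, ?_, ?_⟩
    · intro hr
      apply hr2
      rw [← hr, sub_self]
      exact P1.zero_mem
    · have hD : ((Y.erase y).filter (fun z => c u z - r1 ∈ P1)).card ≤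
          (Y.filter (fun z => c u z = r1)).card := by
        apply Finset.card_le_card
        intro z hz
        rw [Finset.mem_filter] at hz ⊢
        refine ⟨Finset.mem_of_mem_erase hz.1, ?_⟩
        have h5 := hz.2
        rw [hbot, AddSubgroup.mem_bot] at h5
        exact sub_eq_zero.1 h5
      omega
  have hYpos : 0 < Y.card := by omega
  obtain ⟨y0, hy0⟩ := Finset.card_pos.1 hYpos
  obtain ⟨ρ0, -, hρ0⟩ := key y0 hy0
  have hpos : 0 < (Y.filter (fun z => c u z = ρ0)).card := by omega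
  obtain ⟨y1, hy1⟩ := Finset.card_pos.1 hpos
  rw [Finset.mem_filter] at hy1
  obtain ⟨ρ1, hne1, hρ1⟩ := key y1 hy1.1
  have hdis : Disjoint (Y.filter (fun z => c u z = ρ0)) (Y.filter (fun z => c u z = ρ1)) := by
    rw [Finset.disjoint_left]
    intro z hz hz'
    rw [Finset.mem_filter] at hz hz'
    apply hne1
    rw [hy1.2, ← hz.2, hz'.2]
  have hun : ((Y.filter (fun z => c u z = ρ0)) ∪ (Y.filter (fun z => c u z = ρ1))).card ≤
      Y.card := by
    apply Finset.card_le_card
    apply Finset.union_subset <;> exact Finset.filter_subset _ _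
  rw [Finset.card_union_of_disjoint hdis] at hun
  omega

end G
end ZS44129
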