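import Mathlib
import Pool.Agent.Work.MP_44129c_co.G.LemQ

/-!
# MP_44129c_co/G, module Tight3: tight heavy pairs with `|P| = 3` give a good pair (size M-L)

`Y := {z ∈ XX u w : c u z - r0 ∈ P ∧ c w z - r0 ∈ P}`, `|Y| = m + s - 2 - Out = m` (`lemQ` and
`ht`), `m ≥ 9`, `3 ∣ m`.  Put `a z = c u z - r0`, `b z = c w z - r0` for `z ∈ Y` (elements of
`P`, `|P| = 3`, `3g = 0` for `g ∈ P`, the sum of the three elements of `P` is `0`), and note that a
sum of `m` colours equals the sum of the corresponding `a`, `b` (as `m • r0 = 0`).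
`A = ∑_{Y} a`, `B = ∑_{Y} b`.
(1) `A ≠ 0`, `B ≠ 0` (`zsf_star` at `u`, `w`).
(2) For `y ≠ z` in `Y`: `b y ≠ a z - A` and `a y ≠ b z - B`.  [pair `u, y`, positions
`insert w ((Y.erase y).erase z)` (`m - 1` of them), option `c u` on `Y`, `c y w = c w y` at `w`:
`c u y + ∑ = A - a z + b y ≠ 0`.  Symmetric for `w, y`.]
(3) `a` takes exactly two values on `Y`, one of them, `k`, on `Y \\ {y0}`, the other, `k'`, at
`y0`; and `b = k'` on `Y \\ {y0}`.  PROOF.  If three values occur: for `y ∈ Y` the values on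
`Y.erase y` miss `b y + A` by (2), so `y` is the only element with value `a y`; so `a` is
injective on `Y`, `|Y| ≤ 3`, impossible.  One value: `A = m • k = 0`, contradiction to (1).  Two
values, both at least twice: for every `y` both values occur on `Y.erase y`, so `b y + A` is the
third value `k''`, `b` is constant, `B = 0`, contradiction.  So one value `k'` occurs once, at
`y0`; `A = (m-1) k + k' = k' - k`; for `y ≠ y0` both values occur on `Y.erase y`, so
`b y = k'' - A = k'' + k - k' = -2k' = k'`.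
(4) `b y0 = k`: `b y0 ≠ k'` (otherwise `B = m k' = 0`), put `μ = b y0`, `B = μ - k'`.  For
`y ≠ y0` by (2) `a y + B = k + μ - k'` is different from the values `k'`, `μ` of `b` on
`Y.erase y`, so it is the third one `-k' - μ`: `k = -2μ = μ`.  So `B = k - k'`.
(5) For `y ≠ z` in `Y \\ {y0}`: `c y z - r0 ∉ P`.  Suppose `g := c y z - r0 ∈ P`.
 Pair `u, y`, use the option `c y z` at `z`, drop `z' ∈ Y \\ {y, z}`, use `c y w` at `w`:
 `A - a z + g - a z' + b y ≠ 0`, i.e. `g ≠ a z' + a z - A - b y = a z' + k - (k' - k) - k'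
 = a z' + 2k - 2k' = a z' - k + k'`.  `z' = y0`: `g ≠ 2k' - k = -k' - k = k''`; other `z'`:
 `g ≠ k'`.  So `g = k`.  Pair `w, y` in the same way: `B - b z + g - b z' + a y ≠ 0`, with
 `z' ≠ y0`: `g ≠ 2k' - B - k = 2k' - k + k' - k = -2k = k`.  Contradiction.
(6) Choose `y ∈ Y \\ {y0}`, `Yk = Y \\ {y0, y}`, `|Yk| = m - 2`.  For `z ∈ Yk`: `c y z ≠ c u z`,
 `c y z ≠ c w z`; `c u z = c u y`, `c w z = c w y`, `c u z ≠ c w z`.  So `DD c u y ⊥ ≥ m - 2`,
 `DD c w y ⊥ ≥ m - 2`, and `2(m - 2) > m`.  If there is a subgroup `L` of order 2 (`m` even; it is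
 unique, `eq_of_card`): for `z ∈ Yk` not both `c u z - c y z` and `c w z - c y z` are in `L` (both
 are nonzero, and the nonzero element of `L` is unique, but `c u z ≠ c w z`), so
 `DD c u y L + DD c w y L ≥ m - 2` and for one of `u, w` `(DD + 1) * 2 ≥ m`.  So one of the pairs
 `u, y`, `w, y` is `Wd c 2`; call it `v, y`.
(7) `pair_thmP` for `v, y`: `GP c v y`, or `Hv c 2 v y P' r'`.  In the second case
 `Out ≤ m/3 - 2 < m - 2 = |Yk|`, so some `z ∈ Yk` is pure: `c v z - r' ∈ P'`; but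
 `c v y = c v z`, and `c v y - r' ∉ P'`.  Contradiction.
-/

set_option autoImplicit false

namespace ZS44129
namespace G

open Finset

variable {V : Type} [Fintype V] [DecidableEq V] {m : ℕ}

omit [Fintype V] in
/-- the abstract part (3), (4) with values in `ZMod 3`. -/
private theorem t3_abs {Y : Finset V} (h9 : 9 ≤ Y.card) (h3 : 3 ∣ Y.card) (a b : V → ZMod 3)
    (hA : ∑ y ∈ Y, a y ≠ 0) (hB : ∑ y ∈ Y, b y ≠ 0)
    (h1 : ∀ y ∈ Y, ∀ z ∈ Y, y ≠ z → b y + ∑ x ∈ Y, a x - a z ≠ 0)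
    (h2 : ∀ y ∈ Y, ∀ z ∈ Y, y ≠ z → a y + ∑ x ∈ Y, b x - b z ≠ 0) :
    ∃ y0 ∈ Y, ∃ k k' : ZMod 3, k ≠ k' ∧ (∀ y ∈ Y, y ≠ y0 → a y = k) ∧ a y0 = k' ∧
      (∀ y ∈ Y, y ≠ y0 → b y = k') ∧ b y0 = k ∧ ∑ x ∈ Y, a x = k' - k ∧
      ∑ x ∈ Y, b x = k - k' := by
  have hconst : ∀ (f : V → ZMod 3) (v : ZMod 3), (∀ y ∈ Y, f y = v) → ∑ y ∈ Y, f y = 0 := by
    intro f v hf
    rw [sum_congr rfl hf, sum_const, nsmul_eq_mul]
    obtain ⟨q, hq⟩ := h3
    rw [hq, Nat.cast_mul]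
    have : ((3 : ℕ) : ZMod 3) = 0 := by decide
    rw [this, zero_mul, zero_mul]
  have hone : ∀ (f : V → ZMod 3) (v : ZMod 3) (y0 : V), y0 ∈ Y → (∀ y ∈ Y, y ≠ y0 → f y = v) →
      ∑ y ∈ Y, f y = f y0 - v := by
    intro f v y0 hy0 hf
    have e1 : ∑ y ∈ Y, (if y = y0 then v else f y) = 0 := by
      refine hconst _ v fun y hy => ?_
      by_cases h : y = y0
      · rw [if_pos h]
      · rw [if_neg h]
        exact hf y hy h
    rw [← add_sum_erase Y _ hy0] at e1 ⊢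
    rw [if_pos rfl] at e1
    have e2 : ∑ x ∈ Y.erase y0, (if x = y0 then v else f x) = ∑ x ∈ Y.erase y0, f x :=
      sum_congr rfl fun x hx => if_neg (mem_erase.1 hx).1
    rw [e2] at e1
    have e3 : ∑ x ∈ Y.erase y0, f x = -v := by
      rw [eq_neg_iff_add_eq_zero, add_comm]
      exact e1
    rw [e3]
    abel
  have hpig : ∀ f : V → ZMod 3, ∃ v : ZMod 3, 2 < (Y.filter (fun y => f y = v)).card := by
    intro f
    obtain ⟨v, -, hv⟩ := exists_lt_card_fiber_of_mul_lt_card_of_maps_to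
      (s := Y) (t := (univ : Finset (ZMod 3))) (f := f) (n := 2) (fun x _ => mem_univ _)
      (by rw [card_univ, ZMod.card]; omega)
    exact ⟨v, hv⟩
  have hocc : ∀ (f : V → ZMod 3) (v : ZMod 3), 2 < (Y.filter (fun y => f y = v)).card →
      ∀ y z : V, ∃ x ∈ Y, x ≠ y ∧ x ≠ z ∧ f x = v := by
    intro f v hv y z
    by_contra hcon
    push Not at hcon
    have hsub : Y.filter (fun y => f y = v) ⊆ {y, z} := by
      intro x hx
      rw [mem_filter] at hx
      rw [mem_insert, mem_singleton]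
      by_contra hx2
      push Not at hx2
      exact hcon x hx.1 hx2.1 hx2.2 hx.2
    have h4 := card_le_card hsub
    have h5 := card_le_two (a := y) (b := z)
    omega
  obtain ⟨k, hk⟩ := hpig a
  obtain ⟨l, hl⟩ := hpig b
  set A := ∑ x ∈ Y, a x with hAd
  set B := ∑ x ∈ Y, b x with hBd
  have hb1 : ∀ y ∈ Y, b y + A - k ≠ 0 := by
    intro y hy
    obtain ⟨x, hx, hxy, -, hxk⟩ := hocc a k hk y y
    have := h1 y hy x hx hxy.symm
    rwa [hxk] at this
  have ha1 : ∀ y ∈ Y, a y + B - l ≠ 0 := by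
    intro y hy
    obtain ⟨x, hx, hxy, -, hxk⟩ := hocc b l hl y y
    have := h2 y hy x hx hxy.symm
    rwa [hxk] at this
  obtain ⟨y0, hy0, hy0k⟩ : ∃ y0 ∈ Y, a y0 ≠ k := by
    by_contra hcon
    push Not at hcon
    exact hA (hconst a k hcon)
  obtain ⟨x1, hx1, -, -, hx1k⟩ := hocc a k hk y0 y0
  have hdich : ∀ y ∈ Y, a y = k ∨ a y = a y0 := by
    intro y hy
    have e1 := ha1 y hy
    have e2 := ha1 y0 hy0
    have e3 := ha1 x1 hx1
    rw [hx1k] at e3
    have key : ∀ t k' k B l : ZMod 3, k' ≠ k → t + B - l ≠ 0 → k' + B - l ≠ 0 →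
        k + B - l ≠ 0 → t = k ∨ t = k' := by decide
    exact key _ _ _ _ _ hy0k e1 e2 e3
  have huniq : ∀ y ∈ Y, y ≠ y0 → a y = k := by
    intro y1 hy1 hne
    rcases hdich y1 hy1 with h | h
    · exact h
    exfalso
    have hocc2 : ∀ y : V, ∃ x ∈ Y, x ≠ y ∧ a x = a y0 := by
      intro y
      by_cases hy : y0 = y
      · exact ⟨y1, hy1, fun h' => hne (h'.trans hy.symm), h⟩
      · exact ⟨y0, hy0, hy, rfl⟩
    apply hB
    refine hconst b (-k - a y0 - A) fun y hy => ?_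
    obtain ⟨x, hx, hxy, hxe⟩ := hocc2 y
    have e1 := h1 y hy x hx hxy.symm
    rw [hxe] at e1
    have e2 := hb1 y hy
    have key : ∀ t k' k A : ZMod 3, k' ≠ k → t + A - k' ≠ 0 → t + A - k ≠ 0 →
        t = -k - k' - A := by decide
    exact key _ _ _ _ hy0k e1 e2
  have hAv : A = a y0 - k := hone a k y0 hy0 huniq
  have hbk : ∀ y ∈ Y, y ≠ y0 → b y = a y0 := by
    intro y hy hne
    have e1 := h1 y hy y0 hy0 hne
    have e2 := hb1 y hy
    rw [hAv] at e1 e2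
    have key : ∀ t k' k : ZMod 3, k' ≠ k → t + (k' - k) - k' ≠ 0 → t + (k' - k) - k ≠ 0 →
        t = k' := by decide
    exact key _ _ _ hy0k e1 e2
  have hBv : B = b y0 - a y0 := hone b (a y0) y0 hy0 hbk
  suffices hfin : b y0 = k from
    ⟨y0, hy0, k, a y0, fun h => hy0k h.symm, huniq, rfl, hbk, hfin, hAv, by rw [hBv, hfin]⟩
  obtain ⟨y1, hy1, hy1n, -, -⟩ := hocc a k hk y0 y0
  obtain ⟨y2, hy2, hy2n, hy21, -⟩ := hocc a k hk y0 y1
  have e1 := h2 y1 hy1 y2 hy2 hy21.symm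
  have e2 := h2 y1 hy1 y0 hy0 hy1n
  rw [huniq y1 hy1 hy1n, hBv, hbk y2 hy2 hy2n] at e1
  rw [huniq y1 hy1 hy1n, hBv] at e2
  have hBne : b y0 - a y0 ≠ 0 := by rwa [← hBv]
  have key : ∀ μ k' k : ZMod 3, k' ≠ k → μ - k' ≠ 0 → k + (μ - k') - k' ≠ 0 →
      k + (μ - k') - μ ≠ 0 → μ = k := by decide
  exact key _ _ _ hy0k hBne e1 e2

/-- the general relation for the pair `u, y` with one position `z'` dropped. -/
private theorem t3_side (c : V → V → ZMod m) (hsym : ∀ x y, c x y = c y x) (hZ : ZSF m c)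
    (hm : 1 ≤ m) {u w : V} (huw : u ≠ w) {Y : Finset V} (hY : ∀ z ∈ Y, z ≠ u ∧ z ≠ w)
    (hc : Y.card = m) {y z' : V} (hy : y ∈ Y) (hz' : z' ∈ Y) (hne : y ≠ z') (f : V → ZMod m)
    (hf : ∀ x ∈ (Y.erase y).erase z', f x = c u x ∨ f x = c y x) :
    c u y + (c w y + ∑ x ∈ (Y.erase y).erase z', f x) ≠ 0 := by
  intro h0
  have huy : u ≠ y := (hY y hy).1.symm
  have hw : w ∉ (Y.erase y).erase z' := fun h =>
    (hY w (mem_of_mem_erase (mem_of_mem_erase h))).2 rfl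
  refine zsf_pair c hZ hm huy ⟨insert w ((Y.erase y).erase z'), ?_, ?_,
    fun x => if x = w then c y w else f x, ?_, ?_⟩
  · intro x hx
    rw [mem_XX]
    rcases mem_insert.1 hx with h | h
    · rw [h]
      exact ⟨huw.symm, (hY y hy).2.symm⟩
    · have h1 := mem_of_mem_erase h
      exact ⟨(hY x (mem_of_mem_erase h1)).1, (mem_erase.1 h1).1⟩
  · rw [card_insert_of_notMem hw, card_erase_of_mem (mem_erase.2 ⟨hne.symm, hz'⟩),
      card_erase_of_mem hy, hc]
    have : 1 < Y.card := one_lt_card.2 ⟨y, hy, z', hz', hne⟩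
    omega
  · intro x hx
    change (if x = w then c y w else f x) ∈ ({c u x, c y x} : Finset (ZMod m))
    rcases mem_insert.1 hx with h | h
    · rw [if_pos h, h]
      simp
    · have : x ≠ w := fun h' => hw (by rw [← h']; exact h)
      rw [if_neg this]
      rcases hf x h with h1 | h1
      · rw [h1]; simp
      · rw [h1]; simp
  · have e1 : ∑ x ∈ (Y.erase y).erase z', (if x = w then c y w else f x) =
        ∑ x ∈ (Y.erase y).erase z', f x :=
      sum_congr rfl fun x hx => if_neg fun h' => hw (by rw [← h']; exact hx)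
    rw [sum_insert hw, if_pos rfl, e1, eq_neg_iff_add_eq_zero, hsym y w, add_comm]
    exact h0

private theorem t3_side2 (c : V → V → ZMod m) (hsym : ∀ x y, c x y = c y x) (hZ : ZSF m c)
    (hm : 1 ≤ m) {u w : V} (huw : u ≠ w) {Y : Finset V} (hY : ∀ z ∈ Y, z ≠ u ∧ z ≠ w)
    (hc : Y.card = m) {y z' : V} (hy : y ∈ Y) (hz' : z' ∈ Y) (hne : y ≠ z') :
    c w y + ∑ x ∈ Y, c u x - c u z' ≠ 0 := by
  have h := t3_side c hsym hZ hm huw hY hc hy hz' hne (c u) (fun x _ => Or.inl rfl)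
  intro h0
  apply h
  have e1 := add_sum_erase Y (c u) hy
  have e2 := add_sum_erase (Y.erase y) (c u) (mem_erase.2 ⟨hne.symm, hz'⟩)
  rw [← e1, ← e2] at h0
  rw [← h0]
  abel

private theorem t3_side5 (c : V → V → ZMod m) (hsym : ∀ x y, c x y = c y x) (hZ : ZSF m c)
    (hm : 1 ≤ m) {u w : V} (huw : u ≠ w) {Y : Finset V} (hY : ∀ z ∈ Y, z ≠ u ∧ z ≠ w)
    (hc : Y.card = m) {y z z' : V} (hy : y ∈ Y) (hz : z ∈ Y) (hz' : z' ∈ Y) (hne : y ≠ z')
    (hyz : y ≠ z) (hzz : z ≠ z') :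
    c w y + ∑ x ∈ Y, c u x - c u z' - c u z + c y z ≠ 0 := by
  have hzm : z ∈ (Y.erase y).erase z' := mem_erase.2 ⟨hzz, mem_erase.2 ⟨hyz.symm, hz⟩⟩
  have h := t3_side c hsym hZ hm huw hY hc hy hz' hne (fun x => if x = z then c y z else c u x)
    (fun x _ => by
      by_cases hx : x = z
      · right
        simp only [hx, if_true]
      · left
        simp only [hx, if_false])
  intro h0
  apply h
  have e1 := add_sum_erase Y (c u) hy
  have e2 := add_sum_erase (Y.erase y) (c u) (mem_erase.2 ⟨hne.symm, hz'⟩)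
  have e3 := add_sum_erase ((Y.erase y).erase z') (c u) hzm
  have e4 := add_sum_erase ((Y.erase y).erase z')
    (fun x => if x = z then c y z else c u x) hzm
  have e5 : ∑ x ∈ ((Y.erase y).erase z').erase z, (if x = z then c y z else c u x) =
      ∑ x ∈ ((Y.erase y).erase z').erase z, c u x :=
    sum_congr rfl fun x hx => if_neg (mem_erase.1 hx).1
  rw [← e4, e5]
  simp only [if_true]
  rw [← e1, ← e2, ← e3] at h0
  rw [← h0]
  abel

/-- step (7). -/
private theorem t3_fin [NeZero m] (c : V → V → ZMod m) (hZ : ZSF m c) {s : ℕ}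
    (hV : Fintype.card V = m + s)
    (hj : ∀ L : AddSubgroup (ZMod m), 2 < Nat.card L → m ≤ s * Nat.card L) {v y : V}
    {Yk : Finset V} (hYk : ∀ z ∈ Yk, z ≠ v ∧ z ≠ y) (hcard : m ≤ Yk.card + 2)
    (heq : ∀ z ∈ Yk, c v z = c v y) (hW : Wd c 2 v y) : GP c v y := by
  classical
  rcases pair_thmP c hZ (Or.inl rfl) hV hj hW with h | ⟨P', r', h⟩
  · exact h
  exfalso
  obtain ⟨-, h2, h3, h4⟩ := h
  have h5 : (Out c v y P' r' + 2) * 3 ≤ m := le_trans (Nat.mul_le_mul_left _ (by omega)) h4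
  have hex : ∃ z ∈ Yk, z ∉ (XX v y).filter
      (fun x => ¬ Pur (fun x => ({c v x, c y x} : Finset (ZMod m))) r' P' x) := by
    by_contra hcon
    push Not at hcon
    have h6 := card_le_card (show Yk ⊆ (XX v y).filter
      (fun x => ¬ Pur (fun x => ({c v x, c y x} : Finset (ZMod m))) r' P' x) from hcon)
    have h7 : ((XX v y).filter
      (fun x => ¬ Pur (fun x => ({c v x, c y x} : Finset (ZMod m))) r' P' x)).card =
        Out c v y P' r' := by
      unfold Out np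
      congr!
    omega
  obtain ⟨z, hz, hzn⟩ := hex
  rw [mem_filter] at hzn
  push Not at hzn
  have h6 := hzn (mem_XX.2 (hYk z hz))
  have h7 := h6 (c v z) (by simp)
  rw [heq z hz] at h7
  exact h3 h7

/-- step (6), lower bound for `DD`. -/
private theorem t3_bot (c : V → V → ZMod m) {v y : V} {Yk : Finset V}
    (hYk : ∀ z ∈ Yk, z ≠ v ∧ z ≠ y) (hd : ∀ z ∈ Yk, c v z ≠ c y z) :
    Yk.card ≤ DD c v y ⊥ := by
  classical
  unfold DD Dn
  apply card_le_card
  intro z hz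
  rw [mem_filter]
  refine ⟨mem_XX.2 (hYk z hz), ?_⟩
  rw [AddSubgroup.mem_bot, sub_eq_zero]
  exact hd z hz

theorem tight3 [NeZero m] (c : V → V → ZMod m) (hsym : ∀ x y, c x y = c y x) (hZ : ZSF m c)
    {s κ : ℕ} (hκ : 2 ≤ κ) (hV : Fintype.card V = m + s) (hsm : s < m) (hm9 : 9 ≤ m)
    (hj : ∀ L : AddSubgroup (ZMod m), 2 < Nat.card L → m ≤ s * Nat.card L) {u w : V}
    {P : AddSubgroup (ZMod m)} {r0 : ZMod m} (h : Hv c κ u w P r0) (hP : Nat.card P = 3)
    (ht : Nat.card P + Out c u w P r0 ≤ s + 1) : ∃ u' v' : V, GP c u' v' := by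
  classical
  have hm1 : 1 ≤ m := by omega
  have hq := lemQ c hsym hZ hV hsm h
  obtain ⟨huw, hκP, hcuw, -⟩ := h
  have hOe : Out c u w P r0 + 2 = s := by
    rw [hP] at hq ht
    omega
  have h3m : 3 ∣ m := by
    have := AddSubgroup.card_addSubgroup_dvd_card P
    rwa [hP, Nat.card_zmod] at this
  obtain ⟨Y, hYdef⟩ : ∃ Y : Finset V,
      Y = (XX u w).filter (fun z => c u z - r0 ∈ P ∧ c w z - r0 ∈ P) := ⟨_, rfl⟩
  have hYc : Y.card = m := by
    have h1 := card_XX huw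
    have h2 := card_filter_add_card_filter_not (s := XX u w)
      (fun z => c u z - r0 ∈ P ∧ c w z - r0 ∈ P)
    have h3 : ((XX u w).filter (fun z => ¬ (c u z - r0 ∈ P ∧ c w z - r0 ∈ P))).card =
        Out c u w P r0 := by
      unfold Out np
      congr 1
      refine filter_congr fun x _ => ?_
      unfold Pur
      simp
    rw [hYdef]
    omega
  have hYm : ∀ z ∈ Y, z ≠ u ∧ z ≠ w := by
    intro z hz
    rw [hYdef, mem_filter, mem_XX] at hz
    exact hz.1
  have hYm' : ∀ z ∈ Y, z ≠ w ∧ z ≠ u := fun z hz => ⟨(hYm z hz).2, (hYm z hz).1⟩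
  have hYu : ∀ z ∈ Y, c u z - r0 ∈ P := by
    intro z hz
    rw [hYdef, mem_filter] at hz
    exact hz.2.1
  have hYw : ∀ z ∈ Y, c w z - r0 ∈ P := by
    intro z hz
    rw [hYdef, mem_filter] at hz
    exact hz.2.2
  have hcyc : IsAddCyclic P := by
    have : Fact (Nat.Prime 3) := ⟨Nat.prime_three⟩
    exact isAddCyclic_of_prime_card hP
  have hiso : ∀ n : ℕ, Nat.card P = n → ∃ ψ : ZMod n →+ ZMod m, Function.Injective ψ ∧
      ∀ x ∈ P, ∃ t, ψ t = x := by
    rintro n rfl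
    have e := zmodAddCyclicAddEquiv hcyc
    refine ⟨P.subtype.comp e.toAddMonoidHom, ?_, ?_⟩
    · exact P.subtype_injective.comp e.injective
    · intro x hx
      refine ⟨e.symm ⟨x, hx⟩, ?_⟩
      simp
  obtain ⟨ψ, hψi, hψs⟩ : ∃ ψ : ZMod 3 →+ ZMod m, Function.Injective ψ ∧
      ∀ x ∈ P, ∃ t, ψ t = x := hiso 3 hP
  choose! χ hχ using hψs
  have hr0 : Y.card • r0 = 0 := by
    rw [hYc, nsmul_eq_mul, ZMod.natCast_self, zero_mul]
  have hsum : ∀ f : V → ZMod m, (∀ z ∈ Y, f z - r0 ∈ P) →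
      ψ (∑ z ∈ Y, χ (f z - r0)) = ∑ z ∈ Y, f z := by
    intro f hf
    rw [map_sum, sum_congr rfl fun z hz => hχ _ (hf z hz), sum_sub_distrib, sum_const, hr0,
      sub_zero]
  have hstar : ∀ v : V, (∀ z ∈ Y, z ≠ v) → (∀ z ∈ Y, c v z - r0 ∈ P) →
      ∑ z ∈ Y, χ (c v z - r0) ≠ 0 := by
    intro v hv hvP h0
    refine zsf_star c hZ hm1 v ⟨Y, fun z hz => mem_erase.2 ⟨hv z hz, mem_univ z⟩, hYc, c v,
      fun x _ => mem_singleton_self _, ?_⟩
    rw [← hsum _ hvP, h0, map_zero]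
  have hrel : ∀ v v' : V, v ≠ v' → (∀ z ∈ Y, z ≠ v ∧ z ≠ v') → (∀ z ∈ Y, c v z - r0 ∈ P) →
      (∀ z ∈ Y, c v' z - r0 ∈ P) → ∀ y ∈ Y, ∀ z ∈ Y, y ≠ z →
      χ (c v' y - r0) + ∑ x ∈ Y, χ (c v x - r0) - χ (c v z - r0) ≠ 0 := by
    intro v v' hvv hvY hv hv' y hy z hz hyz h0
    apply t3_side2 c hsym hZ hm1 hvv hvY hYc hy hz hyz
    have h1 := congrArg ψ h0
    rw [map_sub, map_add, hsum _ hv, hχ _ (hv' y hy), hχ _ (hv z hz), map_zero] at h1
    rw [← h1]
    abel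
  have hrel5 : ∀ v v' : V, v ≠ v' → (∀ z ∈ Y, z ≠ v ∧ z ≠ v') → (∀ z ∈ Y, c v z - r0 ∈ P) →
      (∀ z ∈ Y, c v' z - r0 ∈ P) → ∀ y ∈ Y, ∀ z ∈ Y, ∀ z' ∈ Y, y ≠ z → y ≠ z' → z ≠ z' →
      c y z - r0 ∈ P →
      χ (c v' y - r0) + ∑ x ∈ Y, χ (c v x - r0) - χ (c v z' - r0) - χ (c v z - r0) +
        χ (c y z - r0) ≠ 0 := by
    intro v v' hvv hvY hv hv' y hy z hz z' hz' hyz hyz' hzz' hg h0
    apply t3_side5 c hsym hZ hm1 hvv hvY hYc hy hz hz' hyz' hyz hzz'
    have h1 := congrArg ψ h0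
    rw [map_add, map_sub, map_sub, map_add, hsum _ hv, hχ _ (hv' y hy), hχ _ (hv z hz),
      hχ _ (hv z' hz'), hχ _ hg, map_zero] at h1
    rw [← h1]
    abel
  obtain ⟨y0, hy0, k, k', hkk, hak, hak0, hbk, hbk0, hAs, hBs⟩ := t3_abs (Y := Y)
    (by rw [hYc]; exact hm9) (by rw [hYc]; exact h3m) (fun z => χ (c u z - r0))
    (fun z => χ (c w z - r0)) (hstar u (fun z hz => (hYm z hz).1) hYu)
    (hstar w (fun z hz => (hYm z hz).2) hYw)
    (fun y hy z hz hyz => hrel u w huw hYm hYu hYw y hy z hz hyz)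
    (fun y hy z hz hyz => hrel w u huw.symm hYm' hYw hYu y hy z hz hyz)
  have hstep5 : ∀ y ∈ Y, ∀ z ∈ Y, y ≠ y0 → z ≠ y0 → y ≠ z → c y z - r0 ∉ P := by
    intro y hy z hz hy1 hz1 hyz hg
    obtain ⟨z', hz', hz'0, hz'y, hz'z⟩ : ∃ z' ∈ Y, z' ≠ y0 ∧ z' ≠ y ∧ z' ≠ z := by
      by_contra hcon
      push Not at hcon
      have hsub : Y ⊆ {y0, y, z} := by
        intro x hx
        rw [mem_insert, mem_insert, mem_singleton]
        by_contra hx2
        push Not at hx2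
        exact hx2.2.2 (hcon x hx hx2.1 hx2.2.1)
      have h4 := card_le_card hsub
      have h5 := card_le_three (a := y0) (b := y) (c := z)
      omega
    have e1 := hrel5 u w huw hYm hYu hYw y hy z hz y0 hy0 hyz hy1 hz1 hg
    have e2 := hrel5 u w huw hYm hYu hYw y hy z hz z' hz' hyz hz'y.symm hz'z.symm hg
    have e3 := hrel5 w u huw.symm hYm' hYw hYu y hy z hz z' hz' hyz hz'y.symm hz'z.symm hg
    simp only [hAs, hBs, hak y hy hy1, hak z hz hz1, hak z' hz' hz'0, hak0, hbk y hy hy1,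
      hbk z hz hz1, hbk z' hz' hz'0] at e1 e2 e3
    have key : ∀ g k k' : ZMod 3, k' + (k' - k) - k' - k + g ≠ 0 →
        k' + (k' - k) - k - k + g ≠ 0 → k + (k - k') - k' - k' + g ≠ 0 → k ≠ k' → False := by
      decide
    exact key _ _ _ e1 e2 e3 hkk
  obtain ⟨y, hy⟩ : (Y.erase y0).Nonempty := by
    rw [← card_pos, card_erase_of_mem hy0]
    omega
  have hyY : y ∈ Y := mem_of_mem_erase hy
  have hy0' : y ≠ y0 := (mem_erase.1 hy).1
  have hYkc : ((Y.erase y0).erase y).card + 2 = m := by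
    rw [card_erase_of_mem hy, card_erase_of_mem hy0]
    omega
  have hYk : ∀ z ∈ (Y.erase y0).erase y, z ∈ Y ∧ z ≠ y ∧ z ≠ y0 := by
    intro z hz
    rw [mem_erase, mem_erase] at hz
    exact ⟨hz.2.2, hz.1, hz.2.1⟩
  have hu1 : ∀ z ∈ Y, z ≠ y0 → c u z = ψ k + r0 := by
    intro z hz hz0
    have := hχ _ (hYu z hz)
    rw [hak z hz hz0] at this
    rw [this]
    abel
  have hw1 : ∀ z ∈ Y, z ≠ y0 → c w z = ψ k' + r0 := by
    intro z hz hz0
    have := hχ _ (hYw z hz)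
    rw [hbk z hz hz0] at this
    rw [this]
    abel
  have hdu : ∀ z ∈ (Y.erase y0).erase y, c u z ≠ c y z := by
    intro z hz h0
    obtain ⟨hz1, hz2, hz3⟩ := hYk z hz
    apply hstep5 y hyY z hz1 hy0' hz3 hz2.symm
    rw [← h0]
    exact hYu z hz1
  have hdw : ∀ z ∈ (Y.erase y0).erase y, c w z ≠ c y z := by
    intro z hz h0
    obtain ⟨hz1, hz2, hz3⟩ := hYk z hz
    apply hstep5 y hyY z hz1 hy0' hz3 hz2.symm
    rw [← h0]
    exact hYw z hz1
  have hYku : ∀ z ∈ (Y.erase y0).erase y, z ≠ u ∧ z ≠ y := fun z hz =>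
    ⟨(hYm z (hYk z hz).1).1, (hYk z hz).2.1⟩
  have hYkw : ∀ z ∈ (Y.erase y0).erase y, z ≠ w ∧ z ≠ y := fun z hz =>
    ⟨(hYm z (hYk z hz).1).2, (hYk z hz).2.1⟩
  have hbu := t3_bot c hYku hdu
  have hbw := t3_bot c hYkw hdw
  by_cases hW : Wd c 2 u y
  · exact ⟨u, y, t3_fin c hZ hV hj hYku (by omega) (fun z hz => by
      rw [hu1 z (hYk z hz).1 (hYk z hz).2.2, hu1 y hyY hy0']) hW⟩
  have hW' : Wd c 2 w y := by
    refine ⟨(hYm y hyY).2.symm, by omega, fun L hL hLc => ?_⟩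
    unfold Wd at hW
    push Not at hW
    obtain ⟨L0, hL0, hL0c, hL0d⟩ := hW (hYm y hyY).1.symm (by omega)
    have hcard2 : ∀ M : AddSubgroup (ZMod m), M ≠ ⊥ → Nat.card M ≤ 2 → Nat.card M = 2 := by
      intro M hM hMc
      have h1 : 0 < Nat.card M := Nat.card_pos
      have h2 : Nat.card M ≠ 1 := fun h => hM (AddSubgroup.card_eq_one.1 h)
      omega
    have e0 := hcard2 L0 hL0 hL0c
    have e1 := hcard2 L hL hLc
    have e2 : L = L0 := eq_of_card L L0 (by rw [e0, e1])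
    rw [e2, e0]
    rw [e0] at hL0d
    have hcov : (Y.erase y0).erase y ⊆
        (XX u y).filter (fun x => c u x - c y x ∉ L0) ∪
          (XX w y).filter (fun x => c w x - c y x ∉ L0) := by
      intro z hz
      rw [mem_union, mem_filter, mem_filter]
      by_contra hcon
      rw [not_or] at hcon
      have h1 : c u z - c y z ∈ L0 := by
        by_contra h2
        exact hcon.1 ⟨mem_XX.2 (hYku z hz), h2⟩
      have h2 : c w z - c y z ∈ L0 := by
        by_contra h2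
        exact hcon.2 ⟨mem_XX.2 (hYkw z hz), h2⟩
      obtain ⟨t, -, ht2⟩ := (Nat.card_eq_two_iff' (0 : L0)).1 e0
      have h3 := ht2 ⟨_, h1⟩ (fun h => hdu z hz (by
        have := congrArg Subtype.val h
        exact sub_eq_zero.1 this))
      have h4 := ht2 ⟨_, h2⟩ (fun h => hdw z hz (by
        have := congrArg Subtype.val h
        exact sub_eq_zero.1 this))
      have h5 := congrArg Subtype.val (h3.trans h4.symm)
      have h6 : c u z = c w z := sub_left_injective h5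
      rw [hu1 z (hYk z hz).1 (hYk z hz).2.2, hw1 z (hYk z hz).1 (hYk z hz).2.2] at h6
      exact hkk (hψi (add_right_cancel h6))
    have h1 := card_le_card hcov
    have h2 := card_union_le ((XX u y).filter (fun x => c u x - c y x ∉ L0))
      ((XX w y).filter (fun x => c w x - c y x ∉ L0))
    have h3 : ((XX u y).filter (fun x => c u x - c y x ∉ L0)).card = DD c u y L0 := by
      unfold DD Dn
      congr!
    have h4 : ((XX w y).filter (fun x => c w x - c y x ∉ L0)).card = DD c w y L0 := by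
      unfold DD Dn
      congr!
    omega
  exact ⟨w, y, t3_fin c hZ hV hj hYkw (by omega) (fun z hz => by
    rw [hw1 z (hYk z hz).1 (hYk z hz).2.2, hw1 y hyY hy0']) hW'⟩

end G
end ZS44129
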