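import Mathlib
import Pool.Agent.Work.MP_44129c_co.G.LemQ

/-!
# MP_44129c_co/G, module LemQP: tight heavy pairs (size M-L)

Tight: `h + Out ≤ s + 1` (so `=` by `lemQ`), `h = |P| ≥ 3`, `2h ≤ m` (so `m ≥ 6`), `s < m`.
`Y := {z ∈ XX u w : c u z - r0 ∈ P ∧ c w z - r0 ∈ P}`, `|Y| = m + s - 2 - Out = m + h - 3`.
`x ∈ XX u w`, `x ∉ Y` (so `Out ≥ 1`).

## qp1: `c u x - r0 ∉ P`.
Suppose `c u x - r0 ∈ P`.  For `y ∈ Y` use `core'` for `u, y` and
`Z = insert w (insert x (Y.erase y))`, `|Z| = |Y| + 1 = m + h - 2`.  We get `P1 < P`, `r1`,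
`c u y - r1 ∉ P1`, `h = b p1`, `b ≥ 2`; at least `|Y| - (b - 2) ≥ m + b p1 - b - 1` of the
`z ∈ insert x (Y.erase y)` have `c u z - r1 ∈ P1`.  `coset_deg`: `p1 = 1` as in `lemQ`.  So for
every `y ∈ Y` there is `ρ(y) ≠ c u y` with `#{z ∈ insert x Y : c u z = ρ(y)} ≥ m - 1`.
Take `y0 ∈ Y`, `y' ∈ Y` with `c u y' = ρ(y0)` (`m - 1 ≥ 2`), `ρ(y') ≠ ρ(y0)`:
`2(m-1) ≤ |Y| + 1 = m + s - 1 - Out ≤ m + s - 2`, contradiction to `s < m`.

## qp2: at least `m - 2` vertices `y ∈ Y` have `c y x - r0 ∉ P`.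
`Y0 := {y ∈ Y : c y x - r0 ∈ P}`.  For `y ∈ Y0` use `core'` for `u, y` and
`Z = insert w (insert x (Y.erase y))` (`x` has the option `c y x`), `|Z| = m + h - 2`.  At least
`|Y| - 1 - (b - 2) = m + b p1 - b - 2` of the `z ∈ Y.erase y` have `c u z - r1 ∈ P1`;
`coset_deg`: `b(p1 - 1) ≤ p1`, so `p1 = 1`, or `p1 = 2`, `b = 2`, `h = 4`.
 Type 1 (`p1 = 1`): a colour `ρ(y) ≠ c u y` with `#{z ∈ Y : c u z = ρ(y)} ≥ m - 2`.
 Type 2 (`p1 = 2`, `h = 4`, `|Y| = m + 1`): at least `m` of the `m` elements `z ∈ Y.erase y`, i.e.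
   all, have `c u z - r1 ∈ P1`, and `c u y - r1 ∉ P1`, `|P1| = 2`.
(i) `Y0 = ∅`: `|Y| = m + h - 3 ≥ m - 2`.
(ii) Some `y1 ∈ Y0` has type 1, `ρ := ρ(y1)`.  No `z ∈ Y` with `c u z = ρ` is in `Y0`: type 1
  would give `ρ(z) ≠ ρ` and `2(m - 2) ≤ |Y| = m + h - 3`, `m ≤ h + 1`, impossible (`m ≥ 2h`);
  type 2: another `z' ∈ Y`, `z' ≠ z`, with `c u z' = ρ = c u z` (`m - 2 ≥ 2`), but
  `c u z' - r1 ∈ P1`, `c u z - r1 ∉ P1`.  So `Y \\ Y0` has at least `m - 2` elements.
(iii) All elements of `Y0` have type 2.  Then `|Y0| ≤ 1`: for `y ≠ y'` in `Y0` the groups `P1`,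
  `P1'` have order 2, so are equal (`eq_of_card`); for a third `z ∈ Y` `c u z - r1`,
  `c u z - r1' ∈ P1`, so `r1 - r1' ∈ P1`; `c u y' - r1 ∈ P1` but `c u y' - r1' ∉ P1`.
  So `|Y \\ Y0| ≥ |Y| - 1 ≥ m - 2`.
-/

set_option autoImplicit false

namespace ZS44129
namespace G

open Finset

variable {V : Type} [Fintype V] [DecidableEq V] {m : ℕ}

private theorem pur_iff_q (c : V → V → ZMod m) (u w : V) (P : AddSubgroup (ZMod m)) (r0 : ZMod m)
    (z : V) : Pur (fun x => ({c u x, c w x} : Finset (ZMod m))) r0 P z ↔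
      (c u z - r0 ∈ P ∧ c w z - r0 ∈ P) := by
  unfold Pur
  constructor
  · intro h
    exact ⟨h _ (by simp), h _ (by simp)⟩
  · rintro ⟨h1, h2⟩ o ho
    simp only [Finset.mem_insert, Finset.mem_singleton] at ho
    rcases ho with rfl | rfl
    · exact h1
    · exact h2

open Classical in
private noncomputable def YY (c : V → V → ZMod m) (u w : V) (P : AddSubgroup (ZMod m))
    (r0 : ZMod m) : Finset V :=
  (XX u w).filter (fun z => c u z - r0 ∈ P ∧ c w z - r0 ∈ P)

private theorem mem_YY {c : V → V → ZMod m} {u w : V} {P : AddSubgroup (ZMod m)} {r0 : ZMod m}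
    {z : V} : z ∈ YY c u w P r0 ↔ z ∈ XX u w ∧ c u z - r0 ∈ P ∧ c w z - r0 ∈ P := by
  classical
  unfold YY; rw [Finset.mem_filter]

private theorem basics [NeZero m] (c : V → V → ZMod m) (hsym : ∀ x y, c x y = c y x)
    (hZ : ZSF m c)
    {s κ : ℕ} (hκ : 2 ≤ κ) (hV : Fintype.card V = m + s) (hsm : s < m) {u w : V}
    {P : AddSubgroup (ZMod m)} {r0 : ZMod m} (h : Hv c κ u w P r0)
    (ht : Nat.card P + Out c u w P r0 ≤ s + 1) :
    3 ≤ Nat.card P ∧ 2 * Nat.card P ≤ m ∧ (YY c u w P r0).card + 3 = m + Nat.card P := by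
  classical
  have hl := lemQ c hsym hZ hV hsm h
  obtain ⟨huw, h1, h2, h3⟩ := h
  refine ⟨by omega, ?_, ?_⟩
  · have : 2 * Nat.card P ≤ (Out c u w P r0 + 2) * Nat.card P :=
      Nat.mul_le_mul_right _ (by omega)
    omega
  · have hX := card_XX huw
    have hs : (YY c u w P r0).card + Out c u w P r0 = (XX u w).card := by
      have := Finset.card_filter_add_card_filter_not (s := XX u w)
        (fun z => c u z - r0 ∈ P ∧ c w z - r0 ∈ P)
      rw [← this]
      unfold YY Out np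
      congr 1
      · apply congrArg Finset.card
        apply Finset.filter_congr
        intro z _
        rw [pur_iff_q]
    omega

private theorem stepQ [NeZero m] (c : V → V → ZMod m) (hsym : ∀ x y, c x y = c y x)
    (hZ : ZSF m c) {u w x y : V} (huw : u ≠ w)
    {P : AddSubgroup (ZMod m)} {r0 : ZMod m} (h2 : 2 * Nat.card P ≤ m)
    (hY : (YY c u w P r0).card + 3 = m + Nat.card P) (hx : x ∈ XX u w)
    (hxo : x ∉ YY c u w P r0) (hy : y ∈ YY c u w P r0)
    (hor : c u x - r0 ∈ P ∨ c y x - r0 ∈ P) :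
    ∃ (P1 : AddSubgroup (ZMod m)) (r1 : ZMod m) (B : Finset V), P1 < P ∧ r1 - r0 ∈ P ∧
      c u y - r1 ∉ P1 ∧ (B.card + 2) * Nat.card P1 ≤ Nat.card P ∧
      ∀ z ∈ insert x ((YY c u w P r0).erase y), c u z - r0 ∈ P → c u z - r1 ∉ P1 → z ∈ B := by
  classical
  have hy' := mem_YY.1 hy
  obtain ⟨hyX, hyu, hyw⟩ := hy'
  rw [mem_XX] at hyX hx
  have hwn : w ∉ insert x ((YY c u w P r0).erase y) := by
    rw [Finset.mem_insert, Finset.mem_erase]
    rintro (hw | ⟨_, hw⟩)
    · exact hx.2 hw.symm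
    · exact (mem_XX.1 (mem_YY.1 hw).1).2 rfl
  have hxn : x ∉ (YY c u w P r0).erase y := fun h => hxo (Finset.mem_of_mem_erase h)
  have hcard : (insert w (insert x ((YY c u w P r0).erase y))).card =
      (YY c u w P r0).card + 1 := by
    rw [Finset.card_insert_of_notMem hwn, Finset.card_insert_of_notMem hxn,
      Finset.card_erase_of_mem hy]
    have := Finset.card_pos.2 ⟨y, hy⟩
    omega
  obtain ⟨P1, r1, a1, a2, a3, a4⟩ := core' c hZ (u := u) (y := y) (Ne.symm hyX.1) P r0 (by omega)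
    hyu (insert w (insert x ((YY c u w P r0).erase y))) (by
      intro z hz
      rw [Finset.mem_insert, Finset.mem_insert, Finset.mem_erase] at hz
      rw [mem_XX]
      rcases hz with rfl | rfl | ⟨hz1, hz2⟩
      · exact ⟨Ne.symm huw, Ne.symm hyX.2⟩
      · exact ⟨hx.1, fun he => hxo (he ▸ hy)⟩
      · exact ⟨(mem_XX.1 (mem_YY.1 hz2).1).1, hz1⟩) (by
      intro z hz
      rw [Finset.mem_insert, Finset.mem_insert, Finset.mem_erase] at hz
      rcases hz with rfl | rfl | ⟨hz1, hz2⟩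
      · right; rw [hsym]; exact hyw
      · exact hor
      · left; exact (mem_YY.1 hz2).2.1) (by rw [hcard]; omega)
  refine ⟨P1, r1, _, a1, a2, a3, a4, ?_⟩
  intro z hz hz1 hz2
  rw [Finset.mem_filter]
  exact ⟨Finset.mem_insert_of_mem hz, hz1, hz2⟩

private theorem factQ [NeZero m] {P1 P : AddSubgroup (ZMod m)} (h : P1 < P) :
    ∃ b, 2 ≤ b ∧ Nat.card P = b * Nat.card P1 ∧ 1 ≤ Nat.card P1 := by
  have hd : Nat.card P1 ∣ Nat.card P := AddSubgroup.card_dvd_of_le h.le
  obtain ⟨b, hb⟩ := hd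
  have hpos : 0 < Nat.card P := Nat.card_pos
  have hpos1 : 0 < Nat.card P1 := Nat.card_pos
  refine ⟨b, ?_, by rw [hb, mul_comm], hpos1⟩
  by_contra hlt
  have hb' : b = 0 ∨ b = 1 := by omega
  rcases hb' with rfl | rfl
  · rw [mul_zero] at hb; omega
  · have : P1 = P := eq_of_card _ _ (by rw [hb, mul_one])
    exact h.ne this

private theorem botQ [NeZero m] {P1 : AddSubgroup (ZMod m)} (h : Nat.card P1 = 1) : P1 = ⊥ := by
  apply eq_of_card
  rw [h]; simp

private theorem degQ [NeZero m] (c : V → V → ZMod m) (hZ : ZSF m c) (u : V)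
    (L : AddSubgroup (ZMod m)) (hL : 2 * Nat.card L ≤ m + 2) (r : ZMod m) (W : Finset V)
    (hW : ∀ z ∈ W, z ≠ u ∧ c u z - r ∈ L) : W.card + 2 ≤ m + Nat.card L := by
  classical
  have h := coset_deg c hZ u L hL r
  have : W.card ≤ ((univ.erase u).filter (fun x => c u x - r ∈ L)).card := by
    apply Finset.card_le_card
    intro z hz
    rw [Finset.mem_filter, Finset.mem_erase]
    exact ⟨⟨(hW z hz).1, Finset.mem_univ z⟩, (hW z hz).2⟩
  omega

private theorem rho1 [NeZero m] (c : V → V → ZMod m) (hsym : ∀ x y, c x y = c y x)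
    (hZ : ZSF m c) {u w x y : V} (huw : u ≠ w)
    {P : AddSubgroup (ZMod m)} {r0 : ZMod m} (h2 : 2 * Nat.card P ≤ m)
    (hY : (YY c u w P r0).card + 3 = m + Nat.card P) (hx : x ∈ XX u w)
    (hxo : x ∉ YY c u w P r0) (hy : y ∈ YY c u w P r0)
    (hxP : c u x - r0 ∈ P) :
    ∃ ρ : ZMod m, ρ ≠ c u y ∧ m ≤ ((insert x (YY c u w P r0)).filter (fun z => c u z = ρ)).card + 1 := by
  classical
  obtain ⟨P1, r1, B, a1, a2, a3, a4, a5⟩ := stepQ c hsym hZ huw h2 hY hx hxo hy (Or.inl hxP)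
  obtain ⟨b, hb2, hb, hp1⟩ := factQ a1
  set S := insert x ((YY c u w P r0).erase y) with hS
  have hxn : x ∉ (YY c u w P r0).erase y := fun h => hxo (Finset.mem_of_mem_erase h)
  have hSc : S.card = (YY c u w P r0).card := by
    rw [hS, Finset.card_insert_of_notMem hxn, Finset.card_erase_of_mem hy]
    have := Finset.card_pos.2 ⟨y, hy⟩
    omega
  have hSP : ∀ z ∈ S, c u z - r0 ∈ P ∧ z ≠ u := by
    intro z hz
    rw [hS, Finset.mem_insert] at hz
    rcases hz with rfl | hz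
    · exact ⟨hxP, (mem_XX.1 hx).1⟩
    · have := mem_YY.1 (Finset.mem_of_mem_erase hz)
      exact ⟨this.2.1, (mem_XX.1 this.1).1⟩
  have hsplit := Finset.card_filter_add_card_filter_not (s := S) (fun z => c u z - r1 ∈ P1)
  have hB : (S.filter (fun z => ¬ (c u z - r1 ∈ P1))).card ≤ B.card := by
    apply Finset.card_le_card
    intro z hz
    rw [Finset.mem_filter] at hz
    exact a5 z hz.1 (hSP z hz.1).1 hz.2
  have hdeg := degQ c hZ u P1 (by
    have : Nat.card P1 ≤ Nat.card P := by rw [hb]; nlinarith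
    omega) r1 (S.filter (fun z => c u z - r1 ∈ P1)) (by
    intro z hz
    rw [Finset.mem_filter] at hz
    exact ⟨(hSP z hz.1).2, hz.2⟩)
  have hBb : B.card + 2 ≤ b := by
    rw [hb] at a4
    exact Nat.le_of_mul_le_mul_right a4 hp1
  have hp : Nat.card P1 = 1 := by
    by_contra hne
    have h3 : 2 ≤ Nat.card P1 := by omega
    obtain ⟨q, hq⟩ : ∃ q, Nat.card P1 = q + 2 := ⟨Nat.card P1 - 2, by omega⟩
    obtain ⟨b', hb'⟩ : ∃ b', b = b' + 2 := ⟨b - 2, by omega⟩
    have h5 : Nat.card P = (b' + 2) * (q + 2) := by rw [hb, hq, hb']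
    have h4 : (b' + 2) * (q + 2) = b' * q + 2 * b' + 2 * q + 4 := by ring
    have h6 : 0 ≤ b' * q := Nat.zero_le _
    omega
  have hbot := botQ hp
  refine ⟨r1, ?_, ?_⟩
  · intro he
    apply a3
    rw [he, sub_self]; exact P1.zero_mem
  · have hle : (S.filter (fun z => c u z - r1 ∈ P1)).card ≤
        ((insert x (YY c u w P r0)).filter (fun z => c u z = r1)).card := by
      apply Finset.card_le_card
      intro z hz
      rw [Finset.mem_filter] at hz ⊢
      refine ⟨?_, ?_⟩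
      · rw [hS] at hz
        exact Finset.insert_subset_insert _ (Finset.erase_subset _ _) hz.1
      · have := hz.2
        rw [hbot, AddSubgroup.mem_bot] at this
        exact sub_eq_zero.1 this
    rw [hp, mul_one] at hb
    omega

private theorem typesQ [NeZero m] (c : V → V → ZMod m) (hsym : ∀ x y, c x y = c y x)
    (hZ : ZSF m c) {u w x y : V} (huw : u ≠ w)
    {P : AddSubgroup (ZMod m)} {r0 : ZMod m} (h2 : 2 * Nat.card P ≤ m)
    (hY : (YY c u w P r0).card + 3 = m + Nat.card P) (hx : x ∈ XX u w)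
    (hxo : x ∉ YY c u w P r0) (hy : y ∈ YY c u w P r0)
    (hxP : c y x - r0 ∈ P) :
    (∃ ρ : ZMod m, ρ ≠ c u y ∧ m ≤ ((YY c u w P r0).filter (fun z => c u z = ρ)).card + 2) ∨
    (∃ (P1 : AddSubgroup (ZMod m)) (r1 : ZMod m), Nat.card P1 = 2 ∧ c u y - r1 ∉ P1 ∧
      ∀ z ∈ YY c u w P r0, z ≠ y → c u z - r1 ∈ P1) := by
  classical
  obtain ⟨P1, r1, B, a1, a2, a3, a4, a5⟩ := stepQ c hsym hZ huw h2 hY hx hxo hy (Or.inr hxP)
  obtain ⟨b, hb2, hb, hp1⟩ := factQ a1
  set S := (YY c u w P r0).erase y with hS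
  have hSc : S.card + 1 = (YY c u w P r0).card := by
    rw [hS, Finset.card_erase_of_mem hy]
    have := Finset.card_pos.2 ⟨y, hy⟩
    omega
  have hSP : ∀ z ∈ S, c u z - r0 ∈ P ∧ z ≠ u := by
    intro z hz
    have := mem_YY.1 (Finset.mem_of_mem_erase hz)
    exact ⟨this.2.1, (mem_XX.1 this.1).1⟩
  have hsplit := Finset.card_filter_add_card_filter_not (s := S) (fun z => c u z - r1 ∈ P1)
  have hB : (S.filter (fun z => ¬ (c u z - r1 ∈ P1))).card ≤ B.card := by
    apply Finset.card_le_card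
    intro z hz
    rw [Finset.mem_filter] at hz
    exact a5 z (Finset.mem_insert_of_mem hz.1) (hSP z hz.1).1 hz.2
  have hdeg := degQ c hZ u P1 (by
    have : Nat.card P1 ≤ Nat.card P := by rw [hb]; nlinarith
    omega) r1 (S.filter (fun z => c u z - r1 ∈ P1)) (by
    intro z hz
    rw [Finset.mem_filter] at hz
    exact ⟨(hSP z hz.1).2, hz.2⟩)
  have hBb : B.card + 2 ≤ b := by
    rw [hb] at a4
    exact Nat.le_of_mul_le_mul_right a4 hp1
  by_cases hp : Nat.card P1 = 1
  · left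
    have hbot := botQ hp
    refine ⟨r1, ?_, ?_⟩
    · intro he
      apply a3
      rw [he, sub_self]; exact P1.zero_mem
    · have hle : (S.filter (fun z => c u z - r1 ∈ P1)).card ≤
          ((YY c u w P r0).filter (fun z => c u z = r1)).card := by
        apply Finset.card_le_card
        intro z hz
        rw [Finset.mem_filter] at hz ⊢
        refine ⟨Finset.mem_of_mem_erase hz.1, ?_⟩
        have := hz.2
        rw [hbot, AddSubgroup.mem_bot] at this
        exact sub_eq_zero.1 this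
      rw [hp, mul_one] at hb
      omega
  · right
    have h3 : 2 ≤ Nat.card P1 := by omega
    obtain ⟨q, hq⟩ : ∃ q, Nat.card P1 = q + 2 := ⟨Nat.card P1 - 2, by omega⟩
    obtain ⟨b', hb'⟩ : ∃ b', b = b' + 2 := ⟨b - 2, by omega⟩
    have h5 : Nat.card P = (b' + 2) * (q + 2) := by rw [hb, hq, hb']
    have h4 : (b' + 2) * (q + 2) = b' * q + 2 * b' + 2 * q + 4 := by ring
    have h6 : 0 ≤ b' * q := Nat.zero_le _
    have hq0 : q = 0 := by omega
    have hb0 : b' = 0 := by omega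
    refine ⟨P1, r1, by omega, a3, ?_⟩
    intro z hz hzy
    by_contra hcon
    have hzS : z ∈ S.filter (fun z => ¬ (c u z - r1 ∈ P1)) :=
      Finset.mem_filter.2 ⟨Finset.mem_erase.2 ⟨hzy, hz⟩, hcon⟩
    have := Finset.card_pos.2 ⟨z, hzS⟩
    omega

theorem qp1 [NeZero m] (c : V → V → ZMod m) (hsym : ∀ x y, c x y = c y x) (hZ : ZSF m c)
    {s κ : ℕ} (hκ : 2 ≤ κ) (hV : Fintype.card V = m + s) (hsm : s < m) {u w x : V}
    {P : AddSubgroup (ZMod m)} {r0 : ZMod m} (h : Hv c κ u w P r0)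
    (ht : Nat.card P + Out c u w P r0 ≤ s + 1) (hx : x ∈ XX u w)
    (hxo : ¬ (c u x - r0 ∈ P ∧ c w x - r0 ∈ P)) : c u x - r0 ∉ P := by
  classical
  intro hxP
  obtain ⟨h3, h2, hY⟩ := basics c hsym hZ hκ hV hsm h ht
  have hxo' : x ∉ YY c u w P r0 := fun hh => hxo (mem_YY.1 hh).2
  have hρ := fun y hy => rho1 c hsym hZ (y := y) h.1 h2 hY hx hxo' hy hxP
  obtain ⟨y0, hy0⟩ : (YY c u w P r0).Nonempty := Finset.card_pos.1 (by omega)
  obtain ⟨ρ0, _, hρ0⟩ := hρ y0 hy0
  have hne : (((insert x (YY c u w P r0)).filter (fun z => c u z = ρ0)).erase x).Nonempty := by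
    apply Finset.card_pos.1
    have := Finset.pred_card_le_card_erase
      (s := (insert x (YY c u w P r0)).filter (fun z => c u z = ρ0)) (a := x)
    omega
  obtain ⟨y', hy'⟩ := hne
  rw [Finset.mem_erase, Finset.mem_filter, Finset.mem_insert] at hy'
  have hy'Y : y' ∈ YY c u w P r0 := hy'.2.1.resolve_left hy'.1
  obtain ⟨ρ1, hne1, hρ1⟩ := hρ y' hy'Y
  rw [hy'.2.2] at hne1
  have hdis : Disjoint ((insert x (YY c u w P r0)).filter (fun z => c u z = ρ0))
      ((insert x (YY c u w P r0)).filter (fun z => c u z = ρ1)) := by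
    rw [Finset.disjoint_left]
    intro z hz1 hz2
    rw [Finset.mem_filter] at hz1 hz2
    exact hne1 (hz2.2.symm.trans hz1.2)
  have hcard := Finset.card_union_of_disjoint hdis
  have hle : (((insert x (YY c u w P r0)).filter (fun z => c u z = ρ0)) ∪
      ((insert x (YY c u w P r0)).filter (fun z => c u z = ρ1))).card ≤
      (insert x (YY c u w P r0)).card :=
    Finset.card_le_card (Finset.union_subset (Finset.filter_subset _ _)
      (Finset.filter_subset _ _))
  rw [Finset.card_insert_of_notMem hxo'] at hle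
  omega

open Classical in
theorem qp2 [NeZero m] (c : V → V → ZMod m) (hsym : ∀ x y, c x y = c y x) (hZ : ZSF m c)
    {s κ : ℕ} (hκ : 2 ≤ κ) (hV : Fintype.card V = m + s) (hsm : s < m) {u w x : V}
    {P : AddSubgroup (ZMod m)} {r0 : ZMod m} (h : Hv c κ u w P r0)
    (ht : Nat.card P + Out c u w P r0 ≤ s + 1) (hx : x ∈ XX u w)
    (hxo : ¬ (c u x - r0 ∈ P ∧ c w x - r0 ∈ P)) :
    m ≤ ((XX u w).filter (fun y => c u y - r0 ∈ P ∧ c w y - r0 ∈ P ∧ c y x - r0 ∉ P)).card
      + 2 := by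
  obtain ⟨h3, h2, hY⟩ := basics c hsym hZ hκ hV hsm h ht
  have hxo' : x ∉ YY c u w P r0 := fun hh => hxo (mem_YY.1 hh).2
  have hty := fun y hy hyx => typesQ c hsym hZ (y := y) h.1 h2 hY hx hxo' hy hyx
  set T := (XX u w).filter (fun y => c u y - r0 ∈ P ∧ c w y - r0 ∈ P ∧ c y x - r0 ∉ P) with hT
  by_cases hex : ∃ y ∈ YY c u w P r0, c y x - r0 ∈ P ∧ ∃ ρ : ZMod m, ρ ≠ c u y ∧
      m ≤ ((YY c u w P r0).filter (fun z => c u z = ρ)).card + 2
  · obtain ⟨y1, hy1, hy1x, ρ, hρne, hρ⟩ := hex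
    have hsub : (YY c u w P r0).filter (fun z => c u z = ρ) ⊆ T := by
      intro z hz
      have hz0 := hz
      rw [Finset.mem_filter] at hz
      have hz1 := mem_YY.1 hz.1
      rw [hT, Finset.mem_filter]
      refine ⟨hz1.1, hz1.2.1, hz1.2.2, ?_⟩
      intro hzx
      rcases hty z hz.1 hzx with ⟨ρ', hne', hρ'⟩ | ⟨P1, r1, hP1, hzr, hall⟩
      · rw [hz.2] at hne'
        have hdis : Disjoint ((YY c u w P r0).filter (fun z => c u z = ρ))
            ((YY c u w P r0).filter (fun z => c u z = ρ')) := by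
          rw [Finset.disjoint_left]
          intro t ht1 ht2
          rw [Finset.mem_filter] at ht1 ht2
          exact hne' (ht2.2.symm.trans ht1.2)
        have hcard := Finset.card_union_of_disjoint hdis
        have hle : (((YY c u w P r0).filter (fun z => c u z = ρ)) ∪
            ((YY c u w P r0).filter (fun z => c u z = ρ'))).card ≤ (YY c u w P r0).card :=
          Finset.card_le_card (Finset.union_subset (Finset.filter_subset _ _)
            (Finset.filter_subset _ _))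
        omega
      · have hne2 : (((YY c u w P r0).filter (fun z => c u z = ρ)).erase z).Nonempty := by
          apply Finset.card_pos.1
          rw [Finset.card_erase_of_mem hz0]
          omega
        obtain ⟨z', hz'⟩ := hne2
        rw [Finset.mem_erase, Finset.mem_filter] at hz'
        have := hall z' hz'.2.1 hz'.1
        rw [hz'.2.2, ← hz.2] at this
        exact hzr this
    have := Finset.card_le_card hsub
    omega
  · push Not at hex
    have hall2 : ∀ y ∈ YY c u w P r0, c y x - r0 ∈ P →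
        ∃ (P1 : AddSubgroup (ZMod m)) (r1 : ZMod m), Nat.card P1 = 2 ∧ c u y - r1 ∉ P1 ∧
          ∀ z ∈ YY c u w P r0, z ≠ y → c u z - r1 ∈ P1 := by
      intro y hy hyx
      rcases hty y hy hyx with ⟨ρ, hne, hρ⟩ | h4
      · exact absurd hρ (not_le.2 (hex y hy hyx ρ hne))
      · exact h4
    have hY0 : ((YY c u w P r0).filter (fun y => c y x - r0 ∈ P)).card ≤ 1 := by
      rw [Finset.card_le_one]
      intro y hy y' hy'
      rw [Finset.mem_filter] at hy hy'
      by_contra hne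
      obtain ⟨P1, r1, hc1, hn1, hal1⟩ := hall2 y hy.1 hy.2
      obtain ⟨P2, r2, hc2, hn2, hal2⟩ := hall2 y' hy'.1 hy'.2
      have hPP : P2 = P1 := eq_of_card _ _ (by rw [hc1, hc2])
      subst hPP
      have hne2 : (((YY c u w P r0).erase y).erase y').Nonempty := by
        apply Finset.card_pos.1
        rw [Finset.card_erase_of_mem (Finset.mem_erase.2 ⟨fun he => hne he.symm, hy'.1⟩),
          Finset.card_erase_of_mem hy.1]
        omega
      obtain ⟨z, hz⟩ := hne2
      rw [Finset.mem_erase, Finset.mem_erase] at hz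
      have e1 := hal1 z hz.2.2 hz.2.1
      have e2 := hal2 z hz.2.2 hz.1
      have e3 := hal1 y' hy'.1 (fun he => hne he.symm)
      apply hn2
      have e4 : c u y' - r2 = (c u y' - r1) - (c u z - r1) + (c u z - r2) := by ring
      rw [e4]
      exact P2.add_mem (P2.sub_mem e3 e1) e2
    have hsplit := Finset.card_filter_add_card_filter_not (s := YY c u w P r0)
      (fun y => c y x - r0 ∈ P)
    have hsub : (YY c u w P r0).filter (fun y => ¬ (c y x - r0 ∈ P)) ⊆ T := by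
      intro z hz
      rw [Finset.mem_filter] at hz
      have hz1 := mem_YY.1 hz.1
      rw [hT, Finset.mem_filter]
      exact ⟨hz1.1, hz1.2.1, hz1.2.2, hz.2⟩
    have := Finset.card_le_card hsub
    omega

end G
end ZS44129
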