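import Mathlib
import Pool.Agent.Work.MP_44129c_co.G.LemQP

/-!
# MP_44129c_co/G, module TightW: a third vertex gives a wide pair (size S-M)

Tight heavy pair `u, w` (as in `LemQP`), `x ∈ XX u w` not in `Y`.  By `qp2` at least `m - 2`
vertices `y ∈ Y` have `c y x - r0 ∉ P`; for these `y ∈ XX x u` (`y ≠ u`; `y ≠ x` as `x ∉ Y`) and
`c x y - c u y ∉ P` (`c x y = c y x`, `c u y - r0 ∈ P`).  So `m ≤ DD c x u P + 2`.
`DD c x u ⊥ ≥ DD c x u P ≥ m - 2` and `m ≥ 6` give `m < 2 * DD c x u ⊥`.  If `L ≠ ⊥`,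
`|L| ≤ 2`, then `|L| = 2`, `2 ∣ m` (Lagrange), so `2 ∣ |P|` by `hpar`, `L ≤ P` (`le_of_dvd`),
`DD c x u L ≥ DD c x u P ≥ m - 2`, `(m - 1) * 2 ≥ m`.

`pure_dd`: positions which are pure in `r + P` have equal colours modulo `P`.
-/

set_option autoImplicit false

namespace ZS44129
namespace G

open Finset

variable {V : Type} [Fintype V] [DecidableEq V] {m : ℕ}

theorem pure_dd (c : V → V → ZMod m) (u v : V) (P : AddSubgroup (ZMod m)) (r : ZMod m) :
    DD c u v P ≤ Out c u v P r := by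
  classical
  unfold DD Dn Out np
  apply Finset.card_le_card
  intro x hx
  rw [Finset.mem_filter] at hx ⊢
  refine ⟨hx.1, fun hp => hx.2 ?_⟩
  have h1 := hp (c u x) (by simp)
  have h2 := hp (c v x) (by simp)
  have h3 : c u x - c v x = (c u x - r) - (c v x - r) := by abel
  rw [h3]; exact P.sub_mem h1 h2

theorem dd_anti (c : V → V → ZMod m) (u v : V) {P L : AddSubgroup (ZMod m)} (h : L ≤ P) :
    DD c u v P ≤ DD c u v L := by
  classical
  unfold DD Dn
  apply Finset.card_le_card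
  intro x hx
  rw [Finset.mem_filter] at hx ⊢
  exact ⟨hx.1, fun hp => hx.2 (h hp)⟩

theorem tightW [NeZero m] (c : V → V → ZMod m) (hsym : ∀ x y, c x y = c y x) (hZ : ZSF m c)
    {s κ : ℕ} (hκ : 2 ≤ κ) (hV : Fintype.card V = m + s) (hsm : s < m) {u w x : V}
    {P : AddSubgroup (ZMod m)} {r0 : ZMod m} (h : Hv c κ u w P r0)
    (ht : Nat.card P + Out c u w P r0 ≤ s + 1) (hx : x ∈ XX u w)
    (hxo : ¬ (c u x - r0 ∈ P ∧ c w x - r0 ∈ P)) (hpar : 2 ∣ m → 2 ∣ Nat.card P) :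
    Wd c 2 x u ∧ m ≤ DD c x u P + 2 := by
  classical
  have hq := qp2 c hsym hZ hκ hV hsm h ht hx hxo
  have hx' := mem_XX.1 hx
  have hm6 : 6 ≤ m := by
    obtain ⟨-, h1, -, h3⟩ := h
    have h4 : 2 * 3 ≤ (Out c u w P r0 + 2) * Nat.card P :=
      Nat.mul_le_mul (by omega) (by omega)
    omega
  have hD : m ≤ DD c x u P + 2 := by
    refine hq.trans (Nat.add_le_add_right ?_ 2)
    unfold DD Dn
    apply Finset.card_le_card
    intro y hy
    obtain ⟨hyX, hy1, hy2, hy3⟩ := Finset.mem_filter.1 hy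
    obtain ⟨hyu, -⟩ := mem_XX.1 hyX
    rw [Finset.mem_filter]
    refine ⟨mem_XX.2 ⟨?_, hyu⟩, fun hc => hy3 ?_⟩
    · rintro rfl
      exact hxo ⟨hy1, hy2⟩
    · have e : c y x - r0 = (c x y - c u y) + (c u y - r0) := by
        rw [hsym y x]
        abel
      rw [e]
      exact P.add_mem hc hy1
  refine ⟨⟨hx'.1, ?_, ?_⟩, hD⟩
  · have h1 := dd_anti c x u (bot_le : (⊥ : AddSubgroup (ZMod m)) ≤ P)
    omega
  · intro L hL hL2
    have hpos : 0 < Nat.card L := Nat.card_pos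
    have hne1 : Nat.card L ≠ 1 := by
      intro h1
      exact hL (AddSubgroup.card_eq_one.1 h1)
    have h2 : Nat.card L = 2 := by omega
    have hdvd : 2 ∣ m := by
      have h3 := AddSubgroup.card_addSubgroup_dvd_card L
      rwa [Nat.card_zmod, h2] at h3
    have hLP : L ≤ P := le_of_dvd L P (by rw [h2]; exact hpar hdvd)
    have h3 := dd_anti c x u hLP
    rw [h2]
    omega

end G
end ZS44129
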