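import Mathlib
import Pool.Agent.Work.MP_44129c_co.G.TightW
import Pool.Agent.Work.MP_44129c_co.G.Tight3

/-!
# MP_44129c_co/G, module Classify: wide pairs without good pairs (size M)

## classify1  (`3s - 2 ≤ m ≤ 3s + 2`, `m ≠ 20`, no good pair): every wide pair is heavy of index 2.
`hj`: for `|L| > 2` `m ≤ s|L|` is a hypothesis.  `pair_thmP` (`κ = 2`): `Hv c 2 u w P r0`.
`h = |P| ≥ 3`, `m = h j`, `Out + 2 ≤ j`, so `j ≥ 2`, `m ≥ 6`, hence `s < m` (`3s ≤ m + 2`).
If `j = 2` we are done.  Let `j ≥ 3`.  `lemQ`: `s + 1 ≤ h + Out ≤ h + j - 2`.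
If `h + j ≥ s + 4` then `(h-3)(j-3) = hj - 3(h+j) + 9 ≤ 3s + 2 - 3s - 12 + 9 < 0`, impossible.  So
`h + j = s + 3`, `Out = j - 2`, `h + Out = s + 1` (tight), `(h-3)(j-3) = m - 3s ∈ {0, 1, 2}`.
(The case `m - 3s ≤ -1` is impossible.)
* `m = 3s + 2`: `{h, j} = {4, 5}`, `m = 20`, excluded.
* `h = 3`: `tight3` (`m ≥ 9` since `j ≥ 3`) gives a good pair: contradiction.
* `j = 3` (`m = 3s = 3h`, `h ≥ 4`, `Out = 1`): let `x` be the position which is not pure.
  `2 ∣ m → 2 ∣ h`.  `tightW`: `Wd c 2 x u`, `m ≤ DD c x u P + 2`.  `pair_thmP`: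
  `Hv c 2 x u P' r'`, `h' = |P'|`, `m = h' j'`.
  - `j' ≥ 3`: as above (tight) `(h'-3)(j'-3) = 0`; `h' = 3`: `tight3`, contradiction; `j' = 3`:
    `h' = h`, `P' = P` (`eq_of_card`), `m - 2 ≤ DD c x u P ≤ Out c x u P' r' ≤ 1` (`pure_dd`),
    contradiction (`m ≥ 12`).
  - `j' = 2`: `Out c x u P' r' = 0`: `c u z - r' ∈ P'` for all `z ∈ XX x u`.  For
    `y ∈ Y = {z ∈ XX u w : c u z - r0 ∈ P ∧ c w z - r0 ∈ P}` (`|Y| = m + h - 3`, `x ∉ Y`):
    `c u y - r0 ∈ P`, `c u y - r' ∈ P'`; so with a fixed `y1 ∈ Y`, `c u y - c u y1 ∈ L := P ⊓ P'`.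
    `|L|` divides `h` and `3h/2` (`h` even), so `|L| ≤ h/2`.  `coset_deg` for `L`, `r = c u y1`:
    `m + h - 3 + 2 ≤ m + h/2`, `h ≤ 2`, contradiction.
* `m = 3s + 1`, `h = j = 4`, `m = 16`, `s = 5`, `Out = 2`: two non pure positions `x ≠ x'`.  For
  both `tightW` (`2 ∣ 4`) and `pair_thmP`: `Hv c 2 x u P' r'`, `|P'| ∣ 16`, `3 ≤ |P'| ≤ 8`.
  `|P'| = 4`: `P' = P`, `14 ≤ DD c x u P ≤ Out c x u P' r' ≤ 2`, contradiction.  So `|P'| = 8`,
  `Out = 0`, `c x u - r' ∉ P'` and `c u z - r' ∈ P'` for `z ∈ XX x u`.  In the same way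
  `|P''| = 8`, `P'' = P'`, `c x' u - r'' ∉ P'`, `c u z - r'' ∈ P'` for `z ∈ XX x' u`.  With any
  `y ∈ Y`: `r' - r'' ∈ P'`.  `x' ∈ XX x u`: `c u x' - r' ∈ P'`, so `c u x' - r'' ∈ P'`,
  contradiction.

## classify2  (`t ≥ 2`)
`10000 m ≤ 31035 s + 10000`, `3s + 3 ≤ m`, `23 ≤ s`.  `pair_thmP` with `κ = 3` (`|L| ≥ 4`:
`m ≤ 4s`).  `Hv c 3 u w P r`, `h = |P| ≥ 4`, `m = h j`, `j ≥ 2`.  If `j ≥ 4`: `lemQ` gives
`h + j ≥ s + 3`, and `(h-3)(j-3) ≥ h + j - 7 ≥ s - 4`, but `(h-3)(j-3) = m - 3(h+j) + 9 ≤ m - 3s`,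
so `s - 4 ≤ m - 3s ≤ 1 + 0.1035 s`, impossible for `s ≥ 23`.
-/

set_option autoImplicit false

namespace ZS44129
namespace G

open Finset

variable {V : Type} [Fintype V] [DecidableEq V] {m : ℕ}

private theorem cl_pur (c : V → V → ZMod m) (u w : V) (P : AddSubgroup (ZMod m)) (r : ZMod m)
    (z : V) : Pur (fun x => ({c u x, c w x} : Finset (ZMod m))) r P z ↔
      (c u z - r ∈ P ∧ c w z - r ∈ P) := by
  unfold Pur
  constructor
  · intro h
    exact ⟨h _ (by simp), h _ (by simp)⟩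
  · rintro ⟨h1, h2⟩ o ho
    rcases mem_insert.1 ho with rfl | ho
    · exact h1
    · rw [mem_singleton.1 ho]
      exact h2

open Classical in
private theorem cl_Y (c : V → V → ZMod m) (u w : V) (P : AddSubgroup (ZMod m)) (r : ZMod m) :
    ((XX u w).filter (fun z => c u z - r ∈ P ∧ c w z - r ∈ P)).card + Out c u w P r =
      (XX u w).card := by
  have h := card_filter_add_card_filter_not (s := XX u w)
    (fun z => c u z - r ∈ P ∧ c w z - r ∈ P)
  rw [← h]
  congr 1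
  unfold Out np
  congr 1
  refine filter_congr ?_
  intro z _
  rw [cl_pur]

open Classical in
private theorem cl_out_eq (c : V → V → ZMod m) (u w : V) (P : AddSubgroup (ZMod m)) (r : ZMod m) :
    Out c u w P r = ((XX u w).filter (fun z => ¬ (c u z - r ∈ P ∧ c w z - r ∈ P))).card := by
  unfold Out np
  congr 1
  refine filter_congr ?_
  intro z _
  rw [cl_pur]

private theorem cl_out0 (c : V → V → ZMod m) (u w : V) (P : AddSubgroup (ZMod m)) (r : ZMod m)
    (h : Out c u w P r = 0) {z : V} (hz : z ∈ XX u w) : c u z - r ∈ P ∧ c w z - r ∈ P := by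
  classical
  rw [cl_out_eq, card_eq_zero, filter_eq_empty_iff] at h
  exact not_not.1 (h hz)

private theorem cl_dvd [NeZero m] (P : AddSubgroup (ZMod m)) : Nat.card P ∣ m := by
  have := AddSubgroup.card_addSubgroup_dvd_card P
  rwa [Nat.card_zmod] at this

/-- the arithmetic of a heavy pair. -/
private theorem cl_hv [NeZero m] {c : V → V → ZMod m} {κ : ℕ} {u w : V} {P : AddSubgroup (ZMod m)}
    {r : ZMod m} (h : Hv c κ u w P r) : ∃ j, m = Nat.card P * j ∧ Out c u w P r + 2 ≤ j := by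
  obtain ⟨j, hj⟩ := cl_dvd P
  refine ⟨j, hj, ?_⟩
  have h1 := h.2.2.2
  have h2 : (Out c u w P r + 2) * Nat.card P ≤ j * Nat.card P := by
    rw [mul_comm j, ← hj]
    exact h1
  exact le_of_mul_le_mul_right h2 Nat.card_pos

private theorem cl_ar {h j m s o : ℕ} (hh : 3 ≤ h) (hj : 3 ≤ j) (hm : m = h * j)
    (hm2 : m ≤ 3 * s + 2) (ho : o + 2 ≤ j) (hq : s + 1 ≤ h + o) :
    h + j = s + 3 ∧ o + 2 = j ∧ m = 3 * s + (h - 3) * (j - 3) := by
  obtain ⟨a, rfl⟩ : ∃ a, h = a + 3 := ⟨h - 3, by omega⟩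
  obtain ⟨b, rfl⟩ : ∃ b, j = b + 3 := ⟨j - 3, by omega⟩
  have e1 : m = a * b + 3 * a + 3 * b + 9 := by rw [hm]; ring
  have h1 : a + 3 - 3 = a := by omega
  have h2 : b + 3 - 3 = b := by omega
  rw [h1, h2]
  generalize a * b = t at e1 ⊢
  omega

/-- index at least 3: the pair is tight. -/
private theorem cl_tight [NeZero m] (c : V → V → ZMod m) (hsym : ∀ x y, c x y = c y x)
    (hZ : ZSF m c) {s : ℕ} (hV : Fintype.card V = m + s) (hsm : s < m) (hm2 : m ≤ 3 * s + 2)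
    {u w : V} {P : AddSubgroup (ZMod m)} {r : ZMod m} (h : Hv c 2 u w P r)
    (hn2 : 2 * Nat.card P ≠ m) :
    ∃ j, m = Nat.card P * j ∧ 3 ≤ j ∧ Nat.card P + j = s + 3 ∧ Out c u w P r + 2 = j ∧
      m = 3 * s + (Nat.card P - 3) * (j - 3) ∧ Nat.card P + Out c u w P r ≤ s + 1 := by
  obtain ⟨j, hj, ho⟩ := cl_hv h
  have hj3 : 3 ≤ j := by
    by_contra hcon
    have : j = 2 := by omega
    rw [this] at hj
    omega
  have hq := lemQ c hsym hZ hV hsm h
  obtain ⟨h1, h2, h3⟩ := cl_ar h.2.1 hj3 hj hm2 ho hq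
  exact ⟨j, hj, hj3, h1, h2, h3, by omega⟩

theorem classify1 [NeZero m] (c : V → V → ZMod m) (hsym : ∀ x y, c x y = c y x) (hZ : ZSF m c)
    {s : ℕ} (hV : Fintype.card V = m + s) (hm1 : 3 * s ≤ m + 2) (hm2 : m ≤ 3 * s + 2)
    (h20 : m ≠ 20 ∨ s ≠ 6) (hj : ∀ L : AddSubgroup (ZMod m), 2 < Nat.card L → m ≤ s * Nat.card L)
    (hno : ∀ u v : V, ¬ GP c u v) {u w : V} (hW : Wd c 2 u w) :
    ∃ (P : AddSubgroup (ZMod m)) (r : ZMod m), Hv c 2 u w P r ∧ 2 * Nat.card P = m := by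
  classical
  obtain ⟨P, r0, hH⟩ := (pair_thmP c hZ (Or.inl rfl) hV hj hW).resolve_left (hno _ _)
  by_cases h2 : 2 * Nat.card P = m
  · exact ⟨P, r0, hH, h2⟩
  exfalso
  have hP3 : 3 ≤ Nat.card P := hH.2.1
  have hsm : s < m := by
    obtain ⟨j, hj1, hj2⟩ := cl_hv hH
    have : Nat.card P * 2 ≤ Nat.card P * j := Nat.mul_le_mul_left _ (by omega)
    omega
  obtain ⟨j, hmj, hj3, hsum, hout, hm3, htight⟩ := cl_tight c hsym hZ hV hsm hm2 hH h2
  have hm9 : 9 ≤ m := by
    have : 3 * 3 ≤ Nat.card P * j := Nat.mul_le_mul hP3 hj3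
    omega
  -- `h = 3` is impossible, for all heavy pairs
  have hno3 : ∀ (u w : V) (P : AddSubgroup (ZMod m)) (r : ZMod m), Hv c 2 u w P r →
      Nat.card P + Out c u w P r ≤ s + 1 → Nat.card P ≠ 3 := by
    intro u w P r hH' ht h3
    obtain ⟨u', v', hg⟩ := tight3 c hsym hZ le_rfl hV hsm hm9 hj hH' h3 ht
    exact hno _ _ hg
  have hP4 : 4 ≤ Nat.card P := by
    have := hno3 u w P r0 hH htight
    omega
  have hYc := cl_Y c u w P r0
  have hXc := card_XX hH.1
  by_cases hj3' : j = 3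
  · -- the case `j = 3`
    subst hj3'
    have hm3s : m = 3 * s := by simpa using hm3
    have hPs : Nat.card P = s := by omega
    have hout1 : Out c u w P r0 = 1 := by omega
    obtain ⟨x, hx⟩ : ∃ x, x ∈ (XX u w).filter
        (fun z => ¬ (c u z - r0 ∈ P ∧ c w z - r0 ∈ P)) := by
      have h1 := cl_out_eq c u w P r0
      rw [hout1] at h1
      exact card_pos.1 (by omega)
    rw [mem_filter] at hx
    obtain ⟨hWx, hDx⟩ := tightW c hsym hZ le_rfl hV hsm hH htight hx.1 hx.2 (by omega)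
    obtain ⟨P', r', hH'⟩ := (pair_thmP c hZ (Or.inl rfl) hV hj hWx).resolve_left (hno _ _)
    by_cases h2' : 2 * Nat.card P' = m
    · obtain ⟨j', hj1, hj2⟩ := cl_hv hH'
      have hj' : j' = 2 := by
        have h3 : Nat.card P' * j' = Nat.card P' * 2 := by omega
        exact Nat.eq_of_mul_eq_mul_left Nat.card_pos h3
      have hout' : Out c x u P' r' = 0 := by omega
      set Y := (XX u w).filter (fun z => c u z - r0 ∈ P ∧ c w z - r0 ∈ P) with hYdef
      have hYpos : 0 < Y.card := by omega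
      obtain ⟨y1, hy1⟩ := card_pos.1 hYpos
      have hYx : ∀ y ∈ Y, y ∈ XX x u := by
        intro y hy
        rw [hYdef, mem_filter] at hy
        refine mem_XX.2 ⟨?_, (mem_XX.1 hy.1).1⟩
        rintro rfl
        exact hx.2 hy.2
      have hYL : ∀ y ∈ Y, c u y - c u y1 ∈ P ⊓ P' := by
        intro y hy
        refine AddSubgroup.mem_inf.2 ⟨?_, ?_⟩
        · have e : c u y - c u y1 = (c u y - r0) - (c u y1 - r0) := by abel
          rw [e]
          exact P.sub_mem (mem_filter.1 hy).2.1 (mem_filter.1 hy1).2.1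
        · have e : c u y - c u y1 = (c u y - r') - (c u y1 - r') := by abel
          rw [e]
          exact P'.sub_mem (cl_out0 c x u P' r' hout' (hYx y hy)).2
            (cl_out0 c x u P' r' hout' (hYx y1 hy1)).2
      have hd1 : Nat.card (P ⊓ P' : AddSubgroup (ZMod m)) ∣ Nat.card P :=
        AddSubgroup.card_dvd_of_le inf_le_left
      have hd2 : Nat.card (P ⊓ P' : AddSubgroup (ZMod m)) ∣ Nat.card P' :=
        AddSubgroup.card_dvd_of_le inf_le_right
      obtain ⟨k, hk⟩ : ∃ k, Nat.card P = 2 * k := ⟨Nat.card P / 2, by omega⟩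
      have hk' : Nat.card P' = 3 * k := by omega
      have hdk : Nat.card (P ⊓ P' : AddSubgroup (ZMod m)) ∣ k := by
        have h3 : k = 3 * k - 2 * k := by omega
        rw [h3]
        rw [hk] at hd1
        rw [hk'] at hd2
        exact Nat.dvd_sub hd2 hd1
      have hLk : Nat.card (P ⊓ P' : AddSubgroup (ZMod m)) ≤ k := Nat.le_of_dvd (by omega) hdk
      have hcd := coset_deg c hZ u (P ⊓ P') (by omega) (c u y1)
      have hsub : Y ⊆ (univ.erase u).filter (fun x => c u x - c u y1 ∈ P ⊓ P') := by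
        intro y hy
        refine mem_filter.2 ⟨mem_erase.2 ⟨?_, mem_univ _⟩, hYL y hy⟩
        exact (mem_XX.1 (mem_filter.1 hy).1).1
      have hcard := card_le_card hsub
      omega
    · obtain ⟨j', hmj', hj3', hsum', hout', hm3', htight'⟩ :=
        cl_tight c hsym hZ hV hsm hm2 hH' h2'
      have hne3 := hno3 x u P' r' hH' htight'
      have h3 : (Nat.card P' - 3) * (j' - 3) = 0 := by omega
      have hP3' : 2 < Nat.card P' := hH'.2.1
      have hj' : j' = 3 := by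
        rcases Nat.mul_eq_zero.1 h3 with h4 | h4 <;> omega
      have hcc : Nat.card P' = Nat.card P := by omega
      have hPP : P' = P := eq_of_card _ _ hcc
      have h5 := pure_dd c x u P' r'
      rw [hPP] at h5 hout'
      omega
  · -- the case `j ≥ 4`
    have hj4 : 4 ≤ j := by omega
    have h1 : 1 * (j - 3) ≤ (Nat.card P - 3) * (j - 3) := Nat.mul_le_mul_right _ (by omega)
    have h1' : (Nat.card P - 3) * 1 ≤ (Nat.card P - 3) * (j - 3) :=
      Nat.mul_le_mul_left _ (by omega)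
    have hP5 : Nat.card P ≤ 5 := by omega
    have hj5 : j ≤ 5 := by omega
    have hcase : Nat.card P = 4 ∧ j = 4 := by
      rcases (by omega : Nat.card P = 4 ∨ Nat.card P = 5) with h4 | h4 <;>
        rcases (by omega : j = 4 ∨ j = 5) with h5 | h5 <;>
        rw [h4, h5] at hmj hm3 <;> omega
    obtain ⟨hc4, hj4'⟩ := hcase
    subst hj4'
    have hm16 : m = 16 := by rw [hmj, hc4]
    have hs5 : s = 5 := by omega
    have hout2 : Out c u w P r0 = 2 := by omega
    have h2c : 1 < ((XX u w).filter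
        (fun z => ¬ (c u z - r0 ∈ P ∧ c w z - r0 ∈ P))).card := by
      rw [← cl_out_eq, hout2]
      norm_num
    obtain ⟨x, hx, x', hx', hxx'⟩ := one_lt_card.1 h2c
    rw [mem_filter] at hx hx'
    -- structure of a non pure position
    have key : ∀ x ∈ XX u w, ¬ (c u x - r0 ∈ P ∧ c w x - r0 ∈ P) →
        ∃ (P' : AddSubgroup (ZMod m)) (r' : ZMod m), Nat.card P' = 8 ∧ c x u - r' ∉ P' ∧
          ∀ z ∈ XX x u, c u z - r' ∈ P' := by
      intro x hx1 hx2
      obtain ⟨hWx, hDx⟩ := tightW c hsym hZ le_rfl hV hsm hH htight hx1 hx2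
        (fun _ => by rw [hc4]; norm_num)
      obtain ⟨P', r', hH'⟩ := (pair_thmP c hZ (Or.inl rfl) hV hj hWx).resolve_left (hno _ _)
      obtain ⟨j', hj1, hj2⟩ := cl_hv hH'
      have hP3' : 2 < Nat.card P' := hH'.2.1
      have hdv : Nat.card P' ∣ 16 := by
        obtain ⟨q, hq⟩ := cl_dvd P'
        exact ⟨q, hm16.symm.trans hq⟩
      have hle : Nat.card P' ≤ 8 := by
        have : Nat.card P' * 2 ≤ Nat.card P' * j' := Nat.mul_le_mul_left _ (by omega)
        omega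
      have hcs : Nat.card P' = 4 ∨ Nat.card P' = 8 := by
        generalize Nat.card P' = q at hdv hle hP3'
        interval_cases q <;> revert hdv <;> decide
      rcases hcs with h4 | h8
      · exfalso
        have hPP : P' = P := eq_of_card _ _ (by omega)
        have h5 := pure_dd c x u P' r'
        rw [h4] at hj1
        rw [hPP] at h5 hj2
        omega
      · rw [h8] at hj1
        have hout' : Out c x u P' r' = 0 := by omega
        exact ⟨P', r', h8, hH'.2.2.1, fun z hz => (cl_out0 c x u P' r' hout' hz).2⟩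
    obtain ⟨P', r', hp8, hne', hall'⟩ := key x hx.1 hx.2
    obtain ⟨P'', r'', hp8', hne'', hall''⟩ := key x' hx'.1 hx'.2
    have hPP : P'' = P' := eq_of_card _ _ (by omega)
    subst hPP
    have hYpos : 0 < ((XX u w).filter (fun z => c u z - r0 ∈ P ∧ c w z - r0 ∈ P)).card := by
      omega
    obtain ⟨y, hy⟩ := card_pos.1 hYpos
    rw [mem_filter] at hy
    have hyx : y ∈ XX x u := mem_XX.2 ⟨by rintro rfl; exact hx.2 hy.2, (mem_XX.1 hy.1).1⟩
    have hyx' : y ∈ XX x' u := mem_XX.2 ⟨by rintro rfl; exact hx'.2 hy.2, (mem_XX.1 hy.1).1⟩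
    have h1 := hall' y hyx
    have h2 := hall'' y hyx'
    have hx'x : x' ∈ XX x u := mem_XX.2 ⟨hxx'.symm, (mem_XX.1 hx'.1).1⟩
    have h3 := hall' x' hx'x
    apply hne''
    have e : c x' u - r'' = (c u x' - r') - (c u y - r') + (c u y - r'') := by
      rw [hsym x' u]
      abel
    rw [e]
    exact P''.add_mem (P''.sub_mem h3 h1) h2

theorem classify2 [NeZero m] (c : V → V → ZMod m) (hsym : ∀ x y, c x y = c y x) (hZ : ZSF m c)
    {s : ℕ} (hV : Fintype.card V = m + s) (hs : 23 ≤ s) (hm1 : 3 * s + 3 ≤ m)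
    (hm2 : 10000 * m ≤ 31035 * s + 10000)
    (hno : ∀ u v : V, ¬ GP c u v) {u w : V} (hW : Wd c 3 u w) :
    ∃ (P : AddSubgroup (ZMod m)) (r : ZMod m), Hv c 3 u w P r ∧
      (2 * Nat.card P = m ∨ 3 * Nat.card P = m) := by
  classical
  have hj : ∀ L : AddSubgroup (ZMod m), 3 < Nat.card L → m ≤ s * Nat.card L := by
    intro L hL
    have h1 : s * 4 ≤ s * Nat.card L := Nat.mul_le_mul_left _ hL
    omega
  obtain ⟨P, r, hH⟩ := (pair_thmP c hZ (Or.inr rfl) hV hj hW).resolve_left (hno _ _)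
  refine ⟨P, r, hH, ?_⟩
  obtain ⟨j, hmj, ho⟩ := cl_hv hH
  have hq := lemQ c hsym hZ hV (by omega) hH
  have hP4 : 3 < Nat.card P := hH.2.1
  by_cases hj4 : 4 ≤ j
  · exfalso
    generalize Nat.card P = h at *
    generalize Out c u w P r = o at *
    obtain ⟨a, rfl⟩ : ∃ a, h = a + 4 := ⟨h - 4, by omega⟩
    obtain ⟨b, rfl⟩ : ∃ b, j = b + 4 := ⟨j - 4, by omega⟩
    have e1 : m = a * b + 4 * a + 4 * b + 16 := by rw [hmj]; ring
    generalize a * b = t at e1
    omega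
  · rcases (by omega : j = 2 ∨ j = 3) with h | h
    · left
      rw [h] at hmj
      omega
    · right
      rw [h] at hmj
      omega

end G
end ZS44129
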