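import Mathlib
import Pool.Agent.Work.MP_44129c_co.G.CDefs

/-!
# MP_44129c_co/G, module Count: counting (size M)

`T = |V| - 1`.

## countV
`A = cls c u K r`, `B = (univ.erase u) \\ A` (the `v ≠ u` with `c u v - r ∉ K`), `k = |K|`.
For `x ∈ A`: `nb c u x K r = #{v ∈ B : c x v - r ∉ K}` (`v ∈ B` implies `v ≠ x`).  Double counting:
`∑_{x ∈ A} nb = ∑_{v ∈ B} #{x ∈ A : c v x - r ∉ K}` (`hsym`).  Left side: the `x` with
`nb + k > s` contribute at least `s + 1 - k` each, there are at least `|A| - ex` of them.  Right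
side: for `v ∈ B` the set is in `{x ∈ XX u v : c u x - c v x ∉ K}` (`c u x - r ∈ K`), so its size
is `≤ DD c u v K ≤ m/2` if `v ∉ F`, and always `≤ |A|`.

## glob
`DD c u v K` is the number of `x ≠ u, v` with `c u x - c v x ∉ K`.  Exchange the summations: for
fixed `x` the number of `(u, v)` with `u, v ≠ x`, `u ≠ v`, `c x u - c x v ∉ K` (`hsym`; for
`u = v` the difference is `0 ∈ K`) is `T² - N2 c K x`.

## n2_bound
`N2 c K u = ∑_{y ≠ u} |class of y|`.  If some class `A = cls c u K r` has `2|A| ≥ T`: the `y ∈ A`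
have class `A` (size `|A|`), the others have a class inside the complement (size `≤ T - |A|`):
`N2 ≤ |A|² + (T - |A|)²`.  Otherwise every class has `2|class| ≤ T - 1`: `2 N2 ≤ T(T - 1)`.

## n2_bound1  (`w ≠ u` is alone in its class)
The same among the `T - 1` vertices `≠ u, w` : `w` contributes `1`, and classes of other vertices
do not contain `w`.

## sum_contra
`∑_{v ≠ u} DD c u v K ≤ (m/2)(T - |F u|) + |F u|(T - 1)`, as `DD ≤ |XX u v| = T - 1`; sum over
`u`, `glob`, and `hb`: `|V| T² < |V| T²`, contradiction (`V` nonempty).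
-/

set_option autoImplicit false

namespace ZS44129
namespace G

open Finset

variable {V : Type} [Fintype V] [DecidableEq V] {m : ℕ}

private theorem ct_sub (c : V → V → ZMod m) (K : AddSubgroup (ZMod m)) (u : V) (r : ZMod m) :
    cls c u K r ⊆ univ.erase u := by
  intro x hx
  exact Finset.mem_erase.2 ⟨(mem_cls.1 hx).1, Finset.mem_univ x⟩

private theorem ct_two (c : V → V → ZMod m) (K : AddSubgroup (ZMod m)) (u : V) (r : ZMod m)
    (E : Finset V) (hsub : cls c u K r ⊆ E)
    (hout : ∀ y ∈ E, y ∉ cls c u K r → cls c u K (c u y) ⊆ E \ cls c u K r) :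
    ∑ y ∈ E, (cls c u K (c u y)).card ≤
      (cls c u K r).card ^ 2 + (E.card - (cls c u K r).card) ^ 2 := by
  classical
  have hin : ∀ y ∈ cls c u K r, cls c u K (c u y) = cls c u K r := by
    intro y hy
    have hy' := mem_cls.1 hy
    ext z
    rw [mem_cls, mem_cls]
    constructor
    · rintro ⟨h1, h2⟩
      refine ⟨h1, ?_⟩
      have : c u z - r = (c u z - c u y) + (c u y - r) := by abel
      rw [this]
      exact K.add_mem h2 hy'.2
    · rintro ⟨h1, h2⟩
      refine ⟨h1, ?_⟩
      have : c u z - c u y = (c u z - r) - (c u y - r) := by abel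
      rw [this]
      exact K.sub_mem h2 hy'.2
  rw [← Finset.sum_sdiff hsub, Nat.add_comm]
  apply Nat.add_le_add
  · rw [Finset.sum_congr rfl (fun y hy => congrArg Finset.card (hin y hy)), Finset.sum_const,
      smul_eq_mul, pow_two]
  · calc ∑ y ∈ E \ cls c u K r, (cls c u K (c u y)).card ≤
        ∑ y ∈ E \ cls c u K r, (E \ cls c u K r).card := by
          apply Finset.sum_le_sum
          intro y hy
          rw [Finset.mem_sdiff] at hy
          exact Finset.card_le_card (hout y hy.1 hy.2)
      _ = (E.card - (cls c u K r).card) ^ 2 := by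
          rw [Finset.sum_const, smul_eq_mul, Finset.card_sdiff_of_subset hsub, pow_two]

theorem countV (c : V → V → ZMod m) (hsym : ∀ x y, c x y = c y x) {s ex : ℕ}
    (K : AddSubgroup (ZMod m)) (u : V) (r : ZMod m) (F : Finset V)
    (hF : ∀ v, v ≠ u → v ∉ F → 2 * DD c u v K ≤ m)
    (hex : ((cls c u K r).filter (fun x => nb c u x K r + Nat.card K ≤ s)).card ≤ ex) :
    (s + 1 - Nat.card K) * ((cls c u K r).card - ex) ≤
      (m / 2) * (((univ.erase u) \ cls c u K r) \ F).card +
        (cls c u K r).card * (((univ.erase u) \ cls c u K r) ∩ F).card := by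
  classical
  set A := cls c u K r with hA
  set B := (univ.erase u) \ A with hB
  have memB : ∀ v, v ∈ B ↔ v ≠ u ∧ c u v - r ∉ K := by
    intro v
    rw [hB, Finset.mem_sdiff, hA, mem_cls, Finset.mem_erase]
    constructor
    · rintro ⟨⟨h1, _⟩, h2⟩
      exact ⟨h1, fun h => h2 ⟨h1, h⟩⟩
    · rintro ⟨h1, h2⟩
      exact ⟨⟨h1, Finset.mem_univ v⟩, fun h => h2 h.2⟩
  have hne : ∀ x ∈ A, ∀ v ∈ B, v ≠ x := by
    rintro x hx v hv rfl
    exact ((memB _).1 hv).2 (mem_cls.1 hx).2
  let R : V → V → Prop := fun x v => c x v - r ∉ K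
  have h1 : ∀ x ∈ A, nb c u x K r = (B.filter (fun v => R x v)).card := by
    intro x hx
    unfold nb
    congr 1
    ext z
    rw [Finset.mem_filter, Finset.mem_filter, mem_XX, memB]
    constructor
    · rintro ⟨⟨a1, _⟩, a3, a4⟩
      exact ⟨⟨a1, a3⟩, a4⟩
    · rintro ⟨⟨a1, a3⟩, a4⟩
      exact ⟨⟨a1, hne x hx z ((memB z).2 ⟨a1, a3⟩)⟩, a3, a4⟩
  have hdc : ∑ x ∈ A, (B.filter (fun v => R x v)).card =
      ∑ v ∈ B, (A.filter (fun x => R x v)).card :=
    Finset.sum_card_bipartiteAbove_eq_sum_card_bipartiteBelow R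
  have hleft : (s + 1 - Nat.card K) * (A.card - ex) ≤ ∑ x ∈ A, nb c u x K r := by
    set A1 := A.filter (fun x => nb c u x K r + Nat.card K ≤ s) with hA1
    set A2 := A.filter (fun x => ¬ (nb c u x K r + Nat.card K ≤ s)) with hA2
    have hc : A1.card + A2.card = A.card := Finset.card_filter_add_card_filter_not _
    calc (s + 1 - Nat.card K) * (A.card - ex) ≤ (s + 1 - Nat.card K) * A2.card :=
          Nat.mul_le_mul_left _ (by omega)
      _ = ∑ x ∈ A2, (s + 1 - Nat.card K) := by
          rw [Finset.sum_const, smul_eq_mul, Nat.mul_comm]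
      _ ≤ ∑ x ∈ A2, nb c u x K r := by
          apply Finset.sum_le_sum
          intro x hx
          have := (Finset.mem_filter.1 hx).2
          omega
      _ ≤ ∑ x ∈ A, nb c u x K r :=
          Finset.sum_le_sum_of_subset (Finset.filter_subset _ _)
  have hright : ∑ v ∈ B, (A.filter (fun x => R x v)).card ≤
      (m / 2) * (B \ F).card + A.card * (B ∩ F).card := by
    have hsp : ∑ v ∈ B, (A.filter (fun x => R x v)).card =
        ∑ v ∈ B \ F, (A.filter (fun x => R x v)).card +
          ∑ v ∈ B ∩ F, (A.filter (fun x => R x v)).card := by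
      rw [← Finset.sum_union (Finset.disjoint_sdiff_inter B F), Finset.sdiff_union_inter]
    rw [hsp]
    apply Nat.add_le_add
    · calc ∑ v ∈ B \ F, (A.filter (fun x => R x v)).card ≤ ∑ v ∈ B \ F, m / 2 := by
            apply Finset.sum_le_sum
            intro v hv
            rw [Finset.mem_sdiff] at hv
            have hvB := (memB v).1 hv.1
            have h2 := hF v hvB.1 hv.2
            have h3 : (A.filter (fun x => R x v)).card ≤ DD c u v K := by
              unfold DD Dn
              apply Finset.card_le_card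
              intro x hx
              rw [Finset.mem_filter] at hx ⊢
              have hxA := mem_cls.1 hx.1
              refine ⟨mem_XX.2 ⟨hxA.1, (hne x hx.1 v hv.1).symm⟩, fun hh => hx.2 ?_⟩
              have : c x v - r = (c u x - r) - (c u x - c v x) := by
                rw [hsym x v]; abel
              rw [this]
              exact K.sub_mem hxA.2 hh
            omega
        _ = (m / 2) * (B \ F).card := by
            rw [Finset.sum_const, smul_eq_mul, Nat.mul_comm]
    · calc ∑ v ∈ B ∩ F, (A.filter (fun x => R x v)).card ≤ ∑ v ∈ B ∩ F, A.card := by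
            apply Finset.sum_le_sum
            intro v _
            exact Finset.card_le_card (Finset.filter_subset _ _)
        _ = A.card * (B ∩ F).card := by
            rw [Finset.sum_const, smul_eq_mul, Nat.mul_comm]
  calc (s + 1 - Nat.card K) * (A.card - ex) ≤ ∑ x ∈ A, nb c u x K r := hleft
    _ = ∑ x ∈ A, (B.filter (fun v => R x v)).card := Finset.sum_congr rfl h1
    _ = ∑ v ∈ B, (A.filter (fun x => R x v)).card := hdc
    _ ≤ _ := hright

theorem glob (c : V → V → ZMod m) (hsym : ∀ x y, c x y = c y x) (K : AddSubgroup (ZMod m)) :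
    ∑ u : V, ∑ v ∈ univ.erase u, DD c u v K + ∑ u : V, N2 c K u =
      Fintype.card V * (Fintype.card V - 1) ^ 2 := by
  classical
  have hDD : ∀ u : V, ∑ v ∈ univ.erase u, DD c u v K =
      ∑ v : V, ∑ x : V, (if v ≠ u ∧ x ≠ u ∧ x ≠ v ∧ c u x - c v x ∉ K then 1 else 0) := by
    intro u
    rw [← Finset.sum_erase_add _ _ (Finset.mem_univ u)]
    have h0 : ∑ x : V, (if u ≠ u ∧ x ≠ u ∧ x ≠ u ∧ c u x - c u x ∉ K then 1 else 0) = 0 := by
      apply Finset.sum_eq_zero
      intro x _
      rw [if_neg]
      rintro ⟨h, _⟩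
      exact h rfl
    rw [h0, Nat.add_zero]
    apply Finset.sum_congr rfl
    intro v hv
    have hvu : v ≠ u := (Finset.mem_erase.1 hv).1
    unfold DD Dn
    rw [Finset.card_filter]
    have : XX u v = univ.filter (fun x => x ≠ u ∧ x ≠ v) := by
      ext x
      rw [mem_XX, Finset.mem_filter]
      simp
    rw [this, Finset.sum_filter]
    apply Finset.sum_congr rfl
    intro x _
    by_cases h1 : x ≠ u ∧ x ≠ v
    · rw [if_pos h1]
      by_cases h2 : c u x - c v x ∉ K
      · rw [if_pos h2, if_pos ⟨hvu, h1.1, h1.2, h2⟩]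
      · rw [if_neg h2, if_neg (fun h => h2 h.2.2.2)]
    · rw [if_neg h1, if_neg (fun h => h1 ⟨h.2.1, h.2.2.1⟩)]
  have hN2 : ∀ x : V, N2 c K x =
      ∑ u : V, ∑ v : V, (if u ≠ x ∧ v ≠ x ∧ c x v - c x u ∈ K then 1 else 0) := by
    intro x
    unfold N2
    rw [← Finset.sum_erase_add univ _ (Finset.mem_univ x)]
    have h0 : ∑ v : V, (if x ≠ x ∧ v ≠ x ∧ c x v - c x x ∈ K then 1 else 0) = 0 := by
      apply Finset.sum_eq_zero
      intro v _
      rw [if_neg]
      rintro ⟨h, _⟩
      exact h rfl
    rw [h0, Nat.add_zero]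
    apply Finset.sum_congr rfl
    intro u hu
    have hux : u ≠ x := (Finset.mem_erase.1 hu).1
    have : cls c x K (c x u) = univ.filter (fun v => v ≠ x ∧ c x v - c x u ∈ K) := by
      ext v
      rw [mem_cls, Finset.mem_filter]
      simp
    rw [this, Finset.card_filter]
    apply Finset.sum_congr rfl
    intro v _
    by_cases h1 : v ≠ x ∧ c x v - c x u ∈ K
    · rw [if_pos h1, if_pos ⟨hux, h1⟩]
    · rw [if_neg h1, if_neg (fun h => h1 h.2)]
  have hT2 : ∀ x : V, (Fintype.card V - 1) ^ 2 =
      ∑ u : V, ∑ v : V, (if u ≠ x ∧ v ≠ x then 1 else 0) := by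
    intro x
    have hc : (univ.erase x).card = Fintype.card V - 1 := by
      rw [Finset.card_erase_of_mem (Finset.mem_univ x), Finset.card_univ]
    rw [← Finset.sum_erase_add univ _ (Finset.mem_univ x)]
    have h0 : ∑ v : V, (if x ≠ x ∧ v ≠ x then 1 else 0) = 0 := by
      apply Finset.sum_eq_zero
      intro v _
      rw [if_neg]
      rintro ⟨h, _⟩
      exact h rfl
    rw [h0, Nat.add_zero]
    have h1 : ∀ u ∈ univ.erase x, ∑ v : V, (if u ≠ x ∧ v ≠ x then 1 else 0) =
        Fintype.card V - 1 := by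
      intro u hu
      have hux : u ≠ x := (Finset.mem_erase.1 hu).1
      rw [← hc]
      have : univ.erase x = univ.filter (fun v => v ≠ x) := by
        ext v
        simp
      rw [this, Finset.card_filter]
      apply Finset.sum_congr rfl
      intro v _
      by_cases h : v ≠ x
      · rw [if_pos h, if_pos ⟨hux, h⟩]
      · rw [if_neg h, if_neg (fun hh => h hh.2)]
    rw [Finset.sum_congr rfl h1, Finset.sum_const, smul_eq_mul, hc, pow_two]
  have hmain : ∀ x : V, (∑ u : V, ∑ v : V,
      (if v ≠ u ∧ x ≠ u ∧ x ≠ v ∧ c u x - c v x ∉ K then 1 else 0)) + N2 c K x =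
      (Fintype.card V - 1) ^ 2 := by
    intro x
    rw [hN2 x, hT2 x, ← Finset.sum_add_distrib]
    apply Finset.sum_congr rfl
    intro u _
    rw [← Finset.sum_add_distrib]
    apply Finset.sum_congr rfl
    intro v _
    by_cases h1 : u ≠ x ∧ v ≠ x
    · rw [if_pos h1]
      by_cases h2 : c x v - c x u ∈ K
      · have e1 : ¬ (v ≠ u ∧ x ≠ u ∧ x ≠ v ∧ c u x - c v x ∉ K) := by
          rintro ⟨_, _, _, h3⟩
          apply h3
          have : c u x - c v x = -(c x v - c x u) := by rw [hsym u x, hsym v x]; abel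
          rw [this]
          exact K.neg_mem h2
        have e2 : u ≠ x ∧ v ≠ x ∧ c x v - c x u ∈ K := ⟨h1.1, h1.2, h2⟩
        rw [if_neg e1, if_pos e2]
      · have e1 : v ≠ u ∧ x ≠ u ∧ x ≠ v ∧ c u x - c v x ∉ K := by
          refine ⟨?_, h1.1.symm, h1.2.symm, ?_⟩
          · rintro rfl
            apply h2
            rw [sub_self]
            exact K.zero_mem
          · intro h3
            apply h2
            have h4 : c x v - c x u = -(c u x - c v x) := by rw [hsym u x, hsym v x]; abel
            rw [h4]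
            exact K.neg_mem h3
        have e2 : ¬ (u ≠ x ∧ v ≠ x ∧ c x v - c x u ∈ K) := fun h => h2 h.2.2
        rw [if_pos e1, if_neg e2]
    · have e1 : ¬ (v ≠ u ∧ x ≠ u ∧ x ≠ v ∧ c u x - c v x ∉ K) :=
        fun h => h1 ⟨h.2.1.symm, h.2.2.1.symm⟩
      have e2 : ¬ (u ≠ x ∧ v ≠ x ∧ c x v - c x u ∈ K) := fun h => h1 ⟨h.1, h.2.1⟩
      rw [if_neg h1, if_neg e1, if_neg e2]
  have hswap : ∑ u : V, ∑ v : V, ∑ x : V,
      (if v ≠ u ∧ x ≠ u ∧ x ≠ v ∧ c u x - c v x ∉ K then 1 else 0) =
      ∑ x : V, ∑ u : V, ∑ v : V,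
        (if v ≠ u ∧ x ≠ u ∧ x ≠ v ∧ c u x - c v x ∉ K then 1 else 0) := by
    have h1 : ∀ u : V, ∑ v : V, ∑ x : V,
        (if v ≠ u ∧ x ≠ u ∧ x ≠ v ∧ c u x - c v x ∉ K then 1 else 0) =
        ∑ x : V, ∑ v : V,
          (if v ≠ u ∧ x ≠ u ∧ x ≠ v ∧ c u x - c v x ∉ K then 1 else 0) :=
      fun u => Finset.sum_comm
    rw [Finset.sum_congr rfl (fun u _ => h1 u)]
    exact Finset.sum_comm
  rw [Finset.sum_congr rfl (fun u _ => hDD u), hswap, ← Finset.sum_add_distrib,
    Finset.sum_congr rfl (fun x _ => hmain x), Finset.sum_const, smul_eq_mul, Finset.card_univ]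

theorem n2_bound (c : V → V → ZMod m) (K : AddSubgroup (ZMod m)) (u : V) :
    (∃ r : ZMod m, Fintype.card V - 1 ≤ 2 * (cls c u K r).card ∧
      N2 c K u ≤ (cls c u K r).card ^ 2 + (Fintype.card V - 1 - (cls c u K r).card) ^ 2) ∨
    2 * N2 c K u ≤ (Fintype.card V - 1) * (Fintype.card V - 2) := by
  classical
  have hE : (univ.erase u).card = Fintype.card V - 1 := by
    rw [Finset.card_erase_of_mem (Finset.mem_univ u), Finset.card_univ]
  by_cases h : ∃ r : ZMod m, Fintype.card V - 1 ≤ 2 * (cls c u K r).card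
  · left
    obtain ⟨r, hr⟩ := h
    refine ⟨r, hr, ?_⟩
    have hb := ct_two c K u r (univ.erase u) (ct_sub c K u r) (by
      intro y hy hyn z hz
      have hz' := mem_cls.1 hz
      refine Finset.mem_sdiff.2 ⟨Finset.mem_erase.2 ⟨hz'.1, Finset.mem_univ z⟩, fun hh => hyn ?_⟩
      have hz2 := mem_cls.1 hh
      rw [mem_cls]
      refine ⟨(Finset.mem_erase.1 hy).1, ?_⟩
      have : c u y - r = (c u z - r) - (c u z - c u y) := by abel
      rw [this]
      exact K.sub_mem hz2.2 hz'.2)
    rw [hE] at hb
    exact hb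
  · right
    push Not at h
    have hT : Fintype.card V - 1 - 1 = Fintype.card V - 2 := by omega
    unfold N2
    rw [Finset.mul_sum]
    calc ∑ y ∈ univ.erase u, 2 * (cls c u K (c u y)).card ≤
        ∑ y ∈ univ.erase u, (Fintype.card V - 2) := by
          apply Finset.sum_le_sum
          intro y _
          have := h (c u y)
          omega
      _ = (Fintype.card V - 1) * (Fintype.card V - 2) := by
          rw [Finset.sum_const, smul_eq_mul, hE]

theorem n2_bound1 (c : V → V → ZMod m) (K : AddSubgroup (ZMod m)) {u w : V} (hwu : w ≠ u)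
    (hw : cls c u K (c u w) = {w}) :
    (∃ r : ZMod m, w ∉ cls c u K r ∧ Fintype.card V - 2 ≤ 2 * (cls c u K r).card ∧
      N2 c K u ≤ 1 + (cls c u K r).card ^ 2 +
        (Fintype.card V - 2 - (cls c u K r).card) ^ 2) ∨
    2 * N2 c K u ≤ 2 + (Fintype.card V - 2) * (Fintype.card V - 3) := by
  classical
  have hwE : w ∈ univ.erase u := Finset.mem_erase.2 ⟨hwu, Finset.mem_univ w⟩
  have hE : ((univ.erase u).erase w).card = Fintype.card V - 2 := by
    rw [Finset.card_erase_of_mem hwE, Finset.card_erase_of_mem (Finset.mem_univ u),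
      Finset.card_univ]
    omega
  have hN : N2 c K u = ∑ y ∈ (univ.erase u).erase w, (cls c u K (c u y)).card + 1 := by
    unfold N2
    rw [← Finset.sum_erase_add _ _ hwE, hw, Finset.card_singleton]
  have hwn : ∀ y ∈ (univ.erase u).erase w, w ∉ cls c u K (c u y) := by
    intro y hy hh
    have h1 := (mem_cls.1 hh).2
    rw [Finset.mem_erase, Finset.mem_erase] at hy
    have h2 : y ∈ cls c u K (c u w) := by
      rw [mem_cls]
      refine ⟨hy.2.1, ?_⟩
      have : c u y - c u w = -(c u w - c u y) := by abel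
      rw [this]
      exact K.neg_mem h1
    rw [hw, Finset.mem_singleton] at h2
    exact hy.1 h2
  by_cases h : ∃ r : ZMod m, w ∉ cls c u K r ∧ Fintype.card V - 2 ≤ 2 * (cls c u K r).card
  · left
    obtain ⟨r, hr0, hr⟩ := h
    refine ⟨r, hr0, hr, ?_⟩
    have hb := ct_two c K u r ((univ.erase u).erase w) (by
      intro z hz
      refine Finset.mem_erase.2 ⟨?_, ct_sub c K u r hz⟩
      rintro rfl
      exact hr0 hz) (by
      intro y hy hyn z hz
      have hz' := mem_cls.1 hz
      refine Finset.mem_sdiff.2 ⟨Finset.mem_erase.2 ⟨?_,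
        Finset.mem_erase.2 ⟨hz'.1, Finset.mem_univ z⟩⟩, fun hh => hyn ?_⟩
      · rintro rfl
        exact hwn y hy hz
      have hz2 := mem_cls.1 hh
      rw [mem_cls]
      refine ⟨(Finset.mem_erase.1 (Finset.mem_erase.1 hy).2).1, ?_⟩
      have : c u y - r = (c u z - r) - (c u z - c u y) := by abel
      rw [this]
      exact K.sub_mem hz2.2 hz'.2)
    rw [hE] at hb
    rw [hN]
    omega
  · right
    push Not at h
    have hb : 2 * ∑ y ∈ (univ.erase u).erase w, (cls c u K (c u y)).card ≤
        (Fintype.card V - 2) * (Fintype.card V - 3) := by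
      rw [Finset.mul_sum]
      calc ∑ y ∈ (univ.erase u).erase w, 2 * (cls c u K (c u y)).card ≤
          ∑ y ∈ (univ.erase u).erase w, (Fintype.card V - 3) := by
            apply Finset.sum_le_sum
            intro y hy
            have := h (c u y) (hwn y hy)
            omega
        _ = (Fintype.card V - 2) * (Fintype.card V - 3) := by
            rw [Finset.sum_const, smul_eq_mul, hE]
    rw [hN]
    omega

theorem sum_contra (c : V → V → ZMod m) (hsym : ∀ x y, c x y = c y x)
    (K : AddSubgroup (ZMod m)) (hV : 2 ≤ Fintype.card V) (F : V → Finset V)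
    (hFu : ∀ u, u ∉ F u) (hF : ∀ u v, v ≠ u → v ∉ F u → 2 * DD c u v K ≤ m)
    (hb : ∀ u, (m / 2) * (Fintype.card V - 1 - (F u).card) +
      (F u).card * (Fintype.card V - 2) + N2 c K u < (Fintype.card V - 1) ^ 2) : False := by
  classical
  have hg := glob c hsym K
  have hE : ∀ u : V, (univ.erase u).card = Fintype.card V - 1 := by
    intro u
    rw [Finset.card_erase_of_mem (Finset.mem_univ u), Finset.card_univ]
  have hu : ∀ u : V, ∑ v ∈ univ.erase u, DD c u v K ≤
      (m / 2) * (Fintype.card V - 1 - (F u).card) + (F u).card * (Fintype.card V - 2) := by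
    intro u
    have hsub : F u ⊆ univ.erase u := by
      intro v hv
      refine Finset.mem_erase.2 ⟨?_, Finset.mem_univ v⟩
      rintro rfl
      exact hFu _ hv
    rw [← Finset.sum_sdiff hsub]
    apply Nat.add_le_add
    · calc ∑ v ∈ (univ.erase u) \ F u, DD c u v K ≤ ∑ v ∈ (univ.erase u) \ F u, m / 2 := by
            apply Finset.sum_le_sum
            intro v hv
            rw [Finset.mem_sdiff, Finset.mem_erase] at hv
            have := hF u v hv.1.1 hv.2
            omega
        _ = (m / 2) * (Fintype.card V - 1 - (F u).card) := by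
            rw [Finset.sum_const, smul_eq_mul, Finset.card_sdiff_of_subset hsub, hE u,
              Nat.mul_comm]
    · calc ∑ v ∈ F u, DD c u v K ≤ ∑ v ∈ F u, (Fintype.card V - 2) := by
            apply Finset.sum_le_sum
            intro v hv
            have hvu : u ≠ v := (Finset.mem_erase.1 (hsub hv)).1.symm
            have h1 : DD c u v K ≤ (XX u v).card := by
              unfold DD Dn
              exact Finset.card_le_card (Finset.filter_subset _ _)
            have h2 := card_XX hvu
            omega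
        _ = (F u).card * (Fintype.card V - 2) := by
            rw [Finset.sum_const, smul_eq_mul]
  have hne : (univ : Finset V).Nonempty := by
    rw [← Finset.card_pos, Finset.card_univ]
    omega
  have hlt : ∑ u : V, (∑ v ∈ univ.erase u, DD c u v K + N2 c K u) <
      ∑ u : V, (Fintype.card V - 1) ^ 2 := by
    apply Finset.sum_lt_sum_of_nonempty hne
    intro u _
    have h1 := hu u
    have h2 := hb u
    omega
  rw [Finset.sum_add_distrib, hg, Finset.sum_const, smul_eq_mul, Finset.card_univ] at hlt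
  exact lt_irrefl _ hlt

end G
end ZS44129
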