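import Mathlib
import Pool.Agent.Work.MP_44129c_co.G.PDefs

/-!
# MP_44129c_co/G, module Partner: heavy partners of index 2 and 3 (size S-M)

## hv2  (`2|P| = m`): `(Out + 2)|P| ≤ m` gives `Out = 0`, so all positions are pure.
## partner2
`P = P'` (`eq_of_card`).  If `w ≠ w'`: choose `z ∉ {u, w, w'}` (`5 ≤ |V|`): `c u z - r ∈ P`,
`c u z - r' ∈ P`, so `r - r' ∈ P`.  `w' ∈ XX u w` gives `c u w' - r ∈ P`, hence
`c u w' - r' ∈ P`; but `c u w' - r' ∉ P`.
## partner3  (`3|P| = m`)
`Out ≤ 1`.  Let `w ∈ W`, with `P, r`.  `E := {z ≠ u : c u z - r ∉ P}` has at most `2` elements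
(`w` and at most one position).  Any other `w' ∈ W` with `P', r'`: `P' = P`, and
`{z ≠ u : c u z - r' ∉ P}` also has at most 2 elements; `|V| - 1 ≥ 5`, so some `z ≠ u` is outside
both sets, `r - r' ∈ P`, and `w' ∈ E`.  So `W ⊆ E`.
-/

set_option autoImplicit false

namespace ZS44129
namespace G

open Finset

variable {V : Type} [Fintype V] [DecidableEq V] {m : ℕ}

private theorem pcard_pos [NeZero m] (P : AddSubgroup (ZMod m)) : 0 < Nat.card P :=
  Nat.card_pos

open Classical in
private theorem not_pure_card_le [NeZero m] (c : V → V → ZMod m) {κ : ℕ} {u w : V}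
    {P : AddSubgroup (ZMod m)} {r : ZMod m} (h : Hv c κ u w P r) {j : ℕ}
    (hj : (j + 2) * Nat.card P = m) : Out c u w P r ≤ j := by
  have h1 : (Out c u w P r + 2) * Nat.card P ≤ (j + 2) * Nat.card P := h.2.2.2.trans hj.ge
  have h2 := Nat.le_of_mul_le_mul_right h1 (pcard_pos P)
  omega

theorem hv2 [NeZero m] (c : V → V → ZMod m) {κ : ℕ} {u w : V} {P : AddSubgroup (ZMod m)}
    {r : ZMod m} (h : Hv c κ u w P r) (h2 : 2 * Nat.card P = m) :
    ∀ z ∈ XX u w, c u z - r ∈ P ∧ c w z - r ∈ P := by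
  classical
  have h0 : Out c u w P r ≤ 0 := not_pure_card_le c h (j := 0) (by simpa using h2)
  have h1 : Out c u w P r = 0 := Nat.le_zero.1 h0
  intro z hz
  unfold Out np at h1
  rw [Finset.card_eq_zero, Finset.filter_eq_empty_iff] at h1
  have h3 := h1 hz
  rw [not_not] at h3
  exact ⟨h3 _ (by simp), h3 _ (by simp)⟩

theorem partner2 [NeZero m] (c : V → V → ZMod m) (hV : 5 ≤ Fintype.card V) {κ κ' : ℕ}
    {u w w' : V} {P P' : AddSubgroup (ZMod m)} {r r' : ZMod m} (h : Hv c κ u w P r)
    (h2 : 2 * Nat.card P = m) (h' : Hv c κ' u w' P' r') (h2' : 2 * Nat.card P' = m) :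
    w = w' := by
  by_contra hne
  have hP : P = P' := eq_of_card P P' (by omega)
  subst hP
  have hlt : ({u, w, w'} : Finset V).card < (Finset.univ : Finset V).card := by
    rw [Finset.card_univ]
    have := Finset.card_le_three (a := u) (b := w) (c := w')
    omega
  obtain ⟨z, -, hz⟩ := Finset.exists_mem_notMem_of_card_lt_card hlt
  simp only [Finset.mem_insert, Finset.mem_singleton, not_or] at hz
  have e1 := (hv2 c h h2 z (mem_XX.2 ⟨hz.1, hz.2.1⟩)).1
  have e2 := (hv2 c h' h2' z (mem_XX.2 ⟨hz.1, hz.2.2⟩)).1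
  have e3 : r - r' ∈ P := by
    have := P.sub_mem e2 e1
    have h4 : c u z - r' - (c u z - r) = r - r' := by abel
    rwa [h4] at this
  have e4 := (hv2 c h h2 w' (mem_XX.2 ⟨h'.1.symm, fun hh => hne hh.symm⟩)).1
  apply h'.2.2.1
  have := P.add_mem e4 e3
  have h5 : c u w' - r + (r - r') = c u w' - r' := by abel
  rwa [h5] at this

open Classical in
private theorem badset_card [NeZero m] (c : V → V → ZMod m) {κ : ℕ} {u w : V}
    {P : AddSubgroup (ZMod m)} {r : ZMod m} (h : Hv c κ u w P r) (h3 : 3 * Nat.card P = m) :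
    ((Finset.univ : Finset V).filter (fun z => z ≠ u ∧ c u z - r ∉ P)).card ≤ 2 := by
  have h0 : Out c u w P r ≤ 1 := not_pure_card_le c h (j := 1) (by simpa using h3)
  unfold Out np at h0
  have hsub : (Finset.univ : Finset V).filter (fun z => z ≠ u ∧ c u z - r ∉ P) ⊆
      insert w ((XX u w).filter
        (fun x => ¬ Pur (fun x => ({c u x, c w x} : Finset (ZMod m))) r P x)) := by
    intro z hz
    rw [Finset.mem_filter] at hz
    rw [Finset.mem_insert]
    by_cases hzw : z = w
    · exact Or.inl hzw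
    · right
      rw [Finset.mem_filter]
      refine ⟨mem_XX.2 ⟨hz.2.1, hzw⟩, fun hp => hz.2.2 (hp _ (by simp))⟩
  have h4 := Finset.card_le_card hsub
  have h5 := Finset.card_insert_le w ((XX u w).filter
        (fun x => ¬ Pur (fun x => ({c u x, c w x} : Finset (ZMod m))) r P x))
  have h6 : ((XX u w).filter
        (fun x => ¬ Pur (fun x => ({c u x, c w x} : Finset (ZMod m))) r P x)).card ≤ 1 := by
    convert h0
  omega

theorem partner3 [NeZero m] (c : V → V → ZMod m) (hV : 6 ≤ Fintype.card V) {κ : ℕ} (u : V)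
    (W : Finset V)
    (hW : ∀ w ∈ W, ∃ (P : AddSubgroup (ZMod m)) (r : ZMod m), Hv c κ u w P r ∧
      3 * Nat.card P = m) : W.card ≤ 2 := by
  classical
  rcases W.eq_empty_or_nonempty with hW0 | ⟨w, hw⟩
  · simp [hW0]
  obtain ⟨P, r, h, h3⟩ := hW w hw
  refine le_trans (Finset.card_le_card (fun w' hw' => ?_)) (badset_card c h h3)
  obtain ⟨P', r', h', h3'⟩ := hW w' hw'
  have hP : P = P' := eq_of_card P P' (by omega)
  subst hP
  rw [Finset.mem_filter]
  refine ⟨Finset.mem_univ _, h'.1.symm, fun hmem => ?_⟩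
  have b1 := badset_card c h h3
  have b2 := badset_card c h' h3'
  set E := (Finset.univ : Finset V).filter (fun z => z ≠ u ∧ c u z - r ∉ P) with hE
  set E' := (Finset.univ : Finset V).filter (fun z => z ≠ u ∧ c u z - r' ∉ P) with hE'
  have hlt : (insert u (E ∪ E')).card < (Finset.univ : Finset V).card := by
    rw [Finset.card_univ]
    have i1 := Finset.card_insert_le u (E ∪ E')
    have i2 := Finset.card_union_le E E'
    omega
  obtain ⟨z, -, hz⟩ := Finset.exists_mem_notMem_of_card_lt_card hlt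
  rw [Finset.mem_insert, Finset.mem_union, not_or, not_or] at hz
  have e1 : c u z - r ∈ P := by
    by_contra hc
    exact hz.2.1 (Finset.mem_filter.2 ⟨Finset.mem_univ _, hz.1, hc⟩)
  have e2 : c u z - r' ∈ P := by
    by_contra hc
    exact hz.2.2 (Finset.mem_filter.2 ⟨Finset.mem_univ _, hz.1, hc⟩)
  have e3 : r - r' ∈ P := by
    have := P.sub_mem e2 e1
    have h4 : c u z - r' - (c u z - r) = r - r' := by abel
    rwa [h4] at this
  apply h'.2.2.1
  have := P.add_mem hmem e3
  have h5 : c u w' - r + (r - r') = c u w' - r' := by abel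
  rwa [h5] at this

end G
end ZS44129
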