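import Mathlib
import Pool.Agent.Work.MP_44129c_co.G.Classify
import Pool.Agent.Work.MP_44129c_co.G.Partner
import Pool.Agent.Work.MP_44129c_co.G.C1K
import Pool.Agent.Work.MP_44129c_co.G.Count
import Pool.Agent.Work.MP_44129c_co.G.Arith

/-!
# MP_44129c_co/G, module FinalA: a good pair exists, `t ≤ 1` (size M)

`T = |V| - 1 = m + s - 1`.  Suppose there is no good pair.  `hj` for `classify1`: `|L| > 2`
divides `m`, `m ≤ 3s + 2`: if `|L| = 3` then `3 ∣ m`, `m ≤ 3s`; if `|L| ≥ 4` and `s ≥ 2`,
`m ≤ 3s + 2 ≤ 4s`; `s = 1`: `m = 3` (`m ≤ 3s`).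

ODD `m`: `K = ⊥`, `F u = ∅`.  `2 * DD c u v ⊥ ≤ m` for all `u ≠ v`: otherwise `Wd c 2 u v` (no
subgroup of order 2), and `classify1` gives `2|P| = m`.  There is no exceptional `x`
(`c1_exc`: `P1 < ⊥` is impossible), so `countV` with `ex = 0`, `F = ∅` gives, for a class of size
`n`, `s n ≤ (m/2)(T - n)`.  `n2_bound` with `ar_odd`, resp. `ar_small`, gives `hb` of `sum_contra`.

EVEN `m` (`m ≥ 4`; `s ≥ 2`): `K` of order `2` (`exists_card`).  `F u := {v ≠ u : m < 2 DD c u v K}`.
For `v ∈ F u`: `Wd c 2 u v` (`DD c u v ⊥ ≥ DD c u v K` by `dd_anti`; a subgroup of order 2 is `K`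
by `eq_of_card`), so by `classify1` `Hv c 2 u v P r`, `2|P| = m`; `partner2`: `|F u| ≤ 1`.
* `F u = ∅`: `n2_bound`; a class with `T ≤ 2n` has `n ≥ 3`, `exc2` gives `ex = 1`, `countV`:
  `(s-1)(n-1) ≤ (m/2)(T - n)`; `ar_even`; the other case `ar_small`.
* `F u = {w}` (so `m ≥ 6`, `|P| ≥ 3`; `m ≠ 6`), `hv2`: `c u z - r ∈ P` for all `z ≠ u, w`, and
  `c u w - r ∉ P`.
  - `4 ∣ m`: `K ≤ P` (`le_of_dvd`), so `cls c u K (c u w) = {w}` (for another `z` in it,
    `c u z - c u w ∈ K ≤ P`).  `n2_bound1`: a class `∌ w` with `T - 1 ≤ 2n`, `exc2`, `countV` with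
    `F = {w}`, `w ∈ B`: `(s-1)(n-1) ≤ (m/2)(T - n - 1) + n`; `ar_b1`; other case `ar_b1x`.
  - `m % 4 = 2`: `n2_bound`; a class `A = cls c u K r1` with `T ≤ 2n`.  If `w ∉ A`: all `z ∈ A`
    have the same `c u z`: the difference of two of them is in `P ⊓ K`, and `|P| = m/2` is odd,
    `|K| = 2`.  So no `x ∈ A` is exceptional: by `c1_exc` `P1 = ⊥` and all `z ∈ A.erase x` have
    `c u z = r1' ≠ c u x` (`(# + 2) * 1 ≤ 2`), impossible (`n ≥ 2`).  `countV` with `ex = 0`:
    `(s-1) n ≤ (m/2)(T - n - 1) + n`.  If `w ∈ A`: `exc2`, `countV`, `B ∩ F = ∅`: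
    `(s-1)(n-1) ≤ (m/2)(T - n)`.  `ar_b2`; other case `ar_small` (second part).
-/

set_option autoImplicit false

namespace ZS44129
namespace G

open Finset

variable {V : Type} [Fintype V] [DecidableEq V] {m : ℕ}

private theorem fa_dd_anti (c : V → V → ZMod m) (u v : V) {L L' : AddSubgroup (ZMod m)}
    (h : L ≤ L') : DD c u v L' ≤ DD c u v L := by
  classical
  unfold DD Dn
  apply Finset.card_le_card
  intro x hx
  rw [Finset.mem_filter] at hx ⊢
  exact ⟨hx.1, fun hh => hx.2 (h hh)⟩

private theorem fa_card_erase (u : V) : ((univ : Finset V).erase u).card = Fintype.card V - 1 := by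
  rw [Finset.card_erase_of_mem (Finset.mem_univ u), Finset.card_univ]

private theorem fa_sub (c : V → V → ZMod m) (u : V) (K : AddSubgroup (ZMod m)) (r : ZMod m) :
    cls c u K r ⊆ univ.erase u := by
  intro x hx
  exact Finset.mem_erase.2 ⟨(mem_cls.1 hx).1, Finset.mem_univ x⟩

private theorem fa_B (c : V → V → ZMod m) (u : V) (K : AddSubgroup (ZMod m)) (r : ZMod m) :
    ((univ.erase u) \ cls c u K r).card = Fintype.card V - 1 - (cls c u K r).card := by
  rw [Finset.card_sdiff_of_subset (fa_sub c u K r), fa_card_erase]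

private theorem fa_cls_le (c : V → V → ZMod m) (u : V) (K : AddSubgroup (ZMod m)) (r : ZMod m) :
    (cls c u K r).card ≤ Fintype.card V - 1 := by
  rw [← fa_card_erase u]
  exact Finset.card_le_card (fa_sub c u K r)

/-- `countV` without exceptional partners outside the class. -/
private theorem fa_count0 (c : V → V → ZMod m) (hsym : ∀ x y, c x y = c y x) {s ex : ℕ}
    (K : AddSubgroup (ZMod m)) (u : V) (r : ZMod m) (F : Finset V)
    (hF : ∀ v, v ≠ u → v ∉ F → 2 * DD c u v K ≤ m)
    (hex : ((cls c u K r).filter (fun x => nb c u x K r + Nat.card K ≤ s)).card ≤ ex)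
    (hd : ∀ v ∈ F, v ∈ cls c u K r) :
    (s + 1 - Nat.card K) * ((cls c u K r).card - ex) ≤
      (m / 2) * (Fintype.card V - 1 - (cls c u K r).card) := by
  have h := countV c hsym K u r F hF hex
  have h1 : ((univ.erase u) \ cls c u K r) ∩ F = ∅ := by
    ext v
    simp only [Finset.mem_inter, Finset.mem_sdiff, Finset.notMem_empty, iff_false]
    rintro ⟨⟨_, h2⟩, h3⟩
    exact h2 (hd v h3)
  have h2 := Finset.card_sdiff_add_card_inter ((univ.erase u) \ cls c u K r) F
  rw [h1, Finset.card_empty, Nat.add_zero] at h2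
  rw [h1, h2, fa_B] at h
  simpa using h

/-- `countV` with one exceptional partner outside the class. -/
private theorem fa_count1 (c : V → V → ZMod m) (hsym : ∀ x y, c x y = c y x) {s ex : ℕ}
    (K : AddSubgroup (ZMod m)) (u w : V) (r : ZMod m)
    (hF : ∀ v, v ≠ u → v ∉ ({w} : Finset V) → 2 * DD c u v K ≤ m)
    (hex : ((cls c u K r).filter (fun x => nb c u x K r + Nat.card K ≤ s)).card ≤ ex)
    (hwu : w ≠ u) (hd : w ∉ cls c u K r) :
    (s + 1 - Nat.card K) * ((cls c u K r).card - ex) ≤
      (m / 2) * (Fintype.card V - 1 - (cls c u K r).card - 1) + (cls c u K r).card := by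
  have h := countV c hsym K u r {w} hF hex
  have h1 : ((univ.erase u) \ cls c u K r) ∩ {w} = {w} := by
    apply Finset.inter_eq_right.2
    intro v hv
    rw [Finset.mem_singleton] at hv
    subst hv
    exact Finset.mem_sdiff.2 ⟨Finset.mem_erase.2 ⟨hwu, Finset.mem_univ _⟩, hd⟩
  have h2 := Finset.card_sdiff_add_card_inter ((univ.erase u) \ cls c u K r) {w}
  rw [h1, Finset.card_singleton, fa_B] at h2
  have h3 : (((univ.erase u) \ cls c u K r) \ {w}).card =
      Fintype.card V - 1 - (cls c u K r).card - 1 := by omega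
  rw [h1, h3, Finset.card_singleton, Nat.mul_one] at h
  exact h

private theorem fa_hj [NeZero m] {s : ℕ} (hs : 1 ≤ s) (hm2 : m ≤ 3 * s + 2)
    (h5 : m ≤ 3 * s ∨ 5 ≤ s) (L : AddSubgroup (ZMod m)) (hL : 2 < Nat.card L) :
    m ≤ s * Nat.card L := by
  have hdm : Nat.card L ∣ m := by
    have := AddSubgroup.card_addSubgroup_dvd_card L
    rwa [Nat.card_zmod] at this
  by_cases h3 : Nat.card L = 3
  · rw [h3] at hdm ⊢
    omega
  · have h4 : 4 ≤ Nat.card L := by omega
    calc m ≤ s * 4 := by omega
      _ ≤ s * Nat.card L := Nat.mul_le_mul_left s h4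

private theorem fa_odd [NeZero m] (c : V → V → ZMod m) (hsym : ∀ x y, c x y = c y x)
    (hZ : ZSF m c) {s : ℕ} (hs : 1 ≤ s) (hV : Fintype.card V = m + s) (hm1 : 3 * s ≤ m + 2)
    (hm2 : m ≤ 3 * s + 2) (h5 : m ≤ 3 * s ∨ 5 ≤ s) (hm3 : 3 ≤ m)
    (h20 : m ≠ 20 ∨ s ≠ 6) (hodd : m % 2 = 1) (hno : ∀ u v : V, ¬ GP c u v) : False := by
  classical
  have hb1 : Nat.card (⊥ : AddSubgroup (ZMod m)) = 1 := AddSubgroup.card_bot
  have hF : ∀ u v, v ≠ u → v ∉ (∅ : Finset V) → 2 * DD c u v ⊥ ≤ m := by
    intro u v hvu _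
    by_contra hlt
    have hW : Wd c 2 u v := by
      refine ⟨hvu.symm, by omega, ?_⟩
      intro L hL hL2
      exfalso
      have hpos : 0 < Nat.card L := Nat.card_pos
      have hne1 : Nat.card L ≠ 1 := fun h1 => hL (AddSubgroup.card_eq_one.1 h1)
      have hdm : Nat.card L ∣ m := by
        have := AddSubgroup.card_addSubgroup_dvd_card L
        rwa [Nat.card_zmod] at this
      have h2 : Nat.card L = 2 := by omega
      rw [h2] at hdm
      omega
    obtain ⟨P, r, _, hP⟩ := classify1 c hsym hZ hV hm1 hm2 h20 (fa_hj hs hm2 h5) hno hW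
    omega
  refine sum_contra c hsym ⊥ (by omega) (fun _ => ∅) (fun u => Finset.notMem_empty u) hF ?_
  intro u
  have hT : Fintype.card V - 1 = m + s - 1 := by omega
  have hT2 : Fintype.card V - 2 = m + s - 2 := by omega
  rw [Finset.card_empty, Nat.zero_mul, Nat.sub_zero, Nat.add_zero, hT]
  rcases n2_bound c ⊥ u with ⟨r, h1, h2⟩ | h2
  · rw [hT] at h1 h2
    have hex : ((cls c u ⊥ r).filter
        (fun x => nb c u x ⊥ r + Nat.card (⊥ : AddSubgroup (ZMod m)) ≤ s)).card ≤ 0 := by
      rw [Nat.le_zero, Finset.card_eq_zero, Finset.filter_eq_empty_iff]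
      intro x hx hle
      obtain ⟨P1, r1, hlt, _⟩ := c1_exc c hZ hV ⊥ (by omega) u r hx hle
      exact not_lt_bot hlt
    have hc := fa_count0 c hsym ⊥ u r ∅ (hF u) hex (by simp)
    rw [hb1, hT, Nat.sub_zero] at hc
    have hnT := fa_cls_le c u ⊥ r
    rw [hT] at hnT
    have e : s + 1 - 1 = s := by omega
    rw [e] at hc
    have := ar_odd hs hm1 hm2 hodd hm3 h1 hnT hc
    omega
  · rw [hT, hT2] at h2
    exact (ar_small hs hm1 hm2 hm3 h2).1

private theorem fa_even [NeZero m] (c : V → V → ZMod m) (hsym : ∀ x y, c x y = c y x)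
    (hZ : ZSF m c) {s : ℕ} (hs : 1 ≤ s) (hV : Fintype.card V = m + s) (hm1 : 3 * s ≤ m + 2)
    (hm2 : m ≤ 3 * s + 2) (h5 : m ≤ 3 * s ∨ 5 ≤ s) (hm3 : 3 ≤ m) (hm6 : m ≠ 6)
    (h20 : m ≠ 20 ∨ s ≠ 6) (heven : m % 2 = 0) (hno : ∀ u v : V, ¬ GP c u v) : False := by
  classical
  have hs2 : 2 ≤ s := by omega
  have hm4 : 4 ≤ m := by omega
  obtain ⟨K, hK⟩ := exists_card (m := m) 2 (Nat.dvd_of_mod_eq_zero heven)
  let F : V → Finset V := fun u => (univ.erase u).filter (fun v => m < 2 * DD c u v K)
  have hFu : ∀ u, u ∉ F u := by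
    intro u h
    have := (Finset.mem_filter.1 h).1
    exact (Finset.mem_erase.1 this).1 rfl
  have hF : ∀ u v, v ≠ u → v ∉ F u → 2 * DD c u v K ≤ m := by
    intro u v hvu hv
    by_contra h
    exact hv (Finset.mem_filter.2 ⟨Finset.mem_erase.2 ⟨hvu, Finset.mem_univ v⟩, by omega⟩)
  have hHv : ∀ u v, v ∈ F u → ∃ (P : AddSubgroup (ZMod m)) (r : ZMod m), Hv c 2 u v P r ∧
      2 * Nat.card P = m := by
    intro u v hv
    have hv1 := Finset.mem_filter.1 hv
    have huv : u ≠ v := (Finset.mem_erase.1 hv1.1).1.symm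
    have hW : Wd c 2 u v := by
      refine ⟨huv, lt_of_lt_of_le hv1.2 (Nat.mul_le_mul_left 2 (fa_dd_anti c u v bot_le)), ?_⟩
      intro L hL hL2
      have hpos : 0 < Nat.card L := Nat.card_pos
      have hne1 : Nat.card L ≠ 1 := fun h1 => hL (AddSubgroup.card_eq_one.1 h1)
      have h2 : Nat.card L = 2 := by omega
      have hLK : L = K := eq_of_card L K (by rw [h2, hK])
      rw [hLK, hK]
      have := hv1.2
      omega
    exact classify1 c hsym hZ hV hm1 hm2 h20 (fa_hj hs hm2 h5) hno hW
  have hF1 : ∀ u, (F u).card ≤ 1 := by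
    intro u
    rw [Finset.card_le_one]
    intro a ha b hb
    obtain ⟨P, r, h1, h2⟩ := hHv u a ha
    obtain ⟨P', r', h1', h2'⟩ := hHv u b hb
    exact partner2 c (by omega) h1 h2 h1' h2'
  refine sum_contra c hsym K (by omega) F hFu hF ?_
  intro u
  have hT : Fintype.card V - 1 = m + s - 1 := by omega
  have hT2 : Fintype.card V - 2 = m + s - 2 := by omega
  have hT3 : Fintype.card V - 3 = m + s - 3 := by omega
  have hK1 : 2 * Nat.card K ≤ m + 1 := by omega
  have hsK : s + 1 - Nat.card K = s - 1 := by omega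
  have hexg : ∀ r : ZMod m, 3 ≤ (cls c u K r).card →
      ((cls c u K r).filter (fun x => nb c u x K r + Nat.card K ≤ s)).card ≤ 1 := by
    intro r h3
    have := exc2 c hZ hV K hK1 (by omega) u r h3
    omega
  rcases Nat.eq_zero_or_pos (F u).card with h0 | hpos
  · -- no exceptional partner
    have hFe : F u = ∅ := Finset.card_eq_zero.1 h0
    rw [h0, Nat.zero_mul, Nat.sub_zero, Nat.add_zero, hT]
    rcases n2_bound c K u with ⟨r, h1, h2⟩ | h2
    · rw [hT] at h1 h2
      have hc := fa_count0 c hsym K u r (F u) (fun v hv hv' => hF u v hv hv')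
        (hexg r (by omega)) (by rw [hFe]; simp)
      rw [hsK, hT] at hc
      have hnT := fa_cls_le c u K r
      rw [hT] at hnT
      have := ar_even hs hm1 hm2 h5 heven hm4 hm6 h1 hnT hc
      omega
    · rw [hT, hT2] at h2
      exact (ar_small hs hm1 hm2 hm3 h2).1
  · have h1 : (F u).card = 1 := by have := hF1 u; omega
    obtain ⟨w, hw⟩ := Finset.card_eq_one.1 h1
    have hwF : w ∈ F u := by rw [hw]; exact Finset.mem_singleton_self w
    have hwu : w ≠ u := (Finset.mem_erase.1 (Finset.mem_filter.1 hwF).1).1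
    have hFw : ∀ v, v ≠ u → v ∉ ({w} : Finset V) → 2 * DD c u v K ≤ m := by
      intro v hv hv'
      exact hF u v hv (by rw [hw]; exact hv')
    obtain ⟨P, r0, hHP, hP2⟩ := hHv u w hwF
    have hPz := hv2 c hHP hP2
    have hPw : c u w - r0 ∉ P := hHP.2.2.1
    have hP3 : 2 < Nat.card P := hHP.2.1
    have hm8 : 6 < m := by omega
    have e1 : m + s - 1 - 1 = m + s - 2 := by omega
    rw [h1, Nat.one_mul, hT, hT2, e1]
    by_cases h4 : m % 4 = 0
    · have hKP : K ≤ P := le_of_dvd K P (by rw [hK]; omega)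
      have hclw : cls c u K (c u w) = {w} := by
        ext x
        rw [mem_cls, Finset.mem_singleton]
        constructor
        · rintro ⟨hxu, hx⟩
          by_contra hxw
          have h2 := (hPz x (mem_XX.2 ⟨hxu, hxw⟩)).1
          have h3 := hKP hx
          apply hPw
          have h6 := P.sub_mem h2 h3
          have e : c u x - r0 - (c u x - c u w) = c u w - r0 := by abel
          rwa [e] at h6
        · rintro rfl
          refine ⟨hwu, ?_⟩
          rw [sub_self]
          exact K.zero_mem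
      rcases n2_bound1 c K hwu hclw with ⟨r, hwr, h2, h3⟩ | h2
      · rw [hT2] at h2 h3
        have hc := fa_count1 c hsym K u w r hFw (hexg r (by omega)) hwu hwr
        rw [hsK, hT] at hc
        have hnT : (cls c u K r).card ≤ m + s - 2 := by
          have hsub : cls c u K r ⊆ XX u w := by
            intro x hx
            refine mem_XX.2 ⟨(mem_cls.1 hx).1, ?_⟩
            rintro rfl
            exact hwr hx
          have := Finset.card_le_card hsub
          have h6 := card_XX hwu.symm
          omega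
        have := ar_b1 hs hm1 hm2 h5 h4 hm8.le h2 hnT hc
        omega
      · rw [hT2, hT3] at h2
        exact ar_b1x hs hm1 hm2 hm8.le h2
    · have h42 : m % 4 = 2 := by omega
      rcases n2_bound c K u with ⟨r, h2, h3⟩ | h2
      · rw [hT] at h2 h3
        have hnT := fa_cls_le c u K r
        rw [hT] at hnT
        have halt : (s - 1) * (cls c u K r).card ≤
              (m / 2) * (m + s - 1 - (cls c u K r).card - 1) + (cls c u K r).card ∨
            (s - 1) * ((cls c u K r).card - 1) ≤
              (m / 2) * (m + s - 1 - (cls c u K r).card) := by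
          by_cases hwA : w ∈ cls c u K r
          · right
            have hc := fa_count0 c hsym K u r {w} hFw (hexg r (by omega))
              (by intro v hv; rw [Finset.mem_singleton] at hv; subst hv; exact hwA)
            rw [hsK, hT] at hc
            exact hc
          · left
            have hsame : ∀ x ∈ cls c u K r, ∀ y ∈ cls c u K r, c u x = c u y := by
              intro x hx y hy
              have hx1 := mem_cls.1 hx
              have hy1 := mem_cls.1 hy
              have hxw : x ≠ w := by rintro rfl; exact hwA hx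
              have hyw : y ≠ w := by rintro rfl; exact hwA hy
              have hx2 := (hPz x (mem_XX.2 ⟨hx1.1, hxw⟩)).1
              have hy2 := (hPz y (mem_XX.2 ⟨hy1.1, hyw⟩)).1
              have hKd : c u x - c u y ∈ K := by
                have := K.sub_mem hx1.2 hy1.2
                have e : c u x - r - (c u y - r) = c u x - c u y := by abel
                rwa [e] at this
              have hPd : c u x - c u y ∈ P := by
                have := P.sub_mem hx2 hy2
                have e : c u x - r0 - (c u y - r0) = c u x - c u y := by abel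
                rwa [e] at this
              rw [mem_iff] at hKd hPd
              rw [hK] at hKd
              obtain ⟨k, hk⟩ : ∃ k, Nat.card P = 2 * k + 1 := ⟨(Nat.card P - 1) / 2, by omega⟩
              rw [hk, add_smul, one_smul, mul_comm, mul_smul, hKd, smul_zero, zero_add] at hPd
              exact sub_eq_zero.1 hPd
            have hex : ((cls c u K r).filter
                (fun x => nb c u x K r + Nat.card K ≤ s)).card ≤ 0 := by
              rw [Nat.le_zero, Finset.card_eq_zero, Finset.filter_eq_empty_iff]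
              intro x hx hle
              obtain ⟨P1, r1, hlt, _, hx1, hcard⟩ := c1_exc c hZ hV K hK1 u r hx hle
              have hP1 : Nat.card P1 = 1 := by
                have hpos : 0 < Nat.card P1 := Nat.card_pos
                rcases Nat.lt_or_ge (Nat.card P1) 2 with h | h
                · omega
                · exfalso
                  have hle2 := AddSubgroup.card_le_of_le hlt.le
                  have : P1 = K := eq_of_card P1 K (by omega)
                  exact hlt.ne this
              rw [hP1, hK, Nat.mul_one] at hcard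
              have hcard0 : (((cls c u K r).erase x).filter
                  (fun z => c u z - r1 ∉ P1)).card = 0 := by omega
              rw [Finset.card_eq_zero, Finset.filter_eq_empty_iff] at hcard0
              have hne : ((cls c u K r).erase x).Nonempty := by
                rw [← Finset.card_pos, Finset.card_erase_of_mem hx]
                omega
              obtain ⟨z, hz⟩ := hne
              have h6 := hcard0 hz
              rw [not_not] at h6
              apply hx1
              rw [hsame x hx z (Finset.mem_of_mem_erase hz)]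
              exact h6
            have hc := fa_count1 c hsym K u w r hFw hex hwu hwA
            rw [hsK, hT, Nat.sub_zero] at hc
            exact hc
        have := ar_b2 hs hm1 hm2 h5 h42 hm8 h2 hnT halt
        omega
      · rw [hT, hT2] at h2
        exact (ar_small hs hm1 hm2 hm3 h2).2 hm8.le

theorem exists_gp1 [NeZero m] (c : V → V → ZMod m) (hsym : ∀ x y, c x y = c y x)
    (hZ : ZSF m c) {s : ℕ} (hs : 1 ≤ s) (hV : Fintype.card V = m + s) (hm1 : 3 * s ≤ m + 2)
    (hm2 : m ≤ 3 * s + 2) (h5 : m ≤ 3 * s ∨ 5 ≤ s) (hm3 : 3 ≤ m) (hm6 : m ≠ 6)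
    (h20 : m ≠ 20 ∨ s ≠ 6) : ∃ u v : V, GP c u v := by
  by_contra hcon
  have hno : ∀ u v : V, ¬ GP c u v := by
    intro u v h
    exact hcon ⟨u, v, h⟩
  rcases Nat.mod_two_eq_zero_or_one m with h | h
  · exact fa_even c hsym hZ hs hV hm1 hm2 h5 hm3 hm6 h20 h hno
  · exact fa_odd c hsym hZ hs hV hm1 hm2 h5 hm3 h20 h hno

end G
end ZS44129
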