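import Mathlib
import Pool.Agent.Work.MP_44129c_co.G.Classify
import Pool.Agent.Work.MP_44129c_co.G.Partner
import Pool.Agent.Work.MP_44129c_co.G.C1K
import Pool.Agent.Work.MP_44129c_co.G.Count
import Pool.Agent.Work.MP_44129c_co.G.Arith

/-!
# MP_44129c_co/G, module FinalB: a good pair exists, `t ≥ 2` (size S-M)

Suppose there is no good pair.  `K` of order `gcd(6, m)` (`exists_card`), `|K| ∣ 6`.
`F u := {v ≠ u : m < 2 DD c u v K}`.  For `v ∈ F u`: `Wd c 3 u v`: `DD c u v ⊥ ≥ DD c u v K`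
(`dd_anti`), and a subgroup `L ≠ ⊥` with `|L| ≤ 3` has `|L| ∈ {2, 3}`, `|L| ∣ gcd(6, m)`, so
`L ≤ K` (`le_of_dvd`), `DD c u v L ≥ DD c u v K`, `(DD + 1) * 2 ≥ m`.  `classify2`:
`Hv c 3 u v P r` with `2|P| = m` or `3|P| = m`; `partner2`, `partner3`: `|F u| ≤ 1 + 2 = 3`.
`T = m + s - 1`.  `n2_bound`: a class `A` with `T ≤ 2n`, `n ≥ 11`; `exc6`: `ex = 8`; `countV`:
`(s + 1 - |K|)(n - 8) ≤ (m/2)|B \\ F| + n|B ∩ F|`, `|B| = T - n`, `|B ∩ F| ≤ 3`, `m/2 ≤ n`: the
right side is `≤ (m/2)(T - n - 3) + 3n`; the left side is `≥ (s-5)(n-8)`.  `ar_c`.  Finally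
`(m/2)(T - f) + f(T - 1) ≤ (m/2)(T - 3) + 3(T - 1)` for `f = |F u| ≤ 3` (`m/2 ≤ T - 1`).  The other
case of `n2_bound`: `ar_cx`.  `sum_contra`.
-/

set_option autoImplicit false

namespace ZS44129
namespace G

open Finset

variable {V : Type} [Fintype V] [DecidableEq V] {m : ℕ}

private theorem fb_dd_anti (c : V → V → ZMod m) (u v : V) {L L' : AddSubgroup (ZMod m)}
    (h : L ≤ L') : DD c u v L' ≤ DD c u v L := by
  classical
  unfold DD Dn
  apply Finset.card_le_card
  intro x hx
  rw [Finset.mem_filter] at hx ⊢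
  exact ⟨hx.1, fun hh => hx.2 (h hh)⟩

private theorem fb_wide [NeZero m] (c : V → V → ZMod m) {K : AddSubgroup (ZMod m)}
    (hK : Nat.card K = Nat.gcd 6 m) {u v : V} (huv : u ≠ v) (h : m < 2 * DD c u v K) :
    Wd c 3 u v := by
  refine ⟨huv, lt_of_lt_of_le h (Nat.mul_le_mul_left 2 (fb_dd_anti c u v bot_le)), ?_⟩
  intro L hL hL3
  have hpos : 0 < Nat.card L := Nat.card_pos
  have hne1 : Nat.card L ≠ 1 := by
    intro h1
    exact hL (AddSubgroup.card_eq_one.1 h1)
  have hdm : Nat.card L ∣ m := by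
    have := AddSubgroup.card_addSubgroup_dvd_card L
    rwa [Nat.card_zmod] at this
  have h6 : Nat.card L ∣ 6 := by
    have : Nat.card L = 2 ∨ Nat.card L = 3 := by omega
    rcases this with h | h
    · rw [h]; decide
    · rw [h]; decide
  have hle : L ≤ K := le_of_dvd L K (by rw [hK]; exact Nat.dvd_gcd h6 hdm)
  have h1 := fb_dd_anti c u v hle
  have h2 : 2 ≤ Nat.card L := by omega
  calc m ≤ (DD c u v K + 1) * 2 := by omega
    _ ≤ (DD c u v L + 1) * Nat.card L := Nat.mul_le_mul (by omega) h2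

private theorem fb_F3 [NeZero m] (c : V → V → ZMod m) (hV : 6 ≤ Fintype.card V) (u : V)
    (W : Finset V)
    (hW : ∀ w ∈ W, ∃ (P : AddSubgroup (ZMod m)) (r : ZMod m), Hv c 3 u w P r ∧
      (2 * Nat.card P = m ∨ 3 * Nat.card P = m)) : W.card ≤ 3 := by
  classical
  set W2 := W.filter (fun w => ∃ (P : AddSubgroup (ZMod m)) (r : ZMod m), Hv c 3 u w P r ∧
    2 * Nat.card P = m) with hW2
  set W3 := W.filter (fun w => ∃ (P : AddSubgroup (ZMod m)) (r : ZMod m), Hv c 3 u w P r ∧
    3 * Nat.card P = m) with hW3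
  have hsub : W ⊆ W2 ∪ W3 := by
    intro w hw
    rw [Finset.mem_union, hW2, hW3, Finset.mem_filter, Finset.mem_filter]
    obtain ⟨P, r, h1, h2⟩ := hW w hw
    rcases h2 with h2 | h2
    · exact Or.inl ⟨hw, P, r, h1, h2⟩
    · exact Or.inr ⟨hw, P, r, h1, h2⟩
  have h2 : W2.card ≤ 1 := by
    rw [Finset.card_le_one]
    intro a ha b hb
    rw [hW2, Finset.mem_filter] at ha hb
    obtain ⟨_, P, r, h1, h2⟩ := ha
    obtain ⟨_, P', r', h1', h2'⟩ := hb
    exact partner2 c (by omega) h1 h2 h1' h2'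
  have h3 : W3.card ≤ 2 := by
    apply partner3 c hV u W3 (κ := 3)
    intro w hw
    rw [hW3, Finset.mem_filter] at hw
    exact hw.2
  have := Finset.card_le_card hsub
  have h4 := Finset.card_union_le W2 W3
  omega

private theorem fb_arith {l p q n : ℕ} (hq : q ≤ 3) (hqp : q ≤ p) (hl : l ≤ n) :
    l * (p - q) + n * q ≤ l * (p - 3) + 3 * n := by
  by_cases h : 3 ≤ p
  · obtain ⟨t, rfl⟩ := Nat.exists_eq_add_of_le h
    have e1 : 3 + t - q = (3 - q) + t := by omega
    have e2 : 3 + t - 3 = t := by omega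
    rw [e1, e2]
    obtain ⟨d, hd⟩ := Nat.exists_eq_add_of_le hq
    have e3 : 3 - q = d := by omega
    rw [e3]
    have e4 : 3 * n = q * n + d * n := by rw [← Nat.add_mul, ← hd]
    rw [e4]
    have e5 : l * d ≤ n * d := Nat.mul_le_mul_right d hl
    nlinarith
  · have e2 : p - 3 = 0 := by omega
    rw [e2]
    obtain ⟨d, hd⟩ := Nat.exists_eq_add_of_le hqp
    have e3 : p - q = d := by omega
    rw [e3]
    have e5 : l * d ≤ n * d := Nat.mul_le_mul_right d hl
    have e6 : n * (d + q) ≤ n * 3 := Nat.mul_le_mul_left n (by omega)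
    nlinarith

private theorem fb_arith2 {l T f : ℕ} (hf : f ≤ 3) (hT : 3 ≤ T) (hl : l ≤ T - 1) :
    l * (T - f) + f * (T - 1) ≤ l * (T - 3) + 3 * (T - 1) := by
  obtain ⟨t, rfl⟩ := Nat.exists_eq_add_of_le hT
  obtain ⟨d, hd⟩ := Nat.exists_eq_add_of_le hf
  have e1 : 3 + t - f = d + t := by omega
  have e2 : 3 + t - 3 = t := by omega
  have e3 : 3 + t - 1 = t + 2 := by omega
  rw [e3] at hl
  rw [e1, e2, e3]
  have e4 : 3 * (t + 2) = f * (t + 2) + d * (t + 2) := by rw [← Nat.add_mul, ← hd]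
  rw [e4]
  have e5 : l * d ≤ (t + 2) * d := Nat.mul_le_mul_right d hl
  nlinarith

theorem exists_gp2 [NeZero m] (c : V → V → ZMod m) (hsym : ∀ x y, c x y = c y x)
    (hZ : ZSF m c) {s : ℕ} (hs : 23 ≤ s) (hV : Fintype.card V = m + s) (hm1 : 3 * s + 3 ≤ m)
    (hm2 : 10000 * m ≤ 31035 * s + 10000) : ∃ u v : V, GP c u v := by
  classical
  by_contra hcon
  have hno : ∀ u v : V, ¬ GP c u v := by
    intro u v h
    exact hcon ⟨u, v, h⟩
  obtain ⟨K, hK⟩ := exists_card (m := m) (Nat.gcd 6 m) (Nat.gcd_dvd_right 6 m)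
  have hK6 : Nat.card K ∣ 6 := by rw [hK]; exact Nat.gcd_dvd_left 6 m
  have hKle : Nat.card K ≤ 6 := Nat.le_of_dvd (by norm_num) hK6
  let F : V → Finset V := fun u => (univ.erase u).filter (fun v => m < 2 * DD c u v K)
  have hFu : ∀ u, u ∉ F u := by
    intro u h
    have := (Finset.mem_filter.1 h).1
    exact (Finset.mem_erase.1 this).1 rfl
  have hF : ∀ u v, v ≠ u → v ∉ F u → 2 * DD c u v K ≤ m := by
    intro u v hvu hv
    by_contra h
    exact hv (Finset.mem_filter.2 ⟨Finset.mem_erase.2 ⟨hvu, Finset.mem_univ v⟩, by omega⟩)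
  have hF3 : ∀ u, (F u).card ≤ 3 := by
    intro u
    apply fb_F3 c (by omega) u (F u)
    intro w hw
    have hw1 := Finset.mem_filter.1 hw
    have hwu : u ≠ w := (Finset.mem_erase.1 hw1.1).1.symm
    exact classify2 c hsym hZ hV hs hm1 hm2 hno (fb_wide c hK hwu hw1.2)
  refine sum_contra c hsym K (by omega) F hFu hF ?_
  intro u
  have hT : Fintype.card V - 1 = m + s - 1 := by omega
  have hT2 : Fintype.card V - 2 = m + s - 2 := by omega
  have hT3 : m + s - 1 - 1 = m + s - 2 := by omega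
  have hmain : (m / 2) * (m + s - 1 - 3) + 3 * (m + s - 2) + N2 c K u < (m + s - 1) ^ 2 := by
    rcases n2_bound c K u with ⟨r, h1, h2⟩ | h2
    · rw [hT] at h1 h2
      have hsub : cls c u K r ⊆ univ.erase u := by
        intro x hx
        exact Finset.mem_erase.2 ⟨(mem_cls.1 hx).1, Finset.mem_univ x⟩
      have hcard : ((univ : Finset V).erase u).card = m + s - 1 := by
        rw [Finset.card_erase_of_mem (Finset.mem_univ u), Finset.card_univ, hT]
      have hnT : (cls c u K r).card ≤ m + s - 1 := by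
        rw [← hcard]; exact Finset.card_le_card hsub
      have hn11 : 11 ≤ (cls c u K r).card := by omega
      have hex := exc6 c hZ hV K (by omega) hK6 u r hn11
      have hc := countV c hsym K u r (F u) (fun v hv hv' => hF u v hv hv') hex
      have hB : ((univ.erase u) \ cls c u K r).card = m + s - 1 - (cls c u K r).card := by
        rw [Finset.card_sdiff_of_subset hsub, hcard]
      have hsplit : (((univ.erase u) \ cls c u K r) \ F u).card =
          ((univ.erase u) \ cls c u K r).card -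
            (((univ.erase u) \ cls c u K r) ∩ F u).card := by
        have := Finset.card_sdiff_add_card_inter ((univ.erase u) \ cls c u K r) (F u)
        omega
      have hq : (((univ.erase u) \ cls c u K r) ∩ F u).card ≤ 3 :=
        (Finset.card_le_card Finset.inter_subset_right).trans (hF3 u)
      have hqp : (((univ.erase u) \ cls c u K r) ∩ F u).card ≤
          m + s - 1 - (cls c u K r).card := by
        rw [← hB]; exact Finset.card_le_card Finset.inter_subset_left
      rw [hsplit, hB] at hc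
      have hl : m / 2 ≤ (cls c u K r).card := by omega
      have ha := fb_arith hq hqp hl
      have hleft : (s - 5) * ((cls c u K r).card - 8) ≤
          (s + 1 - Nat.card K) * ((cls c u K r).card - 8) :=
        Nat.mul_le_mul_right _ (by omega)
      have hfin := ar_c hs hm1 hm2 h1 hnT (hleft.trans (hc.trans ha))
      omega
    · rw [hT, hT2] at h2
      exact ar_cx hs hm1 hm2 h2
  have h3 := fb_arith2 (l := m / 2) (hF3 u) (T := m + s - 1) (by omega) (by omega)
  rw [hT, hT2]
  rw [hT3] at h3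
  omega

end G
end ZS44129
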