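import Mathlib
import Pool.Agent.Work.MP_44129c_co.F.CubeMain
import Pool.Agent.Work.MP_44129c_co.G.Ext
import Pool.Agent.Work.MP_44129c_co.G.Pair

/-!
# MP_44129c_co/G, module Unit: what a good pair gives (size M)

`Own := {x ∈ XX u v : c u x ≠ c v x}`, `d x = c v x - c u x`; `|Own| = DD c u v ⊥`.
(a) The subset sums of `d` over a set `J ⊆ Own` with `|J| ≤ m - 1` are not all of `ZMod m`:
extend `J` to `T ⊆ XX u v` with `|T| = m - 1` (`m + s - 2 ≥ m - 1`), let `σ = ∑_{x ∈ T} c u x`; a
subset `K ⊆ J` with `∑_{K} d = - c u v - σ` contradicts `zsf_pair`.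
(b) For every `L < ⊤`: if `|Own| ≥ m - 1`, `m ≤ (#{x ∈ Own : d x ∉ L} + 1)|L|` (`L = ⊥` clear,
`L ≠ ⊥` by `GP`; `d x ∉ L` implies `x ∈ Own`), so `full_of_outside` (`P = ⊥`, `H = ⊤`,
`U x = {0, d x}`, `I = Own`) gives `J ⊆ Own`, `|J| + 1 ≤ m` with all sums: contradiction to (a).
So `|Own| ≤ m - 2`.
(c) `Aper (cube d Own)`: let `St` be the stabiliser of `cube d Own` (the subgroup of all `h` with
`x + h ∈ cube` for `x ∈ cube`).  If `St ≠ ⊥` then `cube_periodic` and `GP` give
`m ≤ (#{x ∈ Own : d x ∉ St} + 1)|St| ≤ |cube|`, so the cube is everything: contradiction to (a).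
(d) `cube_zmod` (`m + 1 ≤ 2 |Own|` by `GP`) gives `g`, `n` on `Own`, `∑ |n| + 1 = |cube| ≤ m - 1`.
Put `n x = 0` outside `Own`.  `n x ≠ 0` on `Own` as `d x ≠ 0`.
-/

set_option autoImplicit false

namespace ZS44129
namespace G

open Finset

variable {V : Type} [Fintype V] [DecidableEq V] {m : ℕ}

/-- (a): the subset sums over few positions are not everything. -/
private theorem not_all [NeZero m] (c : V → V → ZMod m) (hZ : ZSF m c) {s : ℕ} (hs : 1 ≤ s)
    (hV : Fintype.card V = m + s) {u v : V} (huv : u ≠ v) (J : Finset V) (hJ : J ⊆ XX u v)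
    (hc : J.card + 1 ≤ m)
    (hall : ∀ y : ZMod m, ∃ K ⊆ J, ∑ x ∈ K, (c v x - c u x) = y) : False := by
  classical
  have hcard := card_XX huv
  obtain ⟨T, hJT, hTX, hTc⟩ := Finset.exists_subsuperset_card_eq hJ
    (show J.card ≤ m - 1 by omega) (show m - 1 ≤ (XX u v).card by omega)
  obtain ⟨K, hKJ, hK⟩ := hall (-(c u v) - ∑ x ∈ T, c u x)
  have hKT : K ⊆ T := hKJ.trans hJT
  refine zsf_pair c hZ (by omega) huv ⟨T, hTX, hTc, fun x => if x ∈ K then c v x else c u x,
    ?_, ?_⟩
  · intro x _
    by_cases hx : x ∈ K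
    · simp [hx]
    · simp [hx]
  · have e1 : ∑ x ∈ T, (if x ∈ K then c v x else c u x)
        = ∑ x ∈ T, (c u x + if x ∈ K then (c v x - c u x) else 0) := by
      refine Finset.sum_congr rfl (fun x _ => ?_)
      by_cases hx : x ∈ K
      · simp [hx]
      · simp [hx]
    rw [e1, Finset.sum_add_distrib, Finset.sum_ite_mem, Finset.inter_eq_right.2 hKT, hK]
    ring

/-- the stabiliser of a nonempty finite set. -/
private def stab (S : Finset (ZMod m)) : AddSubgroup (ZMod m) where
  carrier := {h | ∀ x ∈ S, x + h ∈ S}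
  add_mem' {a b} ha hb := by
    intro x hx
    rw [← add_assoc]
    exact hb _ (ha x hx)
  zero_mem' := by
    intro x hx
    rwa [add_zero]
  neg_mem' {a} ha := by
    intro x hx
    have himg : S.image (fun y => y + a) = S := by
      refine Finset.eq_of_subset_of_card_le ?_ ?_
      · intro y hy
        obtain ⟨z, hz, rfl⟩ := Finset.mem_image.1 hy
        exact ha z hz
      · rw [Finset.card_image_of_injective _ (add_left_injective a)]
    have hx' : x ∈ S.image (fun y => y + a) := by rw [himg]; exact hx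
    obtain ⟨z, hz, hzx⟩ := Finset.mem_image.1 hx'
    have : x + -a = z := by rw [← hzx]; ring
    rw [this]
    exact hz

theorem gp_unit [NeZero m] (c : V → V → ZMod m) (hZ : ZSF m c) {s : ℕ} (hs : 1 ≤ s)
    (hV : Fintype.card V = m + s) {u v : V} (h : GP c u v) :
    ∃ (g : (ZMod m)ˣ) (n : V → ℤ), (∀ x ∈ XX u v, c v x = c u x + n x • (g : ZMod m)) ∧
      ∑ x ∈ XX u v, |n x| + 2 ≤ (m : ℤ) ∧ m < 2 * ((XX u v).filter (fun x => n x ≠ 0)).card := by
  classical
  obtain ⟨huv, h1, h2⟩ := h
  have hDD : ∀ L : AddSubgroup (ZMod m), DD c u v L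
      = ((XX u v).filter (fun x => c u x - c v x ∉ L)).card := by
    intro L
    unfold DD Dn
    congr
  set d : V → ZMod m := fun x => c v x - c u x with hd
  set Own : Finset V := (XX u v).filter (fun x => c u x - c v x ∉ (⊥ : AddSubgroup (ZMod m)))
    with hOwn
  have hOX : Own ⊆ XX u v := Finset.filter_subset _ _
  have hOc : DD c u v ⊥ = Own.card := hDD ⊥
  have hdne : ∀ x ∈ Own, d x ≠ 0 := by
    intro x hx h0
    have := (Finset.mem_filter.1 hx).2
    apply this
    rw [AddSubgroup.mem_bot]
    have h3 : c v x - c u x = 0 := h0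
    rw [← neg_sub, h3, neg_zero]
  -- positions outside `L` are in `Own`
  have hout : ∀ L : AddSubgroup (ZMod m), ∀ x ∈ (XX u v).filter (fun x => c u x - c v x ∉ L),
      x ∈ Own ∧ d x ∉ L := by
    intro L x hx
    obtain ⟨hx1, hx2⟩ := Finset.mem_filter.1 hx
    refine ⟨Finset.mem_filter.2 ⟨hx1, fun hb => hx2 (bot_le (a := L) hb)⟩, fun hb => hx2 ?_⟩
    have := L.neg_mem hb
    rwa [hd, neg_sub] at this
  have hcardT : Nat.card (⊤ : AddSubgroup (ZMod m)) = m := by
    rw [AddSubgroup.card_top, Nat.card_eq_fintype_card, ZMod.card]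
  have hcardB : Nat.card (⊥ : AddSubgroup (ZMod m)) = 1 := AddSubgroup.card_bot
  -- (b)
  have hb : Own.card + 2 ≤ m := by
    by_contra hcon
    obtain ⟨J, hJ, hJc, hJf⟩ := full_of_outside (⊥ : AddSubgroup (ZMod m)) ⊤ bot_le
      (fun x => ({0, d x} : Finset (ZMod m))) Own (fun i _ => by simp)
      (fun i _ x _ => AddSubgroup.mem_top x) (by
        intro L _ _
        have key : ∀ (F : Finset V), (∀ x, x ∈ Own → d x ∉ L → x ∈ F) →
            Nat.card (⊤ : AddSubgroup (ZMod m)) ≤ (F.card + 1) * Nat.card L := by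
          intro F hF
          have hle : DD c u v L ≤ F.card := by
            rw [hDD L]
            exact Finset.card_le_card (fun x hx => hF x (hout L x hx).1 (hout L x hx).2)
          rw [hcardT]
          by_cases hL : L = ⊥
          · rw [hL, hOc] at hle
            rw [hL, hcardB, mul_one]
            omega
          · exact (h2 L hL).trans (Nat.mul_le_mul_right _ (by omega))
        refine key _ (fun x hx hxL => ?_)
        simp only [Finset.mem_filter]
        exact ⟨hx, fun hc => hxL (hc _ (by simp))⟩)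
    rw [hcardB, hcardT, mul_one] at hJc
    refine not_all c hZ hs hV huv J (hJ.trans hOX) hJc ?_
    intro y
    obtain ⟨f, hf, hfy⟩ := hJf y (AddSubgroup.mem_top y)
    rw [AddSubgroup.mem_bot, sub_eq_zero] at hfy
    refine ⟨J.filter (fun i => f i ≠ 0), Finset.filter_subset _ _, ?_⟩
    rw [hfy, Finset.sum_filter]
    refine Finset.sum_congr rfl (fun x hx => ?_)
    have h3 := hf x hx
    simp only [Finset.mem_insert, Finset.mem_singleton] at h3
    by_cases h0 : f x = 0
    · simp [h0]
    · rcases h3 with h3 | h3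
      · exact absurd h3 h0
      · simp only [ne_eq, h0, not_false_eq_true, if_true]
        rw [h3]
  have hall : ∀ y ∈ cube d Own, ∃ K ⊆ Own, ∑ x ∈ K, (c v x - c u x) = y := by
    intro y hy
    obtain ⟨K, hK, hKy⟩ := mem_cube.1 hy
    exact ⟨K, hK, hKy⟩
  -- (c)
  have hap : Aper (cube d Own) := by
    intro a ha
    by_contra hne
    have haS : a ∈ stab (cube d Own) := ha
    have hSne : stab (cube d Own) ≠ ⊥ := by
      intro hbot
      rw [hbot, AddSubgroup.mem_bot] at haS
      exact hne haS
    have hper := cube_periodic d Own (stab (cube d Own)) (fun h => Iff.rfl)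
    have hGP := h2 _ hSne
    have hsub : (XX u v).filter (fun x => c u x - c v x ∉ stab (cube d Own)) ⊆
        Own.filter (fun i => d i ∉ stab (cube d Own)) := by
      intro x hx
      obtain ⟨a', b'⟩ := hout _ x hx
      exact Finset.mem_filter.2 ⟨a', b'⟩
    have hle := Finset.card_le_card hsub
    rw [← hDD] at hle
    have hge : m ≤ (cube d Own).card := by
      refine hGP.trans (le_trans (Nat.mul_le_mul_right _ ?_) hper)
      exact Nat.add_le_add_right hle 1
    have huniv : cube d Own = Finset.univ := by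
      refine (Finset.card_eq_iff_eq_univ _).1 ?_
      have h4 := Finset.card_le_univ (cube d Own)
      rw [ZMod.card] at h4 ⊢
      omega
    refine not_all c hZ hs hV huv Own hOX (by omega) (fun y => hall y ?_)
    rw [huniv]
    exact Finset.mem_univ y
  -- (d)
  rw [hOc] at h1
  obtain ⟨g, n, hn, hn1, hn2⟩ := cube_zmod d Own hdne hap (by omega)
  refine ⟨g, fun x => if x ∈ Own then n x else 0, ?_, ?_, ?_⟩
  · intro x hx
    by_cases hxO : x ∈ Own
    · have h5 := hn x hxO
      simp only [hxO, if_true]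
      rw [← h5]
      simp only [hd]
      ring
    · simp only [hxO, if_false, zero_smul, add_zero]
      by_contra hne
      apply hxO
      refine Finset.mem_filter.2 ⟨hx, fun hb => hne ?_⟩
      rw [AddSubgroup.mem_bot, sub_eq_zero] at hb
      exact hb.symm
  · have h6 : ∑ x ∈ XX u v, |if x ∈ Own then n x else 0| = ∑ x ∈ Own, |n x| := by
      have h7 : ∀ x ∈ XX u v, |if x ∈ Own then n x else 0| = if x ∈ Own then |n x| else 0 := by
        intro x _
        by_cases hxO : x ∈ Own
        · simp [hxO]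
        · simp [hxO]
      rw [Finset.sum_congr rfl h7, Finset.sum_ite_mem, Finset.inter_eq_right.2 hOX]
    rw [h6]
    omega
  · refine lt_of_lt_of_le h1 (Nat.mul_le_mul_left 2 (Finset.card_le_card
      (fun x hx => Finset.mem_filter.2 ⟨hOX hx, ?_⟩)))
    simp only [hx, if_true]
    intro h0
    have h5 := hn x hx
    rw [h0, zero_smul] at h5
    exact hdne x hx h5

end G
end ZS44129
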