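import Mathlib
import Pool.Agent.Work.MP_44129c_co.G.FinalA
import Pool.Agent.Work.MP_44129c_co.G.FinalB
import Pool.Agent.Work.MP_44129c_co.G.Unit

/-!
# MP_44129c_co/G, module Main: the interface (proved from the modules)

`3s - 2 ≤ m ≤ 3s + 2` is `-3 ≤ t ≤ 1`; `3s + 3 ≤ m`, `10000 m ≤ 31035 s + 10000` is
`2 ≤ t ≤ 0.1035 s` (`m = 3s + 1 + t`).
-/

set_option autoImplicit false

namespace ZS44129
namespace G

open Finset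

variable {V : Type} [Fintype V] [DecidableEq V] {m : ℕ}

theorem good_edge [NeZero m] (c : V → V → ZMod m) (hsym : ∀ x y, c x y = c y x)
    (hZ : ZSF m c) {s : ℕ} (hs : 1 ≤ s) (hV : Fintype.card V = m + s)
    (h : (3 * s ≤ m + 2 ∧ m ≤ 3 * s + 2 ∧ (m ≤ 3 * s ∨ 5 ≤ s) ∧ 3 ≤ m ∧ m ≠ 6 ∧
        (m ≠ 20 ∨ s ≠ 6)) ∨
      (23 ≤ s ∧ 3 * s + 3 ≤ m ∧ 10000 * m ≤ 31035 * s + 10000)) :
    ∃ (u v : V) (g : (ZMod m)ˣ) (n : V → ℤ), u ≠ v ∧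
      (∀ x, x ≠ u → x ≠ v → c v x = c u x + n x • (g : ZMod m)) ∧
      ∑ x ∈ (univ.erase u).erase v, |n x| + 2 ≤ (m : ℤ) ∧
      m < 2 * (((univ.erase u).erase v).filter (fun x => n x ≠ 0)).card := by
  have hgp : ∃ u v : V, GP c u v := by
    rcases h with ⟨h1, h2, h3, h4, h5, h6⟩ | ⟨h1, h2, h3⟩
    · exact exists_gp1 c hsym hZ hs hV h1 h2 h3 h4 h5 h6
    · exact exists_gp2 c hsym hZ h1 hV h2 h3
  obtain ⟨u, v, huv⟩ := hgp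
  obtain ⟨g, n, h1, h2, h3⟩ := gp_unit c hZ hs hV huv
  exact ⟨u, v, g, n, huv.1, fun x hx hx' => h1 x (mem_XX.2 ⟨hx, hx'⟩), h2, h3⟩

end G
end ZS44129
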